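import Pool.Agent.TPU.St3

/-!
# TPU: module Abs (derived functors of the kernel of `η`)
-/

set_option autoImplicit false

universe u

open CategoryTheory Limits

namespace TPU

section

variable {D : Type (u + 2)} [Category.{u + 1} D] [Abelian D]

private theorem Abs_exact (T : D ⥤ D) [T.Additive] [PreservesFiniteLimits T]
    (hT : ∀ (F G : D) (φ : F ⟶ G) [Epi φ], Epi (T.map φ)) (S : ShortComplex D) (hS : S.Exact) :
    (S.map T).Exact := by
  have h1 := (Functor.preservesFiniteLimits_tfae T).out 3 0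
  have h2 : ∀ (S : ShortComplex D), S.ShortExact → (S.map T).ShortExact := by
    intro S hS
    obtain ⟨ha, hb⟩ := h1.1 inferInstance S hS
    have he := hS.epi_g
    have hc : Epi (T.map S.g) := hT _ _ S.g
    exact { exact := ha, mono_f := hb, epi_g := hc }
  have h3 := (Functor.exact_tfae T).out 0 1
  exact h3.1 h2 S hS

private theorem Abs_zero (G : D ⥤ D) [G.Additive]
    (hG : ∀ S : ShortComplex D, S.Exact → (S.map G).Exact) {F : D} (I : InjectiveResolution F)
    (n : ℕ) :
    IsZero (((G.mapHomologicalComplex (ComplexShape.up ℕ)).obj I.cocomplex).homology (n + 1)) := by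
  rw [← HomologicalComplex.exactAt_iff_isZero_homology,
    HomologicalComplex.exactAt_iff' _ n (n + 1) (n + 2) (by simp) (by simp)]
  exact hG _ (I.exact_succ n)

/-- degree zero -/
private noncomputable def Abs_iso (G : D ⥤ D) [G.Additive] [PreservesFiniteLimits G] {F : D}
    (I : InjectiveResolution F) :
    G.obj F ≅ ((G.mapHomologicalComplex (ComplexShape.up ℕ)).obj I.cocomplex).homology 0 :=
  asIso (I.toRightDerivedZero' G) ≪≫ CochainComplex.isoHomologyπ₀ _

private theorem Abs_nat (G T : D ⥤ D) [G.Additive] [T.Additive] [PreservesFiniteLimits G]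
    [PreservesFiniteLimits T] (η : G ⟶ T) {F : D} (I : InjectiveResolution F) :
    (Abs_iso G I).hom ≫ HomologicalComplex.homologyMap
      ((NatTrans.mapHomologicalComplex η (ComplexShape.up ℕ)).app I.cocomplex) 0 =
      η.app F ≫ (Abs_iso T I).hom := by
  have e : I.toRightDerivedZero' G ≫ HomologicalComplex.cyclesMap
      ((NatTrans.mapHomologicalComplex η (ComplexShape.up ℕ)).app I.cocomplex) 0 =
      η.app F ≫ I.toRightDerivedZero' T := by
    rw [← cancel_mono (HomologicalComplex.iCycles _ _), Category.assoc, Category.assoc,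
      HomologicalComplex.cyclesMap_i, InjectiveResolution.toRightDerivedZero'_comp_iCycles,
      InjectiveResolution.toRightDerivedZero'_comp_iCycles_assoc]
    exact η.naturality (I.ι.f 0)
  show (I.toRightDerivedZero' G ≫ HomologicalComplex.homologyπ _ 0) ≫ _ =
    η.app F ≫ I.toRightDerivedZero' T ≫ HomologicalComplex.homologyπ _ 0
  rw [Category.assoc, HomologicalComplex.homologyπ_naturality, reassoc_of% e]

/-- the short exact sequence of complexes -/
private noncomputable def Abs_S (T : D ⥤ D) [T.Additive] (η : 𝟭 D ⟶ T) (H : D ⥤ D) [H.Additive]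
    (ι : H ⟶ 𝟭 D) (h0 : ∀ F, ι.app F ≫ η.app F = 0) (K : CochainComplex D ℕ) :
    ShortComplex (CochainComplex D ℕ) :=
  ShortComplex.mk ((NatTrans.mapHomologicalComplex ι (ComplexShape.up ℕ)).app K)
    ((NatTrans.mapHomologicalComplex η (ComplexShape.up ℕ)).app K)
    (HomologicalComplex.hom_ext _ _ fun i => h0 (K.X i))

private theorem Abs_se (T : D ⥤ D) [T.Additive] (η : 𝟭 D ⟶ T) (H : D ⥤ D) [H.Additive]
    (ι : H ⟶ 𝟭 D) (h0 : ∀ F, ι.app F ≫ η.app F = 0)
    (hk : ∀ F, Nonempty (IsLimit (KernelFork.ofι (ι.app F) (h0 F))))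
    (he : ∀ (I : D) [Injective I], Epi (η.app I)) {F : D} (I : InjectiveResolution F) :
    (Abs_S T η H ι h0 I.cocomplex).ShortExact := by
  apply HomologicalComplex.shortExact_of_degreewise_shortExact
  intro i
  have hi := I.injective i
  have e : Epi (η.app (I.cocomplex.X i)) := he _
  obtain ⟨l⟩ := hk (I.cocomplex.X i)
  have m : Mono (ι.app (I.cocomplex.X i)) := mono_of_isLimit_fork l
  exact { exact := ShortComplex.exact_of_f_is_kernel _ l, mono_f := m, epi_g := e }

end

theorem thm_Abs : St_Abs.{u} := by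
  intro D _ _ _ T _ _ η H _ ι h0 hk hT he
  have hT' := Abs_exact T hT
  have hI' : ∀ S : ShortComplex D, S.Exact → (S.map (𝟭 D)).Exact := fun S hS => hS
  have key : ∀ (F : D) (I : InjectiveResolution F), (Abs_S T η H ι h0 I.cocomplex).ShortExact :=
    fun F I => Abs_se T η H ι h0 hk he I
  have c2 : ∀ (F : D) (q : ℕ), IsZero ((H.rightDerived (q + 2)).obj F) := by
    intro F q
    obtain ⟨⟨I⟩⟩ := (inferInstance : HasInjectiveResolution F)
    have hS := key F I
    have h1 := hS.homology_exact₁ (q + 1) (q + 2) rfl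
    refine IsZero.of_iso ?_ (I.isoRightDerivedObj H (q + 2))
    exact h1.isZero_X₂ ((Abs_zero T hT' I q).eq_of_src _ _)
      ((Abs_zero (𝟭 D) hI' I (q + 1)).eq_of_tgt _ _)
  have c0 : ∀ F : D, Nonempty ((H.rightDerived 0).obj F ≅ H.obj F) := by
    intro F
    obtain ⟨⟨I⟩⟩ := (inferInstance : HasInjectiveResolution F)
    have hS := key F I
    have h1 := hS.homology_exact₂ 0
    have hm : Mono (HomologicalComplex.homologyMap (Abs_S T η H ι h0 I.cocomplex).f 0) := by
      have := hS.mono_f
      have h2 : Mono ((Abs_S T η H ι h0 I.cocomplex).f.f 0) := inferInstance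
      exact HomologicalComplex.mono_homologyMap_of_mono_of_not_rel _ 0 (by simp)
    have hl := h1.fIsKernel
    obtain ⟨l⟩ := hk F
    have e1 : (H.rightDerived 0).obj F ≅ kernel (HomologicalComplex.homologyMap
        (Abs_S T η H ι h0 I.cocomplex).g 0) :=
      I.isoRightDerivedObj H 0 ≪≫ hl.conePointUniqueUpToIso (limit.isLimit _)
    have e2 : kernel (η.app F) ≅ kernel (HomologicalComplex.homologyMap
        (Abs_S T η H ι h0 I.cocomplex).g 0) :=
      kernel.mapIso _ _ (Abs_iso (𝟭 D) I) (Abs_iso T I) (Abs_nat (𝟭 D) T η I).symm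
    exact ⟨e1 ≪≫ e2.symm ≪≫ (kernelIsKernel _).conePointUniqueUpToIso l⟩
  have c1 : ∀ F : D, Nonempty ((H.rightDerived 1).obj F ≅ cokernel (η.app F)) := by
    intro F
    obtain ⟨⟨I⟩⟩ := (inferInstance : HasInjectiveResolution F)
    have hS := key F I
    have h1 := hS.homology_exact₃ 0 1 rfl
    have hm : Epi (hS.δ 0 1 rfl) := hS.epi_δ 0 1 rfl (Abs_zero (𝟭 D) hI' I 0)
    have hl := h1.gIsCokernel
    have e1 : (H.rightDerived 1).obj F ≅ cokernel (HomologicalComplex.homologyMap
        (Abs_S T η H ι h0 I.cocomplex).g 0) :=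
      I.isoRightDerivedObj H 1 ≪≫ hl.coconePointUniqueUpToIso (colimit.isColimit _)
    have e2 : cokernel (η.app F) ≅ cokernel (HomologicalComplex.homologyMap
        (Abs_S T η H ι h0 I.cocomplex).g 0) :=
      cokernel.mapIso _ _ (Abs_iso (𝟭 D) I) (Abs_iso T I) (Abs_nat (𝟭 D) T η I).symm
    exact ⟨e1 ≪≫ e2.symm⟩
  refine ⟨c2, c0, c1, ?_⟩
  intro F hF q
  match q with
  | 0 =>
    obtain ⟨e⟩ := c0 F
    refine IsZero.of_iso ?_ e
    obtain ⟨l⟩ := hk F
    have m : Mono (ι.app F) := mono_of_isLimit_fork l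
    have h : ι.app F = 0 := by
      rw [← cancel_mono (η.app F), h0, zero_comp]
    exact IsZero.of_mono_eq_zero _ h
  | 1 =>
    obtain ⟨e⟩ := c1 F
    have he' : Epi (η.app F) := IsIso.epi_of_iso _
    exact IsZero.of_iso (isZero_cokernel_of_epi _) e
  | q + 2 => exact c2 F q

end TPU
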