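import Pool.Agent.TPU.Defs2

/-!
# TPU: statements of the modules, group 2 (points, the tame topology), with proofs in the docstrings

Every module `TPU/<Name>.lean` proves `theorem TPU.thm_<Name> : TPU.St_<Name>.{u}`
(hypotheses as stated in the offer).
-/

set_option autoImplicit false

universe u

open CategoryTheory Limits AlgebraicGeometry Opposite

namespace TPU

/-- **Kf**. Properties of `kf`. Write `a = Spec.map φ ≫ Y.fromSpecResidueField y`
(`Scheme.SpecToEquivOfField`, a bijection). (1) by definition. (2) `kf (a ≫ g)`: the residue field map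
`κ(g y) → κ(y)` followed by `φ`. (3) `φ ≫ i`. (4) `Spec σ ≫ a = a` iff `φ ≫ σ = φ` (injectivity in
`SpecToEquivOfField`). (5) `κ(y)/κ(g y)` is finite and separable for `g` étale
(instance `Algebra.IsSeparable` in `Morphisms/FormallyUnramified.lean`; it is essentially of finite type
and algebraic, so finite, or use quasi-finiteness), transport by `φ`. -/
def St_Kf : Prop :=
  (∀ (Ω : Type u) [Field Ω] (Y : Scheme.{u}) (y : Y) (φ : Y.residueField y ⟶ .of Ω),
    kf (Spec.map φ ≫ Y.fromSpecResidueField y) = φ.hom.fieldRange) ∧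
  (∀ (Ω : Type u) [Field Ω] (Y Y' : Scheme.{u}) (a : Spec (.of Ω) ⟶ Y) (g : Y ⟶ Y'),
    kf (a ≫ g) ≤ kf a) ∧
  (∀ (Ω Ω' : Type u) [Field Ω] [Field Ω'] (i : Ω →+* Ω') (Y : Scheme.{u})
    (a : Spec (.of Ω) ⟶ Y), kf (Spec.map (CommRingCat.ofHom i) ≫ a) = (kf a).map i) ∧
  (∀ (Ω : Type u) [Field Ω] (Y : Scheme.{u}) (a : Spec (.of Ω) ⟶ Y) (σ : Ω →+* Ω),
    Spec.map (CommRingCat.ofHom σ) ≫ a = a ↔ ∀ x ∈ kf a, σ x = x) ∧
  (∀ (Ω : Type u) [Field Ω] (Y Y' : Scheme.{u}) (a : Spec (.of Ω) ⟶ Y) (g : Y ⟶ Y') [Etale g],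
    (∀ x ∈ kf a, IsSeparable (kf (a ≫ g)) x) ∧
      ∃ t : Finset Ω, kf a = kf (a ≫ g) ⊔ Subfield.closure t)

/-- **Sv**. `i : K → Ω` a field extension, `a : Spec K ⟶ Y`, `s : Y ⟶ S`: `Spec Ω ⟶ Y ⟶ S` extends to
`Spec O` iff `Spec K ⟶ Y ⟶ S` extends to `Spec (O ∩ K)`.
Proof. `⇐`: compose with `Spec O ⟶ Spec (O ∩ K)`. `⇒`: let `g : Spec O ⟶ S` and let `V = Spec C` be an
affine open of `S` which contains the image of the closed point of `Spec O`; as `O` is local, `g` factors
through `V` (and `Spec Ω ⟶ Spec K ⟶ S` too, so `Spec K ⟶ S` does, `Spec Ω ⟶ Spec K` being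
surjective). So we have `C → O` and `C → K` with the same composite to `Ω`, hence a map
`C → O ∩ K`. -/
def St_Sv : Prop :=
  ∀ (K Ω : Type u) [Field K] [Field Ω] (i : K →+* Ω) (Y S : Scheme.{u}) (s : Y ⟶ S)
    (a : Spec (.of K) ⟶ Y) (O : ValuationSubring Ω),
    SV s (Spec.map (CommRingCat.ofHom i) ≫ a) O ↔ SV s a (O.comap i)

/-- **CG** (uses `Kf`, `Sv`, `Conj`). Literal coverings satisfy the geometric condition.
Proof. Let `Ω`, `a`, `O` be as in `GCov`; `a = Spec i ≫ fromSpecResidueField x`, `K = κ(x)`,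
`v = O.comap i`; by `Sv`, `(x, v)` is an `S`-valuation. Take `V`, `g`, `b = (y, w)` from `Cov`, with `M`,
`ψ`, `u` from `Tame` (`j : K → κ(y)` the map in `TameOver`). `Ω` is separably closed: there is
`τ : M → Ω` over `K` (`IsSepClosed.lift`). `O.comap τ` and `u` have the same restriction `v` to `K`, so by
`Conj` we may compose `τ` with an element of `Gal(M/K)` and assume `O.comap τ = u`. Let
`b' = Spec (τ ∘ ψ) ≫ fromSpecResidueField y : Spec Ω ⟶ V`; `b' ≫ g = a`. Let `s` be the image under `τ`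
of a finite generating set of `M/K`. Let `σ` fix `kf a = i(K)` and be wild for
`M' = kf a ⊔ closure s ⊇ τ(M)`. `M/K` is normal, so `σ τ = τ σ_M` for some `σ_M ∈ Gal(M/K)`; for
`m ∈ u`: `τ m ∈ O ∩ M'`, so `τ (σ_M m - m) ∈ m_O`, `σ_M m - m ∈ m_u`; `σ_M^{p^n} = 1`. So `σ_M` fixes
`ψ(κ(y))` and `σ` fixes `kf b' = τ ψ (κ(y))`. -/
def St_CG : Prop :=
  ∀ (p : ℕ) (X S : Scheme.{u}) (f : X ⟶ S) (U : X.Etale) (R : Sieve U), Cov f p R → GCov f p R

/-- **GC** (uses `Kf`, `Sv`, `VExt`). The geometric condition implies the literal one.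
Proof. Let `(x, v)` be an `S`-valuation of `U`, `K = κ(x)`, `Ω` a separable closure of `K`,
`i : K → Ω`, `O` with `O.comap i = v` (`VExt`), `a = Spec i ≫ fromSpecResidueField x`; `kf a = i(K)`;
`SV` by `Sv`. Take `V`, `g`, `b`, `s` from `GCov`, `b = Spec j ≫ fromSpecResidueField y`,
`w = O.comap j`; `(y, w)` is an `S`-valuation of `V` (`Sv`, and `b ≫ V.hom = a ≫ U.hom`), `g y = x`,
and the map `κ(x) → κ(y)` of `TameOver` followed by `j` is `i`, so `w` restricts to `v`. Let `M ⊆ Ω` be a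
finite Galois extension of `i(K)` containing `s` and `kf b` (`kf b` is finitely generated over `kf a`, `Kf`;
normal closure), `u = O ∩ M`, `ψ = j : κ(y) → M`. An element `σ ∈ Gal(M/K)` of `p`-power order in the
inertia group of `u` extends to an automorphism `σ'` of `Ω/K`; `σ'` fixes `kf a` and is wild for
`kf a ⊔ closure s ⊆ M`, so it fixes `kf b = j(κ(y))`. -/
def St_GC : Prop :=
  ∀ (p : ℕ) (X S : Scheme.{u}) (f : X ⟶ S) (U : X.Etale) (R : Sieve U), GCov f p R → Cov f p R

/-- **GTop** (uses `Kf`). The geometric coverings form a Grothendieck topology.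
Proof. Top: `V = U`, `b = a`, `s = ∅`. Stability: `h : U' ⟶ U`, `a' : Spec Ω ⟶ U'`; `a = a' ≫ h`;
`kf a ≤ kf a'`, `Ω` is separable over `kf a'` and `kf a'` over `kf a` (`Kf` (5), `h.left` is étale), so `Ω` is
separable over `kf a`. Take `V ⟶ U`, `b`, `s` for `a`; `V' = V ×_U U'` (pull-back in `X.Etale`),
`b' = (b, a')`; if `σ` fixes `kf a'` and is wild for `kf a' ⊔ closure s ⊇ kf a ⊔ closure s`, it fixes
`kf b`; so `Spec σ ≫ b = b`, `Spec σ ≫ a' = a'` (`Kf` (4)), hence `Spec σ ≫ b' = b'` and `σ` fixes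
`kf b'`. (`X.Etale → Over X → Scheme` preserves pull-backs.) Transitivity: `R` covers `U`, for all
`g : V ⟶ U` in `R` the sieve `R'.pullback g` covers `V`. Given `a`, take `V`, `b`, `s` for `R`, then `V'`,
`b'`, `s'` for `R'.pullback g` and `b` (`Ω` is separable over the larger field `kf b`); let `t` be finite with
`kf b = kf a ⊔ closure t` (`Kf` (5)) and `s'' = s ∪ t ∪ s'`. If `σ` fixes `kf a` and is wild for
`kf a ⊔ closure s''` it is wild for every smaller field, so it fixes `kf b`, then it fixes `kf b'`. -/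
def St_GTop : Prop :=
  ∀ (p : ℕ) (X S : Scheme.{u}) (f : X ⟶ S),
    (∀ U : X.Etale, GCov f p (⊤ : Sieve U)) ∧
    (∀ (U U' : X.Etale) (h : U' ⟶ U) (R : Sieve U), GCov f p R → GCov f p (R.pullback h)) ∧
    ∀ (U : X.Etale) (R R' : Sieve U), GCov f p R →
      (∀ (V : X.Etale) (g : V ⟶ U), R g → GCov f p (R'.pullback g)) → GCov f p R'

/-- **Top** (uses `CG`, `GC`, `GTop`). The covering sieves of the tame topology are exactly the tame
covering sieves: by `CG`, `GC` and `GTop` the sieves `Cov` form a Grothendieck topology, and `tame` is the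
smallest topology containing them. -/
def St_Top : Prop :=
  ∀ (p : ℕ) (X S : Scheme.{u}) (f : X ⟶ S) (U : X.Etale) (R : Sieve U),
    (R ∈ tame f p U ↔ Cov f p R) ∧ (R ∈ tame f p U ↔ GCov f p R)

/-- **Zar** (uses `Top`). Open covers are tame coverings.
Proof (`GCov`): let `x` be the image of `a`; take `g : V ⟶ U` in `R`, an open immersion with `x` in its
image; `a` lifts to `b : Spec Ω ⟶ V`, and `kf b = kf a` (the residue field extension is an isomorphism;
or: `σ` fixes `kf a` iff `Spec σ ≫ a = a` iff `Spec σ ≫ b = b`, as `g.left` is a monomorphism). -/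
def St_Zar : Prop :=
  ∀ (p : ℕ) (X S : Scheme.{u}) (f : X ⟶ S) (U : X.Etale) (R : Sieve U),
    (∀ x : U.left, ∃ (V : X.Etale) (g : V ⟶ U), R g ∧ IsOpenImmersion g.left ∧
      x ∈ Set.range g.left) → R ∈ tame f p U

/-- **Sur** (uses `Top`). Tame coverings are étale coverings.
Proof. If `Cov f p R` and `x ∈ U`: `(x, ⊤)` is an `S`-valuation (`O_v = κ(x)`), so there is
`g : V ⟶ U` in `R` and a point of `V` over `x`. So `R` contains a jointly surjective family of étale
morphisms, which is a covering for the étale topology (`Mathlib/AlgebraicGeometry/Sites/Etale.lean`,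
`Small.lean`: `Scheme.smallEtaleTopology`, `ofArrows_mem_smallEtaleTopology_iff` ...). -/
def St_Sur : Prop :=
  ∀ (p : ℕ) (X S : Scheme.{u}) (f : X ⟶ S), tame f p ≤ X.smallEtaleTopology

/-- **TorC** (uses `Kf`, `Top`, `Zar`). Torsors of order prime to `p` are torsors on the tame site.
Proof. `cov` (as `GCov`, by `Top`): given `Ω`, `a`, `O` choose `e : Spec Ω ⟶ E` over `a` (`GT.ex`) and
`t` finite with `kf e = kf a ⊔ closure t` (`Kf` (5)), `s = t`. Let `σ` fix `kf a`, and be wild for `kf e`.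
`Spec σ ≫ e` and `e` lie over `Spec σ ≫ a = a`, so there is a unique `δ` with
`Spec σ ≫ e = e ≫ act δ`; by induction `Spec (σ^k) ≫ e = e ≫ act (δ^k)`; for `k = p^n` `σ^{p^n}` fixes
`kf e`, so `e = e ≫ act (δ^{p^n})`, so `δ^{p^n} = 1` (uniqueness) and `δ = 1`, as `p ∤ |Δ|`; so
`Spec σ ≫ e = e` and `σ` fixes `kf e`. `loc`: for `δ ∈ Δ` let `Y_δ` be the equalizer of `t` and
`s ≫ act δ`: an open subscheme of `Y` (`E ⟶ V` is étale, so its diagonal is an open immersion:
`FormallyUnramified.isOpenImmersion_diagonal`). Every `y ∈ Y` lies in some `Y_δ`: let `Ω` be a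
separable closure of `κ(y)` and `ȳ : Spec Ω ⟶ Y`; by `GT.tr` `ȳ ≫ t = ȳ ≫ s ≫ act δ` for some `δ`, so `ȳ`
factors through `Y_δ`. `R` = the sieve generated by the `Y_δ`, covering by `Zar`. -/
def St_TorC : Prop :=
  ∀ (p : ℕ) [Fact p.Prime] (X S : Scheme.{u}) (f : X ⟶ S) (E V : X.Etale) (π : E ⟶ V)
    (Δ : Type u) [Group Δ] [Finite Δ] (act : Δ → (E ⟶ E)), ¬ p ∣ Nat.card Δ →
    (∀ δ, act δ ≫ π = π) → GT π.left (fun δ => (act δ).left) → JT (tame f p) π act

/-- **UW**. The product `Uo hZ × W` is the open subscheme of `W` of the points outside `Z`.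
Proof. `Uo hZ ⟶ X` is an open immersion, the product in `X.Etale` is the fibre product over `X`
(`X.Etale → Over X` preserves finite limits), and open immersions are stable under base change. A morphism
`k : D ⟶ W` in `X.Etale` with image outside `Z` gives `D ⟶ X` with image in the open subscheme, so a
morphism `D ⟶ Uo hZ`. -/
def St_UW : Prop :=
  ∀ (X : Scheme.{u}) (Z : Set X) (hZ : IsClosed Z) (W : X.Etale),
    IsOpenImmersion (prod.snd : Uo hZ ⨯ W ⟶ W).left ∧ Mono (prod.snd : Uo hZ ⨯ W ⟶ W) ∧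
    Set.range (prod.snd : Uo hZ ⨯ W ⟶ W).left = {w | W.hom w ∉ Z} ∧
    ∀ (D : X.Etale) (k : D ⟶ W), (∀ d : D.left, D.hom d ∉ Z) →
      ∃ l : D ⟶ Uo hZ ⨯ W, l ≫ prod.snd = k

end TPU
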