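import Pool.Agent.TPU.Defs2

/-!
# TPU: statements of the modules, group 3 (sheaves), with proofs in the docstrings

Every module `TPU/<Name>.lean` proves `theorem TPU.thm_<Name> : TPU.St_<Name>.{u}`
(hypotheses as stated in the offer).
-/

set_option autoImplicit false

universe u

open CategoryTheory Limits AlgebraicGeometry Opposite

namespace TPU

/-- **Inj**. For an injective sheaf of modules `I` the restriction `I(W) → I(U × W)` is surjective
(`U` a subobject of the final object), so `I ⟶ T I` is an epimorphism.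
Proof. Let `P_W` be the presheaf `V ↦` free `R`-module on `Hom(V, W)` (lifted to the universe
`u + 1`); `Hom(P_W, I) = I(W)` (Yoneda), natural in `W`. `P_{U × W} ⟶ P_W` is a monomorphism, because
`prod.snd` is one (a free module on an injective map). Sheafification is exact, so the sheafified map
is a monomorphism; as `I` is injective, `Hom(P_W, I) → Hom(P_{U × W}, I)` is surjective. A morphism of
sheaves which is surjective on sections is locally surjective, so an epimorphism. -/
def St_Inj : Prop :=
  ∀ (C : Type (u + 1)) [Category.{u} C] [HasBinaryProducts C] (J : GrothendieckTopology C) (U : C)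
    (R : Type (u + 1)) [CommRing R], (∀ W : C, Mono (prod.snd : U ⨯ W ⟶ W)) →
    ∀ (I : Sheaf J (ModuleCat.{u + 1} R)) [Injective I], Epi ((eta J U _).app I)

/-- **TL**. `T` is additive and preserves finite limits: limits (and sums of morphisms) of sheaves
are computed on sections, and `(T F)(W) = F(U × W)`. -/
def St_TL : Prop :=
  ∀ (C : Type (u + 1)) [Category.{u} C] [HasBinaryProducts C] (J : GrothendieckTopology C) (U : C)
    (R : Type (u + 1)) [CommRing R], (T J U (ModuleCat.{u + 1} R)).Additive ∧
      PreservesFiniteLimits (T J U (ModuleCat.{u + 1} R))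

/-- **Abs**. Homological algebra. `H = ker (η : 𝟭 ⟶ T)`, `T` additive, left exact, preserving
epimorphisms, `η_I` an epimorphism for injective `I`.
Proof. Let `F ⟶ I•` be an injective resolution. `0 ⟶ H(I•) ⟶ I• ⟶ T(I•) ⟶ 0` is a short exact sequence
of complexes. `T` is exact, so `I•` and `T(I•)` have homology only in degree `0`, namely `F` and `T F`, and
the map between them is `η_F`. The long exact homology sequence
`0 → H⁰(H(I•)) → F → T F → H¹(H(I•)) → 0` and `Hⁿ(H(I•)) = 0` for `n ≥ 2` gives everything
(`InjectiveResolution.isoRightDerivedObj`). -/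
def St_Abs : Prop :=
  ∀ (D : Type (u + 2)) [Category.{u + 1} D] [Abelian D] [HasInjectiveResolutions D] (T : D ⥤ D)
    [T.Additive] [PreservesFiniteLimits T] (η : 𝟭 D ⟶ T) (H : D ⥤ D) [H.Additive] (ι : H ⟶ 𝟭 D)
    (h0 : ∀ F, ι.app F ≫ η.app F = 0),
    (∀ F, Nonempty (IsLimit (KernelFork.ofι (ι.app F) (h0 F)))) →
    (∀ (F G : D) (φ : F ⟶ G) [Epi φ], Epi (T.map φ)) → (∀ (I : D) [Injective I], Epi (η.app I)) →
    (∀ (F : D) (q : ℕ), IsZero ((H.rightDerived (q + 2)).obj F)) ∧
    (∀ F : D, Nonempty ((H.rightDerived 0).obj F ≅ H.obj F)) ∧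
    (∀ F : D, Nonempty ((H.rightDerived 1).obj F ≅ cokernel (η.app F))) ∧
    ∀ F : D, IsIso (η.app F) → ∀ q : ℕ, IsZero ((H.rightDerived q).obj F)

/-- **Norm**. The norm for a torsor of invertible order: a section of `G` over `V` whose restriction
to `E` lifts to `F(E)` lifts to `F(V)`.
Proof. Let `φ(a) = b|_E`, `N = ∑_δ F(act δ) a ∈ F(E)`. `F(act ε) N = N` (`act ε ≫ act δ = act (ε δ)`).
For `s, t : Y ⟶ E` with `s ≫ π = t ≫ π` we have `F(s) N = F(t) N`: for `k` in the covering sieve of
`JT.loc`, `F(k ≫ t) N = F(k ≫ s ≫ act δ) N = F(k ≫ s) (F(act δ) N) = F(k ≫ s) N`, and `F` is separated.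
So `N` defines a compatible family on the covering sieve generated by `π` (`h = k ≫ π` gets `F(k) N`), and
there is `N' ∈ F(V)` with `N'|_E = N`. `φ(N')|_E = ∑_δ G(act δ) (b|_E) = |Δ| b|_E` (`act δ ≫ π = π`), so
`φ(N') = |Δ| b` (`G` separated) and `a' = |Δ|⁻¹ N'`. -/
def St_Norm : Prop :=
  ∀ (C : Type (u + 1)) [Category.{u} C] (J : GrothendieckTopology C) (R : Type (u + 1)) [CommRing R]
    (F G : Sheaf J (ModuleCat.{u + 1} R)) (φ : F ⟶ G) (E V : C) (π : E ⟶ V) (Δ : Type u) [Group Δ]
    [Finite Δ] (act : Δ → (E ⟶ E)), JT J π act → IsUnit ((Nat.card Δ : ℕ) : R) →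
    ∀ (b : G.obj.obj (op V)) (a : F.obj.obj (op E)),
      (φ.hom.app (op E)).hom a = (G.obj.map π.op).hom b → ∃ a', (φ.hom.app (op V)).hom a' = b

/-- **TE** (uses `Norm`). `T` preserves epimorphisms of sheaves of `ℤ/p^r`-modules.
Proof. An epimorphism of sheaves is the same as a locally surjective morphism
(`Sheaf.isLocallySurjective_iff_epi'`). Let `b ∈ (T G)(W) = G(U × W)` and `R ∈ tame f p (U × W)` the sieve
of the `h` such that `b|h` lifts to `F`. By `KL` the sieve generated by the good `g : V ⟶ W` is covering.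
For a good `g`, with `E`, `π`, `Δ`, `act`: the restriction `b' ∈ G(U × V)` of `b` has a restriction to
`E` which lifts to `F(E)`; `|Δ|` is prime to `p`, so a unit of `ℤ/p^r`; by `Norm` `b'` lifts to
`F(U × V) = (T F)(V)`. So `b` lifts locally on `W`. -/
def St_TE : Prop :=
  ∀ (p r : ℕ) [Fact p.Prime] (X S : Scheme.{u}) (f : X ⟶ S) (U : X.Etale), KL f p U →
    ∀ (F G : Sh f p r) (φ : F ⟶ G) [Epi φ], Epi ((T (tame f p) U _).map φ)

/-- **LamS** (uses `Sur`). The presheaf of locally constant functions is a sheaf for the tame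
topology. By `Sur` it suffices to prove this for the étale topology; and it suffices to prove it for
the presheaf of sets (`Presheaf.isSheaf_iff_isSheaf_forget`).
Proof. Let `R` be a covering sieve of `W` (contains a jointly surjective family of étale, so open, maps
`g_i : V_i ⟶ W`) and `a_g`, `g ∈ R`, a compatible family of locally constant functions. Uniqueness: joint
surjectivity. Existence: put `a(w) = a_g(v)` for any `g : V ⟶ W` in `R` and `v ∈ V` over `w`; well
defined: for `v ∈ V`, `v' ∈ V'` over `w` there is a point of `V ×_W V'` over `(v, v')`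
(`Scheme.Pullback.exists_preimage_pullback`); locally constant, because the `g_i` are open maps and
`a ∘ g_i = a_{g_i}`. (Or use the sheaf property of `continuousMapPresheaf` in
`Mathlib/AlgebraicGeometry/Sites/ConstantSheaf.lean`.) -/
def St_LamS : Prop :=
  ∀ (p r : ℕ) (X S : Scheme.{u}) (f : X ⟶ S), Presheaf.IsSheaf (tame f p) (LamP X p r)

end TPU
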