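import Pool.Agent.TPU.St1
import Pool.Agent.TPU.St2
import Pool.Agent.TPU.St3

/-!
# TPU: statements of the modules, group 4 (geometry), with proofs in the docstrings

Every module `TPU/<Name>.lean` proves `theorem TPU.thm_<Name> : TPU.St_<Name>.{u}`
(hypotheses as stated in the offer).
-/

set_option autoImplicit false

universe u

open CategoryTheory Limits AlgebraicGeometry Opposite

namespace TPU

/-- **EtDvr**. Étale over a discrete valuation ring.
Proof. `A = O_{W, g x} → A' = O_{V, x}` is local, flat, essentially of finite type (so `A'` is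
noetherian) and formally unramified, so `m_{A'} = m_A A' = π A'` (`FormallyUnramified`, there is a lemma
`map_maximalIdeal`). `π` is a non-zero divisor on `A'` (flatness), `∩ π^n A' = 0` (Krull), so every
`y ≠ 0` of `A'` is a unit times a power of `π`; hence `A'` is a domain and a discrete valuation ring
(`π` is not a unit and not `0`). -/
def St_EtDvr : Prop :=
  ∀ (V W : Scheme.{u}) (g : V ⟶ W) [Etale g] (x : V), IsDvr (W.presheaf.stalk (g x)) →
    IsDvr (V.presheaf.stalk x)

/-- the map `O_{W,z} → κ(η)` for a generization `η` of `z` -/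
noncomputable def spz {W : Scheme.{u}} {η z : W} (h : η ⤳ z) :
    W.presheaf.stalk z →+* W.residueField η :=
  (W.presheaf.stalkSpecializes h ≫ W.residue η).hom

/-- **Gen**. The generizations of a point `z` whose local ring `A` is a discrete valuation ring.
Proof. The generizations of `z` are the images of the points of `Spec A` under `W.fromSpecStalk z`
(`Scheme.range_fromSpecStalk`), which is injective: the closed point gives `z`, the generic one `η`. The
local ring at `η` is the localization of `A` at `(0)`, that is, `Frac A`, a field, so it is equal to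
`κ(η)`; it is not a discrete valuation ring (a field). -/
def St_Gen : Prop :=
  ∀ (W : Scheme.{u}) (z : W), IsDvr (W.presheaf.stalk z) → ∃ (η : W) (h : η ⤳ z), η ≠ z ∧
    (∀ x, x ⤳ z → x = z ∨ x = η) ∧ Function.Injective (spz h) ∧
    (∀ x : W.residueField η, ∃ a b, spz h b ≠ 0 ∧ x * spz h b = spz h a) ∧
    Function.Injective (W.residue η).hom ∧ ¬ IsDvr (W.presheaf.stalk η)

/-- **Comp**. The composite valuation is an `S`-valuation.
Proof. Let `A = O_{W,z}`, `w = φ{y ∈ A | ρ(y) ∈ v}` (`ρ : A → κ(z)`): a valuation ring of `K`: for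
`x ∈ K`, `x ≠ 0`, `x` or `x⁻¹` is `φ(y)`, `y ∈ A`; if both then `y` is a unit and `ρ(y)` or `ρ(y)⁻¹` is
in `v`; if `y ∈ m_A` then `ρ(y) = 0 ∈ v`. Let `g : Spec v ⟶ S` be the extension of
`Spec κ(z) ⟶ W ⟶ S`, `V = Spec C` an affine open of `S` containing the image of the closed point of
`Spec v`; then `g` factors through `V` (`v` is local), the image of `z` in `S` is in `V`, so
`Spec A ⟶ W ⟶ S` factors through `V` (`A` is local). The maps `C → v → κ(z)` and `C → A → κ(z)` agree, so
`C → A → K` has image in `w`. -/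
def St_Comp : Prop :=
  ∀ (W S : Scheme.{u}) (s : W ⟶ S) (z : W) (K : Type u) [Field K]
    (φ : W.presheaf.stalk z →+* K) (v : ValuationSubring (W.residueField z)),
    IsDvr (W.presheaf.stalk z) → Function.Injective φ →
    (∀ x : K, ∃ a b, φ b ≠ 0 ∧ x * φ b = φ a) → SV s (W.fromSpecResidueField z) v →
    ∃ w : ValuationSubring K, (∀ x, x ∈ w ↔ ∃ y, φ y = x ∧ (W.residue z).hom y ∈ v) ∧
      SV s (Spec.map (CommRingCat.ofHom φ) ≫ W.fromSpecStalk z) w

/-- **Core** (uses `BB`, `Grp`, `BetaB`, `Pol`, `Res`). Assembly of the algebra.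
Proof. `B` from `BB`. Let `I`, `J` be the inertia groups of `u` and `B` in `G = Gal(M/K)` (subgroups: for `σ`
in one of these sets `σ` maps the valuation ring into, so (finite order) onto itself); `J ≤ I` by
`BB`. `N`, `T` from `Grp`. `T` maps `B` to itself (`BB`). `β` from `BetaB`; `h` and `K(β) = M^T` from `Pol`.
`k₁ = K(β)`, `L = M^N` (as an intermediate field of `M/k₁`; `N ≤ T`): Galois over `k₁ = M^T` with group
`T/N`, of order prime to `p` (index of the normal subgroup `N` in `T`). If `y ∈ M` is fixed by all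
elements of `p`-power order of `I`, it is fixed by `N` (last property in `Grp`). The last part is
`Res` (`T` contains all elements of `p`-power order of `I`). -/
def St_Core : Prop :=
  ∀ (p : ℕ) [Fact p.Prime] (A K κ M : Type u) [CommRing A] [Field K] [Field κ] [Field M]
    [Algebra K M] [FiniteDimensional K M] [IsGalois K M] (φ : A →+* K) (ρ : A →+* κ)
    (v : ValuationSubring κ) (w : ValuationSubring K) (u : ValuationSubring M),
    Loc A K κ φ ρ v w → (p : K) = 0 → u.comap (algebraMap K M) = w →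
    ∃ (B : ValuationSubring M) (β : B) (h : Polynomial A),
      (∀ x : K, algebraMap K M x ∈ B ↔ ∃ a, φ a = x) ∧ h.Monic ∧
      h.eval₂ ((algebraMap K M).comp φ) (β : M) = 0 ∧
      (Polynomial.derivative h).eval₂ ((algebraMap K M).comp φ) (β : M) ∈ B ∧
      (Polynomial.derivative h).eval₂ ((algebraMap K M).comp φ) (β : M) ∉ B.nonunits ∧
      (∀ k₁ : Subfield M, k₁ = (algebraMap K M).fieldRange ⊔ Subfield.closure {(β : M)} →
        ∃ L : IntermediateField k₁ M, FiniteDimensional k₁ L ∧ IsGalois k₁ L ∧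
          ¬ p ∣ Nat.card (L ≃ₐ[k₁] L) ∧
          ∀ y : M, (∀ σ : M ≃ₐ[K] M, (∀ x ∈ u, σ x - x ∈ u.nonunits) →
            (∃ n : ℕ, σ ^ p ^ n = 1) → σ y = y) → y ∈ L) ∧
      ∀ (κ₁ : Type u) [Field κ₁] (i : κ →+* κ₁) (j : κ₁ →+* IsLocalRing.ResidueField B),
        (∀ (a : A) (b : B), (b : M) = algebraMap K M (φ a) → j (i (ρ a)) = IsLocalRing.residue B b) →
        j.fieldRange = (j.comp i).fieldRange ⊔ Subfield.closure {IsLocalRing.residue B β} →
        ∃ v₁ : ValuationSubring κ₁, Tame p i v v₁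

/-- **EtNb**. The étale neighbourhood given by a root of a polynomial with unit derivative.
Proof. Let `Spec R` be an affine open neighbourhood of `z` in `W`, `𝔭 ⊂ R` the prime of `z`, so the stalk is
`R_𝔭`. There is `r ∉ 𝔭` such that `h` is the image of a monic polynomial over `R_r`; replace `R` by `R_r`:
`h ∈ R[X]` monic. `C = R[X]/(h)`, localized at `h'`: standard étale over `R` (`StandardEtalePair` or
`Algebra.IsStandardEtale`); `C → B`, `X ↦ β`, over `R → R_𝔭 → B` (`h'(β)` is a unit). `V = Spec C`,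
`g : V ⟶ Spec R ⟶ W`, `ρ : Spec B ⟶ V`. The image of `C` in any field `Ω` under `C → B → Ω` is
contained in the subfield generated by the image of `R` and of `β`, and generates it together; `kf` of a
point `Spec Ω ⟶ Spec C` is the subfield of `Ω` generated by the image of `C` (fraction field of
`C/kernel`), the same for `R`; so `kf(.. ≫ ρ) = kf(.. ≫ ρ ≫ g) ⊔ closure {β}`. -/
def St_EtNb : Prop :=
  ∀ (W : Scheme.{u}) (z : W) (M : Type u) [Field M] (B : ValuationSubring M)
    (φ : W.presheaf.stalk z →+* B) (β : B) (h : Polynomial (W.presheaf.stalk z)),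
    IsLocalHom φ → h.Monic → h.eval₂ φ β = 0 → IsUnit ((Polynomial.derivative h).eval₂ φ β) →
    ∃ (V : Scheme.{u}) (g : V ⟶ W) (ρ : Spec (.of B) ⟶ V), Etale g ∧
      ρ ≫ g = Spec.map (CommRingCat.ofHom φ) ≫ W.fromSpecStalk z ∧
      kf (Spec.map (CommRingCat.ofHom (IsLocalRing.residue B)) ≫ ρ) =
        kf (Spec.map (CommRingCat.ofHom (IsLocalRing.residue B)) ≫ ρ ≫ g) ⊔
          Subfield.closure {IsLocalRing.residue B β} ∧
      kf (Spec.map (CommRingCat.ofHom B.subtype) ≫ ρ) =
        kf (Spec.map (CommRingCat.ofHom B.subtype) ≫ ρ ≫ g) ⊔ Subfield.closure {(β : M)}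

/-- **Nb** (uses `Kf`, `EtDvr`, `Gen`, `Core`, `EtNb`). The tame étale neighbourhood of `z`.
Proof. `A = O_{W,z}`, `κ = κ(z)`, `ρ = W.residue z`. `Core` gives `B`, `β`, `h`. The map
`φ_B : A → B`, `a ↦ φ(a)` (in `B` by the first property) is local: if `φ_B(a)` is a unit of `B`, then
`φ(a)⁻¹ ∈ B ∩ K = A` (and `φ a ≠ 0`). `EtNb` for `φ_B`, `β`, `h` gives `V`, `g`, `ρ_V : Spec B ⟶ V`. Let `z₁` be
the image of the closed point, `g z₁ = z` (local map); `κ₁ = κ(z₁)`, `j : κ₁ → κ_B` with
`Spec j ≫ fromSpecResidueField z₁ = Spec (residue) ≫ ρ_V`, `i : κ(z) → κ(z₁)` the residue field map.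
`j(i(ρ a))` is the residue of `φ_B(a)`, `j.fieldRange = kf(..)` and `(j i).fieldRange = kf(.. ≫ g)`
(`Kf` (1), as `.. ≫ g = Spec (j i) ≫ fromSpecResidueField z`). So `Core` gives `v₁`. `a₁ = Spec(B ⊆ M) ≫ ρ_V`;
`kf (a₁ ≫ g) = (algebraMap K M).fieldRange`: `a₁ ≫ g = Spec (algebraMap) ≫ (Spec φ ≫ fromSpecStalk z)` and
`kf (Spec φ ≫ fromSpecStalk z)` is the subfield generated by `φ(A)`, all of `K` (`Kf` (1), (3)). So
`kf a₁ = (algebraMap K M).fieldRange ⊔ closure {β}` and `Core` gives `L`. `O_{V,z₁}` is a discrete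
valuation ring (`EtDvr`), let `η₁` be its proper generization (`Gen`). The image of `a₁` is a
generization of `z₁` (image of the generic point of `Spec B`) and is not `z₁`: its image in `W` is the
image of `Spec φ ≫ fromSpecStalk z`, the generic point of `Spec A`, which is not `z` (`φ` injective, `A` is
not a field, `fromSpecStalk` is injective). So it is `η₁`. -/
def St_Nb : Prop :=
  ∀ (p : ℕ) [Fact p.Prime] (W : Scheme.{u}) (z : W) (K M : Type u) [Field K] [Field M]
    [Algebra K M] [FiniteDimensional K M] [IsGalois K M] (φ : W.presheaf.stalk z →+* K)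
    (v : ValuationSubring (W.residueField z)) (w : ValuationSubring K) (u : ValuationSubring M),
    Loc (W.presheaf.stalk z) K (W.residueField z) φ (W.residue z).hom v w → (p : K) = 0 →
    u.comap (algebraMap K M) = w →
    ∃ (V : Scheme.{u}) (g : V ⟶ W) (z₁ η₁ : V) (h : g z₁ = z) (v₁ : ValuationSubring (V.residueField z₁))
      (a₁ : Spec (.of M) ⟶ V) (L : IntermediateField (kf a₁) M), Etale g ∧
      Tame p ((W.residueFieldCongr h).inv ≫ g.residueFieldMap z₁).hom v v₁ ∧
      a₁ ≫ g = Spec.map (CommRingCat.ofHom ((algebraMap K M).comp φ)) ≫ W.fromSpecStalk z ∧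
      η₁ ∈ Set.range a₁ ∧ η₁ ⤳ z₁ ∧ (∀ x, x ⤳ z₁ → x = z₁ ∨ x = η₁) ∧
      Function.Injective (V.residue η₁).hom ∧ FiniteDimensional (kf a₁) L ∧ IsGalois (kf a₁) L ∧
      ¬ p ∣ Nat.card (L ≃ₐ[kf a₁] L) ∧
      ∀ y : M, (∀ σ : M ≃ₐ[K] M, (∀ x ∈ u, σ x - x ∈ u.nonunits) →
        (∃ n : ℕ, σ ^ p ^ n = 1) → σ y = y) → y ∈ L

/-- **Kf2**. `kf` of a point of a fibre product is contained in the compositum: both components factor
through `Spec k`, `k = kf (a ≫ fst) ⊔ kf (a ≫ snd)`, with the same composite to `T` (`Spec M ⟶ Spec k`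
is an epimorphism for morphisms to schemes: `Scheme.SpecToEquivOfField`), so `a` factors through
`Spec k`. -/
def St_Kf2 : Prop :=
  ∀ (Y Y' T : Scheme.{u}) (s : Y ⟶ T) (s' : Y' ⟶ T) (M : Type u) [Field M]
    (a : Spec (.of M) ⟶ pullback s s'),
    kf a ≤ kf (a ≫ pullback.fst s s') ⊔ kf (a ≫ pullback.snd s s')

/-- **GalB** (uses `GalA`, `Kf`). Spreading out a finite Galois extension of the local ring (a field) of
a point `η` to a finite étale torsor over an open neighbourhood.
Proof. Let `Spec R` be an affine open neighbourhood of `η`, `R` noetherian, `𝔭` the prime of `η`; the stalk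
`R_𝔭` is a field (its residue map is injective). The kernel of `R → R_𝔭` is finitely generated, so there
is `r ∉ 𝔭` killing it: `C = R_r ⊆ R_𝔭` is a domain with fraction field `R_𝔭 = κ(η) ≅ kf a`. Apply
`GalA` to `C`, `K = kf a`, `L`: `c ∈ C`, `F`, `j`, `act`. `G = Spec C[1/c] ⊆ V` open, `η ∈ G`,
`E = Spec F`, `π` finite étale, `act` by functoriality, `GT` from the last property of `GalA` (points with
values in `Ω` are ring homomorphisms). `l : Spec M ⟶ E` comes from `F → L → M`; `kf l = L` (every element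
of `L` is a quotient). A point `e'` of `E` over `η` is a prime `𝔮` of `F` with `𝔮 ∩ C[1/c] = 0`; as `F`
is an integral domain, integral over `C[1/c]`, `𝔮 = 0`. The stalk of `E` at `l(pt)` is `Frac F`, a
field. -/
def St_GalB : Prop :=
  ∀ (V : Scheme.{u}) [IsLocallyNoetherian V] (η : V), Function.Injective (V.residue η).hom →
    ∀ (M : Type u) [Field M] (a : Spec (.of M) ⟶ V), η ∈ Set.range a →
    ∀ (L : IntermediateField (kf a) M) [FiniteDimensional (kf a) L] [IsGalois (kf a) L],
    ∃ (G : V.Opens) (E : Scheme.{u}) (π : E ⟶ G) (act : (L ≃ₐ[kf a] L) → (E ⟶ E))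
      (l : Spec (.of M) ⟶ E), η ∈ G ∧ Etale π ∧ IsFinite π ∧ GT π act ∧ l ≫ π ≫ G.ι = a ∧
      kf l = L.toSubfield ∧ (∀ e : E, (π ≫ G.ι) e = η → e ∈ Set.range l) ∧
      ∀ e ∈ Set.range l, Function.Injective (E.residue e).hom

/-- **GTR**. Restriction of a geometric torsor to a smaller open subset.
Proof. `E' = (π ≫ G.ι)⁻¹(G')`; `E' ⟶ V` has image in `G'`; `act δ` maps `E'` to itself; the
conditions for points with values in `Ω` are clear (a point of `E` is in `E'` iff its image is in `G'`). -/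
def St_GTR : Prop :=
  ∀ (V : Scheme.{u}) (G G' : V.Opens), G' ≤ G → ∀ (E : Scheme.{u}) (π : E ⟶ G) (Δ : Type u)
    [Group Δ] (act : Δ → (E ⟶ E)), GT π act → Etale π →
    ∃ (E' : Scheme.{u}) (ι : E' ⟶ E) (π' : E' ⟶ G') (act' : Δ → (E' ⟶ E')), IsOpenImmersion ι ∧
      Etale π' ∧ GT π' act' ∧ π' ≫ G'.ι = ι ≫ π ≫ G.ι ∧ ∀ δ, act' δ ≫ ι = ι ≫ act δ

/-- **GalD** (uses `GalB`, `GTR`). The torsor with a morphism to a given étale `D`.
Proof. Take `G₀`, `E₀`, `π₀`, `l` from `GalB`; `e = l(pt)`; the stalk of `E₀` at `e` is a field, equal to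
`κ(e)`, and `l = Spec λ ≫ fromSpecStalk e` with `λ : O_{E₀,e} → M` of image `kf l = L`. `kf ξ ⊆ L`, so `ξ`
factors as `Spec M ⟶ Spec L ≅ Spec O_{E₀,e} ⟶ D`, and `ψ : Spec O_{E₀,e} ⟶ D` satisfies
`ψ ≫ d = fromSpecStalk e ≫ π₀ ≫ G₀.ι` (`Spec M ⟶ Spec L` is an epimorphism for morphisms to schemes). By
`spread_out_of_isGermInjective'` (`E₀` is locally noetherian, `d` is locally of finite type) there are an
open `E₁ ∋ e` of `E₀` and `m₁ : E₁ ⟶ D` over `V`. `π₀` is finite, so `π₀(E₀ \ E₁)` is closed in `G₀`, and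
does not contain `η` (`e` is the only point over `η`). `G = G₀ \ π₀(E₀ \ E₁)`; restrict the torsor to
`G` by `GTR`: `E' ⟶ E₀` has image in `E₁`. -/
def St_GalD : Prop :=
  ∀ (V : Scheme.{u}) [IsLocallyNoetherian V] (η : V), Function.Injective (V.residue η).hom →
    ∀ (M : Type u) [Field M] (a : Spec (.of M) ⟶ V), η ∈ Set.range a →
    ∀ (L : IntermediateField (kf a) M) [FiniteDimensional (kf a) L] [IsGalois (kf a) L]
      (D : Scheme.{u}) (d : D ⟶ V) [Etale d] (ξ : Spec (.of M) ⟶ D), ξ ≫ d = a →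
      (∀ x ∈ kf ξ, x ∈ L) →
    ∃ (G : V.Opens) (E : Scheme.{u}) (π : E ⟶ G) (act : (L ≃ₐ[kf a] L) → (E ⟶ E))
      (m : E ⟶ D), η ∈ G ∧ Etale π ∧ GT π act ∧ m ≫ d = π ≫ G.ι

/-- **Shr**. Shrinking: `η`, `z` are the only generizations of `z`, `G ∋ η` open. There is an open
`V' ∋ z` all of whose points are in `G` or in the closure of `z`.
Proof. Replace `V` by a noetherian affine open neighbourhood of `z`. `V \ G` is a finite union of closed
irreducible sets `Y_i` with generic points `y_i`. If `z ∈ Y_i`, then `y_i ⤳ z`, `y_i ∉ G`, so `y_i ≠ η`,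
`y_i = z` and `Y_i` is the closure of `z`. `V' =` complement of the union of the `Y_i` not containing
`z`. -/
def St_Shr : Prop :=
  ∀ (V : Scheme.{u}) [IsLocallyNoetherian V] (z η : V), (∀ x, x ⤳ z → x = z ∨ x = η) →
    ∀ G : V.Opens, η ∈ G → ∃ V' : V.Opens, z ∈ V' ∧ ∀ x ∈ V', z ⤳ x ∨ x ∈ G

/-- **LamT** (uses `EtDvr`, `Gen`, `UW`). For the sheaf of locally constant functions `F ⟶ T F` is an
isomorphism.
Proof. It suffices that `LocallyConstant W → LocallyConstant (Uo × W)` is bijective for all `W` in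
`X.Etale`; by `UW` `Uo × W` is the open subscheme `W° = W \ Z_W`, `Z_W = {w | W.hom w ∈ Z}`. `W` is locally
noetherian, and for `z ∈ Z_W` the local ring is a discrete valuation ring (`EtDvr`); let `η_z` be its
proper generization (`Gen`); `η_z ∉ Z_W` (otherwise `O_{W,η_z}` would be a discrete valuation ring).
Injective: every `z ∈ Z_W` is in the closure of `W°`. Surjective: let `c` be locally constant on `W°`;
put `c(z) = c(η_z)` for `z ∈ Z_W`. Let `z ∈ Z_W` and `N` a noetherian affine open neighbourhood; `z` lies on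
exactly one irreducible component of `N`, the closure of `η_z` (the generic points of the components
through `z` are generizations of `z`, and `z` is not one of them, being a specialization of `η_z`); remove
the other components from `N`: `N` is irreducible. `N \ Z_W` is a non-empty open subset, so irreducible,
so preconnected, so `c` is constant on it; for `z' ∈ N ∩ Z_W` `η_{z'} ∈ N \ Z_W`. So `c` is constant on
`N`. -/
def St_LamT : Prop :=
  ∀ (p r : ℕ) (X S : Scheme.{u}) (f : X ⟶ S) [IsLocallyNoetherian X] (Z : Set X)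
    (hZ : IsClosed Z), (∀ z ∈ Z, IsDvr (X.presheaf.stalk z)) →
    ∀ h : Presheaf.IsSheaf (tame f p) (LamP X p r),
      IsIso ((eta (tame f p) (Uo hZ) _).app (⟨LamP X p r, h⟩ : Sh f p r))

/-- **Main0** (uses `Kf`, `UW`, `Zar`, `TorC`, `Top`). Points outside `Z`.
Proof. `a = (z, v)`, `W.hom z ∉ Z`. `z` is the image of a point `z'` of `Uo × W` (`UW`), with the same
residue field (open immersion); so `(z', v)` is an `S`-valuation of `Uo × W`, and there is
`k : D ⟶ Uo × W` in `R` and `b = (y, v')` tame over it. Put `V = D`, `g = k ≫ prod.snd`; `b` is tame over `a`.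
`g` is good: `E = D`, `Δ` trivial, `π : D ⟶ Uo × D` the morphism with `π ≫ prod.snd = 𝟙 D` (`UW`, since
`D ⟶ X` has image outside `Z`), an isomorphism (`prod.snd` is a monomorphism); `π ≫ prod.map (𝟙 _) g = k`
(compare after `prod.snd`, a monomorphism). `JT` for an isomorphism and the trivial group is clear. -/
def St_Main0 : Prop :=
  ∀ (p : ℕ) [Fact p.Prime] (X S : Scheme.{u}) (f : X ⟶ S) (Z : Set X) (hZ : IsClosed Z)
    (W : X.Etale) (R : Sieve (Uo hZ ⨯ W)), Cov f p R → ∀ a : SVal (W.hom ≫ f), W.hom a.pt ∉ Z →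
    ∃ (V : X.Etale) (g : V ⟶ W) (b : SVal (V.hom ≫ f)),
      Good f p (Uo hZ) R g ∧ TameOver f p g a b

/-- **Main1** (uses `Kf`, `Kf2`, `Sv`, `EtDvr`, `Gen`, `Comp`, `Nb`, `GalD`, `GTR`, `Shr`, `UW`, `TorC`).
Points of `Z`.
Proof. `a = (z, v)`, `z ∈ Z_W = {w | W.hom w ∈ Z}`. `A = O_{W,z}` is a discrete valuation ring (`EtDvr`
for `W.hom`). `Gen`: `η ⤳ z`, `η ∉ Z_W` (else `O_{W,η}` would be a discrete valuation ring). Let `η'` be
the point of `Y = Uo × W` over `η` (`UW`), `K = κ(η')` and `φ : A → K` the map `spz` followed by the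
isomorphism `κ(η) → κ(η')`: injective, `K` is the field of fractions, and
`Spec φ ≫ fromSpecStalk z = fromSpecResidueField η' ≫ prod.snd.left`. `Comp` gives the valuation ring `w` of
`K`, `(η', w)` is an `S`-valuation of `Y`, and `Loc A K κ(z) φ ρ v w`. `(p : K) = 0` since `S` has
characteristic `p`. `Cov` gives `k : D ⟶ Y` in `R`, `b₀ = (y, w_D)` tame over `(η', w)`: `M`, `ψ`, `u`.
`Nb` gives `V`, `g : V ⟶ W.left`, `z₁`, `η₁`, `v₁`, `a₁`, `L`. `D' = D ×_W V` (fibre product of schemes,
`D ⟶ Y ⟶ W`), `d : D' ⟶ V` étale, `ξ : Spec M ⟶ D'` with components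
`Spec ψ ≫ fromSpecResidueField y` and `a₁`; `kf ξ ≤ ψ(κ(y)) ⊔ kf a₁ ≤ L` (`Kf2`; the elements of
`ψ(κ(y))` are fixed by the elements of `p`-power order in the inertia group of `u`). `GalD`: `G ∋ η₁`, `E`,
`π`, `act`, `m : E ⟶ D'`. `Shr` for `z₁`, `η₁`, `G`: `V' ∋ z₁` open. Let `Z_V ⊆ V` be the closed preimage of
`Z`; `G' = V' \ Z_V` is open and `G' ≤ G` (a point `x` of `V'` with `z₁ ⤳ x` is in `Z_V`). `GTR`: `E' ⟶ G'`.
Let `V'` and `E'` be the corresponding objects of `X.Etale`, `g' : V' ⟶ W`. `E' ⟶ V'` has image outside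
`Z`, so it gives `l : E' ⟶ Uo × V'` (`UW`), and `(Uo × V').left ≅ G'`, so `GT l.left act'`; by `TorC` `l` is
a torsor on the site, under `Δ = Gal(L/kf a₁)`, of order prime to `p`. `l ≫ prod.map (𝟙 _) g'` is equal to
`E' ⟶ E ⟶ D' ⟶ D ⟶ Y` (compare after the monomorphism `prod.snd : Y ⟶ W`), so it is in `R`: `g'` is
good. `b = (z₁, v₁)`, an `S`-valuation by `Sv` (restriction of `v₁` to `κ(z)` is `v`), tame over `a`. -/
def St_Main1 : Prop :=
  ∀ (p : ℕ) [Fact p.Prime] (X S : Scheme.{u}) (f : X ⟶ S) [IsLocallyNoetherian X],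
    (p : Γ(S, ⊤)) = 0 → ∀ (Z : Set X) (hZ : IsClosed Z), (∀ z ∈ Z, IsDvr (X.presheaf.stalk z)) →
    ∀ (W : X.Etale) (R : Sieve (Uo hZ ⨯ W)), Cov f p R → ∀ a : SVal (W.hom ≫ f), W.hom a.pt ∈ Z →
    ∃ (V : X.Etale) (g : V ⟶ W) (b : SVal (V.hom ≫ f)),
      Good f p (Uo hZ) R g ∧ TameOver f p g a b

end TPU
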