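import Pool.Agent.TPU.Defs3
import Pool.Agent.TPU.St4

/-!
# TPU: statements of the modules, group 5 (`n = 1`: the sheaf `G_m/p^r`), with proofs in the docstrings

Every module `TPU/<Name>.lean` proves `theorem TPU.thm_<Name> : TPU.St_<Name>.{u}`
(hypotheses as stated in the offer).
-/

set_option autoImplicit false

universe u

open CategoryTheory Limits AlgebraicGeometry Opposite

namespace TPU

/-- restriction of units along a morphism of étale `X`-schemes -/
noncomputable abbrev rsU {X : Scheme.{u}} {W V : X.Etale} (g : V ⟶ W) (u : Γ(W.left, ⊤)ˣ) :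
    Γ(V.left, ⊤)ˣ :=
  Units.map ((g.left.appTop).hom : Γ(W.left, ⊤) →* Γ(V.left, ⊤)) u

/-- **Br**. The sections `br u` of the sheaf `G_m/p^r`.
Proof. (1)-(3): `toSheafify` is a morphism of presheaves of modules. (4), (5): `toSheafify` is locally
surjective and locally injective (`GrothendieckTopology.WEqualsLocallyBijective`,
`Presheaf.isLocallySurjective_toSheafify`, `isLocallyInjective_toSheafify`), covering sieves of the étale
topology are jointly surjective (`Mathlib/AlgebraicGeometry/Sites/Small.lean`, `Etale.lean`), and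
`cl u = 0` in `A^*/p^r` means that `u` is a `p^r`-th power. (6): `G_m/p^r` is separated, and jointly
surjective families of étale morphisms are coverings. -/
def St_Br : Prop :=
  ∀ (p r : ℕ) (X : Scheme.{u}),
    (∀ (W : X.Etale) (u v : Γ(W.left, ⊤)ˣ), br p r (u * v) = br p r u + br p r v) ∧
    (∀ (W : X.Etale) (u : Γ(W.left, ⊤)ˣ), br p r (u ^ p ^ r) = 0) ∧
    (∀ (W V : X.Etale) (g : V ⟶ W) (u : Γ(W.left, ⊤)ˣ),
      ((GmS p r X).obj.map g.op).hom (br p r u) = br p r (rsU g u)) ∧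
    (∀ (W : X.Etale) (s : (GmS p r X).obj.obj (op W)) (w : W.left),
      ∃ (V : X.Etale) (g : V ⟶ W) (v : V.left) (u : Γ(V.left, ⊤)ˣ), g.left v = w ∧
        ((GmS p r X).obj.map g.op).hom s = br p r u) ∧
    (∀ (W : X.Etale) (u : Γ(W.left, ⊤)ˣ), br p r u = 0 → ∀ w : W.left,
      ∃ (V : X.Etale) (g : V ⟶ W) (v : V.left) (c : Γ(V.left, ⊤)ˣ), g.left v = w ∧
        rsU g u = c ^ p ^ r) ∧
    ∀ (W : X.Etale) (s : (GmS p r X).obj.obj (op W)),
      (∀ w : W.left, ∃ (V : X.Etale) (g : V ⟶ W) (v : V.left), g.left v = w ∧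
        ((GmS p r X).obj.map g.op).hom s = 0) → s = 0

/-- **H90a**. Hilbert 90 modulo `p^r`-th powers in characteristic `p`.
Proof. Let `Ω` be a separable closure of `K`, `i : L → Ω`, `M ⊆ Ω` the Galois closure of `i(L)`,
`G = Gal(M/K)`. For `σ ∈ G` there is `c_σ ∈ Ω` with `σ(i a) = i(a) c_σ^{p^r}` (apply the hypothesis to
`σ' i` and `i`, `σ'` an extension of `σ`). `c_σ` is unique (characteristic `p`), and lies in `M` (it is
separable over `M` and `c_σ^{p^r} ∈ M`). By uniqueness `c_{στ} = σ(c_τ) c_σ`: a cocycle. By Hilbert 90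
(`groupCohomology`, `isMulCoboundary₁_of_isMulCocycle₁_of_aut_to_units`) there is `b ∈ M^*` with
`c_σ = σ(b)/b`. So `i(a)/b^{p^r}` is `G`-invariant, equal to some `u ∈ K`. `b^{p^r} = i(a)/u ∈ i(L)` and `b`
is separable over `i(L)`, so `b ∈ i(L)`. -/
def St_H90a : Prop :=
  ∀ (p r : ℕ) [Fact p.Prime] (K L : Type u) [Field K] [Field L] [Algebra K L]
    [FiniteDimensional K L] [Algebra.IsSeparable K L] [CharP K p] (a : L), a ≠ 0 →
    (∀ (Ω : Type u) [Field Ω] [Algebra K Ω] [IsSepClosed Ω] [Algebra.IsSeparable K Ω]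
      (i j : L →ₐ[K] Ω), ∃ c : Ω, i a = j a * c ^ p ^ r) →
    ∃ (u : K) (b : L), a = algebraMap K L u * b ^ p ^ r

/-- **H90** (uses `Br`, `Kf`, `H90a`). At a point `η` whose local ring is a field, every section of
`G_m/p^r` is, in a Zariski neighbourhood of `η`, given by a unit.
Proof. `K = O_{W,η} = κ(η)`. By `Br` (4) there are `g : D ⟶ W`, `y ∈ D` over `η` and `a ∈ Γ(D, O)^*` with
`s|_D = br a`. `L = κ(y)` is finite and separable over `K`, and `O_{D,y} = L` (it is a local ring, étale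
over a field). Let `i, j : L → Ω` be two `K`-embeddings in a separably closed field. They give
`e : Spec Ω ⟶ D ×_W D`; `br(pr₁^*a) = s|_{D ×_W D} = br(pr₂^*a)`, so by `Br` (5) (for
`pr₁^*a / pr₂^*a`) there are `E ⟶ D ×_W D` étale, a point of `E` over the image of `e`, and `c ∈ Γ(E)^*` with
`pr₁^*a = pr₂^*a c^{p^r}` on `E`; `e` lifts to `E` (`Ω` is separably closed, the residue field extension is
separable), so `i(a) = j(a) c^{p^r}` in `Ω`. `H90a`: `a = u₀ b^{p^r}` in `L = O_{D,y}`, `u₀ ∈ K = O_{W,η}`. So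
there are an open `G₁ ∋ η` and a unit `u ∈ Γ(G₁)^*` with germ `u₀`, and an open neighbourhood `D'` of `y`
in the preimage of `G₁` with `a = u b^{p^r}` on `D'`, `b ∈ Γ(D')^*`. So `(s - br u)|_{D'} = 0`. The image
`G` of `D' ⟶ W` is open, contains `η`, and `D' ⟶ G` is surjective, so `s|_G = br u|_G` (`Br` (6)). -/
def St_H90 : Prop :=
  ∀ (p r : ℕ) [Fact p.Prime] (X : Scheme.{u}), (p : Γ(X, ⊤)) = 0 → ∀ (W : X.Etale) (η : W.left),
    Function.Injective (W.left.residue η).hom → ∀ s : (GmS p r X).obj.obj (op W),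
    ∃ (G : W.left.Opens) (u : Γ((opn W G).left, ⊤)ˣ), η ∈ G ∧
      ((GmS p r X).obj.map (opi W G).op).hom s = br p r u

/-- **Br0** (uses `Br`, `Kf`). If `br u = 0`, then `u` is a `p^r`-th power in the residue field of every
point whose local ring is a field.
Proof. By `Br` (5) `u` becomes a `p^r`-th power `c^{p^r}` in `κ(y)` for a point `y` over `η` on an étale
`D ⟶ W`; `κ(y)` is separable over `κ(η)` and the image of `c` is purely inseparable over `κ(η)`, so it is
in `κ(η)`. -/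
def St_Br0 : Prop :=
  ∀ (p r : ℕ) [Fact p.Prime] (X : Scheme.{u}), (p : Γ(X, ⊤)) = 0 → ∀ (W : X.Etale) (η : W.left)
    (u : Γ(W.left, ⊤)ˣ), br p r u = 0 →
    ∃ c : W.left.residueField η, (W.left.Γevaluation η).hom u = c ^ p ^ r

/-- `V` is a neighbourhood of its point `z` over `Z`, there is no other point over `Z`, and `π` is a
function on `V` which generates the maximal ideal at `z` and is invertible elsewhere. -/
structure Par {X : Scheme.{u}} (Z : Set X) (V : X.Etale) (z : V.left) (π : Γ(V.left, ⊤)) :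
    Prop where
  mem : V.hom z ∈ Z
  only : ∀ x : V.left, V.hom x ∈ Z → x = z
  gen : IsLocalRing.maximalIdeal (V.left.presheaf.stalk z) =
    Ideal.span {(V.left.presheaf.germ ⊤ z trivial).hom π}
  inv : ∀ x : V.left, x ≠ z → IsUnit ((V.left.presheaf.germ ⊤ x trivial).hom π)

/-- **ParE** (uses `Gen`, `Shr`, `EtDvr`). Existence of such neighbourhoods, with `V \ z` contained in a
given open set `G` containing the proper generization `η` of `z`.
Proof. `W` is locally noetherian, `O_{W,z}` a discrete valuation ring (`EtDvr`). Let `Spec R` be an affine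
open neighbourhood of `z`, `𝔭` the prime of `z`; there are `t ∈ R`, `r ∉ 𝔭` such that `t` generates
`𝔭 R_r` (`R` noetherian, `𝔭 R_𝔭` principal). So on `V₀ = Spec R_r` we have `π = t` with
`{x ∈ V₀ | π(x) = 0}` = closure of `z` in `V₀`. By `Shr` (generizations of `z`: `Gen`) applied to
`G ∩ V₀ \ Z_W` (open, contains `η`; `η ∉ Z_W` because its local ring is a field, so not a discrete
valuation ring) there is an open `V' ∋ z` all of whose points are in this set or in the closure of `z`;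
intersect it with `V₀`. It remains: the only point of `V'` in the closure of `z` is `z`: such an `x` is in
`Z_W` (closed), so `O_{W,x}` is a discrete valuation ring and `z ⤳ x` gives `z = x` or `z` is the proper
generization of `x`, whose local ring is a field (`Gen`), a contradiction. -/
def St_ParE : Prop :=
  ∀ (X : Scheme.{u}) [IsLocallyNoetherian X] (Z : Set X), IsClosed Z →
    (∀ z ∈ Z, IsDvr (X.presheaf.stalk z)) → ∀ (W : X.Etale) (z η : W.left), W.hom z ∈ Z →
    η ⤳ z → η ≠ z → ∀ G : W.left.Opens, η ∈ G →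
    ∃ (V : W.left.Opens) (hz : z ∈ V) (π : Γ((opn W V).left, ⊤)),
      Par Z (opn W V) ⟨z, hz⟩ π ∧ ∀ x ∈ V, x ≠ z → x ∈ G

section ord

variable {X : Scheme.{u}} {Z : Set X} (hZ : IsClosed Z) (p r : ℕ)

/-- restriction from `Uo × W` to `Uo × V` for `g : V ⟶ W` -/
noncomputable abbrev rsF {W V : X.Etale} (g : V ⟶ W)
    (s : (GmS p r X).obj.obj (op (Uo hZ ⨯ W))) : (GmS p r X).obj.obj (op (Uo hZ ⨯ V)) :=
  ((GmS p r X).obj.map (prod.map (𝟙 (Uo hZ)) g).op).hom s

/-- `s ∈ F(Uo × W)`, `F = G_m/p^r`, is given by `ε π^n` in a neighbourhood `V` of `z`, where `π` is a local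
parameter at `z` (`ϖ` is its restriction to `Uo × V`) and `ε` is a unit on `V`. -/
def OrdIs (W : X.Etale) (s : (GmS p r X).obj.obj (op (Uo hZ ⨯ W))) (z : W.left) (n : ℤ) : Prop :=
  ∃ (V : W.left.Opens) (hz : z ∈ V) (π : Γ((opn W V).left, ⊤))
    (ϖ : Γ((Uo hZ ⨯ opn W V).left, ⊤)ˣ) (ε : Γ((opn W V).left, ⊤)ˣ),
    Par Z (opn W V) ⟨z, hz⟩ π ∧
    (ϖ : Γ((Uo hZ ⨯ opn W V).left, ⊤)) =
      ((prod.snd : Uo hZ ⨯ opn W V ⟶ opn W V).left.appTop).hom π ∧
    rsF hZ p r (opi W V) s = br p r (rsU (prod.snd : Uo hZ ⨯ opn W V ⟶ opn W V) ε * ϖ ^ n)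

end ord

/-- **OrdE** (uses `Gen`, `EtDvr`, `UW`, `H90`, `Br`, `ParE`). Every section has an order at `z`.
Proof. Let `η` be the proper generization of `z` (`Gen`), `η ∉ Z_W`, `K = O_{W,η} = Frac A`,
`A = O_{W,z}`. `Uo × W` is the open subscheme `W \ Z_W` (`UW`), with the point `η`. `H90`: there are an
open `G ∋ η` of `W \ Z_W` and `u ∈ Γ(G)^*` with `s|_G = br u`. Take `V₁`, `π` from `ParE` for `G`. The germ
`u_η ∈ K^*` is `ε₀ π^n` with `n ∈ ℤ`, `ε₀ ∈ A^*`; `ε₀` is the germ of a unit `ε` on an open neighbourhood of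
`z` contained in `V₁`, and `u = ε π^n` holds in a neighbourhood `G₂` of `η`. Apply `ParE` again with the
intersection of these sets (of `G₂` and of the neighbourhood of `z` where `ε` is defined, intersected with
`V₁`; the restriction of `π` to a smaller `V` has the property `Par` too). -/
def St_OrdE : Prop :=
  ∀ (p r : ℕ) [Fact p.Prime] (X : Scheme.{u}) [IsLocallyNoetherian X], (p : Γ(X, ⊤)) = 0 →
    ∀ (Z : Set X) (hZ : IsClosed Z), (∀ z ∈ Z, IsDvr (X.presheaf.stalk z)) →
    ∀ (W : X.Etale) (s : (GmS p r X).obj.obj (op (Uo hZ ⨯ W))) (z : W.left), W.hom z ∈ Z →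
      ∃ n : ℤ, OrdIs hZ p r W s z n

/-- **OrdU** (uses `Gen`, `EtDvr`, `UW`, `Br`, `Br0`). The order is unique modulo `p^r`, additive,
compatible with étale restriction, and zero for sections defined on `W`.
Proof. Key: let `k : D ⟶ W` be étale, `d ∈ D` over `z`, `V` an open neighbourhood of `z`, `π`, `ε` as in
`OrdIs` (and another `V'`, `π'`, `ε'`, `n'`, or a unit `a` on `D`). `O_{D,d}` is a discrete valuation ring
(`EtDvr`), `π` and `π'` are uniformizers of it (`m_D = m_A O_D`, étale); let `η_D` be the proper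
generization of `d`, not over `Z`. (1) `D = W`: on `Uo × (V ∩ V')` `br(ε ϖ^n) = br(ε' ϖ'^{n'})`, so by
`Br`, `Br0` `ε π^n/(ε' π'^{n'})` is a `p^r`-th power in `κ(η_D) = Frac O_{D,d}` (`Gen`), and
taking orders `n ≡ n' mod p^r`. (2) additive: restrict to a common neighbourhood (`V ∩ V'` with `π`);
`π' = π · unit` near `z`. (3) restriction along `k : W' ⟶ W`, `k z' = z`: a neighbourhood of `z'` in
`k⁻¹(V)` containing no other point over `Z` (such points are over `z`, and the fibre of an étale morphism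
is discrete; or `ParE`) with `k^*π`. (4) if `s` is the restriction of `t ∈ F(W)`: there are `D ⟶ V` étale,
`d` over `z`, `a` a unit on `D` with `t|_D = br a` (`Br` (4)), so `a/(ε π^n)` is a `p^r`-th power in
`Frac O_{D,d}`, and `n ≡ 0`. -/
def St_OrdU : Prop :=
  ∀ (p r : ℕ) [Fact p.Prime] (X : Scheme.{u}) [IsLocallyNoetherian X], (p : Γ(X, ⊤)) = 0 →
    ∀ (Z : Set X) (hZ : IsClosed Z), (∀ z ∈ Z, IsDvr (X.presheaf.stalk z)) →
    (∀ (W : X.Etale) (s : (GmS p r X).obj.obj (op (Uo hZ ⨯ W))) (z : W.left) (n m : ℤ),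
      OrdIs hZ p r W s z n → OrdIs hZ p r W s z m → (n : ZMod (p ^ r)) = m) ∧
    (∀ (W : X.Etale) (s t : (GmS p r X).obj.obj (op (Uo hZ ⨯ W))) (z : W.left) (n m : ℤ),
      OrdIs hZ p r W s z n → OrdIs hZ p r W t z m → OrdIs hZ p r W (s + t) z (n + m)) ∧
    (∀ (W W' : X.Etale) (k : W' ⟶ W) (s : (GmS p r X).obj.obj (op (Uo hZ ⨯ W))) (z' : W'.left)
      (n : ℤ), OrdIs hZ p r W s (k.left z') n → OrdIs hZ p r W' (rsF hZ p r k s) z' n) ∧
    ∀ (W : X.Etale) (t : (GmS p r X).obj.obj (op W)) (z : W.left) (n : ℤ),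
      OrdIs hZ p r W (((GmS p r X).obj.map (prod.snd : Uo hZ ⨯ W ⟶ W).op).hom t) z n →
      (n : ZMod (p ^ r)) = 0

/-- **ZPS** (uses `Sur`). The presheaf `ZP` is a sheaf for the tame topology. The same proof as `LamS`
with the closed subspaces `{w ∈ W | W.hom w ∈ Z}` (the maps between them induced by the étale morphisms
`g : V ⟶ W` are open, since the subspace of `V` is the full preimage). -/
def St_ZPS : Prop :=
  ∀ (p r : ℕ) (X S : Scheme.{u}) (f : X ⟶ S) (Z : Set X), Presheaf.IsSheaf (tame f p) (ZP Z p r)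

/-- **F1I** (uses `Gen`, `EtDvr`, `UW`, `Br`, `Br0`). `F ⟶ T F` is a monomorphism for `F = G_m/p^r`.
Proof. Let `t ∈ F(W)` restrict to `0` on `Uo × W`. By `Br` (6) it is enough to find for every `w ∈ W` an
étale neighbourhood on which `t` vanishes. If `W.hom w ∉ Z`, take `Uo × W` (`UW`). Otherwise there are
`D ⟶ W`, `d` over `w`, `a` a unit on `D` with `t|_D = br a`; `A = O_{D,d}` is a discrete valuation ring
(`EtDvr`), `η_D` its proper generization, outside `Z`; `br a = 0` on `Uo × D`, so `a = c^{p^r}` with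
`c ∈ κ(η_D) = Frac A` (`Br0`, `Gen`); `c` is a unit of `A` (valuation). So `a = c^{p^r}` in `O_{D,d}`, so on a
neighbourhood `D'` of `d`, and `t|_{D'} = 0` (`Br` (2)). -/
def St_F1I : Prop :=
  ∀ (p r : ℕ) [Fact p.Prime] (X S : Scheme.{u}) (f : X ⟶ S) [IsLocallyNoetherian X],
    (p : Γ(X, ⊤)) = 0 → ∀ (Z : Set X) (hZ : IsClosed Z), (∀ z ∈ Z, IsDvr (X.presheaf.stalk z)) →
    ∀ h : Presheaf.IsSheaf (tame f p) (GmS p r X).obj,
      Mono ((eta (tame f p) (Uo hZ) _).app (⟨(GmS p r X).obj, h⟩ : Sh f p r))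

/-- **OrdM** (uses `OrdE`, `OrdU`, `ParE`, `Gen`, `EtDvr`, `UW`, `Br`, `Zar`). The cokernel of
`F ⟶ T F` for `F = G_m/p^r` is `ℤ/p^r` on `Z`.
Proof. Define `ord : T F ⟶ ZP` on sections: `(T F)(W) = F(Uo × W)`,
`ord(s)(z) = n mod p^r` if `OrdIs W s z n` (exists by `OrdE`, unique by `OrdU`). The subspace
`Z_W = {w | W.hom w ∈ Z}` of `W` is discrete (`ParE`), so every function on it is locally constant. `ord` is
additive (`OrdU`), so `ℤ/p^r`-linear, and natural in `W` (`OrdU`). `η ≫ ord = 0` (`OrdU`). `ord` is locally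
surjective: let `c ∈ ZP(W)`; for `z ∈ Z_W` take `V`, `π` from `ParE` and `s = br(ϖ^n)` on `Uo × V`,
`n = c(z)`; for `w ∉ Z_W` the open subscheme `V = W \ Z_W` has `ZP(V) = 0`; these open subschemes cover
`W` (`Zar`). Kernel: let `ord(s) = 0`; for `z ∈ Z_W` take `V`, `π`, `ε`, `n` from `OrdIs`: `n = p^r m`, so
`s|_{Uo × V} = br(ε|) + br((ϖ^m)^{p^r}) = br(ε)|_{Uo × V}` is the image of `br ε ∈ F(V)`; on `V = W \ Z_W`
`prod.snd : Uo × V ⟶ V` is an isomorphism and `s|_{Uo × V}` is in the image of `F(V)`. So `s` is locally (`Zar`)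
in the image of `η`. Hence `T F ⟶ ZP` is a cokernel of `η`. -/
def St_OrdM : Prop :=
  ∀ (p r : ℕ) [Fact p.Prime] (X S : Scheme.{u}) (f : X ⟶ S) [IsLocallyNoetherian X],
    (p : Γ(X, ⊤)) = 0 → ∀ (Z : Set X) (hZ : IsClosed Z), (∀ z ∈ Z, IsDvr (X.presheaf.stalk z)) →
    ∀ (h : Presheaf.IsSheaf (tame f p) (GmS p r X).obj)
      (h' : Presheaf.IsSheaf (tame f p) (ZP Z p r)),
      Nonempty (cokernel ((eta (tame f p) (Uo hZ) _).app (⟨(GmS p r X).obj, h⟩ : Sh f p r)) ≅
        (⟨ZP Z p r, h'⟩ : Sh f p r))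

end TPU
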