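import Pool.Agent.TPU.Asm
import Pool.Agent.TPU.St5

/-!
# TPU: assembly of the theorem for `n = 1`
-/

set_option autoImplicit false

universe u

open CategoryTheory Limits AlgebraicGeometry Opposite

namespace TPU

/-- The theorem for `G_m/p^r`. -/
def St_Fin1 : Prop :=
  ∀ (p r : ℕ) [Fact p.Prime] (X S : Scheme.{u}) (f : X ⟶ S) [IsLocallyNoetherian X],
    (p : Γ(S, ⊤)) = 0 → ∀ (Z : Set X) (hZ : IsClosed Z), (∀ z ∈ Z, IsDvr (X.presheaf.stalk z)) →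
    ∃ (h : Presheaf.IsSheaf (tame f p) (GmS p r X).obj) (h' : Presheaf.IsSheaf (tame f p) (ZP Z p r)),
      IsZero (((HZ (tame f p) (Uo hZ) _).rightDerived 0).obj (⟨(GmS p r X).obj, h⟩ : Sh f p r)) ∧
      Nonempty (((HZ (tame f p) (Uo hZ) _).rightDerived 1).obj
        (⟨(GmS p r X).obj, h⟩ : Sh f p r) ≅ (⟨ZP Z p r, h'⟩ : Sh f p r)) ∧
      ∀ q : ℕ, IsZero (((HZ (tame f p) (Uo hZ) _).rightDerived (q + 2)).obj
        (⟨(GmS p r X).obj, h⟩ : Sh f p r))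

theorem asm_char (p : ℕ) (X S : Scheme.{u}) (f : X ⟶ S) (hS : (p : Γ(S, ⊤)) = 0) :
    (p : Γ(X, ⊤)) = 0 := by
  have h : (f.appTop).hom (p : Γ(S, ⊤)) = (p : Γ(X, ⊤)) := map_natCast _ p
  rw [← h, hS, map_zero]

theorem asm_Fin1 (h0 : St_Fin.{u}) (h1 : St_Sur.{u}) (h2 : St_ZPS.{u}) (h3 : St_F1I.{u})
    (h4 : St_OrdM.{u}) : St_Fin1.{u} := by
  intro p r _ X S f _ hS Z hZ hD
  obtain ⟨-, a2, a0, a1, -⟩ := h0 p r X S f hS Z hZ hD
  have hX := asm_char p X S f hS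
  have h : Presheaf.IsSheaf (tame f p) (GmS p r X).obj :=
    Presheaf.IsSheaf.of_le (h1 p X S f) (GmS p r X).property
  have h' := h2 p r X S f Z
  have hm := h3 p r X S f hX Z hZ hD h
  obtain ⟨e⟩ := h4 p r X S f hX Z hZ hD h h'
  refine ⟨h, h', ?_, ?_, fun q => a2 _ q⟩
  · obtain ⟨i⟩ := a0 (⟨(GmS p r X).obj, h⟩ : Sh f p r)
    refine IsZero.of_iso ?_ i
    show IsZero (kernel _)
    exact (isZero_zero _).of_iso (kernel.ofMono _)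
  · obtain ⟨i⟩ := a1 (⟨(GmS p r X).obj, h⟩ : Sh f p r)
    exact ⟨i ≪≫ e⟩

end TPU
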