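import Pool.Agent.TPU.St5

/-!
# TPU [Br] : sections of the sheaf `G_m/p^r` given by units (helper28)
-/

set_option autoImplicit false

universe u

open CategoryTheory Limits AlgebraicGeometry Opposite

namespace TPU

set_option backward.isDefEq.respectTransparency.types false in
private theorem Br_iff {X : Scheme.{u}} (W : X.Etale) (R : Sieve W) :
    R ∈ X.smallEtaleTopology W ↔
    ∀ w : W.left, ∃ (V : X.Etale) (g : V ⟶ W) (v : V.left), R g ∧ g.left v = w := by
  have h0 : R ∈ X.smallEtaleTopology W ↔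
      R ∈ (X.smallPretopology @Etale @Etale).toGrothendieck W := by
    rw [← Scheme.smallGrothendieckTopology_eq_toGrothendieck_smallPretopology X le_rfl]
    exact Iff.rfl
  refine (h0.trans (Scheme.mem_toGrothendieck_smallPretopology W R)).trans ?_
  constructor
  · intro h w
    obtain ⟨Y, f, y, hf, -, hy⟩ := h w
    exact ⟨Y, f, y, hf, hy⟩
  · intro h w
    obtain ⟨Y, f, y, hf, hy⟩ := h w
    exact ⟨Y, f, y, hf, inferInstance, hy⟩

private theorem Br_pow {A : Type u} [CommRing A] (p r : ℕ) (u : Aˣ) :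
    cl p r (u ^ p ^ r) = 0 :=
  (QuotientAddGroup.eq_zero_iff _).2 ⟨Additive.ofMul u, rfl⟩

private theorem Br_zero {A : Type u} [CommRing A] (p r : ℕ) (u : Aˣ) (h : cl p r u = 0) :
    ∃ c : Aˣ, u = c ^ p ^ r := by
  obtain ⟨c, hc⟩ := (QuotientAddGroup.eq_zero_iff _).1 h
  exact ⟨c.toMul, (congrArg Additive.toMul hc).symm⟩

private theorem Br_nat (p r : ℕ) {X : Scheme.{u}} {W V : X.Etale} (g : V ⟶ W)
    (u : Γ(W.left, ⊤)ˣ) :
    ((GmS p r X).obj.map g.op).hom (br p r u) = br p r (rsU g u) :=
  (NatTrans.naturality_apply (toSheafify X.smallEtaleTopology (GmP p r X)) g.op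
    (ULift.up (cl p r u))).symm

theorem thm_Br : St_Br.{u} := by
  intro p r X
  refine ⟨?_, ?_, fun W V g u => Br_nat p r g u, ?_, ?_, ?_⟩
  · intro W u v
    have h1 : (ULift.up (cl p r (u * v)) : ULift.{u + 1} (Um p r Γ(W.left, ⊤))) =
      ULift.up (cl p r u) + ULift.up (cl p r v) := rfl
    show ((toSheafify X.smallEtaleTopology (GmP p r X)).app (op W)).hom
      (ULift.up (cl p r (u * v)) : ULift.{u + 1} (Um p r Γ(W.left, ⊤))) = _
    rw [h1]
    exact map_add ((toSheafify X.smallEtaleTopology (GmP p r X)).app (op W)).hom _ _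
  · intro W u
    have h1 : (ULift.up (cl p r (u ^ p ^ r)) : ULift.{u + 1} (Um p r Γ(W.left, ⊤))) = 0 := by
      rw [Br_pow]
      rfl
    show ((toSheafify X.smallEtaleTopology (GmP p r X)).app (op W)).hom
      (ULift.up (cl p r (u ^ p ^ r)) : ULift.{u + 1} (Um p r Γ(W.left, ⊤))) = _
    rw [h1]
    exact map_zero ((toSheafify X.smallEtaleTopology (GmP p r X)).app (op W)).hom
  · intro W s w
    have h1 := Presheaf.imageSieve_mem X.smallEtaleTopology
      (toSheafify X.smallEtaleTopology (GmP p r X)) (U := op W) s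
    obtain ⟨V, g, v, ⟨t, ht⟩, hv⟩ := (Br_iff W _).1 h1 w
    obtain ⟨t⟩ := (t : ULift.{u + 1} (Um p r Γ(V.left, ⊤)))
    induction t using QuotientAddGroup.induction_on with
    | H t =>
      exact ⟨V, g, v, t.toMul, hv, ht.symm⟩
  · intro W u hu w
    have h1 := Presheaf.equalizerSieve_mem X.smallEtaleTopology
      (toSheafify X.smallEtaleTopology (GmP p r X)) (X := op W)
      (ULift.up (cl p r u) : ULift.{u + 1} (Um p r Γ(W.left, ⊤)))
      (0 : ULift.{u + 1} (Um p r Γ(W.left, ⊤)))
      (hu.trans (map_zero ((toSheafify X.smallEtaleTopology (GmP p r X)).app (op W)).hom).symm)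
    obtain ⟨V, g, v, hg, hv⟩ := (Br_iff W _).1 h1 w
    have h2 : (ULift.up (cl p r (rsU g u)) : ULift.{u + 1} (Um p r Γ(V.left, ⊤))) = 0 := by
      have h3 : ((GmP p r X).map g.op).hom (ULift.up (cl p r u)) =
        ((GmP p r X).map g.op).hom (0 : ULift.{u + 1} (Um p r Γ(W.left, ⊤))) := hg
      have h4 : ((GmP p r X).map g.op).hom (0 : ULift.{u + 1} (Um p r Γ(W.left, ⊤))) = 0 :=
        map_zero ((GmP p r X).map g.op).hom
      exact h3.trans h4
    obtain ⟨c, hc⟩ := Br_zero p r (rsU g u) (congrArg ULift.down h2)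
    exact ⟨V, g, v, c, hv, hc⟩
  · intro W s hs
    let R : Sieve W :=
      { arrows := fun V g => ((GmS p r X).obj.map g.op).hom s = 0
        downward_closed := by
          intro Y Z f hf g
          show ((GmS p r X).obj.map (g ≫ f).op).hom s = 0
          rw [op_comp, Functor.map_comp, ModuleCat.hom_comp, LinearMap.comp_apply]
          have hf' : ((GmS p r X).obj.map f.op).hom s = 0 := hf
          rw [hf', map_zero] }
    have hR : R ∈ X.smallEtaleTopology W := by
      rw [Br_iff]
      intro w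
      obtain ⟨V, g, v, hv, hg⟩ := hs w
      exact ⟨V, g, v, hg, hv⟩
    have hS := (isSheaf_iff_isSheaf_of_type _ _).1
      ((Presheaf.isSheaf_iff_isSheaf_forget X.smallEtaleTopology (GmS p r X).obj
        (forget (ModuleCat.{u + 1} (Rg.{u} p r)))).1 (GmS p r X).property)
    refine (hS R hR).isSeparatedFor.ext ?_
    intro V g hg
    have hg' : ((GmS p r X).obj.map g.op).hom s = 0 := hg
    exact hg'.trans (map_zero ((GmS p r X).obj.map g.op).hom).symm

end TPU
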