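import Pool.Agent.TPU.St5

/-!
# TPU, module Br0: units whose class in `G_m/p^r` is zero, at points
-/

set_option autoImplicit false

universe u

open CategoryTheory Limits AlgebraicGeometry Opposite

namespace TPU

private theorem Br0_fld {K L : Type u} [Field K] [Field L] (p r : ℕ) [Fact p.Prime] [CharP K p]
    (i : K →+* L) (h : letI := i.toAlgebra; Algebra.IsSeparable K L) (u : K) (z : L)
    (hz : i u = z ^ p ^ r) : ∃ c : K, u = c ^ p ^ r := by
  let _ : Algebra K L := i.toAlgebra
  have : Algebra.IsSeparable K L := h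
  have : ExpChar K p := ExpChar.prime Fact.out
  have h1 : z ∈ perfectClosure K L := (mem_perfectClosure_iff_pow_mem p).mpr ⟨r, u, hz⟩
  rw [perfectClosure.eq_bot_of_isSeparable] at h1
  obtain ⟨c, hc⟩ := IntermediateField.mem_bot.mp h1
  refine ⟨c, i.injective ?_⟩
  rw [hz, map_pow]
  exact congrArg (· ^ p ^ r) hc.symm

theorem thm_Br0 (h1 : St_Br.{u}) (_h2 : St_Kf.{u}) : St_Br0.{u} := by
  intro p r _ X hp W η u hu
  obtain ⟨V, g, v, c, rfl, hc⟩ := (h1 p r X).2.2.2.2.1 W u hu η
  have hK : (p : W.left.residueField (g.left v)) = 0 := by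
    have h := congrArg ((W.left.Γevaluation (g.left v)).hom.comp (W.hom.appTop).hom) hp
    rw [map_natCast, map_zero] at h
    exact h
  have : CharP (W.left.residueField (g.left v)) p :=
    (CharP.charP_iff_prime_eq_zero Fact.out).mpr hK
  have : Etale g.left := inferInstance
  have hs : letI : Algebra (W.left.residueField (g.left.base v)) (V.left.residueField v) :=
      (g.left.residueFieldMap v).hom.toAlgebra
      Algebra.IsSeparable (W.left.residueField (g.left.base v)) (V.left.residueField v) :=
    inferInstance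
  refine Br0_fld p r (g.left.residueFieldMap v).hom hs _
    ((V.left.Γevaluation v).hom (c : Γ(V.left, ⊤))) ?_
  have h3 := congrArg (fun x : Γ(V.left, ⊤)ˣ => (V.left.Γevaluation v).hom (x : Γ(V.left, ⊤))) hc
  have h4 : (V.left.Γevaluation v).hom ((rsU g u : Γ(V.left, ⊤)ˣ) : Γ(V.left, ⊤)) =
      (g.left.residueFieldMap v).hom ((W.left.Γevaluation (g.left v)).hom (u : Γ(W.left, ⊤))) :=
    (Scheme.Γevaluation_naturality_apply g.left v _).symm
  rw [← h4]
  refine h3.trans ?_
  rw [← map_pow]
  rfl

end TPU
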