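import Pool.Agent.TPU.St5

/-!
# TPU, module F1I (`n = 1`): `G_m/p^r ⟶ T (G_m/p^r)` is a monomorphism
-/

set_option autoImplicit false

universe u

open CategoryTheory Limits AlgebraicGeometry Opposite

namespace TPU

section

variable {C : Type (u + 1)} [Category.{u} C] [HasBinaryProducts C] (J : GrothendieckTopology C)
  (U : C) (R : Type (u + 1)) [CommRing R]

private theorem F1I_eta_app (I : Sheaf J (ModuleCat.{u + 1} R)) (W : C)
    (y : I.obj.obj (op W)) :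
    (((eta J U _).app I).hom.app (op W)).hom y =
      (I.obj.map (prod.snd : U ⨯ W ⟶ W).op).hom y := by
  have h : ((eta J U (ModuleCat.{u + 1} R)).app I).hom.app (op W) =
      I.obj.map ((Over.forgetAdjStar U).counit.app W).op := by
    show 𝟙 _ ≫ _ = _
    rw [Category.id_comp]
    rfl
  rw [h, Over.forgetAdjStar_counit_app]
  rfl

private theorem F1I_mono (I : Sheaf J (ModuleCat.{u + 1} R))
    (h : ∀ (W : C) (y : I.obj.obj (op W)),
      (I.obj.map (prod.snd : U ⨯ W ⟶ W).op).hom y = 0 → y = 0) :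
    Mono ((eta J U (ModuleCat.{u + 1} R)).app I) := by
  have h2 : ∀ W : Cᵒᵖ, Mono (((sheafToPresheaf J (ModuleCat.{u + 1} R)).map
      ((eta J U _).app I)).app W) := by
    rintro ⟨W⟩
    rw [ModuleCat.mono_iff_injective, injective_iff_map_eq_zero]
    intro y hy
    exact h W y ((F1I_eta_app J U R I W y).symm.trans hy)
  exact (sheafToPresheaf J (ModuleCat.{u + 1} R)).mono_of_mono_map (NatTrans.mono_of_mono_app _)

end

/-- a germ which is an `n`-th power -/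
private theorem F1I_nbh {Y : Scheme.{u}} (d : Y) (n : ℕ) (hn : n ≠ 0) (a : Γ(Y, ⊤))
    (ha : IsUnit a) (e : Y.presheaf.stalk d)
    (he : e ^ n = (Y.presheaf.germ ⊤ d trivial).hom a) :
    ∃ (G : Y.Opens) (v : Γ(G, ⊤)ˣ), d ∈ G ∧ (G.ι.appTop).hom a = (v : Γ(G, ⊤)) ^ n := by
  obtain ⟨U, hdU, s, hs⟩ := Y.presheaf.exists_germ_eq e
  have h1 : (Y.presheaf.germ U d hdU).hom (s ^ n) = (Y.presheaf.germ ⊤ d trivial).hom a := by
    rw [map_pow, ← he]
    exact congrArg (fun x => x ^ n) hs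
  have hd : d ∈ (⊤ : Y.Opens) := trivial
  obtain ⟨G, hdG, iU, iT, hG⟩ : ∃ (G : Y.Opens) (_ : d ∈ G) (iU : G ⟶ U) (iT : G ⟶ (⊤ : Y.Opens)),
      (Y.presheaf.map iU.op).hom (s ^ n) = (Y.presheaf.map iT.op).hom a :=
    Y.presheaf.germ_eq d hdU hd (s ^ n) a h1
  have h2 : (G.ι.appTop).hom a = G.topIso.inv.hom ((Y.presheaf.map iU.op).hom s) ^ n := by
    rw [← map_pow, ← map_pow]
    have h3 : (Y.presheaf.map iU.op).hom (s ^ n) = (Y.presheaf.map iT.op).hom a := hG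
    rw [h3]
    have h4 : Y.presheaf.map iT.op ≫ G.topIso.inv = G.ι.appTop := by
      rw [Scheme.Opens.topIso_inv, Scheme.Opens.ι_appTop]
      exact (Y.presheaf.map_comp _ _).symm
    rw [← h4]
    rfl
  have h5 : IsUnit (G.topIso.inv.hom ((Y.presheaf.map iU.op).hom s) ^ n) := by
    rw [← h2]
    exact ha.map _
  have h6 : IsUnit (G.topIso.inv.hom ((Y.presheaf.map iU.op).hom s)) :=
    (isUnit_pow_iff hn).1 h5
  exact ⟨G, h6.unit, hdG, h2⟩

/-- in a discrete valuation ring -/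
private theorem F1I_root (A K : Type u) [CommRing A] [Field K] (hA : IsDvr A) (φ : A →+* K)
    (hφ : Function.Injective φ) (hfr : ∀ x : K, ∃ a b, φ b ≠ 0 ∧ x * φ b = φ a) (n : ℕ)
    (hn : n ≠ 0) (a : A) (c : K) (h : φ a = c ^ n) : ∃ e : A, e ^ n = a := by
  obtain ⟨hd, hv⟩ := hA
  obtain ⟨x, b, hb, hx⟩ := hfr c
  have h1 : x ^ n = a * b ^ n := by
    apply hφ
    rw [map_pow, map_mul, map_pow, ← hx, h, mul_pow]
  have h2 : b ∣ x := by
    rw [← IsIntegrallyClosed.pow_dvd_pow_iff hn, h1]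
    exact Dvd.intro_left a rfl
  obtain ⟨e, rfl⟩ := h2
  refine ⟨e, ?_⟩
  have hb0 : b ^ n ≠ 0 := by
    apply pow_ne_zero
    rintro rfl
    exact hb (map_zero φ)
  apply mul_left_cancel₀ hb0
  rw [← mul_pow, h1, mul_comm]

theorem thm_F1I (h1 : St_Gen.{u}) (h2 : St_EtDvr.{u}) (h3 : St_UW.{u}) (h4 : St_Br.{u})
    (h5 : St_Br0.{u}) : TPU.St_F1I.{u} := by
  intro p r _ X S f _ hp Z hZ hdvr h
  have hn : p ^ r ≠ 0 := pow_ne_zero _ (Fact.out : p.Prime).ne_zero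
  refine F1I_mono (tame f p) (Uo hZ) (Rg.{u} p r) ⟨(GmS p r X).obj, h⟩ ?_
  intro W t ht
  obtain ⟨-, hbpow, hbres, hbloc, -, hbsep⟩ := h4 p r X
  refine hbsep W t fun w => ?_
  obtain ⟨-, -, hran, -⟩ := h3 X Z hZ W
  by_cases hw : W.hom w ∈ Z
  · obtain ⟨D, g, d, a, hgd, hta⟩ := hbloc W t w
    have hgW : g.left ≫ W.hom = D.hom := MorphismProperty.Over.w g
    have hdZ : D.hom d ∈ Z := by
      rw [← hgW, Scheme.Hom.comp_apply, hgd]
      exact hw
    have hetD : Etale D.hom := D.prop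
    have hA : IsDvr (D.left.presheaf.stalk d) := h2 D.left X D.hom d (hdvr _ hdZ)
    obtain ⟨η, hs, hne, -, hinj, hfr, -, hnd⟩ := h1 D.left d hA
    have hηZ : D.hom η ∉ Z := fun hc => hnd (h2 D.left X D.hom η (hdvr _ hc))
    obtain ⟨himm, -, hranD, -⟩ := h3 X Z hZ D
    have hmem : η ∈ Set.range (prod.snd : Uo hZ ⨯ D ⟶ D).left := by
      rw [hranD]
      exact hηZ
    obtain ⟨η', hη'⟩ := hmem
    subst hη'
    have hbr0 : br p r (rsU (prod.snd : Uo hZ ⨯ D ⟶ D) a) = 0 := by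
      rw [← hbres, ← hta]
      have e1 : (prod.snd : Uo hZ ⨯ D ⟶ D) ≫ g =
          prod.map (𝟙 (Uo hZ)) g ≫ (prod.snd : Uo hZ ⨯ W ⟶ W) := by simp
      have e2 : ((GmS p r X).obj.map (prod.snd : Uo hZ ⨯ D ⟶ D).op).hom
          (((GmS p r X).obj.map g.op).hom t) =
          ((GmS p r X).obj.map ((prod.snd : Uo hZ ⨯ D ⟶ D) ≫ g).op).hom t := by
        rw [op_comp, Functor.map_comp]
        rfl
      rw [e2, e1, op_comp, Functor.map_comp]
      show ((GmS p r X).obj.map (prod.map (𝟙 (Uo hZ)) g).op).hom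
        (((GmS p r X).obj.map (prod.snd : Uo hZ ⨯ W ⟶ W).op).hom t) = 0
      have ht' : ((GmS p r X).obj.map (prod.snd : Uo hZ ⨯ W ⟶ W).op).hom t = 0 := ht
      rw [ht', map_zero]
    obtain ⟨c, hc⟩ := h5 p r X hp (Uo hZ ⨯ D) η' _ hbr0
    obtain ⟨c', hc'⟩ : ∃ c', ((prod.snd : Uo hZ ⨯ D ⟶ D).left.residueFieldMap η').hom c' = c := by
      refine ⟨(inv ((prod.snd : Uo hZ ⨯ D ⟶ D).left.residueFieldMap η')).hom c, ?_⟩
      have e := IsIso.inv_hom_id ((prod.snd : Uo hZ ⨯ D ⟶ D).left.residueFieldMap η')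
      exact congrArg (fun k => k.hom c) e
    have hev : (D.left.Γevaluation ((prod.snd : Uo hZ ⨯ D ⟶ D).left η')).hom (a : Γ(D.left, ⊤)) =
        c' ^ p ^ r := by
      apply (((prod.snd : Uo hZ ⨯ D ⟶ D).left.residueFieldMap η').hom).injective
      rw [map_pow, hc', ← hc]
      exact Scheme.Γevaluation_naturality_apply (prod.snd : Uo hZ ⨯ D ⟶ D).left η' _
    have hspz : spz hs ((D.left.presheaf.germ ⊤ d trivial).hom (a : Γ(D.left, ⊤))) =
        c' ^ p ^ r := by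
      rw [← hev]
      have e := D.left.presheaf.germ_stalkSpecializes (U := ⊤) trivial hs
      show (D.left.residue _).hom (((D.left.presheaf.germ ⊤ d trivial) ≫
        D.left.presheaf.stalkSpecializes hs).hom _) = _
      rw [e]
      rfl
    obtain ⟨e, he⟩ := F1I_root _ _ hA (spz hs) hinj hfr (p ^ r) hn _ c' hspz
    obtain ⟨G, v, hdG, hv⟩ := F1I_nbh d (p ^ r) hn (a : Γ(D.left, ⊤)) a.isUnit e he
    refine ⟨opn D G, opi D G ≫ g, ⟨d, hdG⟩, hgd, ?_⟩
    have e3 : ((GmS p r X).obj.map (opi D G ≫ g).op).hom t =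
        ((GmS p r X).obj.map (opi D G).op).hom (((GmS p r X).obj.map g.op).hom t) := by
      rw [op_comp, Functor.map_comp]
      rfl
    rw [e3, hta, hbres]
    have e4 : rsU (opi D G) a = (v : Γ((opn D G).left, ⊤)ˣ) ^ p ^ r := by
      apply Units.ext
      exact hv
    rw [e4]
    exact hbpow _ _
  · have hmem : w ∈ Set.range (prod.snd : Uo hZ ⨯ W ⟶ W).left := by
      rw [hran]
      exact hw
    obtain ⟨v, hv⟩ := hmem
    exact ⟨Uo hZ ⨯ W, prod.snd, v, hv, ht⟩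

end TPU
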