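import Pool.Agent.TPU.St5

/-!
# TPU, module H90: sections of `G_m/p^r` at a point whose local ring is a field
-/

set_option autoImplicit false

universe u

open CategoryTheory Limits AlgebraicGeometry Opposite

namespace TPU

/-- evaluation of a global function at a field valued point -/
noncomputable def H90_ev {Ω : Type u} [Field Ω] {Y : Scheme.{u}} (m : Spec (.of Ω) ⟶ Y) :
    Γ(Y, ⊤) →+* Ω :=
  (m.appTop ≫ (Scheme.ΓSpecIso (.of Ω)).hom).hom

theorem H90_ev_comp {Ω : Type u} [Field Ω] {Y Z : Scheme.{u}} (m : Spec (.of Ω) ⟶ Y) (f : Y ⟶ Z)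
    (σ : Γ(Z, ⊤)) : H90_ev (m ≫ f) σ = H90_ev m (f.appTop.hom σ) := by
  unfold H90_ev
  rw [Scheme.Hom.comp_appTop]
  rfl

private theorem H90_st {Y : Scheme.{u}} (y : Y) :
    (Y.fromSpecStalk y).appTop ≫ (Scheme.ΓSpecIso (Y.presheaf.stalk y)).hom =
      Y.presheaf.germ ⊤ y trivial := by
  rw [Scheme.fromSpecStalk_appTop]
  simp

theorem H90_ev_res {Ω : Type u} [Field Ω] {Y : Scheme.{u}} (y : Y)
    (φ : Y.residueField y ⟶ .of Ω) (σ : Γ(Y, ⊤)) :
    H90_ev (Spec.map φ ≫ Y.fromSpecResidueField y) σ = φ.hom ((Y.Γevaluation y).hom σ) := by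
  have h : (Spec.map φ ≫ Y.fromSpecResidueField y).appTop ≫ (Scheme.ΓSpecIso (.of Ω)).hom =
      Y.Γevaluation y ≫ φ := by
    unfold Scheme.fromSpecResidueField
    rw [← Category.assoc, ← Spec.map_comp, Scheme.Hom.comp_appTop, Category.assoc,
      Scheme.ΓSpecIso_naturality, ← Category.assoc, H90_st, ← Category.assoc]
    rfl
  unfold H90_ev
  rw [h]
  rfl

private theorem H90_fin {X Y : Scheme.{u}} (f : X ⟶ Y) [Etale f] (x : X) :
    letI : Algebra (Y.residueField (f x)) (X.residueField x) :=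
      (f.residueFieldMap x).hom.toAlgebra
    Module.Finite (Y.residueField (f x)) (X.residueField x) := by
  algebraize [(f.stalkMap x).hom]
  have : IsLocalHom (algebraMap (Y.presheaf.stalk (f x)) (X.presheaf.stalk x)) :=
    inferInstanceAs <| IsLocalHom (f.stalkMap x).hom
  have : Algebra.EssFiniteType (Y.presheaf.stalk (f x)) (X.presheaf.stalk x) := by
    rw [← RingHom.essFiniteType_algebraMap, RingHom.algebraMap_toAlgebra]
    exact LocallyOfFiniteType.stalkMap f x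
  have : Algebra.FormallyUnramified (Y.presheaf.stalk (f x)) (X.presheaf.stalk x) := by
    rw [← RingHom.formallyUnramified_algebraMap, RingHom.algebraMap_toAlgebra]
    exact FormallyUnramified.stalkMap f x
  have h : (algebraMap (IsLocalRing.ResidueField <| Y.presheaf.stalk (f x))
      (IsLocalRing.ResidueField <| X.presheaf.stalk x)).Finite :=
    RingHom.finite_algebraMap.2 inferInstance
  have he : algebraMap (IsLocalRing.ResidueField <| Y.presheaf.stalk (f x))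
      (IsLocalRing.ResidueField <| X.presheaf.stalk x) = (f.residueFieldMap x).hom := by
    refine RingHom.ext fun x ↦ ?_
    obtain ⟨x, rfl⟩ := IsLocalRing.residue_surjective x
    rfl
  rw [he] at h
  exact h

/-- the residue map of a scheme étale over a point with injective residue map is injective -/
theorem H90_inj {X Y : Scheme.{u}} (f : X ⟶ Y) [Etale f] (x : X)
    (h : Function.Injective (Y.residue (f x)).hom) : Function.Injective (X.residue x).hom := by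
  algebraize [(f.stalkMap x).hom]
  have : IsLocalHom (algebraMap (Y.presheaf.stalk (f x)) (X.presheaf.stalk x)) :=
    inferInstanceAs <| IsLocalHom (f.stalkMap x).hom
  have : Algebra.EssFiniteType (Y.presheaf.stalk (f x)) (X.presheaf.stalk x) := by
    rw [← RingHom.essFiniteType_algebraMap, RingHom.algebraMap_toAlgebra]
    exact LocallyOfFiniteType.stalkMap f x
  have : Algebra.FormallyUnramified (Y.presheaf.stalk (f x)) (X.presheaf.stalk x) := by
    rw [← RingHom.formallyUnramified_algebraMap, RingHom.algebraMap_toAlgebra]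
    exact FormallyUnramified.stalkMap f x
  have h1 : IsLocalRing.maximalIdeal (Y.presheaf.stalk (f x)) = ⊥ := by
    rw [eq_bot_iff]
    intro a ha
    have h2 : (Y.residue (f x)).hom a = (Y.residue (f x)).hom 0 := by
      rw [map_zero]
      exact (IsLocalRing.residue_eq_zero_iff a).2 ha
    exact h h2
  have h2 : IsLocalRing.maximalIdeal (X.presheaf.stalk x) = ⊥ := by
    rw [← Algebra.FormallyUnramified.map_maximalIdeal (R := Y.presheaf.stalk (f x))
      (S := X.presheaf.stalk x), h1, Ideal.map_bot]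
  rw [injective_iff_map_eq_zero]
  intro a ha
  have h3 : a ∈ IsLocalRing.maximalIdeal (X.presheaf.stalk x) :=
    (IsLocalRing.residue_eq_zero_iff a).1 ha
  rw [h2] at h3
  exact h3

/-- lifting of a separably closed point along an étale morphism -/
theorem H90_lift {E P : Scheme.{u}} (k : E ⟶ P) [Etale k] (v : E) (Ω : Type u) [Field Ω]
    [IsSepClosed Ω] (e : Spec (.of Ω) ⟶ P) (q : Spec (.of Ω)) (he : e q = k v) :
    ∃ e' : Spec (.of Ω) ⟶ E, e' ≫ k = e := by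
  obtain ⟨⟨x, φ⟩, rfl⟩ := (Scheme.SpecToEquivOfField Ω P).symm.surjective e
  have hx : x = k v := by
    rw [← he]
    show x = (Spec.map φ ≫ P.fromSpecResidueField x) q
    rw [Scheme.Hom.comp_apply, Scheme.fromSpecResidueField_apply]
  subst hx
  let _ : Algebra (P.residueField (k v)) (E.residueField v) := (k.residueFieldMap v).hom.toAlgebra
  let _ : Algebra (P.residueField (k v)) Ω := φ.hom.toAlgebra
  have hs : Algebra.IsSeparable (P.residueField (k v)) (E.residueField v) := inferInstance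
  let ψ : E.residueField v →ₐ[P.residueField (k v)] Ω := IsSepClosed.lift
  refine ⟨Spec.map (CommRingCat.ofHom ψ.toRingHom) ≫ E.fromSpecResidueField v, ?_⟩
  show (Spec.map (CommRingCat.ofHom ψ.toRingHom) ≫ E.fromSpecResidueField v) ≫ k =
    Spec.map φ ≫ P.fromSpecResidueField (k v)
  rw [Category.assoc, ← Scheme.Hom.SpecMap_residueFieldMap_fromSpecResidueField, ← Category.assoc,
    ← Spec.map_comp]
  congr 2
  ext t
  exact ψ.commutes t

private theorem H90_toSpec {Ω : Type u} [Field Ω] {Z : Scheme.{u}} (m : Spec (.of Ω) ⟶ Z) :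
    m ≫ Z.toSpecΓ = Spec.map (CommRingCat.ofHom (H90_ev m)) := by
  rw [Scheme.toSpecΓ_naturality, ← SpecMap_ΓSpecIso_hom, ← Spec.map_comp]
  rfl

private theorem H90_evO {Ω : Type u} [Field Ω] {Y : Scheme.{u}} (V : Y.Opens) (y : Y) (hy : y ∈ V)
    (φ : Y.residueField y ⟶ .of Ω) (m : Spec (.of Ω) ⟶ V.toScheme)
    (hm : m ≫ V.ι = Spec.map φ ≫ Y.fromSpecResidueField y) (s : Γ(Y, V)) :
    H90_ev m (V.topIso.inv.hom s) = φ.hom ((Y.residue y).hom ((Y.presheaf.germ V y hy).hom s)) := by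
  have h1 : m = Spec.map φ ≫ Spec.map (Y.residue y) ≫ V.fromSpecStalkOfMem y hy := by
    rw [← cancel_mono V.ι, hm, Category.assoc, Category.assoc, Scheme.Opens.fromSpecStalkOfMem_ι]
    rfl
  have h2 : m ≫ V.toSpecΓ = Spec.map (Y.presheaf.germ V y hy ≫ Y.residue y ≫ φ) := by
    rw [h1, Category.assoc, Category.assoc, Scheme.Opens.fromSpecStalkOfMem_toSpecΓ,
      Spec.map_comp, Spec.map_comp, Category.assoc]
  let c : Γ(Y, V) ⟶ Γ(V.toScheme, ⊤) := V.topIso.inv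
  have h3 : Spec.map (CommRingCat.ofHom (H90_ev m)) ≫ Spec.map c = m ≫ V.toSpecΓ := by
    rw [← H90_toSpec m, Category.assoc]
    rfl
  have h4 := Spec.map_injective ((Spec.map_comp _ _).trans (h3.trans h2))
  exact ConcreteCategory.congr_hom h4 s

/-- a nonzero element of a residue field is the value of a unit of an open neighbourhood -/
theorem H90_spr {Y : Scheme.{u}} (y : Y) (t : Y.residueField y) (ht : t ≠ 0) :
    ∃ (U : Y.Opens) (τ : Γ(U.toScheme, ⊤)ˣ), y ∈ U ∧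
      ∀ (Ω : Type u) [Field Ω] (φ : Y.residueField y ⟶ .of Ω) (m : Spec (.of Ω) ⟶ U.toScheme),
        m ≫ U.ι = Spec.map φ ≫ Y.fromSpecResidueField y → H90_ev m τ = φ.hom t := by
  obtain ⟨t', rfl⟩ := Y.residue_surjective y t
  obtain ⟨V, hV, s, rfl⟩ := TopCat.Presheaf.exists_germ_eq Y.presheaf t'
  have hU : y ∈ Y.basicOpen s := (Y.evaluation_ne_zero_iff_mem_basicOpen y hV s).1 ht
  have hu : IsUnit ((Y.presheaf.map (homOfLE (Y.basicOpen_le s)).op).hom s) :=
    Y.toRingedSpace.isUnit_res_basicOpen s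
  have hu2 := hu.map (Y.basicOpen s).topIso.inv.hom
  refine ⟨Y.basicOpen s, hu2.unit, hU, ?_⟩
  intro Ω _ φ m hm
  rw [IsUnit.unit_spec, H90_evO (Y.basicOpen s) y hU φ m hm]
  have h1 : (Y.presheaf.germ (Y.basicOpen s) y hU).hom
      ((Y.presheaf.map (homOfLE (Y.basicOpen_le s)).op).hom s) = (Y.presheaf.germ V y hV).hom s :=
    TopCat.Presheaf.germ_res_apply Y.presheaf (homOfLE (Y.basicOpen_le s)) y hU s
  rw [h1]

/-- functions which agree at a point with injective residue map agree in a neighbourhood -/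
theorem H90_eqs {Y : Scheme.{u}} (y : Y) (hy : Function.Injective (Y.residue y).hom)
    {Ω : Type u} [Field Ω] (m : Spec (.of Ω) ⟶ Y) (q : Spec (.of Ω)) (hq : m q = y)
    (σ τ : Γ(Y, ⊤)) (h : H90_ev m σ = H90_ev m τ) :
    ∃ U : Y.Opens, y ∈ U ∧ U.ι.appTop.hom σ = U.ι.appTop.hom τ := by
  obtain ⟨⟨x, φ⟩, rfl⟩ := (Scheme.SpecToEquivOfField Ω Y).symm.surjective m
  have hx : x = y := by
    rw [← hq]
    show x = (Spec.map φ ≫ Y.fromSpecResidueField x) q
    rw [Scheme.Hom.comp_apply, Scheme.fromSpecResidueField_apply]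
  subst hx
  have h1 : φ.hom ((Y.Γevaluation x).hom σ) = φ.hom ((Y.Γevaluation x).hom τ) := by
    rw [← H90_ev_res, ← H90_ev_res]
    exact h
  have h2 : (Y.presheaf.germ ⊤ x trivial).hom σ = (Y.presheaf.germ ⊤ x trivial).hom τ :=
    hy (φ.hom.injective h1)
  obtain ⟨(U : Y.Opens), hU, iU, iV, h3⟩ := TopCat.Presheaf.germ_eq Y.presheaf x
    (show x ∈ (⊤ : Y.Opens) from trivial) (show x ∈ (⊤ : Y.Opens) from trivial) σ τ h2
  refine ⟨U, hU, ?_⟩
  rw [Scheme.Opens.ι_appTop]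
  have h4 : U.ι ''ᵁ ⊤ ≤ U := by
    rw [Scheme.Opens.ι_image_top]
  have h5 : ∀ ρ : Γ(Y, ⊤), (Y.presheaf.map (homOfLE (x := U.ι ''ᵁ ⊤) le_top).op).hom ρ =
      (Y.presheaf.map (homOfLE h4).op).hom ((Y.presheaf.map iU.op).hom ρ) := by
    intro ρ
    rw [← CommRingCat.comp_apply, ← Y.presheaf.map_comp]
    rfl
  obtain rfl : iV = iU := Subsingleton.elim _ _
  exact (h5 σ).trans ((congrArg (Y.presheaf.map (homOfLE h4).op).hom h3).trans (h5 τ).symm)

private theorem H90_ext {X : Scheme.{u}} {A B : X.Etale} {a b : A ⟶ B} (h : a.left = b.left) :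
    a = b := by
  apply (Scheme.Etale.forgetFullyFaithful X).map_injective
  exact Over.OverMorphism.ext h

private theorem H90_coc (h1 : St_Br.{u}) (p r : ℕ) {X : Scheme.{u}} {W D : X.Etale} (g : D ⟶ W)
    (s : (GmS p r X).obj.obj (op W)) (a : Γ(D.left, ⊤)ˣ)
    (hs : ((GmS p r X).obj.map g.op).hom s = br p r a) (Ω : Type u) [Field Ω] [IsSepClosed Ω]
    (α β : Spec (.of Ω) ⟶ D.left) (h : α ≫ g.left = β ≫ g.left) :
    ∃ c : Ω, H90_ev α a = H90_ev β a * c ^ p ^ r := by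
  obtain ⟨B1, B2, B3, B4, B5, B6⟩ := h1 p r X
  have hg : g.left ≫ W.hom = D.hom := g.w
  let P : X.Etale := Scheme.Etale.mk (pullback.fst g.left g.left ≫ D.hom)
  let q1 : P ⟶ D := MorphismProperty.Over.homMk (pullback.fst g.left g.left) rfl trivial
  let q2 : P ⟶ D := MorphismProperty.Over.homMk (pullback.snd g.left g.left) (by
    show pullback.snd g.left g.left ≫ D.hom = pullback.fst g.left g.left ≫ D.hom
    rw [← hg, pullback.condition_assoc]) trivial
  have hq : q1 ≫ g = q2 ≫ g := H90_ext pullback.condition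
  have hbr : br p r (rsU q1 a) = br p r (rsU q2 a) := by
    rw [← B3, ← B3, ← hs]
    have e1 : ∀ q : P ⟶ D, ((GmS p r X).obj.map q.op).hom (((GmS p r X).obj.map g.op).hom s) =
        ((GmS p r X).obj.map (q ≫ g).op).hom s := by
      intro q
      rw [op_comp, Functor.map_comp]
      rfl
    rw [e1, e1, hq]
  have hb1 : br p r (1 : Γ(P.left, ⊤)ˣ) = 0 := by
    have := B1 P 1 1
    rw [mul_one] at this
    exact left_eq_add.1 this
  have hb0 : br p r (rsU q1 a * (rsU q2 a)⁻¹) = 0 := by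
    rw [B1, hbr, ← B1, mul_inv_cancel]
    exact hb1
  let e : Spec (.of Ω) ⟶ P.left := pullback.lift α β h
  have he1 : e ≫ q1.left = α := pullback.lift_fst _ _ _
  have he2 : e ≫ q2.left = β := pullback.lift_snd _ _ _
  let q : Spec (.of Ω) := IsLocalRing.closedPoint Ω
  obtain ⟨E, k, v, c, hv, hc⟩ := B5 P _ hb0 (e q)
  obtain ⟨e', he'⟩ := H90_lift k.left v Ω e q hv.symm
  refine ⟨H90_ev e' c, ?_⟩
  have e2 : ∀ σ : Γ(P.left, ⊤)ˣ, H90_ev e σ = H90_ev e' (rsU k σ) := by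
    intro σ
    rw [← he', H90_ev_comp]
    rfl
  have e3 : H90_ev α a = H90_ev e (rsU q1 a) := by
    rw [← he1, H90_ev_comp]
    rfl
  have e4 : H90_ev β a = H90_ev e (rsU q2 a) := by
    rw [← he2, H90_ev_comp]
    rfl
  have e5 : (rsU q1 a : Γ(P.left, ⊤)ˣ) = rsU q1 a * (rsU q2 a)⁻¹ * rsU q2 a := by
    rw [inv_mul_cancel_right]
  have e6 : rsU k (rsU q1 a) = c ^ p ^ r * rsU k (rsU q2 a) :=
    (congrArg (fun t => rsU k t) e5).trans ((map_mul (Units.map
      ((k.left.appTop).hom : Γ(P.left, ⊤) →* Γ(E.left, ⊤))) _ _).trans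
        (congrArg (fun t => t * rsU k (rsU q2 a)) hc))
  have e7 : H90_ev e' (c ^ p ^ r * rsU k (rsU q2 a) : Γ(E.left, ⊤)ˣ) =
      H90_ev e' c ^ p ^ r * H90_ev e' (rsU k (rsU q2 a)) := by
    rw [Units.val_mul, map_mul, Units.val_pow_eq_pow_val, map_pow]
  calc H90_ev α a = H90_ev e (rsU q1 a) := e3
    _ = H90_ev e' (rsU k (rsU q1 a)) := e2 _
    _ = H90_ev e' (c ^ p ^ r * rsU k (rsU q2 a) : Γ(E.left, ⊤)ˣ) :=
        congrArg (fun t : Γ(E.left, ⊤)ˣ => H90_ev e' (t : Γ(E.left, ⊤))) e6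
    _ = H90_ev e' c ^ p ^ r * H90_ev e' (rsU k (rsU q2 a)) := e7
    _ = H90_ev e' c ^ p ^ r * H90_ev β a := by rw [e4, e2]
    _ = H90_ev β a * H90_ev e' c ^ p ^ r := mul_comm _ _

private theorem H90_pt {Ω : Type u} [Field Ω] {D W : Scheme.{u}} (g : D ⟶ W) (y : D)
    (φ : D.residueField y ⟶ .of Ω) : (Spec.map φ ≫ D.fromSpecResidueField y) ≫ g =
      Spec.map (g.residueFieldMap y ≫ φ) ≫ W.fromSpecResidueField (g y) := by
  rw [Category.assoc, ← Scheme.Hom.SpecMap_residueFieldMap_fromSpecResidueField,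
    ← Category.assoc, ← Spec.map_comp]

private theorem H90_hab (h3 : St_H90a.{u}) (p r : ℕ) [Fact p.Prime] {D W : Scheme.{u}}
    (hp : (p : Γ(W, ⊤)) = 0) (g : D ⟶ W) [Etale g] (y : D) (a : Γ(D, ⊤)ˣ)
    (coc : ∀ (Ω : Type u) [Field Ω] [IsSepClosed Ω] (α β : Spec (.of Ω) ⟶ D), α ≫ g = β ≫ g →
      ∃ c : Ω, H90_ev α a = H90_ev β a * c ^ p ^ r) :
    ∃ (u : W.residueField (g y)) (b : D.residueField y), u ≠ 0 ∧ b ≠ 0 ∧
      (D.Γevaluation y).hom a = (g.residueFieldMap y).hom u * b ^ p ^ r := by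
  let _ : Algebra (W.residueField (g y)) (D.residueField y) := (g.residueFieldMap y).hom.toAlgebra
  have hfin : Module.Finite (W.residueField (g y)) (D.residueField y) := H90_fin g y
  have hsep : Algebra.IsSeparable (W.residueField (g y)) (D.residueField y) := inferInstance
  have hch : CharP (W.residueField (g y)) p := by
    rw [CharP.charP_iff_prime_eq_zero (Fact.out : p.Prime)]
    have e1 : (W.Γevaluation (g y)).hom (p : Γ(W, ⊤)) = (p : W.residueField (g y)) :=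
      map_natCast _ p
    rw [← e1, hp, map_zero]
  have ha' : (D.Γevaluation y).hom a ≠ 0 := (a.isUnit.map (D.Γevaluation y).hom).ne_zero
  obtain ⟨u, b, hab⟩ := h3 p r (W.residueField (g y)) (D.residueField y)
    ((D.Γevaluation y).hom a) ha' (by
    intro Ω _ _ _ _ i j
    let φi : D.residueField y ⟶ .of Ω := CommRingCat.ofHom i.toRingHom
    let φj : D.residueField y ⟶ .of Ω := CommRingCat.ofHom j.toRingHom
    have hij : g.residueFieldMap y ≫ φi = g.residueFieldMap y ≫ φj := by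
      ext t
      exact (i.commutes t).trans (j.commutes t).symm
    obtain ⟨c, hc⟩ := coc Ω (Spec.map φi ≫ D.fromSpecResidueField y)
      (Spec.map φj ≫ D.fromSpecResidueField y) (by rw [H90_pt, H90_pt, hij])
    rw [H90_ev_res, H90_ev_res] at hc
    exact ⟨c, hc⟩)
  refine ⟨u, b, ?_, ?_, hab⟩
  · rintro rfl
    rw [map_zero, zero_mul] at hab
    exact ha' hab
  · rintro rfl
    rw [zero_pow (pow_ne_zero r (Fact.out : p.Prime).ne_zero), mul_zero] at hab
    exact ha' hab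

private theorem H90_geo (p r : ℕ) {D W : Scheme.{u}} (g : D ⟶ W) [Etale g] (y : D)
    (hη : Function.Injective (W.residue (g y)).hom) (a : Γ(D, ⊤)ˣ) (u : W.residueField (g y))
    (b : D.residueField y) (hu : u ≠ 0) (hb : b ≠ 0)
    (hab : (D.Γevaluation y).hom a = (g.residueFieldMap y).hom u * b ^ p ^ r) :
    ∃ (D' : Scheme.{u}) (ι : D' ⟶ D) (G : W.Opens) (f : D' ⟶ G.toScheme) (τ : Γ(G.toScheme, ⊤)ˣ)
      (β : Γ(D', ⊤)ˣ), IsOpenImmersion ι ∧ g y ∈ G ∧ Function.Surjective f ∧ f ≫ G.ι = ι ≫ g ∧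
      ι.appTop.hom a = f.appTop.hom τ * (β : Γ(D', ⊤)) ^ p ^ r := by
  obtain ⟨G₁, τ, hG₁, hτ⟩ := H90_spr (g y) u hu
  obtain ⟨D₁, β, hD₁, hβ⟩ := H90_spr y b hb
  let D₂ : D.Opens := (g ⁻¹ᵁ G₁) ⊓ D₁
  have hyD₂ : y ∈ D₂ := ⟨hG₁, hD₁⟩
  have hf₁ : Set.range (D₂.ι ≫ g) ⊆ Set.range G₁.ι := by
    rw [Scheme.Opens.range_ι]
    rintro _ ⟨x, rfl⟩
    rw [Scheme.Hom.comp_apply]
    exact x.2.1
  let f₁ : D₂.toScheme ⟶ G₁.toScheme := IsOpenImmersion.lift G₁.ι (D₂.ι ≫ g) hf₁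
  have hf₁' : f₁ ≫ G₁.ι = D₂.ι ≫ g := IsOpenImmersion.lift_fac _ _ _
  let f₂ : D₂.toScheme ⟶ D₁.toScheme := D.homOfLE inf_le_right
  have hf₂' : f₂ ≫ D₁.ι = D₂.ι := Scheme.homOfLE_ι _ _
  let q : Spec (.of (D.residueField y)) := IsLocalRing.closedPoint (D.residueField y)
  let idL : D.residueField y ⟶ .of (D.residueField y) :=
    CommRingCat.ofHom (RingHom.id (D.residueField y))
  let t₀ : Spec (.of (D.residueField y)) ⟶ D := Spec.map idL ≫ D.fromSpecResidueField y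
  have ht₀ : ∀ q, t₀ q = y := by
    intro q
    show (Spec.map idL ≫ D.fromSpecResidueField y) q = y
    rw [Scheme.Hom.comp_apply, Scheme.fromSpecResidueField_apply]
  have hr₀ : Set.range t₀ ⊆ Set.range D₂.ι := by
    rw [Scheme.Opens.range_ι]
    rintro _ ⟨x, rfl⟩
    rw [ht₀]
    exact hyD₂
  let t₂ : Spec (.of (D.residueField y)) ⟶ D₂.toScheme := IsOpenImmersion.lift D₂.ι t₀ hr₀
  have ht₂ : t₂ ≫ D₂.ι = t₀ := IsOpenImmersion.lift_fac _ _ _
  have e1 : H90_ev t₂ (D₂.ι.appTop.hom a) = (D.Γevaluation y).hom a := by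
    rw [← H90_ev_comp, ht₂, H90_ev_res]
    rfl
  have e2 : H90_ev t₂ (f₁.appTop.hom τ) = (g.residueFieldMap y).hom u := by
    rw [← H90_ev_comp]
    have h4 : (t₂ ≫ f₁) ≫ G₁.ι = Spec.map (g.residueFieldMap y ≫ idL) ≫
        W.fromSpecResidueField (g y) := by
      rw [Category.assoc, hf₁', ← Category.assoc, ht₂, Category.assoc,
        ← Scheme.Hom.SpecMap_residueFieldMap_fromSpecResidueField, Spec.map_comp, Category.assoc]
    rw [hτ _ _ _ h4]
    rfl
  have e3 : H90_ev t₂ (f₂.appTop.hom β) = b := by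
    rw [← H90_ev_comp]
    have h4 : (t₂ ≫ f₂) ≫ D₁.ι = Spec.map idL ≫ D.fromSpecResidueField y := by
      rw [Category.assoc, hf₂', ht₂]
    rw [hβ _ _ _ h4]
    rfl
  have hpt' : D₂.ι (t₂ q) = y := by
    rw [← Scheme.Hom.comp_apply, ht₂, ht₀]
  have hpt : (D₂.ι ≫ g) (t₂ q) = g y := by
    rw [Scheme.Hom.comp_apply, hpt']
  have hinj : Function.Injective (D₂.toScheme.residue (t₂ q)).hom := by
    apply H90_inj (D₂.ι ≫ g) (t₂ q)
    rw [hpt]
    exact hη
  obtain ⟨U₃, hU₃, hE⟩ := H90_eqs (t₂ q) hinj t₂ q rfl (D₂.ι.appTop.hom a)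
    (f₁.appTop.hom τ * (f₂.appTop.hom β) ^ p ^ r) (by
      rw [e1, map_mul, map_pow, e2, e3, hab])
  have hop : IsOpenMap (U₃.ι ≫ D₂.ι ≫ g) := (U₃.ι ≫ D₂.ι ≫ g).isOpenMap
  let G : W.Opens := ⟨Set.range (U₃.ι ≫ D₂.ι ≫ g), hop.isOpen_range⟩
  have hGG : G ≤ G₁ := by
    rintro _ ⟨x, rfl⟩
    have h4 := (U₃.ι x).2.1
    rw [Scheme.Hom.comp_apply, Scheme.Hom.comp_apply]
    exact h4
  have hrf : Set.range (U₃.ι ≫ D₂.ι ≫ g) ⊆ Set.range G.ι := by
    rw [Scheme.Opens.range_ι]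
    exact subset_rfl
  let f : U₃.toScheme ⟶ G.toScheme := IsOpenImmersion.lift G.ι (U₃.ι ≫ D₂.ι ≫ g) hrf
  have hf : f ≫ G.ι = U₃.ι ≫ D₂.ι ≫ g := IsOpenImmersion.lift_fac _ _ _
  refine ⟨U₃.toScheme, U₃.ι ≫ D₂.ι, G, f,
    Units.map ((W.homOfLE hGG).appTop.hom : Γ(G₁.toScheme, ⊤) →* Γ(G.toScheme, ⊤)) τ,
    Units.map ((U₃.ι ≫ f₂).appTop.hom : Γ(D₁.toScheme, ⊤) →* Γ(U₃.toScheme, ⊤)) β,
    inferInstance, ?_, ?_, ?_, ?_⟩
  · have h10 : t₂ q ∈ Set.range U₃.ι := by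
      rw [Scheme.Opens.range_ι]
      exact hU₃
    obtain ⟨z₃, hz₃⟩ := h10
    refine ⟨z₃, ?_⟩
    rw [Scheme.Hom.comp_apply, hz₃]
    exact hpt
  · rintro ⟨w, x, hx⟩
    refine ⟨x, ?_⟩
    apply G.ι.injective
    rw [← Scheme.Hom.comp_apply, hf, hx]
    rfl
  · rw [hf, Category.assoc]
  · have h5 : f ≫ W.homOfLE hGG = U₃.ι ≫ f₁ := by
      rw [← cancel_mono G₁.ι, Category.assoc, Category.assoc, Scheme.homOfLE_ι, hf, hf₁']
    have h6 : f.appTop.hom ((W.homOfLE hGG).appTop.hom τ) = U₃.ι.appTop.hom (f₁.appTop.hom τ) := by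
      have h7 : (f ≫ W.homOfLE hGG).appTop.hom τ = (U₃.ι ≫ f₁).appTop.hom τ := by rw [h5]
      rw [Scheme.Hom.comp_appTop, Scheme.Hom.comp_appTop] at h7
      exact h7
    have h8 : (U₃.ι ≫ f₂).appTop.hom β = U₃.ι.appTop.hom (f₂.appTop.hom β) := by
      rw [Scheme.Hom.comp_appTop]
      rfl
    have h9 : (U₃.ι ≫ D₂.ι).appTop.hom a = U₃.ι.appTop.hom (D₂.ι.appTop.hom a) := by
      rw [Scheme.Hom.comp_appTop]
      rfl
    rw [h9, hE, map_mul, map_pow, ← h6, ← h8]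
    rfl

theorem thm_H90 (h1 : St_Br.{u}) (_h2 : St_Kf.{u}) (h3 : St_H90a.{u}) : St_H90.{u} := by
  intro p r _ X hp W η hη s
  obtain ⟨B1, B2, B3, B4, B5, B6⟩ := h1 p r X
  obtain ⟨D, g, y, a, rfl, hs⟩ := B4 W s η
  have hpW : (p : Γ(W.left, ⊤)) = 0 := by
    have e1 : (W.hom.appTop).hom (p : Γ(X, ⊤)) = (p : Γ(W.left, ⊤)) := map_natCast _ p
    rw [← e1, hp, map_zero]
  obtain ⟨u, b, hu, hb, hab⟩ := H90_hab h3 p r hpW g.left y a
    (fun Ω _ _ α β h => H90_coc h1 p r g s a hs Ω α β h)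
  obtain ⟨D', ι, G, f, τ, β, hι, hyG, hfs, hf, hE⟩ := H90_geo p r g.left y hη a u b hu hb hab
  let τ' : Γ((opn W G).left, ⊤)ˣ := τ
  refine ⟨G, τ', hyG, ?_⟩
  rw [← sub_eq_zero]
  apply B6
  intro w
  obtain ⟨v, hv⟩ := hfs w
  have hD : g.left ≫ W.hom = D.hom := g.w
  let V : X.Etale := Scheme.Etale.mk (ι ≫ D.hom)
  let k : V ⟶ D := MorphismProperty.Over.homMk ι rfl trivial
  let g' : V ⟶ opn W G := MorphismProperty.Over.homMk f (by
    show f ≫ G.ι ≫ W.hom = ι ≫ D.hom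
    rw [← Category.assoc, hf, Category.assoc, hD]) trivial
  have hk : g' ≫ opi W G = k ≫ g := H90_ext hf
  have e1 : ∀ (A B C : X.Etale) (i : A ⟶ B) (j : B ⟶ C) (t : (GmS p r X).obj.obj (op C)),
      ((GmS p r X).obj.map i.op).hom (((GmS p r X).obj.map j.op).hom t) =
        ((GmS p r X).obj.map (i ≫ j).op).hom t := by
    intro A B C i j t
    rw [op_comp, Functor.map_comp]
    rfl
  have e2 : ((GmS p r X).obj.map g'.op).hom (((GmS p r X).obj.map (opi W G).op).hom s) =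
      br p r (rsU k a) := by
    rw [e1, hk, ← e1, hs, B3]
  let β' : Γ(V.left, ⊤)ˣ := β
  have e3 : rsU k a = rsU g' τ' * β' ^ p ^ r := Units.ext hE
  have e4 := B3 (opn W G) V g' τ'
  refine ⟨V, g', v, hv, ?_⟩
  rw [map_sub, e2, e4, e3, B1, B2, add_zero, sub_self]

end TPU
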