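import Pool.Agent.TPU.St5

/-!
# TPU, module H90a: Hilbert 90 modulo `p^r`-th powers
-/

set_option autoImplicit false

universe u

open CategoryTheory Limits AlgebraicGeometry Opposite

namespace TPU

open IntermediateField in
private lemma H90a_mem (F E : Type u) [Field F] [Field E] [Algebra F E] [Algebra.IsSeparable F E]
    (p : ℕ) [Fact p.Prime] [CharP F p] (x : E) (n : ℕ) (h : ∃ y : F, algebraMap F E y = x ^ p ^ n) :
    ∃ y : F, algebraMap F E y = x := by
  have : ExpChar F p := ExpChar.prime Fact.out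
  have h1 : Algebra.IsSeparable F F⟮x⟯ := Algebra.isSeparable_tower_bot_of_isSeparable F F⟮x⟯ E
  have h2 : IsPurelyInseparable F F⟮x⟯ :=
    (isPurelyInseparable_adjoin_simple_iff_pow_mem F E p).2 ⟨n, h⟩
  have hx' := mem_adjoin_simple_self F x
  rw [F⟮x⟯.eq_bot_of_isPurelyInseparable_of_isSeparable, mem_bot] at hx'
  exact hx'

private lemma H90a_inj (E : Type u) [Field E] (p : ℕ) [Fact p.Prime] [CharP E p] (n : ℕ) (x y : E)
    (h : x ^ p ^ n = y ^ p ^ n) : x = y := by
  have : ExpChar E p := ExpChar.prime Fact.out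
  exact iterateFrobenius_inj E p n h

theorem thm_H90a : St_H90a.{u} := by
  intro p r _ K L _ _ _ _ _ _ a ha hc
  let Ω : Type u := SeparableClosure K
  let i₀ : L →ₐ[K] Ω := IsSepClosed.lift
  let M : IntermediateField K Ω := IntermediateField.normalClosure K L Ω
  have hM1 : FiniteDimensional K M := inferInstanceAs (FiniteDimensional K (IntermediateField.normalClosure K L Ω))
  have hM2 : Algebra.IsSeparable K M := Algebra.isSeparable_tower_bot_of_isSeparable K M Ω
  have hM3 : Normal K M := inferInstanceAs (Normal K (IntermediateField.normalClosure K L Ω))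
  have hM4 : IsGalois K M := ⟨⟩
  let i : L →ₐ[K] M := i₀.codRestrict M.toSubalgebra
    fun x => AlgHom.fieldRange_le_normalClosure i₀ ⟨x, rfl⟩
  have hKM : CharP M p := charP_of_injective_algebraMap (algebraMap K M).injective p
  -- the elements `c σ`
  have hcσ : ∀ σ : M ≃ₐ[K] M, ∃ c : M, σ (i a) = i a * c ^ p ^ r := by
    intro σ
    obtain ⟨c, hc1⟩ := hc Ω ((M.val.comp (σ : M →ₐ[K] M)).comp i) (M.val.comp i)
    have hc2 : ((σ (i a) : M) : Ω) = ((i a : M) : Ω) * c ^ p ^ r := hc1
    have hia : ((i a : M) : Ω) ≠ 0 := by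
      intro h0
      apply ha
      apply (M.val.comp i).injective
      rw [map_zero]
      exact h0
    have h3 : ∃ y : M, algebraMap M Ω y = c ^ p ^ r := by
      refine ⟨σ (i a) / i a, ?_⟩
      rw [map_div₀, div_eq_iff (by exact hia)]
      show ((σ (i a) : M) : Ω) = c ^ p ^ r * ((i a : M) : Ω)
      rw [hc2, mul_comm]
    have hs : Algebra.IsSeparable M Ω := Algebra.isSeparable_tower_top_of_isSeparable K M Ω
    obtain ⟨y, hy⟩ := H90a_mem M Ω p c r h3
    refine ⟨y, ?_⟩
    apply (algebraMap M Ω).injective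
    rw [map_mul, map_pow, hy]
    exact hc2
  choose c hcc using hcσ
  have hia : i a ≠ 0 := by
    intro h0
    apply ha
    apply i.injective
    rw [map_zero]
    exact h0
  have hc0 : ∀ σ, c σ ≠ 0 := by
    intro σ h0
    have h1 := hcc σ
    rw [h0, zero_pow (pow_ne_zero _ (Fact.out : p.Prime).ne_zero), mul_zero] at h1
    exact hia (σ.injective (by rw [h1, map_zero]))
  let f : (M ≃ₐ[K] M) → Mˣ := fun σ => Units.mk0 (c σ) (hc0 σ)
  have hf : groupCohomology.IsMulCocycle₁ f := by
    intro σ τ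
    apply Units.ext
    show c (σ * τ) = σ (c τ) * c σ
    apply H90a_inj M p r
    apply mul_left_cancel₀ hia
    rw [← hcc (σ * τ), AlgEquiv.mul_apply, hcc τ, map_mul, hcc σ, map_pow, mul_pow]
    ring
  obtain ⟨b, hb⟩ := groupCohomology.isMulCoboundary₁_of_isMulCocycle₁_of_aut_to_units f hf
  have hb' : ∀ σ : M ≃ₐ[K] M, σ (b : M) = c σ * b := by
    intro σ
    have h1 := hb σ
    rw [div_eq_iff_eq_mul] at h1
    exact congrArg Units.val h1
  have hb0 : (b : M) ≠ 0 := b.ne_zero
  have hfix : ∀ σ : M ≃ₐ[K] M, σ (i a / (b : M) ^ p ^ r) = i a / (b : M) ^ p ^ r := by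
    intro σ
    rw [map_div₀, map_pow, hb', hcc, mul_pow, mul_comm (c σ ^ p ^ r)]
    rw [mul_div_mul_right _ _ (pow_ne_zero _ (hc0 σ))]
  obtain ⟨u, hu⟩ := (IsGalois.mem_range_algebraMap_iff_fixed (F := K) (E := M)
    (i a / (b : M) ^ p ^ r)).mpr hfix
  have hu0 : u ≠ 0 := by
    intro h0
    rw [h0, map_zero] at hu
    exact (div_ne_zero hia (pow_ne_zero _ hb0)) hu.symm
  have hu' : i a = algebraMap K M u * (b : M) ^ p ^ r := by
    rw [hu, div_mul_cancel₀ _ (pow_ne_zero _ hb0)]
  -- `b` is in the image of `L`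
  let _ : Algebra L M := i.toRingHom.toAlgebra
  have hst : IsScalarTower K L M := IsScalarTower.of_algebraMap_eq fun x => (i.commutes x).symm
  have hs : Algebra.IsSeparable L M := Algebra.isSeparable_tower_top_of_isSeparable K L M
  have hLp : CharP L p := charP_of_injective_algebraMap (algebraMap K L).injective p
  obtain ⟨b', hb''⟩ := H90a_mem L M p (b : M) r ⟨a / algebraMap K L u, by
    rw [map_div₀, div_eq_iff]
    · show i a = (b : M) ^ p ^ r * i (algebraMap K L u)
      rw [i.commutes, hu', mul_comm]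
    · show i (algebraMap K L u) ≠ 0
      rw [i.commutes]
      exact fun h0 => hu0 ((algebraMap K M).injective (by rw [h0, map_zero]))⟩
  refine ⟨u, b', ?_⟩
  have e : i b' = (b : M) := hb''
  have e2 : i a = i (algebraMap K L u * b' ^ p ^ r) := by
    rw [map_mul, map_pow, i.commutes, e]
    exact hu'
  exact i.injective e2

end TPU
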