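import Pool.Agent.TPU.St5

/-!
# TPU: module OrdE, existence of the order of a section of `G_m/p^r` (helper19)
-/

set_option autoImplicit false

universe u

open CategoryTheory Limits AlgebraicGeometry Opposite

namespace TPU

/-! ### sections over open subsets -/

private noncomputable def OrdE_rs {Y : Scheme.{u}} {O O' : Y.Opens} (h : O' ≤ O) :
    Γ(Y, O) →+* Γ(Y, O') := (Y.presheaf.map (homOfLE h).op).hom

private noncomputable def OrdE_ev {Y A : Scheme.{u}} (q : A ⟶ Y) (O : Y.Opens)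
    (h : ∀ x : A, q x ∈ O) : Γ(Y, O) →+* Γ(A, ⊤) :=
  (q.appLE O ⊤ (fun x _ => h x)).hom

private theorem OrdE_ev_res {Y A : Scheme.{u}} (q : A ⟶ Y) {O O' : Y.Opens} (hle : O' ≤ O)
    (h : ∀ x : A, q x ∈ O) (h' : ∀ x : A, q x ∈ O') (s : Γ(Y, O)) :
    OrdE_ev q O' h' (OrdE_rs hle s) = OrdE_ev q O h s := by
  have h1 := Scheme.Hom.map_appLE q (U := O') (V := ⊤) (fun x _ => h' x) (homOfLE hle).op
  exact congrArg (fun t => t.hom s) h1

private theorem OrdE_ev_comp {Y A B : Scheme.{u}} (k : B ⟶ A) (q : A ⟶ Y) {q' : B ⟶ Y}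
    (hq : k ≫ q = q') (O : Y.Opens)
    (h : ∀ x : A, q x ∈ O) (h' : ∀ x : B, q' x ∈ O) (s : Γ(Y, O)) :
    (k.appTop).hom (OrdE_ev q O h s) = OrdE_ev q' O h' s := by
  subst hq
  have h1 := Scheme.Hom.appLE_comp_appLE k q O ⊤ ⊤ (fun x _ => h x) le_top
  have h2 : k.appLE ⊤ ⊤ le_top = k.appTop := Scheme.Hom.appLE_eq_app k
  rw [h2] at h1
  exact congrArg (fun t => t.hom s) h1

private theorem OrdE_ev_surj {Y A : Scheme.{u}} (q : A ⟶ Y) [IsOpenImmersion q] (s : Γ(A, ⊤)) :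
    ∃ t : Γ(Y, q.opensRange), OrdE_ev q q.opensRange (fun x => ⟨x, rfl⟩) t = s ∧
      (IsUnit s → IsUnit t) := by
  have h1 : IsIso (q.app q.opensRange) := q.isIso_app q.opensRange le_rfl
  have h2 : (⊤ : A.Opens) ≤ q ⁻¹ᵁ q.opensRange := fun x _ => ⟨x, rfl⟩
  have h3 : IsIso (A.presheaf.map (homOfLE h2).op) := by
    have : IsIso (homOfLE h2) := by
      have e : (⊤ : A.Opens) = q ⁻¹ᵁ q.opensRange := (Scheme.Hom.preimage_opensRange q).symm
      exact ⟨homOfLE e.ge, rfl, rfl⟩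
    infer_instance
  have h4 : IsIso (q.appLE q.opensRange ⊤ h2) := by
    unfold Scheme.Hom.appLE
    infer_instance
  refine ⟨(inv (q.appLE q.opensRange ⊤ h2)).hom s, ?_, fun h => h.map _⟩
  have h5 : inv (q.appLE q.opensRange ⊤ h2) ≫ q.appLE q.opensRange ⊤ h2 = 𝟙 _ :=
    IsIso.inv_hom_id _
  exact congrArg (fun t => t.hom s) h5

private theorem OrdE_ev_germ {Y A : Scheme.{u}} (q : A ⟶ Y) (O : Y.Opens)
    (h : ∀ x : A, q x ∈ O) (s : Γ(Y, O)) (x : A) :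
    (A.presheaf.germ ⊤ x trivial).hom (OrdE_ev q O h s) =
      (q.stalkMap x).hom ((Y.presheaf.germ O (q x) (h x)).hom s) := by
  have h1 := Scheme.Hom.germ_stalkMap q O x (h x)
  have h2 : q.appLE O ⊤ (fun x _ => h x) ≫ A.presheaf.germ ⊤ x trivial =
      q.app O ≫ A.presheaf.germ (q ⁻¹ᵁ O) x (h x) := by
    unfold Scheme.Hom.appLE
    rw [Category.assoc]
    congr 1
    exact A.presheaf.germ_res (homOfLE (show (⊤ : A.Opens) ≤ q ⁻¹ᵁ O from fun x _ => h x)) x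
      (show x ∈ (⊤ : A.Opens) from trivial)
  rw [← h2] at h1
  exact (congrArg (fun t => t.hom s) h1).symm

private theorem OrdE_germ_top {Y A : Scheme.{u}} (q : A ⟶ Y) (s : Γ(Y, ⊤)) (x : A) :
    (A.presheaf.germ ⊤ x trivial).hom ((q.appTop).hom s) =
      (q.stalkMap x).hom ((Y.presheaf.germ ⊤ (q x) trivial).hom s) :=
  (Scheme.Hom.germ_stalkMap_apply q ⊤ x trivial s).symm

private theorem OrdE_germ_rs {Y : Scheme.{u}} {O O' : Y.Opens} (h : O' ≤ O) (x : Y) (hx : x ∈ O')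
    (s : Γ(Y, O)) : (Y.presheaf.germ O' x hx).hom (OrdE_rs h s) =
      (Y.presheaf.germ O x (h hx)).hom s :=
  Y.presheaf.germ_res_apply (homOfLE h) x hx s

private theorem OrdE_rs_rs {Y : Scheme.{u}} {O O' O'' : Y.Opens} (h : O' ≤ O) (h' : O'' ≤ O')
    (s : Γ(Y, O)) : OrdE_rs h' (OrdE_rs h s) = OrdE_rs (h'.trans h) s := by
  have h1 : Y.presheaf.map (homOfLE h).op ≫ Y.presheaf.map (homOfLE h').op =
      Y.presheaf.map (homOfLE (h'.trans h)).op := by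
    rw [← Functor.map_comp]
    rfl
  exact congrArg (fun t => t.hom s) h1

private theorem OrdE_germ_ex {Y : Scheme.{u}} (z : Y) (α : Y.presheaf.stalk z) (hα : IsUnit α) :
    ∃ (N : Y.Opens) (hz : z ∈ N) (s : Γ(Y, N)), IsUnit s ∧ (Y.presheaf.germ N z hz).hom s = α := by
  obtain ⟨U, hU, s, hs⟩ := Y.presheaf.exists_germ_eq α
  have h1 : IsUnit ((Y.presheaf.germ U z hU).hom s) := by
    rw [show (Y.presheaf.germ U z hU).hom s = α from hs]
    exact hα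
  obtain ⟨V, i, hV, h2⟩ := RingedSpace.isUnit_res_of_isUnit_germ Y.toRingedSpace U s z hU h1
  refine ⟨V, hV, OrdE_rs i.le s, h2, ?_⟩
  rw [OrdE_germ_rs]
  exact hs

private theorem OrdE_germ_sp {Y : Scheme.{u}} {z η : Y} (h : η ⤳ z) (O : Y.Opens) (hz : z ∈ O)
    (s : Γ(Y, O)) : (Y.presheaf.stalkSpecializes h).hom ((Y.presheaf.germ O z hz).hom s) =
      (Y.presheaf.germ O η (h.mem_open O.2 hz)).hom s := by
  have h1 := Y.presheaf.germ_stalkSpecializes hz h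
  exact congrArg (fun t => t.hom s) h1

private theorem OrdE_spread (Y : Scheme.{u}) (z η : Y) (h : η ⤳ z)
    (hdvr : IsDvr (Y.presheaf.stalk z))
    (hfr : ∀ x : Y.residueField η, ∃ a b, spz h b ≠ 0 ∧ x * spz h b = spz h a)
    (hres : Function.Injective (Y.residue η).hom) (V₁ : Y.Opens) (hz : z ∈ V₁) (π : Γ(Y, V₁))
    (hπ : IsLocalRing.maximalIdeal (Y.presheaf.stalk z) =
      Ideal.span {(Y.presheaf.germ V₁ z hz).hom π})
    (G : Y.Opens) (hη : η ∈ G) (u : Γ(Y, G)) (hu : IsUnit u) :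
    ∃ (N : Y.Opens) (_ : z ∈ N) (hN : N ≤ V₁) (α β : Γ(Y, N)) (m l : ℕ) (O : Y.Opens)
      (_ : η ∈ O) (h1 : O ≤ G) (h2 : O ≤ N), IsUnit α ∧ IsUnit β ∧
      OrdE_rs h1 u * (OrdE_rs h2 β * OrdE_rs (h2.trans hN) π ^ l) =
        OrdE_rs h2 α * OrdE_rs (h2.trans hN) π ^ m := by
  obtain ⟨hdom, hdv⟩ := hdvr
  obtain ⟨a, b, hb, hab⟩ := hfr ((Y.residue η).hom ((Y.presheaf.germ G η hη).hom u))
  have hirr : Irreducible ((Y.presheaf.germ V₁ z hz).hom π) :=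
    (IsDiscreteValuationRing.irreducible_iff_uniformizer _).2 hπ
  have hb0 : b ≠ 0 := by
    rintro rfl
    exact hb (map_zero _)
  have ha0 : a ≠ 0 := by
    rintro rfl
    rw [map_zero] at hab
    have h1 : IsUnit ((Y.residue η).hom ((Y.presheaf.germ G η hη).hom u)) :=
      (hu.map (Y.presheaf.germ G η hη).hom).map (Y.residue η).hom
    exact hb ((h1.mul_right_eq_zero).1 hab)
  obtain ⟨m, α, hα⟩ := IsDiscreteValuationRing.eq_unit_mul_pow_irreducible ha0 hirr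
  obtain ⟨l, β, hβ⟩ := IsDiscreteValuationRing.eq_unit_mul_pow_irreducible hb0 hirr
  have hab2 : (Y.presheaf.germ G η hη).hom u * (Y.presheaf.stalkSpecializes h).hom b =
      (Y.presheaf.stalkSpecializes h).hom a := by
    apply hres
    rw [map_mul]
    exact hab
  obtain ⟨Na, hNa, sa, hsa, hsa2⟩ := OrdE_germ_ex z (α : Y.presheaf.stalk z) α.isUnit
  obtain ⟨Nb, hNb, sb, hsb, hsb2⟩ := OrdE_germ_ex z (β : Y.presheaf.stalk z) β.isUnit
  obtain ⟨N, hN⟩ : ∃ N, N = Na ⊓ Nb ⊓ V₁ := ⟨_, rfl⟩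
  have h1 : N ≤ Na := by
    rw [hN]
    exact inf_le_left.trans inf_le_left
  have h2 : N ≤ Nb := by
    rw [hN]
    exact inf_le_left.trans inf_le_right
  have h3 : N ≤ V₁ := by
    rw [hN]
    exact inf_le_right
  have hzN : z ∈ N := by
    rw [hN]
    exact ⟨⟨hNa, hNb⟩, hz⟩
  have hηN : η ∈ N := h.mem_open N.2 hzN
  have hgN : N ⊓ G ≤ N := inf_le_left
  have hgG : N ⊓ G ≤ G := inf_le_right
  have hηO : η ∈ N ⊓ G := ⟨hηN, hη⟩
  have e1 : ∀ (t : Γ(Y, N)), (Y.presheaf.germ (N ⊓ G) η hηO).hom (OrdE_rs hgN t) =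
      (Y.presheaf.stalkSpecializes h).hom ((Y.presheaf.germ N z hzN).hom t) := by
    intro t
    rw [OrdE_germ_rs, OrdE_germ_sp]
  have e3 : (Y.presheaf.germ N z hzN).hom (OrdE_rs h2 sb * OrdE_rs h3 π ^ l) = b := by
    rw [map_mul, map_pow, OrdE_germ_rs, OrdE_germ_rs, hsb2]
    exact hβ.symm
  have e4 : (Y.presheaf.germ N z hzN).hom (OrdE_rs h1 sa * OrdE_rs h3 π ^ m) = a := by
    rw [map_mul, map_pow, OrdE_germ_rs, OrdE_germ_rs, hsa2]
    exact hα.symm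
  have e2 : (Y.presheaf.germ (N ⊓ G) η hηO).hom
      (OrdE_rs hgG u * (OrdE_rs hgN (OrdE_rs h2 sb * OrdE_rs h3 π ^ l))) =
      (Y.presheaf.germ (N ⊓ G) η hηO).hom (OrdE_rs hgN (OrdE_rs h1 sa * OrdE_rs h3 π ^ m)) := by
    rw [map_mul, e1, e1, e3, e4, OrdE_germ_rs]
    exact hab2
  obtain ⟨O, hO, i1, i2, h4⟩ := Y.presheaf.germ_eq η hηO hηO _ _ e2
  have hOG : O ≤ G := i1.le.trans hgG
  have hON : O ≤ N := i1.le.trans hgN
  have h5 : OrdE_rs i1.le (OrdE_rs hgG u * (OrdE_rs hgN (OrdE_rs h2 sb * OrdE_rs h3 π ^ l))) =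
      OrdE_rs i1.le (OrdE_rs hgN (OrdE_rs h1 sa * OrdE_rs h3 π ^ m)) := h4
  refine ⟨N, hzN, h3, OrdE_rs h1 sa, OrdE_rs h2 sb, m, l, O, hO, hOG, hON, hsa.map _, hsb.map _,
    ?_⟩
  rw [map_mul, OrdE_rs_rs, OrdE_rs_rs, OrdE_rs_rs, map_mul, map_mul, map_pow, map_pow,
    OrdE_rs_rs, OrdE_rs_rs, OrdE_rs_rs] at h5
  rw [OrdE_rs_rs, OrdE_rs_rs]
  exact h5

/-! ### open immersions and stalks -/

private theorem OrdE_max {R S : Type u} [CommRing R] [CommRing S] [IsLocalRing R] [IsLocalRing S]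
    (e : R ≃+* S) (a : R) : IsLocalRing.maximalIdeal S = Ideal.span {e a} ↔
      IsLocalRing.maximalIdeal R = Ideal.span {a} := by
  have h1 : ∀ x : R, e x ∈ IsLocalRing.maximalIdeal S ↔ x ∈ IsLocalRing.maximalIdeal R := by
    intro x
    rw [IsLocalRing.mem_maximalIdeal, IsLocalRing.mem_maximalIdeal, mem_nonunits_iff,
      mem_nonunits_iff, MulEquiv.isUnit_map]
  have h2 : ∀ x : R, e x ∈ Ideal.span {e a} ↔ x ∈ Ideal.span {a} := by
    intro x
    rw [Ideal.mem_span_singleton, Ideal.mem_span_singleton, map_dvd_iff]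
  constructor
  · intro h
    ext x
    rw [← h1, ← h2, h]
  · intro h
    ext y
    obtain ⟨x, rfl⟩ := e.surjective y
    rw [h1, h2, h]

private theorem OrdE_stalk {Y A : Scheme.{u}} (q : A ⟶ Y) [IsOpenImmersion q] (x : A) :
    ∃ e : Y.presheaf.stalk (q x) ≃+* A.presheaf.stalk x, ∀ y, e y = (q.stalkMap x).hom y :=
  ⟨(asIso (q.stalkMap x)).commRingCatIsoToRingEquiv, fun _ => rfl⟩

private theorem OrdE_gen {Y A : Scheme.{u}} (q : A ⟶ Y) [IsOpenImmersion q] (x : A)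
    (O : Y.Opens) (h : ∀ x : A, q x ∈ O) (t : Γ(Y, O))
    (h1 : IsLocalRing.maximalIdeal (A.presheaf.stalk x) =
      Ideal.span {(A.presheaf.germ ⊤ x trivial).hom (OrdE_ev q O h t)}) :
    IsLocalRing.maximalIdeal (Y.presheaf.stalk (q x)) =
      Ideal.span {(Y.presheaf.germ O (q x) (h x)).hom t} := by
  obtain ⟨e, he⟩ := OrdE_stalk q x
  rw [OrdE_ev_germ, ← he] at h1
  exact (OrdE_max e _).1 h1

private theorem OrdE_res {Y A : Scheme.{u}} (q : A ⟶ Y) [IsOpenImmersion q] (x : A)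
    (h : Function.Injective (Y.residue (q x)).hom) : Function.Injective (A.residue x).hom := by
  obtain ⟨e, he⟩ := OrdE_stalk q x
  rw [injective_iff_map_eq_zero] at h ⊢
  intro y hy
  obtain ⟨y', rfl⟩ := e.surjective y
  have h1 : e y' ∈ IsLocalRing.maximalIdeal (A.presheaf.stalk x) :=
    (IsLocalRing.residue_eq_zero_iff _).1 hy
  have h2 : y' ∈ IsLocalRing.maximalIdeal (Y.presheaf.stalk (q x)) := by
    rw [IsLocalRing.mem_maximalIdeal, mem_nonunits_iff, MulEquiv.isUnit_map] at h1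
    exact h1
  have h3 : (Y.residue (q x)).hom y' = 0 := (IsLocalRing.residue_eq_zero_iff _).2 h2
  rw [h y' h3, map_zero]

variable {X : Scheme.{u}}

private theorem OrdE_ext {A B : X.Etale} {a b : A ⟶ B} (h : a.left = b.left) : a = b := by
  apply (Scheme.Etale.forgetFullyFaithful X).map_injective
  exact Over.OverMorphism.ext h

private theorem OrdE_w {A B : X.Etale} (i : A ⟶ B) (x : A.left) : B.hom (i.left x) = A.hom x := by
  have hw : i.left ≫ B.hom = A.hom := MorphismProperty.Over.w i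
  rw [← hw]
  rfl

private theorem OrdE_lift {A B D : X.Etale} (i : A ⟶ B) [IsOpenImmersion i.left] (k : D ⟶ B)
    (h : ∀ d, ∃ x, i.left x = k.left d) : ∃ l : D ⟶ A, l ≫ i = k := by
  have hr : Set.range k.left ⊆ Set.range i.left := by
    rintro _ ⟨d, rfl⟩
    exact h d
  refine ⟨MorphismProperty.Over.homMk (IsOpenImmersion.lift i.left k.left hr) ?_ trivial, ?_⟩
  · have hw : i.left ≫ B.hom = A.hom := i.w
    have hw' : k.left ≫ B.hom = D.hom := k.w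
    rw [← hw, ← hw', IsOpenImmersion.lift_fac_assoc]
  · apply OrdE_ext
    exact IsOpenImmersion.lift_fac _ _ _

private theorem OrdE_pull {Z : Set X} {V V' : X.Etale} (i : V' ⟶ V) [IsOpenImmersion i.left]
    {z' : V'.left} {z : V.left} (hz : i.left z' = z) {π : Γ(V.left, ⊤)} (h : Par Z V z π) :
    Par Z V' z' ((i.left.appTop).hom π) := by
  subst hz
  have hinj : Function.Injective i.left := i.left.isOpenEmbedding.injective
  refine ⟨?_, ?_, ?_, ?_⟩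
  · rw [← OrdE_w i]
    exact h.mem
  · intro x hx
    rw [← OrdE_w i] at hx
    exact hinj (h.only _ hx)
  · obtain ⟨e, he⟩ := OrdE_stalk i.left z'
    rw [OrdE_germ_top, ← he, OrdE_max]
    exact h.gen
  · intro x hx
    rw [OrdE_germ_top]
    exact (h.inv (i.left x) (fun h1 => hx (hinj h1))).map _

private theorem OrdE_unit {Z : Set X} {V D : X.Etale} (q : D ⟶ V) (hD : ∀ d, D.hom d ∉ Z)
    {z : V.left} {π : Γ(V.left, ⊤)} (h : Par Z V z π) : IsUnit ((q.left.appTop).hom π) := by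
  refine RingedSpace.isUnit_of_isUnit_germ D.left.toRingedSpace ⊤ _ ?_
  intro x hx
  have h1 : (D.left.presheaf.germ ⊤ x trivial).hom ((q.left.appTop).hom π) =
      (q.left.stalkMap x).hom ((V.left.presheaf.germ ⊤ (q.left x) trivial).hom π) :=
    OrdE_germ_top q.left π x
  have h2 : IsUnit ((D.left.presheaf.germ ⊤ x trivial).hom ((q.left.appTop).hom π)) := by
    rw [h1]
    refine (h.inv (q.left x) (fun h3 => hD x ?_)).map _
    rw [← OrdE_w q, h3]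
    exact h.mem
  exact h2

theorem thm_OrdE (h1 : St_Gen.{u}) (h2 : St_EtDvr.{u}) (h3 : St_UW.{u}) (h4 : St_H90.{u})
    (h5 : St_Br.{u}) (h6 : St_ParE.{u}) : St_OrdE.{u} := by
  intro p r _ X _ hp Z hZ hdvr W s z hz
  have het : Etale W.hom := inferInstance
  have hdz : IsDvr (W.left.presheaf.stalk z) := h2 W.left X W.hom z (hdvr _ hz)
  obtain ⟨η, hsp, hne, -, -, hfr, hres, hnd⟩ := h1 W.left z hdz
  have hηZ : W.hom η ∉ Z := fun h => hnd (h2 W.left X W.hom η (hdvr _ h))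
  obtain ⟨hoi, hmono, hrange, -⟩ := h3 X Z hZ W
  have hη0 : η ∈ Set.range (prod.snd : Uo hZ ⨯ W ⟶ W).left := by
    rw [hrange]
    exact hηZ
  obtain ⟨η', hη'⟩ := hη0
  have hres' : Function.Injective ((Uo hZ ⨯ W).left.residue η').hom := by
    apply OrdE_res (prod.snd : Uo hZ ⨯ W ⟶ W).left
    rw [hη']
    exact hres
  obtain ⟨G, u, hG, hs⟩ := h4 p r X hp (Uo hZ ⨯ W) η' hres' s
  have hprinj : Function.Injective (prod.snd : Uo hZ ⨯ W ⟶ W).left :=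
    (prod.snd : Uo hZ ⨯ W ⟶ W).left.isOpenEmbedding.injective
  have hop : IsOpenImmersion (opi (Uo hZ ⨯ W) G).left := by
    show IsOpenImmersion G.ι
    infer_instance
  obtain ⟨j, hj⟩ : ∃ j, j = opi (Uo hZ ⨯ W) G ≫ prod.snd := ⟨_, rfl⟩
  have hjo : IsOpenImmersion j.left := by
    rw [hj]
    show IsOpenImmersion ((opi (Uo hZ ⨯ W) G).left ≫ (prod.snd : Uo hZ ⨯ W ⟶ W).left)
    infer_instance
  have hjη : η ∈ j.left.opensRange := by
    refine ⟨⟨η', hG⟩, ?_⟩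
    rw [hj]
    exact hη'
  -- the first neighbourhood
  obtain ⟨V₁, hzV₁, π₁, hP₁, hV₁⟩ := h6 X Z hZ hdvr W z η hz hsp hne j.left.opensRange hjη
  have hi₁ : IsOpenImmersion (opi W V₁).left := by
    show IsOpenImmersion V₁.ι
    infer_instance
  obtain ⟨π', hπ', -⟩ := OrdE_ev_surj (opi W V₁).left π₁
  obtain ⟨u', hu', hu''⟩ := OrdE_ev_surj j.left (u : Γ((opn (Uo hZ ⨯ W) G).left, ⊤))
  have hzO : z ∈ (opi W V₁).left.opensRange := ⟨⟨z, hzV₁⟩, rfl⟩
  have hgen : IsLocalRing.maximalIdeal (W.left.presheaf.stalk z) =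
      Ideal.span {(W.left.presheaf.germ _ z hzO).hom π'} := by
    refine OrdE_gen (opi W V₁).left ⟨z, hzV₁⟩ (opi W V₁).left.opensRange (fun x => ⟨x, rfl⟩) π' ?_
    rw [hπ']
    exact hP₁.gen
  obtain ⟨N, hzN, hN, α, β, m, l, O₂, hηO₂, hOG, hON, hα, hβ, heq⟩ :=
    OrdE_spread W.left z η hsp hdz hfr hres _ hzO π' hgen _ hjη u' (hu'' u.isUnit)
  obtain ⟨V₂, hzV₂, -, -, hV₂⟩ := h6 X Z hZ hdvr W z η hz hsp hne O₂ hηO₂
  -- the final neighbourhood
  obtain ⟨V, hV⟩ : ∃ V, V = V₂ ⊓ N := ⟨_, rfl⟩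
  have hVV₂ : V ≤ V₂ := by
    rw [hV]
    exact inf_le_left
  have hVN : V ≤ N := by
    rw [hV]
    exact inf_le_right
  have hzV : z ∈ V := by
    rw [hV]
    exact ⟨hzV₂, hzN⟩
  have hi : IsOpenImmersion (opi W V).left := by
    show IsOpenImmersion V.ι
    infer_instance
  have hiV : ∀ x, (opi W V).left x ∈ V := fun x => x.2
  obtain ⟨k₁, hk₁⟩ := OrdE_lift (opi W V₁) (opi W V) fun d => hN (hVN (hiV d))
  have hk₁' : k₁.left ≫ (opi W V₁).left = (opi W V).left := congrArg (fun t => t.left) hk₁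
  have hk₁o : IsOpenImmersion k₁.left := by
    have : IsOpenImmersion (k₁.left ≫ (opi W V₁).left) := by
      rw [hk₁']
      exact hi
    exact IsOpenImmersion.of_comp k₁.left (opi W V₁).left
  have hk₁z : k₁.left ⟨z, hzV⟩ = ⟨z, hzV₁⟩ := by
    apply (opi W V₁).left.isOpenEmbedding.injective
    have e1 : (opi W V₁).left (k₁.left ⟨z, hzV⟩) = (opi W V).left ⟨z, hzV⟩ := by
      rw [← hk₁']
      rfl
    rw [e1]
    rfl
  have hP : Par Z (opn W V) ⟨z, hzV⟩ ((k₁.left.appTop).hom π₁) := OrdE_pull k₁ hk₁z hP₁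
  -- the product
  obtain ⟨-, -, hrV, -⟩ := h3 X Z hZ (opn W V)
  have hDZ : ∀ d, (Uo hZ ⨯ opn W V).hom d ∉ Z := by
    intro d
    have e1 : (prod.snd : Uo hZ ⨯ opn W V ⟶ opn W V).left d ∈
        Set.range (prod.snd : Uo hZ ⨯ opn W V ⟶ opn W V).left := ⟨d, rfl⟩
    rw [hrV] at e1
    rw [← OrdE_w (prod.snd : Uo hZ ⨯ opn W V ⟶ opn W V)]
    exact e1
  obtain ⟨ϖ, hϖ⟩ := OrdE_unit (prod.snd : Uo hZ ⨯ opn W V ⟶ opn W V) hDZ hP
  obtain ⟨q, hq⟩ : ∃ q, q = (prod.snd : Uo hZ ⨯ opn W V ⟶ opn W V) ≫ opi W V := ⟨_, rfl⟩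
  have hqV : ∀ d, q.left d ∈ V := by
    intro d
    rw [hq]
    exact hiV _
  have hqO : ∀ d, q.left d ∈ O₂ := by
    intro d
    refine hV₂ _ (hVV₂ (hqV d)) fun h => hDZ d ?_
    rw [← OrdE_w q, h]
    exact hz
  have hqm : prod.map (𝟙 (Uo hZ)) (opi W V) ≫ prod.snd = q := by
    rw [hq, prod.map_snd]
  obtain ⟨k, hk⟩ := OrdE_lift (opi (Uo hZ ⨯ W) G) (prod.map (𝟙 (Uo hZ)) (opi W V)) (by
    intro d
    obtain ⟨x, hx⟩ := hOG (hqO d)
    refine ⟨x, hprinj ?_⟩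
    rw [← hqm, hj] at hx
    exact hx)
  have hkj : k ≫ j = q := by
    rw [hj, ← Category.assoc, hk, hqm]
  have hkj' : k.left ≫ j.left = q.left := congrArg (fun t => t.left) hkj
  have hqi : (prod.snd : Uo hZ ⨯ opn W V ⟶ opn W V).left ≫ (opi W V).left = q.left := by
    rw [hq]
    rfl
  -- the units
  obtain ⟨αu, hαu⟩ := hα.map (OrdE_ev (opi W V).left N (fun x => hVN (hiV x)))
  obtain ⟨βu, hβu⟩ := hβ.map (OrdE_ev (opi W V).left N (fun x => hVN (hiV x)))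
  refine ⟨(m : ℤ) - l, V, hzV, (k₁.left.appTop).hom π₁, ϖ, αu / βu, hP, hϖ, ?_⟩
  obtain ⟨-, -, hbr, -⟩ := h5 p r X
  have hrs : rsF hZ p r (opi W V) s = br p r (rsU k u) := by
    rw [← hbr, ← hs]
    unfold rsF
    rw [← hk, op_comp, Functor.map_comp]
    rfl
  rw [hrs]
  congr 1
  -- the equation of units
  have hU : ((rsU k u : Γ((Uo hZ ⨯ opn W V).left, ⊤)ˣ) : Γ((Uo hZ ⨯ opn W V).left, ⊤)) =
      OrdE_ev q.left O₂ hqO (OrdE_rs hOG u') := by
    have e1 : ((rsU k u : Γ((Uo hZ ⨯ opn W V).left, ⊤)ˣ) : Γ((Uo hZ ⨯ opn W V).left, ⊤)) =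
        (k.left.appTop).hom (u : Γ((opn (Uo hZ ⨯ W) G).left, ⊤)) := rfl
    rw [e1, ← hu']
    exact (OrdE_ev_comp k.left j.left hkj' _ _ (fun x => hOG (hqO x)) _).trans
      (OrdE_ev_res q.left hOG (fun x => hOG (hqO x)) hqO _).symm
  have hA : ((rsU (prod.snd : Uo hZ ⨯ opn W V ⟶ opn W V) αu : Γ((Uo hZ ⨯ opn W V).left, ⊤)ˣ) :
      Γ((Uo hZ ⨯ opn W V).left, ⊤)) = OrdE_ev q.left O₂ hqO (OrdE_rs hON α) := by
    have e1 : ((rsU (prod.snd : Uo hZ ⨯ opn W V ⟶ opn W V) αu : Γ((Uo hZ ⨯ opn W V).left, ⊤)ˣ) :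
        Γ((Uo hZ ⨯ opn W V).left, ⊤)) =
        ((prod.snd : Uo hZ ⨯ opn W V ⟶ opn W V).left.appTop).hom
          (αu : Γ((opn W V).left, ⊤)) := rfl
    rw [e1, hαu]
    exact (OrdE_ev_comp _ _ hqi _ _ (fun x => hON (hqO x)) _).trans
      (OrdE_ev_res q.left hON (fun x => hON (hqO x)) hqO _).symm
  have hB : ((rsU (prod.snd : Uo hZ ⨯ opn W V ⟶ opn W V) βu : Γ((Uo hZ ⨯ opn W V).left, ⊤)ˣ) :
      Γ((Uo hZ ⨯ opn W V).left, ⊤)) = OrdE_ev q.left O₂ hqO (OrdE_rs hON β) := by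
    have e1 : ((rsU (prod.snd : Uo hZ ⨯ opn W V ⟶ opn W V) βu : Γ((Uo hZ ⨯ opn W V).left, ⊤)ˣ) :
        Γ((Uo hZ ⨯ opn W V).left, ⊤)) =
        ((prod.snd : Uo hZ ⨯ opn W V ⟶ opn W V).left.appTop).hom
          (βu : Γ((opn W V).left, ⊤)) := rfl
    rw [e1, hβu]
    exact (OrdE_ev_comp _ _ hqi _ _ (fun x => hON (hqO x)) _).trans
      (OrdE_ev_res q.left hON (fun x => hON (hqO x)) hqO _).symm
  have hPi : (ϖ : Γ((Uo hZ ⨯ opn W V).left, ⊤)) =
      OrdE_ev q.left O₂ hqO (OrdE_rs (hON.trans hN) π') := by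
    rw [hϖ, ← hπ']
    have e1 : (k₁.left.appTop).hom (OrdE_ev (opi W V₁).left (opi W V₁).left.opensRange
        (fun x => ⟨x, rfl⟩) π') = OrdE_ev (opi W V).left (opi W V₁).left.opensRange
        (fun x => hN (hVN (hiV x))) π' :=
      OrdE_ev_comp k₁.left (opi W V₁).left hk₁' _ _ _ _
    have e2 := congrArg (fun t => ((prod.snd : Uo hZ ⨯ opn W V ⟶ opn W V).left.appTop).hom t) e1
    have e3 := OrdE_ev_comp (prod.snd : Uo hZ ⨯ opn W V ⟶ opn W V).left (opi W V).left hqi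
      (opi W V₁).left.opensRange (fun x => hN (hVN (hiV x))) (fun x => hN (hON (hqO x))) π'
    have e4 := OrdE_ev_res q.left (hON.trans hN) (fun x => hN (hON (hqO x))) hqO π'
    exact e2.trans (e3.trans e4.symm)
  have hM : rsU k u * (rsU (prod.snd : Uo hZ ⨯ opn W V ⟶ opn W V) βu * ϖ ^ l) =
      rsU (prod.snd : Uo hZ ⨯ opn W V ⟶ opn W V) αu * ϖ ^ m := by
    apply Units.ext
    push_cast
    have e1 := congrArg (OrdE_ev q.left O₂ hqO) heq
    rw [map_mul, map_mul, map_pow, map_mul, map_pow] at e1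
    rw [hU, hA, hB, hPi]
    exact e1
  have hM2 := eq_mul_inv_of_mul_eq hM
  rw [hM2, mul_inv, mul_mul_mul_comm]
  have e2 : rsU (prod.snd : Uo hZ ⨯ opn W V ⟶ opn W V) (αu / βu) =
      rsU (prod.snd : Uo hZ ⨯ opn W V ⟶ opn W V) αu *
        (rsU (prod.snd : Uo hZ ⨯ opn W V ⟶ opn W V) βu)⁻¹ := by
    unfold rsU
    rw [map_div, div_eq_mul_inv]
  rw [e2, zpow_sub, zpow_natCast, zpow_natCast]

end TPU
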