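import Pool.Agent.TPU.St5

/-!
# TPU, module OrdM: the cokernel of `F ⟶ T F` for `F = G_m/p^r` is `ℤ/p^r` on `Z`
-/

set_option autoImplicit false

universe u

open CategoryTheory Limits AlgebraicGeometry Opposite

namespace TPU

private theorem OrdM_cat {X S : Scheme.{u}} (f : X ⟶ S) (p r : ℕ) (F T' G : Sh.{u} f p r)
    (η : F ⟶ T') (φ : T' ⟶ G) (w : η ≫ φ = 0) (hs : Sheaf.IsLocallySurjective φ)
    (hk : ∀ (W : X.Etale) (s : T'.obj.obj (op W)), (φ.hom.app (op W)).hom s = 0 →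
      Presheaf.imageSieve η.hom (U := W) s ∈ tame f p W) : Nonempty (cokernel η ≅ G) := by
  have he : Epi φ := (Sheaf.isLocallySurjective_iff_epi' _ φ).1 hs
  have hl : Epi (kernel.lift φ η w) := by
    rw [← Sheaf.isLocallySurjective_iff_epi']
    constructor
    intro W b
    have h1 : (φ.hom.app (op W)).hom (((kernel.ι φ).hom.app (op W)).hom b) = 0 := by
      have h2 : (kernel.ι φ ≫ φ).hom.app (op W) = 0 := by
        rw [kernel.condition]
        rfl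
      have h3 := congrArg (fun t => t.hom b) h2
      exact h3
    have h4 := hk W _ h1
    refine (tame f p).superset_covering ?_ h4
    rintro V g ⟨a, ha⟩
    refine ⟨a, ?_⟩
    have hm : Mono ((sheafToPresheaf _ _).map (kernel.ι φ)) := inferInstance
    have hm2 : Mono ((kernel.ι φ).hom.app (op V)) := by
      have h5 := (NatTrans.mono_iff_mono_app _).1 hm (op V)
      exact h5
    rw [ModuleCat.mono_iff_injective] at hm2
    apply hm2
    have h6 : ((kernel.ι φ).hom.app (op V)).hom (((kernel.lift φ η w).hom.app (op V)).hom a) =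
        (η.hom.app (op V)).hom a := by
      have h7 : (kernel.lift φ η w ≫ kernel.ι φ).hom.app (op V) = η.hom.app (op V) := by
        rw [kernel.lift_ι]
      have h8 := congrArg (fun t => t.hom a) h7
      exact h8
    refine h6.trans (ha.trans ?_)
    exact (NatTrans.naturality_apply (kernel.ι φ).hom g.op b).symm
  have hex : (ShortComplex.mk η φ w).Exact := (ShortComplex.exact_iff_epi_kernel_lift _).2 hl
  have hc := hex.gIsCokernel
  exact ⟨(cokernelIsCokernel η).coconePointUniqueUpToIso hc⟩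

/-- the germs of the restriction of a function -/
private theorem OrdM_germ {A B : Scheme.{u}} (g : A ⟶ B) (a : A) (π : Γ(B, ⊤)) :
    (A.presheaf.germ ⊤ a trivial).hom (g.appTop.hom π) =
      (g.stalkMap a).hom ((B.presheaf.germ ⊤ (g a) trivial).hom π) :=
  (Scheme.Hom.germ_stalkMap_apply g ⊤ a trivial π).symm

private theorem OrdM_Par_map {X : Scheme.{u}} {Z : Set X} {V V' : X.Etale} (g : V' ⟶ V)
    (hg : IsOpenImmersion g.left) (z' : V'.left) (π : Γ(V.left, ⊤))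
    (h : Par Z V (g.left z') π) : Par Z V' z' (g.left.appTop.hom π) := by
  have hw : g.left ≫ V.hom = V'.hom := MorphismProperty.Over.w g
  have hw' : ∀ x, V'.hom x = V.hom (g.left x) := fun x => by
    rw [← hw, Scheme.Hom.comp_apply]
  refine ⟨?_, ?_, ?_, ?_⟩
  · rw [hw']
    exact h.mem
  · intro x hx
    rw [hw'] at hx
    exact hg.base_open.injective (h.only _ hx)
  · rw [OrdM_germ]
    have hb : Function.Bijective (g.left.stalkMap z').hom := by
      have : IsIso (g.left.stalkMap z') := inferInstance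
      exact ConcreteCategory.bijective_of_isIso (g.left.stalkMap z')
    apply le_antisymm
    · intro x hx
      obtain ⟨y, rfl⟩ := hb.2 x
      have hy : y ∈ IsLocalRing.maximalIdeal (V.left.presheaf.stalk (g.left z')) := by
        rw [IsLocalRing.mem_maximalIdeal, mem_nonunits_iff] at hx ⊢
        exact fun hy => hx (hy.map _)
      rw [h.gen, Ideal.mem_span_singleton] at hy
      obtain ⟨c, hc⟩ := hy
      rw [Ideal.mem_span_singleton, hc, map_mul]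
      exact dvd_mul_right _ _
    · rw [Ideal.span_singleton_le_iff_mem, IsLocalRing.mem_maximalIdeal, mem_nonunits_iff]
      intro hu
      have h1 := IsLocalHom.map_nonunit (f := (g.left.stalkMap z').hom) _ hu
      have h2 : (V.left.presheaf.germ ⊤ (g.left z') trivial).hom π ∈
          IsLocalRing.maximalIdeal (V.left.presheaf.stalk (g.left z')) := by
        rw [h.gen]
        exact Ideal.mem_span_singleton_self _
      rw [IsLocalRing.mem_maximalIdeal, mem_nonunits_iff] at h2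
      exact h2 h1
  · intro x hx
    rw [OrdM_germ]
    refine IsUnit.map _ (h.inv _ fun h1 => hx (hg.base_open.injective h1))

private theorem OrdM_unit {X : Scheme.{u}} {Z : Set X} (hZ : IsClosed Z) (h6 : St_UW.{u})
    (V : X.Etale) (z : V.left) (π : Γ(V.left, ⊤)) (h : Par Z V z π) :
    IsUnit ((prod.snd : Uo hZ ⨯ V ⟶ V).left.appTop.hom π) := by
  refine RingedSpace.isUnit_of_isUnit_germ (Uo hZ ⨯ V).left.toRingedSpace ⊤ _ ?_
  intro y _
  have h1 : IsUnit (((Uo hZ ⨯ V).left.presheaf.germ ⊤ y trivial).hom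
      ((prod.snd : Uo hZ ⨯ V ⟶ V).left.appTop.hom π)) := by
    rw [OrdM_germ]
    refine IsUnit.map _ (h.inv _ fun h1 => ?_)
    have h2 : (prod.snd : Uo hZ ⨯ V ⟶ V).left y ∈ {w | V.hom w ∉ Z} := by
      rw [← (h6 X Z hZ V).2.2.1]
      exact ⟨y, rfl⟩
    rw [h1] at h2
    exact h2 h.mem
  exact h1

private theorem OrdM_par (h3 : St_ParE.{u}) (h4 : St_Gen.{u}) (h5 : St_EtDvr.{u})
    {X : Scheme.{u}} [IsLocallyNoetherian X] {Z : Set X} (hZ : IsClosed Z)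
    (hd : ∀ z ∈ Z, IsDvr (X.presheaf.stalk z)) (W : X.Etale) (z : W.left) (hz : W.hom z ∈ Z) :
    ∃ (V : W.left.Opens) (hzV : z ∈ V) (π : Γ((opn W V).left, ⊤)),
      Par Z (opn W V) ⟨z, hzV⟩ π := by
  have hdz : IsDvr (W.left.presheaf.stalk z) := h5 _ _ W.hom z (hd _ hz)
  obtain ⟨η, hη, hne, -⟩ := h4 W.left z hdz
  obtain ⟨V, hzV, π, hP, -⟩ := h3 X Z hZ hd W z η hz hη hne ⊤ trivial
  exact ⟨V, hzV, π, hP⟩

private theorem OrdM_disc (h3 : St_ParE.{u}) (h4 : St_Gen.{u}) (h5 : St_EtDvr.{u})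
    {X : Scheme.{u}} [IsLocallyNoetherian X] {Z : Set X} (hZ : IsClosed Z)
    (hd : ∀ z ∈ Z, IsDvr (X.presheaf.stalk z)) (W : X.Etale) :
    DiscreteTopology {w : W.left // W.hom w ∈ Z} := by
  rw [discreteTopology_iff_isOpen_singleton]
  rintro ⟨z, hz⟩
  obtain ⟨V, hzV, π, hP⟩ := OrdM_par h3 h4 h5 hZ hd W z hz
  have h1 : ({⟨z, hz⟩} : Set {w : W.left // W.hom w ∈ Z}) = Subtype.val ⁻¹' (V : Set W.left) := by
    ext ⟨x, hx⟩
    rw [Set.mem_singleton_iff, Set.mem_preimage]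
    constructor
    · intro h
      rw [Subtype.mk.injEq] at h
      subst h
      exact hzV
    · intro h
      have h2 : (⟨x, h⟩ : (opn W V).left) = ⟨z, hzV⟩ := hP.only ⟨x, h⟩ hx
      have h3 : x = z := congrArg Subtype.val h2
      rw [Subtype.mk.injEq]
      exact h3
  rw [h1]
  exact V.2.preimage continuous_subtype_val


section

variable {X : Scheme.{u}} {Z : Set X} (hZ : IsClosed Z) (p r : ℕ)

/-- the order homomorphism on sections over `Uo × W` -/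
private theorem OrdM_o [hp : Fact p.Prime]
    (hE : ∀ (W : X.Etale) (s : (GmS p r X).obj.obj (op (Uo hZ ⨯ W))) (z : W.left),
      W.hom z ∈ Z → ∃ n : ℤ, OrdIs hZ p r W s z n)
    (hU1 : ∀ (W : X.Etale) (s : (GmS p r X).obj.obj (op (Uo hZ ⨯ W))) (z : W.left) (n m : ℤ),
      OrdIs hZ p r W s z n → OrdIs hZ p r W s z m → (n : ZMod (p ^ r)) = m)
    (hU2 : ∀ (W : X.Etale) (s t : (GmS p r X).obj.obj (op (Uo hZ ⨯ W))) (z : W.left) (n m : ℤ),
      OrdIs hZ p r W s z n → OrdIs hZ p r W t z m → OrdIs hZ p r W (s + t) z (n + m))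
    (hD : ∀ W : X.Etale, DiscreteTopology {w : W.left // W.hom w ∈ Z}) (W : X.Etale) :
    ∃ φ : (GmS p r X).obj.obj (op (Uo hZ ⨯ W)) →ₗ[Rg.{u} p r]
      ((ZP Z p r).obj (op W)), ∀ (s : (GmS p r X).obj.obj (op (Uo hZ ⨯ W)))
      (z : {w : W.left // W.hom w ∈ Z}) (n : ℤ), OrdIs hZ p r W s z.1 n →
        (φ s).down z = (n : ZMod (p ^ r)) := by
  have h1 : ∀ (s : (GmS p r X).obj.obj (op (Uo hZ ⨯ W))) (z : {w : W.left // W.hom w ∈ Z}),
      ∃ c : ZMod (p ^ r), ∀ n : ℤ, OrdIs hZ p r W s z.1 n → c = (n : ZMod (p ^ r)) := by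
    intro s z
    obtain ⟨n, hn⟩ := hE W s z.1 z.2
    exact ⟨n, fun m hm => hU1 W s z.1 n m hn hm⟩
  choose c hc using h1
  have hadd : ∀ s t z, c (s + t) z = c s z + c t z := by
    intro s t z
    obtain ⟨n, hn⟩ := hE W s z.1 z.2
    obtain ⟨m, hm⟩ := hE W t z.1 z.2
    rw [hc s z n hn, hc t z m hm, hc (s + t) z (n + m) (hU2 W s t z.1 n m hn hm), Int.cast_add]
  have hlc : ∀ s, IsLocallyConstant (c s) := fun s => by
    have := hD W
    exact IsLocallyConstant.of_discrete _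
  let φ₀ : (GmS p r X).obj.obj (op (Uo hZ ⨯ W)) →+ ((ZP Z p r).obj (op W)) :=
    AddMonoidHom.mk' (fun s => ULift.up ⟨c s, hlc s⟩) (by
      intro s t
      apply ULift.ext
      ext z
      exact hadd s t z)
  have : NeZero (p ^ r) := ⟨pow_ne_zero r hp.out.ne_zero⟩
  refine ⟨⟨φ₀.toAddHom, ?_⟩, ?_⟩
  · intro a s
    obtain ⟨n, hn⟩ := ZMod.natCast_zmod_surjective a.down
    have ha : a = (n : Rg.{u} p r) := by
      apply ULift.ext
      rw [← hn]
      rfl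
    rw [ha, Nat.cast_smul_eq_nsmul, RingHom.id_apply, Nat.cast_smul_eq_nsmul]
    exact map_nsmul φ₀ n s
  · intro s z n hn
    exact hc s z n hn

private theorem OrdM_ord [Fact p.Prime] {S : Scheme.{u}} (f : X ⟶ S)
    (hE : ∀ (W : X.Etale) (s : (GmS p r X).obj.obj (op (Uo hZ ⨯ W))) (z : W.left),
      W.hom z ∈ Z → ∃ n : ℤ, OrdIs hZ p r W s z n)
    (hU1 : ∀ (W : X.Etale) (s : (GmS p r X).obj.obj (op (Uo hZ ⨯ W))) (z : W.left) (n m : ℤ),
      OrdIs hZ p r W s z n → OrdIs hZ p r W s z m → (n : ZMod (p ^ r)) = m)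
    (hU2 : ∀ (W : X.Etale) (s t : (GmS p r X).obj.obj (op (Uo hZ ⨯ W))) (z : W.left) (n m : ℤ),
      OrdIs hZ p r W s z n → OrdIs hZ p r W t z m → OrdIs hZ p r W (s + t) z (n + m))
    (hU3 : ∀ (W W' : X.Etale) (k : W' ⟶ W) (s : (GmS p r X).obj.obj (op (Uo hZ ⨯ W)))
      (z' : W'.left) (n : ℤ), OrdIs hZ p r W s (k.left z') n →
        OrdIs hZ p r W' (rsF hZ p r k s) z' n)
    (hD : ∀ W : X.Etale, DiscreteTopology {w : W.left // W.hom w ∈ Z})
    (h : Presheaf.IsSheaf (tame f p) (GmS p r X).obj) :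
    ∃ φ : ((T (tame f p) (Uo hZ) _).obj (⟨(GmS p r X).obj, h⟩ : Sh f p r)).obj ⟶ ZP Z p r,
      ∀ (W : X.Etale) (s : (GmS p r X).obj.obj (op (Uo hZ ⨯ W)))
        (z : {w : W.left // W.hom w ∈ Z}) (n : ℤ), OrdIs hZ p r W s z.1 n →
        (((φ.app (op W)).hom s).down : LocallyConstant {w : W.left // W.hom w ∈ Z} _) z =
          (n : ZMod (p ^ r)) := by
  choose φ hφ using OrdM_o hZ p r hE hU1 hU2 hD
  refine ⟨{ app := fun W => ModuleCat.ofHom (φ W.unop), naturality := ?_ }, fun W s z n hn => hφ W s z n hn⟩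
  intro W V g
  ext s
  apply ULift.ext
  ext z
  have hw : g.unop.left ≫ W.unop.hom = V.unop.hom := MorphismProperty.Over.w g.unop
  have hz : W.unop.hom (g.unop.left z.1) ∈ Z := by
    rw [← Scheme.Hom.comp_apply, hw]
    exact z.2
  obtain ⟨n, hn⟩ := hE W.unop s (g.unop.left z.1) hz
  have h1 := hφ W.unop s ⟨g.unop.left z.1, hz⟩ n hn
  have h2 := hφ V.unop (rsF hZ p r g.unop s) z n (hU3 W.unop V.unop g.unop s z.1 n hn)
  exact h2.trans h1.symm


private theorem OrdM_sq {W V : X.Etale} (g : V ⟶ W) (π : Γ(W.left, ⊤)) :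
    (prod.map (𝟙 (Uo hZ)) g).left.appTop.hom
        ((prod.snd : Uo hZ ⨯ W ⟶ W).left.appTop.hom π) =
      (prod.snd : Uo hZ ⨯ V ⟶ V).left.appTop.hom (g.left.appTop.hom π) := by
  have h : (prod.map (𝟙 (Uo hZ)) g).left ≫ (prod.snd : Uo hZ ⨯ W ⟶ W).left =
      (prod.snd : Uo hZ ⨯ V ⟶ V).left ≫ g.left :=
    congrArg (fun t => t.left) (prod.map_snd (𝟙 (Uo hZ)) g)
  have h2 : ((prod.map (𝟙 (Uo hZ)) g).left ≫ (prod.snd : Uo hZ ⨯ W ⟶ W).left).appTop.hom π =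
      ((prod.snd : Uo hZ ⨯ V ⟶ V).left ≫ g.left).appTop.hom π := by rw [h]
  rw [Scheme.Hom.comp_appTop, Scheme.Hom.comp_appTop] at h2
  exact h2

private theorem OrdM_self (h7 : St_Br.{u}) (W : X.Etale) (z : W.left) (π : Γ(W.left, ⊤))
    (hP : Par Z W z π) (ϖ : Γ((Uo hZ ⨯ W).left, ⊤)ˣ)
    (hϖ : (ϖ : Γ((Uo hZ ⨯ W).left, ⊤)) = (prod.snd : Uo hZ ⨯ W ⟶ W).left.appTop.hom π)
    (n : ℤ) : OrdIs hZ p r W (br p r (ϖ ^ n)) z n := by
  have hi : IsOpenImmersion (opi W ⊤).left := by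
    show IsOpenImmersion (Scheme.Opens.ι _)
    infer_instance
  have hP' : Par Z (opn W ⊤) ⟨z, trivial⟩ ((opi W ⊤).left.appTop.hom π) :=
    OrdM_Par_map (opi W ⊤) hi ⟨z, trivial⟩ π hP
  refine ⟨⊤, trivial, (opi W ⊤).left.appTop.hom π,
    rsU (prod.map (𝟙 (Uo hZ)) (opi W ⊤)) ϖ, 1, hP', ?_, ?_⟩
  · rw [← OrdM_sq, ← hϖ]
    rfl
  · have h1 := (h7 p r X).2.2.1 (Uo hZ ⨯ W) (Uo hZ ⨯ opn W ⊤)
      (prod.map (𝟙 (Uo hZ)) (opi W ⊤)) (ϖ ^ n)
    have h2 : rsU (prod.map (𝟙 (Uo hZ)) (opi W ⊤)) (ϖ ^ n) =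
        rsU (prod.map (𝟙 (Uo hZ)) (opi W ⊤)) ϖ ^ n := map_zpow (Units.map _) ϖ n
    have h3 : rsU (prod.snd : Uo hZ ⨯ opn W ⊤ ⟶ opn W ⊤) 1 = 1 := map_one (Units.map _)
    refine h1.trans ?_
    rw [h2, h3, one_mul]

/-- the open subscheme of the points outside `Z` -/
private noncomputable def OrdM_V (W : X.Etale) : W.left.Opens :=
  ⟨{w | W.hom w ∉ Z}, (hZ.isOpen_compl).preimage W.hom.continuous⟩

private theorem OrdM_ls {S : Scheme.{u}} (f : X ⟶ S) [IsLocallyNoetherian X]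
    (hd : ∀ z ∈ Z, IsDvr (X.presheaf.stalk z))
    (h3 : St_ParE.{u}) (h4 : St_Gen.{u}) (h5 : St_EtDvr.{u}) (h6 : St_UW.{u}) (h7 : St_Br.{u})
    (h8 : St_Zar.{u}) (h : Presheaf.IsSheaf (tame f p) (GmS p r X).obj)
    (φ : ((T (tame f p) (Uo hZ) _).obj (⟨(GmS p r X).obj, h⟩ : Sh f p r)).obj ⟶ ZP Z p r)
    (hφ : ∀ (W : X.Etale) (s : (GmS p r X).obj.obj (op (Uo hZ ⨯ W)))
        (z : {w : W.left // W.hom w ∈ Z}) (n : ℤ), OrdIs hZ p r W s z.1 n →
        (((φ.app (op W)).hom s).down : LocallyConstant {w : W.left // W.hom w ∈ Z} _) z =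
          (n : ZMod (p ^ r)))
    (W : X.Etale) (c : (ZP Z p r).obj (op W)) :
    Presheaf.imageSieve φ (U := W) c ∈ tame f p W := by
  apply h8
  intro x
  by_cases hx : W.hom x ∈ Z
  · obtain ⟨V, hxV, π, hP⟩ := OrdM_par h3 h4 h5 hZ hd W x hx
    refine ⟨opn W V, opi W V, ?_, ?_, ?_⟩
    · obtain ⟨n, hn⟩ := ZMod.intCast_surjective
        ((c.down : LocallyConstant {w : W.left // W.hom w ∈ Z} (ZMod (p ^ r))) ⟨x, hx⟩)
      obtain ⟨ϖ, hϖ⟩ := OrdM_unit hZ h6 _ _ π hP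
      refine ⟨(br p r (ϖ ^ n) : (GmS p r X).obj.obj (op (Uo hZ ⨯ opn W V))), ?_⟩
      apply ULift.ext
      ext z
      have hz : z = ⟨⟨x, hxV⟩, hP.mem⟩ := Subtype.ext (hP.only z.1 z.2)
      rw [hz]
      have h1 := hφ (opn W V) (br p r (ϖ ^ n)) ⟨⟨x, hxV⟩, hP.mem⟩ n
        (OrdM_self hZ p r h7 (opn W V) ⟨x, hxV⟩ π hP ϖ hϖ n)
      exact h1.trans hn
    · show IsOpenImmersion (Scheme.Opens.ι _)
      infer_instance
    · exact ⟨⟨x, hxV⟩, rfl⟩
  · refine ⟨opn W (OrdM_V hZ W), opi W (OrdM_V hZ W), ?_, ?_, ?_⟩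
    · refine ⟨(0 : (GmS p r X).obj.obj (op (Uo hZ ⨯ opn W (OrdM_V hZ W)))), ?_⟩
      apply ULift.ext
      ext z
      exact absurd z.2 z.1.2
    · show IsOpenImmersion (Scheme.Opens.ι _)
      infer_instance
    · exact ⟨⟨x, hx⟩, rfl⟩

end

private theorem OrdM_eta_app {C : Type (u + 1)} [Category.{u} C] [HasBinaryProducts C]
    (J : GrothendieckTopology C) (U : C) (R : Type (u + 1)) [CommRing R]
    (I : Sheaf J (ModuleCat.{u + 1} R)) (W : C) (y : I.obj.obj (op W)) :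
    (((eta J U _).app I).hom.app (op W)).hom y =
      (I.obj.map (prod.snd : U ⨯ W ⟶ W).op).hom y := by
  have h : ((eta J U (ModuleCat.{u + 1} R)).app I).hom.app (op W) =
      I.obj.map ((Over.forgetAdjStar U).counit.app W).op := by
    show 𝟙 _ ≫ _ = _
    rw [Category.id_comp]
    rfl
  rw [h, Over.forgetAdjStar_counit_app]
  rfl

section

variable {X : Scheme.{u}} {Z : Set X} (hZ : IsClosed Z) (p r : ℕ)

private theorem OrdM_k {S : Scheme.{u}} (f : X ⟶ S)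
    (hE : ∀ (W : X.Etale) (s : (GmS p r X).obj.obj (op (Uo hZ ⨯ W))) (z : W.left),
      W.hom z ∈ Z → ∃ n : ℤ, OrdIs hZ p r W s z n)
    (h6 : St_UW.{u}) (h7 : St_Br.{u})
    (h8 : St_Zar.{u}) (h : Presheaf.IsSheaf (tame f p) (GmS p r X).obj)
    (φ : ((T (tame f p) (Uo hZ) _).obj (⟨(GmS p r X).obj, h⟩ : Sh f p r)).obj ⟶ ZP Z p r)
    (hφ : ∀ (W : X.Etale) (s : (GmS p r X).obj.obj (op (Uo hZ ⨯ W)))
        (z : {w : W.left // W.hom w ∈ Z}) (n : ℤ), OrdIs hZ p r W s z.1 n →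
        (((φ.app (op W)).hom s).down : LocallyConstant {w : W.left // W.hom w ∈ Z} _) z =
          (n : ZMod (p ^ r)))
    (W : X.Etale) (s : (GmS p r X).obj.obj (op (Uo hZ ⨯ W)))
    (hs : (φ.app (op W)).hom s = 0) :
    Presheaf.imageSieve ((eta (tame f p) (Uo hZ) _).app
      (⟨(GmS p r X).obj, h⟩ : Sh f p r)).hom (U := W) s ∈ tame f p W := by
  apply h8
  intro x
  by_cases hx : W.hom x ∈ Z
  · obtain ⟨n, hn⟩ := hE W s x hx
    have h1 := hφ W s ⟨x, hx⟩ n hn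
    rw [hs] at h1
    have h2 : (n : ZMod (p ^ r)) = 0 := h1.symm
    rw [ZMod.intCast_zmod_eq_zero_iff_dvd] at h2
    obtain ⟨m, hm⟩ := h2
    obtain ⟨V, hxV, π, ϖ, ε, hP, hϖ, hV⟩ := hn
    refine ⟨opn W V, opi W V, ⟨br p r ε, ?_⟩, ?_, ?_⟩
    · refine (OrdM_eta_app _ _ _ _ _ _).trans ?_
      refine Eq.trans ?_ hV.symm
      have h3 : ϖ ^ n = (ϖ ^ m) ^ p ^ r := by
        rw [hm, ← zpow_natCast, ← zpow_mul, mul_comm]
      rw [(h7 p r X).1, h3, (h7 p r X).2.1, add_zero]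
      exact (h7 p r X).2.2.1 _ _ _ _
    · show IsOpenImmersion (Scheme.Opens.ι _)
      infer_instance
    · exact ⟨⟨x, hxV⟩, rfl⟩
  · refine ⟨opn W (OrdM_V hZ W), opi W (OrdM_V hZ W), ?_, ?_, ?_⟩
    · obtain ⟨-, hm, -, hl⟩ := h6 X Z hZ (opn W (OrdM_V hZ W))
      obtain ⟨l, hl⟩ := hl (opn W (OrdM_V hZ W)) (𝟙 _) (fun d => d.2)
      have h9 : (prod.snd : Uo hZ ⨯ opn W (OrdM_V hZ W) ⟶ opn W (OrdM_V hZ W)) ≫ l = 𝟙 _ := by
        rw [← cancel_mono (prod.snd : Uo hZ ⨯ opn W (OrdM_V hZ W) ⟶ opn W (OrdM_V hZ W)),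
          Category.assoc, hl, Category.comp_id, Category.id_comp]
      refine ⟨((GmS p r X).obj.map l.op).hom (rsF hZ p r (opi W (OrdM_V hZ W)) s), ?_⟩
      refine (OrdM_eta_app _ _ _ _ _ _).trans ?_
      have h10 : ((GmS p r X).obj.map l.op ≫ (GmS p r X).obj.map
          (prod.snd : Uo hZ ⨯ opn W (OrdM_V hZ W) ⟶ opn W (OrdM_V hZ W)).op).hom
            (rsF hZ p r (opi W (OrdM_V hZ W)) s) = rsF hZ p r (opi W (OrdM_V hZ W)) s := by
        rw [← Functor.map_comp, ← op_comp, h9, op_id, CategoryTheory.Functor.map_id]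
        rfl
      exact h10
    · show IsOpenImmersion (Scheme.Opens.ι _)
      infer_instance
    · exact ⟨⟨x, hx⟩, rfl⟩

end

theorem thm_OrdM (h1 : St_OrdE.{u}) (h2 : St_OrdU.{u}) (h3 : St_ParE.{u}) (h4 : St_Gen.{u})
    (h5 : St_EtDvr.{u}) (h6 : St_UW.{u}) (h7 : St_Br.{u}) (h8 : St_Zar.{u}) :
    TPU.St_OrdM.{u} := by
  intro p r hp X S f _ hpX Z hZ hd h h'
  obtain ⟨hU1, hU2, hU3, hU4⟩ := h2 p r X hpX Z hZ hd
  have hE := h1 p r X hpX Z hZ hd
  obtain ⟨φ, hφ⟩ := OrdM_ord hZ p r f hE hU1 hU2 hU3 (OrdM_disc h3 h4 h5 hZ hd) h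
  refine OrdM_cat f p r _ _ _ _ (ObjectProperty.homMk φ) ?_ ?_ ?_
  · ext W t
    apply ULift.ext
    ext z
    have h9 := OrdM_eta_app (tame f p) (Uo hZ) (Rg.{u} p r)
      (⟨(GmS p r X).obj, h⟩ : Sh f p r) W.unop t
    obtain ⟨n, hn⟩ := hE W.unop (((GmS p r X).obj.map
      (prod.snd : Uo hZ ⨯ W.unop ⟶ W.unop).op).hom t) z.1 z.2
    have h10 := hφ W.unop _ z n hn
    rw [hU4 W.unop t z.1 n hn] at h10
    refine Eq.trans ?_ h10
    exact congrArg (fun t => (((φ.app W).hom t).down :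
      LocallyConstant {w : W.unop.left // W.unop.hom w ∈ Z} _) z) h9
  · constructor
    intro W c
    exact OrdM_ls hZ p r f hd h3 h4 h5 h6 h7 h8 h φ hφ W c
  · intro W s hs
    exact OrdM_k hZ p r f hE h6 h7 h8 h φ hφ W s hs

end TPU
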