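import Pool.Agent.TPU.St5

/-!
# TPU, OrdU: the order of a section of `G_m/p^r` outside `Z` at a point over `Z`
-/

set_option autoImplicit false

universe u

open CategoryTheory Limits AlgebraicGeometry Opposite

namespace TPU

private theorem OrdU_val (A K : Type u) [CommRing A] [IsLocalRing A] [Field K] (hA : IsDvr A)
    (φ : A →+* K) (hφ : Function.Injective φ) (frac : ∀ x : K, ∃ a b, φ b ≠ 0 ∧ x * φ b = φ a) :
    ∃ o : Kˣ →* Multiplicative ℤ, (∀ (a : A) (x : Kˣ), IsUnit a → (x : K) = φ a → o x = 1) ∧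
      ∀ (a : A) (x : Kˣ), IsLocalRing.maximalIdeal A = Ideal.span {a} → (x : K) = φ a →
        o x = Multiplicative.ofAdd 1 := by
  obtain ⟨hdom, hdvr⟩ := hA
  obtain ⟨t, ht⟩ := IsDiscreteValuationRing.exists_irreducible A
  have ht0 : φ t ≠ 0 := by
    intro h
    apply ht.ne_zero
    apply hφ
    rw [h, map_zero]
  have hex : ∀ x : Kˣ, ∃ (n : ℤ) (e : Aˣ), (x : K) = φ e * φ t ^ n := by
    intro x
    obtain ⟨a, b, hb, hx⟩ := frac x
    have hb' : b ≠ 0 := by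
      rintro rfl
      exact hb (map_zero φ)
    have ha' : a ≠ 0 := by
      rintro rfl
      rw [map_zero, mul_eq_zero] at hx
      rcases hx with hx | hx
      · exact x.ne_zero hx
      · exact hb hx
    obtain ⟨i, e, rfl⟩ := IsDiscreteValuationRing.eq_unit_mul_pow_irreducible ha' ht
    obtain ⟨j, f, rfl⟩ := IsDiscreteValuationRing.eq_unit_mul_pow_irreducible hb' ht
    refine ⟨(i : ℤ) - j, e * f⁻¹, ?_⟩
    have hf : φ f * φ (f⁻¹ : Aˣ) = 1 := by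
      rw [← map_mul, Units.mul_inv, map_one]
    rw [map_mul, map_mul, map_pow, map_pow] at hx
    rw [zpow_sub₀ ht0, zpow_natCast, zpow_natCast, Units.val_mul, map_mul]
    have hj : φ t ^ j ≠ 0 := pow_ne_zero j ht0
    field_simp
    linear_combination φ (f⁻¹ : Aˣ) * hx - (x : K) * φ t ^ j * hf
  have hun : ∀ (n m : ℤ) (e f : Aˣ), φ e * φ t ^ n = φ f * φ t ^ m → n ≤ m → n = m := by
    intro n m e f h hnm
    obtain ⟨k, rfl⟩ : ∃ k : ℕ, m = n + k := ⟨(m - n).toNat, by omega⟩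
    rcases Nat.eq_zero_or_pos k with rfl | hk
    · simp
    exfalso
    rw [zpow_add₀ ht0, zpow_natCast] at h
    have h2 : φ e = φ (f * t ^ k) := by
      apply mul_right_cancel₀ (zpow_ne_zero n ht0)
      rw [h, map_mul, map_pow]
      ring
    have h3 := hφ h2
    apply ht.not_isUnit
    apply isUnit_of_dvd_unit _ e.isUnit
    rw [h3]
    exact Dvd.dvd.mul_left (dvd_pow_self t (by omega)) _
  have hun' : ∀ (n m : ℤ) (e f : Aˣ), φ e * φ t ^ n = φ f * φ t ^ m → n = m := by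
    intro n m e f h
    rcases le_total n m with h1 | h1
    · exact hun n m e f h h1
    · exact (hun m n f e h.symm h1).symm
  choose o e ho using hex
  refine ⟨⟨⟨fun x => Multiplicative.ofAdd (o x), ?_⟩, ?_⟩, ?_, ?_⟩
  · have h1 := ho 1
    have h2 : φ (e 1) * φ t ^ (o 1) = φ (1 : Aˣ) * φ t ^ (0 : ℤ) := by
      rw [← h1]
      simp
    rw [hun' _ _ _ _ h2]
    rfl
  · intro x y
    have h2 : φ (e (x * y)) * φ t ^ (o (x * y)) = φ ((e x * e y : Aˣ)) * φ t ^ (o x + o y) := by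
      rw [← ho (x * y), Units.val_mul, Units.val_mul, map_mul, zpow_add₀ ht0]
      nth_rw 1 [ho x]
      nth_rw 1 [ho y]
      ring
    show Multiplicative.ofAdd (o (x * y)) = Multiplicative.ofAdd (o x) * Multiplicative.ofAdd (o y)
    rw [hun' _ _ _ _ h2]
    rfl
  · intro a x ha hx
    obtain ⟨f, rfl⟩ := ha
    have h2 : φ (e x) * φ t ^ (o x) = φ f * φ t ^ (0 : ℤ) := by
      rw [← ho x, hx]
      simp
    show Multiplicative.ofAdd (o x) = 1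
    rw [hun' _ _ _ _ h2]
    rfl
  · intro a x ha hx
    have h1 : Ideal.span {a} = Ideal.span {t} := by
      rw [← ha]
      exact ht.maximalIdeal_eq
    obtain ⟨f, hf⟩ := (Ideal.span_singleton_eq_span_singleton.1 h1).symm
    have h2 : φ (e x) * φ t ^ (o x) = φ f * φ t ^ (1 : ℤ) := by
      rw [← ho x, hx, ← hf, map_mul, zpow_one]
      ring
    show Multiplicative.ofAdd (o x) = Multiplicative.ofAdd 1
    rw [hun' _ _ _ _ h2]


private theorem OrdU_ext {X : Scheme.{u}} {A B : X.Etale} {a b : A ⟶ B} (h : a.left = b.left) :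
    a = b := by
  apply (Scheme.Etale.forgetFullyFaithful X).map_injective
  exact Over.OverMorphism.ext h

private theorem OrdU_lqf {Y W : Scheme.{u}} (f : Y ⟶ W) [Etale f] : LocallyQuasiFinite f where
  quasiFinite_appLE := by
    intro U hU V hV e
    have h : (f.appLE U V e).hom.Etale :=
      HasRingHomProperty.appLE @Etale f inferInstance ⟨U, hU⟩ ⟨V, hV⟩ e
    algebraize [(f.appLE U V e).hom]
    show Algebra.QuasiFinite _ _
    infer_instance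

/-- the maximal ideal of an étale extension -/
private theorem OrdU_max {D V : Scheme.{u}} (g : D ⟶ V) [Etale g] (d : D)
    (x : V.presheaf.stalk (g d))
    (h : IsLocalRing.maximalIdeal (V.presheaf.stalk (g d)) = Ideal.span {x}) :
    IsLocalRing.maximalIdeal (D.presheaf.stalk d) = Ideal.span {(g.stalkMap d).hom x} := by
  algebraize [(g.stalkMap d).hom]
  have h1 : IsLocalHom (algebraMap (V.presheaf.stalk (g d)) (D.presheaf.stalk d)) :=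
    inferInstanceAs <| IsLocalHom (g.stalkMap d).hom
  have h2 : Algebra.EssFiniteType (V.presheaf.stalk (g d)) (D.presheaf.stalk d) :=
    LocallyOfFiniteType.stalkMap g d
  have h3 : Algebra.FormallyUnramified (V.presheaf.stalk (g d)) (D.presheaf.stalk d) :=
    FormallyUnramified.stalkMap g d
  have h4 := Algebra.FormallyUnramified.map_maximalIdeal (R := V.presheaf.stalk (g d))
    (S := D.presheaf.stalk d)
  rw [← h4, h, Ideal.map_span, Set.image_singleton]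
  rfl

private theorem OrdU_germ {D V : Scheme.{u}} (g : D ⟶ V) (d : D) (π : Γ(V, ⊤)) :
    (g.stalkMap d).hom ((V.presheaf.germ ⊤ (g d) trivial).hom π) =
      (D.presheaf.germ ⊤ d trivial).hom ((g.appTop).hom π) := by
  have h := Scheme.Hom.germ_stalkMap g ⊤ d trivial
  exact congrArg (fun q => q.hom π) h

/-- the pull-back of a parameter -/
private theorem OrdU_par {X : Scheme.{u}} {Z : Set X} {D V : X.Etale} (g : D ⟶ V) (d : D.left)
    (z : V.left) (π : Γ(V.left, ⊤)) (hP : Par Z V z π) (hd : g.left d = z)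
    (honly : ∀ x : D.left, g.left x = z → x = d) : Par Z D d ((g.left.appTop).hom π) := by
  subst hd
  have hw : ∀ x : D.left, D.hom x = V.hom (g.left x) := fun x => by
    have h : g.left ≫ V.hom = D.hom := MorphismProperty.Over.w g
    rw [← h]
    rfl
  refine ⟨?_, ?_, ?_, ?_⟩
  · rw [hw]
    exact hP.mem
  · intro x hx
    apply honly
    apply hP.only
    rw [← hw]
    exact hx
  · rw [OrdU_max g.left d _ hP.gen, OrdU_germ]
  · intro x hx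
    rw [← OrdU_germ]
    exact (hP.inv (g.left x) fun h => hx (honly x h)).map _

/-- the order on the units of `Uo × D` at a point `d` of `D` over `Z` -/
private theorem OrdU_ord (h1 : St_Gen.{u}) (h2 : St_EtDvr.{u}) (h3 : St_UW.{u}) (h5 : St_Br0.{u})
    (p r : ℕ) [Fact p.Prime] (X : Scheme.{u}) (hp : (p : Γ(X, ⊤)) = 0) (Z : Set X)
    (hZ : IsClosed Z) (hdvr : ∀ z ∈ Z, IsDvr (X.presheaf.stalk z)) (D : X.Etale) (d : D.left)
    (hd : D.hom d ∈ Z) :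
    ∃ o : Γ((Uo hZ ⨯ D).left, ⊤)ˣ →* Multiplicative ℤ,
      (∀ u, br p r u = 0 → ((Multiplicative.toAdd (o u) : ℤ) : ZMod (p ^ r)) = 0) ∧
      (∀ a : Γ(D.left, ⊤)ˣ, o (rsU (prod.snd : Uo hZ ⨯ D ⟶ D) a) = 1) ∧
      ∀ (π : Γ(D.left, ⊤)) (ϖ : Γ((Uo hZ ⨯ D).left, ⊤)ˣ),
        IsLocalRing.maximalIdeal (D.left.presheaf.stalk d) =
          Ideal.span {(D.left.presheaf.germ ⊤ d trivial).hom π} →
        (ϖ : Γ((Uo hZ ⨯ D).left, ⊤)) = ((prod.snd : Uo hZ ⨯ D ⟶ D).left.appTop).hom π →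
        o ϖ = Multiplicative.ofAdd 1 := by
  have hD := h2 D.left X D.hom d (hdvr _ hd)
  obtain ⟨η, hη, hne, -, hinj, hfrac, -, hnot⟩ := h1 D.left d hD
  have hηZ : D.hom η ∉ Z := fun hc => hnot (h2 D.left X D.hom η (hdvr _ hc))
  obtain ⟨hopen, -, hrange, -⟩ := h3 X Z hZ D
  have hηr : η ∈ Set.range (prod.snd : Uo hZ ⨯ D ⟶ D).left := by
    rw [hrange]
    exact hηZ
  obtain ⟨η', rfl⟩ := hηr
  let s : (Uo hZ ⨯ D).left ⟶ D.left := (prod.snd : Uo hZ ⨯ D ⟶ D).left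
  have hiso : IsIso (s.residueFieldMap η') := inferInstance
  have hbij : Function.Bijective (s.residueFieldMap η').hom :=
    ConcreteCategory.bijective_of_isIso (s.residueFieldMap η')
  let Φ : D.left.presheaf.stalk d →+* (Uo hZ ⨯ D).left.residueField η' :=
    (s.residueFieldMap η').hom.comp (spz hη)
  have hΦ : Function.Injective Φ := hbij.1.comp hinj
  have hfr : ∀ x, ∃ a b, Φ b ≠ 0 ∧ x * Φ b = Φ a := by
    intro x
    obtain ⟨y, rfl⟩ := hbij.2 x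
    obtain ⟨a, b, hb, hab⟩ := hfrac y
    refine ⟨a, b, ?_, ?_⟩
    · intro h0
      apply hb
      apply hbij.1
      rw [map_zero]
      exact h0
    · show (s.residueFieldMap η').hom y * (s.residueFieldMap η').hom (spz hη b) =
        (s.residueFieldMap η').hom (spz hη a)
      rw [← map_mul, hab]
  obtain ⟨o, ho1, ho2⟩ := OrdU_val (D.left.presheaf.stalk d) _ hD Φ hΦ hfr
  have hev : ∀ a : Γ(D.left, ⊤), ((Uo hZ ⨯ D).left.Γevaluation η').hom ((s.appTop).hom a) =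
      Φ ((D.left.presheaf.germ ⊤ d trivial).hom a) := by
    intro a
    have e1 := Scheme.Γevaluation_naturality s η'
    have e2 : (s.residueFieldMap η').hom ((D.left.Γevaluation (s η')).hom a) =
        ((Uo hZ ⨯ D).left.Γevaluation η').hom ((s.appTop).hom a) := congrArg (fun q => q.hom a) e1
    rw [← e2]
    show _ = (s.residueFieldMap η').hom (spz hη ((D.left.presheaf.germ ⊤ d trivial).hom a))
    congr 1
    have e3 : D.left.presheaf.germ ⊤ d trivial ≫ D.left.presheaf.stalkSpecializes hη =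
        D.left.presheaf.germ ⊤ (s η') trivial := TopCat.Presheaf.germ_stalkSpecializes ..
    show ((D.left.presheaf.germ ⊤ (s η') trivial) ≫ D.left.residue (s η')).hom a = _
    rw [← e3]
    rfl
  let ev : Γ((Uo hZ ⨯ D).left, ⊤)ˣ →* ((Uo hZ ⨯ D).left.residueField η')ˣ :=
    Units.map (((Uo hZ ⨯ D).left.Γevaluation η').hom :
      Γ((Uo hZ ⨯ D).left, ⊤) →* (Uo hZ ⨯ D).left.residueField η')
  refine ⟨o.comp ev, ?_, ?_, ?_⟩
  · intro v hv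
    obtain ⟨c, hc⟩ := h5 p r X hp (Uo hZ ⨯ D) η' v hv
    have hc0 : c ≠ 0 := by
      rintro rfl
      have hpr : p ^ r ≠ 0 := pow_ne_zero r (Fact.out : p.Prime).ne_zero
      rw [zero_pow hpr] at hc
      exact (ev v).ne_zero hc
    have e1 : ev v = Units.mk0 c hc0 ^ p ^ r := Units.ext hc
    show ((Multiplicative.toAdd (o (ev v)) : ℤ) : ZMod (p ^ r)) = 0
    rw [e1, map_pow, toAdd_pow]
    have e2 : ((p ^ r : ℕ) : ZMod (p ^ r)) = 0 := ZMod.natCast_self _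
    rw [nsmul_eq_mul, Int.cast_mul, Int.cast_natCast, e2, zero_mul]
  · intro a
    apply ho1 _ _ (a.isUnit.map (D.left.presheaf.germ ⊤ d trivial).hom)
    exact hev a
  · intro π ϖ hπ hϖ
    apply ho2 _ _ hπ
    rw [← hev π, ← hϖ]
    rfl

/-- restriction of `k : W' ⟶ W` to open subschemes -/
private noncomputable def OrdU_opr {X : Scheme.{u}} {W' W : X.Etale} (k : W' ⟶ W)
    (V' : W'.left.Opens) (V : W.left.Opens) (e : V' ≤ k.left ⁻¹ᵁ V) : opn W' V' ⟶ opn W V :=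
  MorphismProperty.Over.homMk (k.left.resLE V V' e) (by
    show k.left.resLE V V' e ≫ V.ι ≫ W.hom = V'.ι ≫ W'.hom
    have h : k.left ≫ W.hom = W'.hom := MorphismProperty.Over.w k
    rw [Scheme.Hom.resLE_comp_ι_assoc, h]) trivial

private theorem OrdU_opr_comp {X : Scheme.{u}} {W' W : X.Etale} (k : W' ⟶ W)
    (V' : W'.left.Opens) (V : W.left.Opens) (e : V' ≤ k.left ⁻¹ᵁ V) :
    OrdU_opr k V' V e ≫ opi W V = opi W' V' ≫ k := by
  apply OrdU_ext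
  exact Scheme.Hom.resLE_comp_ι k.left e

private theorem OrdU_opr_val {X : Scheme.{u}} {W' W : X.Etale} (k : W' ⟶ W)
    (V' : W'.left.Opens) (V : W.left.Opens) (e : V' ≤ k.left ⁻¹ᵁ V) (x : V') :
    ((OrdU_opr k V' V e).left x : V).1 = k.left x.1 := by
  have h : (OrdU_opr k V' V e).left ≫ V.ι = V'.ι ≫ k.left := Scheme.Hom.resLE_comp_ι k.left e
  exact congrArg (fun q => q x) h

private theorem OrdU_map {p r : ℕ} {X : Scheme.{u}} {A B C : X.Etale} (f : A ⟶ B) (g : B ⟶ C)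
    (s : (GmS p r X).obj.obj (op C)) :
    ((GmS p r X).obj.map f.op).hom (((GmS p r X).obj.map g.op).hom s) =
      ((GmS p r X).obj.map (f ≫ g).op).hom s := by
  rw [op_comp, Functor.map_comp]
  rfl

private theorem OrdU_rsU {X : Scheme.{u}} {A B C : X.Etale} (f : A ⟶ B) (g : B ⟶ C)
    (u : Γ(C.left, ⊤)ˣ) : rsU f (rsU g u) = rsU (f ≫ g) u := by
  apply Units.ext
  show (f.left.appTop).hom ((g.left.appTop).hom (u : Γ(C.left, ⊤))) =
    ((f ≫ g).left.appTop).hom (u : Γ(C.left, ⊤))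
  have h : (f ≫ g).left.appTop = g.left.appTop ≫ f.left.appTop := Scheme.Hom.comp_appTop ..
  rw [h]
  rfl

private theorem OrdU_mul {X : Scheme.{u}} {A B : X.Etale} (f : A ⟶ B) (u v : Γ(B.left, ⊤)ˣ) :
    rsU f (u * v) = rsU f u * rsU f v := map_mul _ _ _

private theorem OrdU_zpow {X : Scheme.{u}} {A B : X.Etale} (f : A ⟶ B) (u : Γ(B.left, ⊤)ˣ)
    (n : ℤ) : rsU f (u ^ n) = rsU f u ^ n := map_zpow _ _ _

/-- `u = ε ϖ ^ n` with a parameter `π` at `z` -/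
private structure OrdUD {X : Scheme.{u}} {Z : Set X} (hZ : IsClosed Z) (V : X.Etale) (z : V.left)
    (n : ℤ) (u : Γ((Uo hZ ⨯ V).left, ⊤)ˣ) (π : Γ(V.left, ⊤)) (ϖ : Γ((Uo hZ ⨯ V).left, ⊤)ˣ)
    (ε : Γ(V.left, ⊤)ˣ) : Prop where
  par : Par Z V z π
  pi : (ϖ : Γ((Uo hZ ⨯ V).left, ⊤)) = ((prod.snd : Uo hZ ⨯ V ⟶ V).left.appTop).hom π
  eq : u = rsU (prod.snd : Uo hZ ⨯ V ⟶ V) ε * ϖ ^ n

private theorem OrdU_pi {X : Scheme.{u}} {Z : Set X} (hZ : IsClosed Z) {D V : X.Etale} (g : D ⟶ V)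
    (π : Γ(V.left, ⊤)) (ϖ : Γ((Uo hZ ⨯ V).left, ⊤)ˣ)
    (h : (ϖ : Γ((Uo hZ ⨯ V).left, ⊤)) = ((prod.snd : Uo hZ ⨯ V ⟶ V).left.appTop).hom π) :
    (rsU (prod.map (𝟙 (Uo hZ)) g) ϖ : Γ((Uo hZ ⨯ D).left, ⊤)) =
      ((prod.snd : Uo hZ ⨯ D ⟶ D).left.appTop).hom ((g.left.appTop).hom π) := by
  show ((prod.map (𝟙 (Uo hZ)) g).left.appTop).hom (ϖ : Γ((Uo hZ ⨯ V).left, ⊤)) = _
  rw [h]
  have e1 : prod.map (𝟙 (Uo hZ)) g ≫ prod.snd = prod.snd ≫ g := prod.map_snd _ _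
  have e2 : (prod.map (𝟙 (Uo hZ)) g ≫ (prod.snd : Uo hZ ⨯ V ⟶ V)).left.appTop =
      (prod.snd : Uo hZ ⨯ V ⟶ V).left.appTop ≫ (prod.map (𝟙 (Uo hZ)) g).left.appTop :=
    Scheme.Hom.comp_appTop ..
  have e3 : ((prod.snd : Uo hZ ⨯ D ⟶ D) ≫ g).left.appTop =
      g.left.appTop ≫ (prod.snd : Uo hZ ⨯ D ⟶ D).left.appTop := Scheme.Hom.comp_appTop ..
  have e4 : (prod.snd : Uo hZ ⨯ V ⟶ V).left.appTop ≫ (prod.map (𝟙 (Uo hZ)) g).left.appTop =
      g.left.appTop ≫ (prod.snd : Uo hZ ⨯ D ⟶ D).left.appTop := by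
    rw [← e2, ← e3, e1]
  exact congrArg (fun q => q.hom π) e4

private theorem OrdU_res {X : Scheme.{u}} {Z : Set X} (hZ : IsClosed Z) {D V : X.Etale} (g : D ⟶ V)
    (d : D.left) (z : V.left) (hd : g.left d = z) (honly : ∀ x : D.left, g.left x = z → x = d)
    {n : ℤ} {u : Γ((Uo hZ ⨯ V).left, ⊤)ˣ} {π : Γ(V.left, ⊤)} {ϖ : Γ((Uo hZ ⨯ V).left, ⊤)ˣ}
    {ε : Γ(V.left, ⊤)ˣ} (h : OrdUD hZ V z n u π ϖ ε) :
    OrdUD hZ D d n (rsU (prod.map (𝟙 (Uo hZ)) g) u) ((g.left.appTop).hom π)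
      (rsU (prod.map (𝟙 (Uo hZ)) g) ϖ) (rsU g ε) := by
  refine ⟨OrdU_par g d z π h.par hd honly, OrdU_pi hZ g π ϖ h.pi, ?_⟩
  rw [h.eq, OrdU_mul, OrdU_zpow, OrdU_rsU, OrdU_rsU, prod.map_snd]

private theorem OrdU_rsF {p r : ℕ} {X : Scheme.{u}} {Z : Set X} (hZ : IsClosed Z) (hBr : St_Br.{u})
    {W' W : X.Etale} (k : W' ⟶ W) (V' : W'.left.Opens) (V : W.left.Opens)
    (e : V' ≤ k.left ⁻¹ᵁ V) (s : (GmS p r X).obj.obj (op (Uo hZ ⨯ W)))
    (u : Γ((Uo hZ ⨯ opn W V).left, ⊤)ˣ) (h : rsF hZ p r (opi W V) s = br p r u) :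
    rsF hZ p r (opi W' V') (rsF hZ p r k s) =
      br p r (rsU (prod.map (𝟙 (Uo hZ)) (OrdU_opr k V' V e)) u) := by
  obtain ⟨-, -, hB3, -⟩ := hBr p r X
  rw [← hB3, ← h]
  show ((GmS p r X).obj.map _).hom (((GmS p r X).obj.map _).hom s) =
    ((GmS p r X).obj.map _).hom (((GmS p r X).obj.map _).hom s)
  rw [OrdU_map, OrdU_map, prod.map_map, prod.map_map, OrdU_opr_comp]

private theorem OrdU_sub {p r : ℕ} {X : Scheme.{u}} (hBr : St_Br.{u}) {W : X.Etale}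
    (u v : Γ(W.left, ⊤)ˣ) (h : br p r u = br p r v) : br p r (u * v⁻¹) = 0 := by
  obtain ⟨hB1, hB2, -⟩ := hBr p r X
  have h1 : br p r (1 : Γ(W.left, ⊤)ˣ) = 0 := by
    have := hB2 W 1
    rwa [one_pow] at this
  rw [hB1, h, ← hB1, mul_inv_cancel, h1]

/-- the first part: uniqueness -/
private theorem OrdU_one (h1 : St_Gen.{u}) (h2 : St_EtDvr.{u}) (h3 : St_UW.{u}) (h4 : St_Br.{u})
    (h5 : St_Br0.{u}) (p r : ℕ) [Fact p.Prime] (X : Scheme.{u}) (hp : (p : Γ(X, ⊤)) = 0)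
    (Z : Set X) (hZ : IsClosed Z) (hdvr : ∀ z ∈ Z, IsDvr (X.presheaf.stalk z)) (D : X.Etale)
    (d : D.left) {n m : ℤ} {u v : Γ((Uo hZ ⨯ D).left, ⊤)ˣ} {π π' : Γ(D.left, ⊤)}
    {ϖ ϖ' : Γ((Uo hZ ⨯ D).left, ⊤)ˣ} {ε ε' : Γ(D.left, ⊤)ˣ} (hu : OrdUD hZ D d n u π ϖ ε)
    (hv : OrdUD hZ D d m v π' ϖ' ε') (h : br p r u = br p r v) : (n : ZMod (p ^ r)) = m := by
  obtain ⟨o, ho1, ho2, ho3⟩ := OrdU_ord h1 h2 h3 h5 p r X hp Z hZ hdvr D d hu.par.mem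
  have e1 := ho1 _ (OrdU_sub h4 u v h)
  have e2 : o u = Multiplicative.ofAdd n := by
    rw [hu.eq, map_mul, map_zpow, ho2, ho3 π ϖ hu.par.gen hu.pi, one_mul, ← ofAdd_zsmul]
    simp
  have e3 : o v = Multiplicative.ofAdd m := by
    rw [hv.eq, map_mul, map_zpow, ho2, ho3 π' ϖ' hv.par.gen hv.pi, one_mul, ← ofAdd_zsmul]
    simp
  rw [map_mul, map_inv, e2, e3] at e1
  have e4 : Multiplicative.toAdd (Multiplicative.ofAdd n * (Multiplicative.ofAdd m)⁻¹) = n - m := rfl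
  rw [e4, Int.cast_sub, sub_eq_zero] at e1
  exact e1

/-- an isolated point of the fibre -/
private theorem OrdU_iso {Y W : Scheme.{u}} (k : Y ⟶ W) [Etale k] (y : Y) (V : W.Opens)
    (hy : k y ∈ V) : ∃ V' : Y.Opens, y ∈ V' ∧ V' ≤ k ⁻¹ᵁ V ∧ ∀ x ∈ V', k x = k y → x = y := by
  have hq := OrdU_lqf k
  have hd := Scheme.Hom.isDiscrete_preimage_singleton k (k y)
  rw [isDiscrete_iff_forall_mem_exists_isOpen] at hd
  obtain ⟨O, hO, hOy⟩ := hd y rfl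
  refine ⟨⟨O, hO⟩ ⊓ k ⁻¹ᵁ V, ⟨?_, hy⟩, inf_le_right, ?_⟩
  · have : y ∈ O ∩ k ⁻¹' {k y} := by rw [hOy]; rfl
    exact this.1
  · intro x hx hxy
    have : x ∈ O ∩ k ⁻¹' {k y} := ⟨hx.1, hxy⟩
    rw [hOy] at this
    exact this

private theorem OrdU_unit {Y : Scheme.{u}} (y : Y) (hY : IsDvr (Y.presheaf.stalk y))
    (a b : Γ(Y, ⊤)) (h : Ideal.span {(Y.presheaf.germ ⊤ y trivial).hom a} =
      Ideal.span {(Y.presheaf.germ ⊤ y trivial).hom b}) :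
    ∃ (O : Y.Opens) (v : Γ(Y, O)ˣ), y ∈ O ∧
      (Y.presheaf.map (homOfLE (le_top : O ≤ ⊤)).op).hom b =
        (Y.presheaf.map (homOfLE (le_top : O ≤ ⊤)).op).hom a * v := by
  obtain ⟨hdom, -⟩ := hY
  obtain ⟨w, hw⟩ := Ideal.span_singleton_eq_span_singleton.1 h
  obtain ⟨O₁, hy₁, v₁, hv₁⟩ := Y.presheaf.exists_germ_eq (w : Y.presheaf.stalk y)
  have hu : IsUnit (Y.presheaf.germ O₁ y hy₁ v₁) := by
    rw [hv₁]
    exact w.isUnit
  obtain ⟨O₃, i₃, hy₃, hu₃⟩ := Y.toRingedSpace.isUnit_res_of_isUnit_germ O₁ v₁ y hy₁ hu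
  let i₁ : O₁ ⟶ ⊤ := homOfLE le_top
  have hg : Y.presheaf.germ O₁ y hy₁ ((Y.presheaf.map i₁.op).hom a * v₁) =
      Y.presheaf.germ O₁ y hy₁ ((Y.presheaf.map i₁.op).hom b) := by
    rw [map_mul, hv₁]
    have e1 : ∀ c : Γ(Y, ⊤), Y.presheaf.germ O₁ y hy₁ ((Y.presheaf.map i₁.op).hom c) =
        (Y.presheaf.germ ⊤ y trivial).hom c := fun c => Y.presheaf.germ_res_apply i₁ y hy₁ c
    rw [e1, e1]
    exact hw
  obtain ⟨O₂, hy₂, j₁, j₂, hj⟩ := Y.presheaf.germ_eq y hy₁ hy₁ _ _ hg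
  obtain rfl : j₁ = j₂ := Subsingleton.elim _ _
  let O := O₂ ⊓ O₃
  let k₂ : O ⟶ O₂ := homOfLE inf_le_left
  let k₃ : O ⟶ O₃ := homOfLE inf_le_right
  have hv : IsUnit ((Y.presheaf.map (k₃ ≫ i₃).op).hom v₁) := by
    rw [op_comp, Functor.map_comp]
    exact IsUnit.map (Y.presheaf.map k₃.op).hom hu₃
  obtain ⟨v, hv'⟩ := hv
  refine ⟨O, v, ⟨hy₂, hy₃⟩, ?_⟩
  have hj' := congrArg (Y.presheaf.map k₂.op).hom hj
  have e2 : ∀ c : Γ(Y, O₁), (Y.presheaf.map k₂.op).hom (Y.presheaf.map j₁.op c) =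
      (Y.presheaf.map (k₃ ≫ i₃).op).hom c := fun c => by
    have : Y.presheaf.map j₁.op ≫ Y.presheaf.map k₂.op = Y.presheaf.map (k₃ ≫ i₃).op := by
      rw [← Functor.map_comp]
      rfl
    exact congrArg (fun q => q.hom c) this
  have e3 : ∀ c : Γ(Y, ⊤), (Y.presheaf.map (k₃ ≫ i₃).op).hom ((Y.presheaf.map i₁.op).hom c) =
      (Y.presheaf.map (homOfLE (le_top : O ≤ ⊤)).op).hom c := fun c => by
    have : Y.presheaf.map i₁.op ≫ Y.presheaf.map (k₃ ≫ i₃).op =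
        Y.presheaf.map (homOfLE (le_top : O ≤ ⊤)).op := by
      rw [← Functor.map_comp]
      rfl
    exact congrArg (fun q => q.hom c) this
  have e4 : (Y.presheaf.map (k₃ ≫ i₃).op).hom ((Y.presheaf.map i₁.op).hom a * v₁) =
      (Y.presheaf.map (k₃ ≫ i₃).op).hom ((Y.presheaf.map i₁.op).hom b) := by
    rw [← e2, ← e2]
    exact hj'
  rw [map_mul, e3, e3, ← hv'] at e4
  exact e4.symm

private theorem OrdU_shr {p r : ℕ} {X : Scheme.{u}} {Z : Set X} (hZ : IsClosed Z)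
    (hBr : St_Br.{u}) {W' W : X.Etale} (k : W' ⟶ W) (z' : W'.left) (z : W.left)
    (hk : k.left z' = z) (s : (GmS p r X).obj.obj (op (Uo hZ ⨯ W))) (V : W.left.Opens)
    (hz : z ∈ V) {n : ℤ} {u : Γ((Uo hZ ⨯ opn W V).left, ⊤)ˣ} {π : Γ((opn W V).left, ⊤)}
    {ϖ : Γ((Uo hZ ⨯ opn W V).left, ⊤)ˣ} {ε : Γ((opn W V).left, ⊤)ˣ}
    (h : OrdUD hZ (opn W V) ⟨z, hz⟩ n u π ϖ ε) (hs : rsF hZ p r (opi W V) s = br p r u)
    (V' : W'.left.Opens) (hz' : z' ∈ V') (e : V' ≤ k.left ⁻¹ᵁ V)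
    (honly : ∀ x ∈ V', k.left x = z → x = z') :
    OrdUD hZ (opn W' V') ⟨z', hz'⟩ n (rsU (prod.map (𝟙 (Uo hZ)) (OrdU_opr k V' V e)) u)
      (((OrdU_opr k V' V e).left.appTop).hom π)
      (rsU (prod.map (𝟙 (Uo hZ)) (OrdU_opr k V' V e)) ϖ) (rsU (OrdU_opr k V' V e) ε) ∧
    rsF hZ p r (opi W' V') (rsF hZ p r k s) =
      br p r (rsU (prod.map (𝟙 (Uo hZ)) (OrdU_opr k V' V e)) u) := by
  refine ⟨OrdU_res hZ (OrdU_opr k V' V e) ⟨z', hz'⟩ ⟨z, hz⟩ ?_ ?_ h,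
    OrdU_rsF hZ hBr k V' V e s u hs⟩
  · apply Subtype.ext
    rw [OrdU_opr_val k V' V e ⟨z', hz'⟩]
    exact hk
  · intro x hx
    apply Subtype.ext
    apply honly x.1 x.2
    rw [← OrdU_opr_val k V' V e x, hx]

private theorem OrdU_id {p r : ℕ} {X : Scheme.{u}} {Z : Set X} (hZ : IsClosed Z) {W : X.Etale}
    (s : (GmS p r X).obj.obj (op (Uo hZ ⨯ W))) : rsF hZ p r (𝟙 W) s = s := by
  show ((GmS p r X).obj.map (prod.map (𝟙 (Uo hZ)) (𝟙 W)).op).hom s = s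
  rw [prod.map_id_id, op_id, CategoryTheory.Functor.map_id]
  rfl

/-- restriction to a smaller open neighbourhood -/
private theorem OrdU_shr' {p r : ℕ} {X : Scheme.{u}} {Z : Set X} (hZ : IsClosed Z)
    (hBr : St_Br.{u}) {W : X.Etale} (z : W.left) (s : (GmS p r X).obj.obj (op (Uo hZ ⨯ W)))
    (V : W.left.Opens) (hz : z ∈ V) {n : ℤ} {u : Γ((Uo hZ ⨯ opn W V).left, ⊤)ˣ}
    {π : Γ((opn W V).left, ⊤)} {ϖ : Γ((Uo hZ ⨯ opn W V).left, ⊤)ˣ} {ε : Γ((opn W V).left, ⊤)ˣ}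
    (h : OrdUD hZ (opn W V) ⟨z, hz⟩ n u π ϖ ε) (hs : rsF hZ p r (opi W V) s = br p r u)
    (V' : W.left.Opens) (hz' : z ∈ V') (e : V' ≤ V) :
    OrdUD hZ (opn W V') ⟨z, hz'⟩ n (rsU (prod.map (𝟙 (Uo hZ)) (OrdU_opr (𝟙 W) V' V e)) u)
      (((OrdU_opr (𝟙 W) V' V e).left.appTop).hom π)
      (rsU (prod.map (𝟙 (Uo hZ)) (OrdU_opr (𝟙 W) V' V e)) ϖ) (rsU (OrdU_opr (𝟙 W) V' V e) ε) ∧
    rsF hZ p r (opi W V') s =
      br p r (rsU (prod.map (𝟙 (Uo hZ)) (OrdU_opr (𝟙 W) V' V e)) u) := by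
  have h1 := OrdU_shr hZ hBr (𝟙 W) z z rfl s V hz h hs V' hz' e (fun x _ hx => hx)
  rw [OrdU_id] at h1
  exact h1

private theorem OrdU_grp {G : Type*} [CommGroup G] (A B X v Y : G) (n m : ℤ) (h : Y = X * v) :
    A * X ^ n * (B * Y ^ m) = A * B * v ^ m * X ^ (n + m) := by
  rw [h, mul_zpow, zpow_add]
  have : X ^ n * (B * (X ^ m * v ^ m)) = B * v ^ m * (X ^ n * X ^ m) := by
    rw [mul_left_comm, ← mul_assoc (X ^ n), mul_comm (X ^ n * X ^ m), mul_assoc B]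
  rw [mul_assoc A, this, mul_assoc A, mul_assoc A]

theorem thm_OrdU (h1 : St_Gen.{u}) (h2 : St_EtDvr.{u}) (h3 : St_UW.{u}) (h4 : St_Br.{u})
    (h5 : St_Br0.{u}) : St_OrdU.{u} := by
  intro p r _ X _ hp Z hZ hdvr
  refine ⟨?_, ?_, ?_, ?_⟩
  · rintro W s z n m ⟨V, hz, π, ϖ, ε, hP, hϖ, hs⟩ ⟨V', hz', π', ϖ', ε', hP', hϖ', hs'⟩
    obtain ⟨a1, a2⟩ := OrdU_shr' hZ h4 z s V hz ⟨hP, hϖ, rfl⟩ hs (V ⊓ V') ⟨hz, hz'⟩ inf_le_left
    obtain ⟨b1, b2⟩ := OrdU_shr' hZ h4 z s V' hz' ⟨hP', hϖ', rfl⟩ hs' (V ⊓ V') ⟨hz, hz'⟩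
      inf_le_right
    exact OrdU_one h1 h2 h3 h4 h5 p r X hp Z hZ hdvr _ _ a1 b1 (a2.symm.trans b2)
  · rintro W s t z n m ⟨V, hz, π, ϖ, ε, hP, hϖ, hs⟩ ⟨V', hz', π', ϖ', ε', hP', hϖ', hs'⟩
    obtain ⟨a1, a2⟩ := OrdU_shr' hZ h4 z s V hz ⟨hP, hϖ, rfl⟩ hs (V ⊓ V') ⟨hz, hz'⟩ inf_le_left
    obtain ⟨b1, b2⟩ := OrdU_shr' hZ h4 z t V' hz' ⟨hP', hϖ', rfl⟩ hs' (V ⊓ V') ⟨hz, hz'⟩
      inf_le_right
    have hY : IsDvr ((opn W (V ⊓ V')).left.presheaf.stalk ⟨z, hz, hz'⟩) :=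
      h2 _ X (opn W (V ⊓ V')).hom _ (hdvr _ a1.par.mem)
    obtain ⟨O, v, hyO, hv⟩ := OrdU_unit _ hY _ _ (a1.par.gen.symm.trans b1.par.gen)
    let V₂ : W.left.Opens := (V ⊓ V').ι ''ᵁ O
    have hz₂ : z ∈ V₂ := ⟨⟨z, hz, hz'⟩, hyO, rfl⟩
    have hle : V₂ ≤ V ⊓ V' := by
      rintro _ ⟨x, -, rfl⟩
      exact x.2
    obtain ⟨c1, c2⟩ := OrdU_shr' hZ h4 z s (V ⊓ V') ⟨hz, hz'⟩ a1 a2 V₂ hz₂ hle
    obtain ⟨d1, d2⟩ := OrdU_shr' hZ h4 z t (V ⊓ V') ⟨hz, hz'⟩ b1 b2 V₂ hz₂ hle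
    let j : opn W V₂ ⟶ opn W (V ⊓ V') := OrdU_opr (𝟙 W) V₂ (V ⊓ V') hle
    have hj : (⊤ : (opn W V₂).left.Opens) ≤ j.left ⁻¹ᵁ O := by
      intro x _
      obtain ⟨o, ho, hox⟩ := x.2
      have h6 : j.left x = o := by
        apply Subtype.ext
        rw [OrdU_opr_val (𝟙 W) V₂ (V ⊓ V') hle x]
        exact hox.symm
      show j.left x ∈ O
      rw [h6]
      exact ho
    let v' : Γ((opn W V₂).left, ⊤)ˣ :=
      Units.map ((j.left.appLE O ⊤ hj).hom : Γ((opn W (V ⊓ V')).left, O) →*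
        Γ((opn W V₂).left, ⊤)) v
    have e5 : ∀ c : Γ((opn W (V ⊓ V')).left, ⊤), (j.left.appLE O ⊤ hj).hom
        (((opn W (V ⊓ V')).left.presheaf.map (homOfLE (le_top : O ≤ ⊤)).op).hom c) =
        (j.left.appTop).hom c := fun c => by
      have e6 := Scheme.Hom.map_appLE j.left hj (homOfLE (le_top : O ≤ ⊤)).op
      have e7 : j.left.appTop = j.left.appLE ⊤ ⊤ le_rfl := Scheme.Hom.app_eq_appLE j.left
      rw [e7]
      exact congrArg (fun q => q.hom c) e6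
    have e8 := congrArg (j.left.appLE O ⊤ hj).hom hv
    rw [map_mul, e5, e5] at e8
    have e9 : rsU (prod.map (𝟙 (Uo hZ)) j) (rsU (prod.map (𝟙 (Uo hZ))
        (OrdU_opr (𝟙 W) (V ⊓ V') V' inf_le_right)) ϖ') =
        rsU (prod.map (𝟙 (Uo hZ)) j) (rsU (prod.map (𝟙 (Uo hZ))
        (OrdU_opr (𝟙 W) (V ⊓ V') V inf_le_left)) ϖ) *
          rsU (prod.snd : Uo hZ ⨯ opn W V₂ ⟶ opn W V₂) v' := by
      apply Units.ext
      rw [Units.val_mul]
      refine d1.pi.trans ?_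
      refine Eq.trans ?_ (congrArg (fun q => q * (rsU (prod.snd : Uo hZ ⨯ opn W V₂ ⟶ opn W V₂) v' :
        Γ((Uo hZ ⨯ opn W V₂).left, ⊤))) c1.pi.symm)
      refine (congrArg ((prod.snd : Uo hZ ⨯ opn W V₂ ⟶ opn W V₂).left.appTop).hom e8).trans ?_
      exact map_mul _ _ _
    obtain ⟨hB1, -⟩ := h4 p r X
    refine ⟨V₂, hz₂, _, _, rsU j (rsU (OrdU_opr (𝟙 W) (V ⊓ V') V inf_le_left) ε) *
      rsU j (rsU (OrdU_opr (𝟙 W) (V ⊓ V') V' inf_le_right) ε') * v' ^ m, c1.par, c1.pi, ?_⟩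
    have e10 : rsF hZ p r (opi W V₂) (s + t) = rsF hZ p r (opi W V₂) s + rsF hZ p r (opi W V₂) t :=
      map_add _ _ _
    rw [e10, c2, d2, ← hB1, c1.eq, d1.eq]
    congr 1
    rw [OrdU_mul, OrdU_mul, OrdU_zpow]
    exact OrdU_grp _ _ _ _ _ _ _ e9
  · rintro W W' k s z' n ⟨V, hz, π, ϖ, ε, hP, hϖ, hs⟩
    obtain ⟨V', hz', e, honly⟩ := OrdU_iso k.left z' V hz
    obtain ⟨a1, a2⟩ := OrdU_shr hZ h4 k z' _ rfl s V hz ⟨hP, hϖ, rfl⟩ hs V' hz' e honly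
    exact ⟨V', hz', _, _, _, a1.par, a1.pi, by rw [a2, ← a1.eq]⟩
  · rintro W t z n ⟨V, hz, π, ϖ, ε, hP, hϖ, hs⟩
    obtain ⟨hB1, hB2, hB3, hB4, -⟩ := h4 p r X
    obtain ⟨D, g, d, a, hd, ha⟩ := hB4 (opn W V) (((GmS p r X).obj.map (opi W V).op).hom t) ⟨z, hz⟩
    have hw : D.hom d = (opn W V).hom (g.left d) := by
      have h : g.left ≫ (opn W V).hom = D.hom := MorphismProperty.Over.w g
      rw [← h]
      rfl
    have hdZ : D.hom d ∈ Z := by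
      rw [hw, hd]
      exact hP.mem
    obtain ⟨o, ho1, ho2, ho3⟩ := OrdU_ord h1 h2 h3 h5 p r X hp Z hZ hdvr D d hdZ
    have e1 : br p r (rsU (prod.map (𝟙 (Uo hZ)) g)
        (rsU (prod.snd : Uo hZ ⨯ opn W V ⟶ opn W V) ε * ϖ ^ n)) =
        br p r (rsU (prod.snd : Uo hZ ⨯ D ⟶ D) a) := by
      rw [← hB3, ← hB3, ← hs, ← ha]
      show ((GmS p r X).obj.map _).hom (((GmS p r X).obj.map _).hom
        (((GmS p r X).obj.map _).hom t)) = ((GmS p r X).obj.map _).hom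
          (((GmS p r X).obj.map _).hom (((GmS p r X).obj.map _).hom t))
      rw [OrdU_map, OrdU_map, OrdU_map, OrdU_map]
      simp only [prod.map_snd, prod.map_snd_assoc, Category.assoc]
    have e2 := ho1 _ (OrdU_sub h4 _ _ e1)
    rw [map_mul, map_inv, ho2, inv_one, mul_one, OrdU_mul, OrdU_zpow, OrdU_rsU, prod.map_snd,
      ← OrdU_rsU, map_mul, ho2, one_mul, map_zpow, ho3 ((g.left.appTop).hom π) _ ?_
        (OrdU_pi hZ g π ϖ hϖ), ← ofAdd_zsmul] at e2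
    · simpa using e2
    · have h6 := hP.gen
      rw [← hd] at h6
      rw [OrdU_max g.left d _ h6, OrdU_germ]

end TPU
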