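import Pool.Agent.TPU.St5

/-!
# TPU, module ParE: existence of neighbourhoods with a parameter
-/

set_option autoImplicit false

universe u

open CategoryTheory Limits AlgebraicGeometry Opposite

namespace TPU

/-- the local ring of a point of an affine open subscheme, membership in its maximal ideal -/
private theorem ParE_mem {Y : Scheme.{u}} {U : Y.Opens} (hU : IsAffineOpen U) {x : Y} (hx : x ∈ U)
    (a : Γ(Y, U)) : (Y.presheaf.germ U x hx).hom a ∈ IsLocalRing.maximalIdeal (Y.presheaf.stalk x) ↔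
      a ∈ (hU.primeIdealOf ⟨x, hx⟩).asIdeal := by
  let _ := Y.presheaf.algebra_section_stalk ⟨x, hx⟩
  have hloc := hU.isLocalization_stalk ⟨x, hx⟩
  exact IsLocalization.AtPrime.to_map_mem_maximal_iff (Y.presheaf.stalk x)
    (hU.primeIdealOf ⟨x, hx⟩).asIdeal a

/-- A local parameter at a point whose local ring is a discrete valuation ring. -/
private theorem ParE_par (Y : Scheme.{u}) [IsLocallyNoetherian Y] (z : Y)
    (hd : IsDvr (Y.presheaf.stalk z)) :
    ∃ (V : Y.Opens) (hz : z ∈ V) (π : Γ(Y, V)),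
      IsLocalRing.maximalIdeal (Y.presheaf.stalk z) =
        Ideal.span {(Y.presheaf.germ V z hz).hom π} ∧
      ∀ (x : Y) (hx : x ∈ V), z ⤳ x ∨ IsUnit ((Y.presheaf.germ V x hx).hom π) := by
  obtain ⟨U, hU, hzU, -⟩ := exists_isAffineOpen_mem_and_subset (X := Y) (x := z) (U := ⊤) trivial
  have hR : IsNoetherianRing Γ(Y, U) := IsLocallyNoetherian.component_noetherian ⟨U, hU⟩
  let _ := Y.presheaf.algebra_section_stalk ⟨z, hzU⟩
  have hloc := hU.isLocalization_stalk ⟨z, hzU⟩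
  obtain ⟨hdom, hdvr⟩ := hd
  obtain ⟨ϖ, hϖ⟩ := IsDiscreteValuationRing.exists_irreducible (Y.presheaf.stalk z)
  have h1 : IsLocalRing.maximalIdeal (Y.presheaf.stalk z) = Ideal.span {ϖ} := hϖ.maximalIdeal_eq
  obtain ⟨⟨t, s⟩, hts⟩ := IsLocalization.surj
    (M := (hU.primeIdealOf ⟨z, hzU⟩).asIdeal.primeCompl) ϖ
  have hs := IsLocalization.map_units (M := (hU.primeIdealOf ⟨z, hzU⟩).asIdeal.primeCompl)
    (Y.presheaf.stalk z) s
  have hts' : ϖ * (Y.presheaf.germ U z hzU).hom s = (Y.presheaf.germ U z hzU).hom t := hts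
  have hs' : IsUnit ((Y.presheaf.germ U z hzU).hom s) := hs
  have h2 : IsLocalRing.maximalIdeal (Y.presheaf.stalk z) =
      Ideal.span {(Y.presheaf.germ U z hzU).hom t} := by
    rw [h1, ← hts', Ideal.span_singleton_eq_span_singleton]
    obtain ⟨v, hv⟩ := hs'
    exact ⟨v, by rw [hv]⟩
  -- every element of the prime ideal is, up to `r`, a multiple of `t`
  have h3 : ∀ g ∈ (hU.primeIdealOf ⟨z, hzU⟩).asIdeal,
      ∃ r ∉ (hU.primeIdealOf ⟨z, hzU⟩).asIdeal, r * g ∈ Ideal.span {t} := by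
    intro g hg
    have h4 := (ParE_mem hU hzU g).2 hg
    rw [h2, Ideal.mem_span_singleton] at h4
    obtain ⟨c, hc⟩ := h4
    obtain ⟨⟨a, b⟩, hab⟩ := IsLocalization.surj
      (M := (hU.primeIdealOf ⟨z, hzU⟩).asIdeal.primeCompl) c
    have hab' : c * (Y.presheaf.germ U z hzU).hom b = (Y.presheaf.germ U z hzU).hom a := hab
    have h5 : (algebraMap Γ(Y, U) (Y.presheaf.stalk z)) (b * g) =
        (algebraMap Γ(Y, U) (Y.presheaf.stalk z)) (a * t) := by
      show (Y.presheaf.germ U z hzU).hom (b * g) = (Y.presheaf.germ U z hzU).hom (a * t)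
      rw [map_mul, map_mul, hc, ← hab']
      ring
    obtain ⟨w, hw⟩ := (IsLocalization.eq_iff_exists
      (hU.primeIdealOf ⟨z, hzU⟩).asIdeal.primeCompl (Y.presheaf.stalk z)).1 h5
    refine ⟨w * b, (w * b).2, ?_⟩
    rw [Ideal.mem_span_singleton]
    refine ⟨w * a, ?_⟩
    calc (w : Γ(Y, U)) * b * g = w * (b * g) := by ring
      _ = w * (a * t) := hw
      _ = t * (w * a) := by ring
  have h4 : ∃ r ∉ (hU.primeIdealOf ⟨z, hzU⟩).asIdeal,
      ∀ g ∈ (hU.primeIdealOf ⟨z, hzU⟩).asIdeal, r * g ∈ Ideal.span {t} := by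
    classical
    obtain ⟨S, hS⟩ := (isNoetherianRing_iff_ideal_fg _).1 hR
      (hU.primeIdealOf ⟨z, hzU⟩).asIdeal
    have h5 : ∀ g : S, ∃ r ∉ (hU.primeIdealOf ⟨z, hzU⟩).asIdeal, r * (g : Γ(Y, U)) ∈
        Ideal.span {t} := by
      intro g
      apply h3
      rw [← hS]
      exact Ideal.subset_span g.2
    choose r hr1 hr2 using h5
    refine ⟨∏ g : S, r g, ?_, ?_⟩
    · intro h6
      obtain ⟨g, -, hg⟩ := (Ideal.IsPrime.prod_mem_iff).1 h6
      exact hr1 g hg
    · intro g hg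
      rw [← hS] at hg
      induction hg using Submodule.span_induction with
      | mem x hx =>
        rw [← Finset.mul_prod_erase Finset.univ r (Finset.mem_univ ⟨x, hx⟩)]
        have h7 : (r ⟨x, hx⟩ * ∏ g ∈ Finset.univ.erase ⟨x, hx⟩, r g) * x =
          (∏ g ∈ Finset.univ.erase ⟨x, hx⟩, r g) * (r ⟨x, hx⟩ * x) := by ring
        rw [h7]
        exact Ideal.mul_mem_left _ _ (hr2 ⟨x, hx⟩)
      | zero =>
        rw [mul_zero]
        exact Ideal.zero_mem _
      | add x y _ _ hx hy =>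
        rw [mul_add]
        exact Ideal.add_mem _ hx hy
      | smul a x _ hx =>
        have h7 : (∏ g : S, r g) * (a • x) = a * ((∏ g : S, r g) * x) := by
          rw [smul_eq_mul]
          ring
        rw [h7]
        exact Ideal.mul_mem_left _ _ hx
  obtain ⟨r, hr1, hr2⟩ := h4
  have hle : Y.basicOpen r ≤ U := Y.basicOpen_le r
  have hzr : z ∈ Y.basicOpen r := by
    rw [Y.mem_basicOpen r z hzU]
    by_contra h5
    exact hr1 ((ParE_mem hU hzU r).1 h5)
  have hres : ∀ (x : Y) (hx : x ∈ Y.basicOpen r),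
      (Y.presheaf.germ (Y.basicOpen r) x hx).hom ((Y.presheaf.map (homOfLE hle).op).hom t) =
        (Y.presheaf.germ U x (hle hx)).hom t := by
    intro x hx
    exact TopCat.Presheaf.germ_res_apply _ _ _ _ _
  refine ⟨Y.basicOpen r, hzr, (Y.presheaf.map (homOfLE hle).op).hom t, ?_, ?_⟩
  · rw [hres, h2]
  · intro x hx
    rw [hres]
    by_cases h5 : IsUnit ((Y.presheaf.germ U x (hle hx)).hom t)
    · exact Or.inr h5
    left
    have h6 : t ∈ (hU.primeIdealOf ⟨x, hle hx⟩).asIdeal := (ParE_mem hU (hle hx) t).1 h5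
    have h7 : r ∉ (hU.primeIdealOf ⟨x, hle hx⟩).asIdeal := by
      intro h8
      have h9 := (ParE_mem hU (hle hx) r).2 h8
      exact h9 ((Y.mem_basicOpen r x (hle hx)).1 hx)
    have h8 : (hU.primeIdealOf ⟨z, hzU⟩) ≤ (hU.primeIdealOf ⟨x, hle hx⟩) := by
      intro g hg
      have h9 := hr2 g hg
      rw [Ideal.mem_span_singleton] at h9
      obtain ⟨c, hc⟩ := h9
      have h10 : r * g ∈ (hU.primeIdealOf ⟨x, hle hx⟩).asIdeal := by
        rw [hc]
        exact Ideal.mul_mem_right _ _ h6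
      exact ((hU.primeIdealOf ⟨x, hle hx⟩).isPrime.mem_or_mem h10).resolve_left h7
    rw [PrimeSpectrum.le_iff_specializes] at h8
    have h9 := h8.map hU.fromSpec.continuous
    rw [hU.fromSpec_primeIdealOf, hU.fromSpec_primeIdealOf] at h9
    exact h9

private theorem ParE_iso {A B : Type*} [CommRing A] [CommRing B] [IsLocalRing A] [IsLocalRing B]
    (e : A ≃+* B) (a : A) (b : B) (hab : e a = b)
    (hb : IsLocalRing.maximalIdeal B = Ideal.span {b}) :
    IsLocalRing.maximalIdeal A = Ideal.span {a} := by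
  ext x
  have h1 : x ∈ IsLocalRing.maximalIdeal A ↔ e x ∈ IsLocalRing.maximalIdeal B := by
    show ¬ IsUnit x ↔ ¬ IsUnit (e x)
    rw [isUnit_map_iff]
  rw [h1, hb, Ideal.mem_span_singleton, Ideal.mem_span_singleton, ← hab]
  constructor
  · rintro ⟨c, hc⟩
    refine ⟨e.symm c, e.injective ?_⟩
    rw [hc, map_mul, RingEquiv.apply_symm_apply]
  · rintro ⟨c, hc⟩
    exact ⟨e c, by rw [hc, map_mul]⟩

theorem thm_ParE (h1 : St_Gen.{u}) (h2 : St_Shr.{u}) (h3 : St_EtDvr.{u}) : St_ParE.{u} := by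
  intro X _ Z hZ hd W z η hzZ hηz hne G hηG
  have het : Etale W.hom := inferInstance
  have hln : IsLocallyNoetherian W.left :=
    @LocallyOfFiniteType.isLocallyNoetherian W.left X W.hom inferInstance inferInstance
  have hdv : ∀ w : W.left, W.hom w ∈ Z → IsDvr (W.left.presheaf.stalk w) := fun w hw =>
    h3 _ _ W.hom w (hd _ hw)
  obtain ⟨η', h, hne', hgen, -, -, -, hnd⟩ := h1 W.left z (hdv z hzZ)
  have hηη : η = η' := (hgen η hηz).resolve_left hne
  subst hηη
  have hηZ : W.hom η ∉ Z := fun h4 => hnd (hdv η h4)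
  obtain ⟨V₀, hzV₀, π₀, hπ1, hπ2⟩ := ParE_par W.left z (hdv z hzZ)
  have hηV₀ : η ∈ V₀ := hηz.mem_open V₀.2 hzV₀
  -- the only point over `Z` in the closure of `z`
  have hcl : ∀ x : W.left, z ⤳ x → x = z := by
    intro x hx
    have hxZ : W.hom x ∈ Z := (hx.map W.hom.continuous).mem_closed hZ hzZ
    obtain ⟨η₁, h', hne₁, hgen₁, -, -, -, hnd₁⟩ := h1 W.left x (hdv x hxZ)
    rcases hgen₁ z hx with h5 | h5
    · exact h5.symm
    · rw [← h5] at hnd₁
      exact absurd (hdv z hzZ) hnd₁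
  obtain ⟨V', hzV', hV'⟩ := h2 W.left z η hgen
    (G ⊓ (W.hom ⁻¹ᵁ ⟨Zᶜ, hZ.isOpen_compl⟩)) ⟨hηG, hηZ⟩
  have hVV : ∀ x ∈ V' ⊓ V₀, x ≠ z → x ∈ G ∧ W.hom x ∉ Z := by
    intro x hx hxz
    rcases hV' x hx.1 with h5 | h5
    · exact absurd (hcl x h5) hxz
    · exact h5
  have hle : (V' ⊓ V₀).ι ''ᵁ ⊤ ≤ V₀ := by
    rintro _ ⟨y, -, rfl⟩
    exact y.2.2
  have hgerm : ∀ x : (V' ⊓ V₀ : W.left.Opens),
      ((V' ⊓ V₀).stalkIso x).hom.hom
        (((V' ⊓ V₀ : W.left.Opens).toScheme.presheaf.germ ⊤ x trivial).hom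
          ((W.left.presheaf.map (homOfLE hle).op).hom π₀)) =
        (W.left.presheaf.germ V₀ x.1 x.2.2).hom π₀ := by
    intro x
    have h5 := congrArg (fun q => q.hom ((W.left.presheaf.map (homOfLE hle).op).hom π₀))
      ((V' ⊓ V₀).germ_stalkIso_hom (V := ⊤) x trivial)
    refine Eq.trans h5 ?_
    exact TopCat.Presheaf.germ_res_apply _ _ _ _ _
  refine ⟨V' ⊓ V₀, ⟨hzV', hzV₀⟩, (W.left.presheaf.map (homOfLE hle).op).hom π₀, ?_, ?_⟩
  · constructor
    · exact hzZ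
    · intro x hx
      by_contra hxz
      have h5 : x.1 ≠ z := fun h6 => hxz (Subtype.ext h6)
      exact (hVV x.1 x.2 h5).2 hx
    · exact ParE_iso ((V' ⊓ V₀).stalkIso ⟨z, ⟨hzV', hzV₀⟩⟩).commRingCatIsoToRingEquiv
        _ _ (hgerm ⟨z, ⟨hzV', hzV₀⟩⟩) hπ1
    · intro x hx
      rcases hπ2 x.1 x.2.2 with h5 | h5
      · exact absurd (Subtype.ext (hcl x.1 h5)) hx
      · rw [← hgerm x] at h5
        exact (isUnit_map_iff ((V' ⊓ V₀).stalkIso x).commRingCatIsoToRingEquiv _).1 h5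
  · intro x hx hxz
    exact (hVV x hx hxz).1

end TPU
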