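import Pool.Agent.TPU.St5

/-!
# TPU [ZPS] : locally constant functions on `Z` are a sheaf for the tame topology (helper75)
-/

set_option autoImplicit false

universe u

open CategoryTheory Limits AlgebraicGeometry Opposite

namespace TPU

set_option backward.isDefEq.respectTransparency.types false in
private theorem ZPS_surj {X : Scheme.{u}} (W : X.Etale) (R : Sieve W)
    (hR : R ∈ X.smallEtaleTopology W) (w : W.left) :
    ∃ (V : X.Etale) (g : V ⟶ W) (v : V.left), R g ∧ g.left v = w := by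
  have h1 : R ∈ (X.smallPretopology @Etale @Etale).toGrothendieck W := by
    rw [← Scheme.smallGrothendieckTopology_eq_toGrothendieck_smallPretopology X le_rfl]
    exact hR
  obtain ⟨Y, f, y, hf, -, hy⟩ := (Scheme.mem_toGrothendieck_smallPretopology W R).1 h1 w
  exact ⟨Y, f, y, hf, hy⟩

set_option backward.isDefEq.respectTransparency.types false in
private theorem ZPS_pb {X : Scheme.{u}} {W V V' : X.Etale} (g : V ⟶ W) (g' : V' ⟶ W)
    (v : V.left) (v' : V'.left) (h : g.left v = g'.left v') :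
    ∃ (Z : X.Etale) (a : Z ⟶ V) (b : Z ⟶ V') (z : Z.left), a ≫ g = b ≫ g' ∧
      a.left z = v ∧ b.left z = v' := by
  obtain ⟨z, hz1, hz2⟩ := Scheme.Pullback.exists_preimage_pullback v v' h
  let Z : X.Etale := Scheme.Etale.mk (pullback.fst g.left g'.left ≫ V.hom)
  have e1 : g.left ≫ W.hom = V.hom := MorphismProperty.Over.w g
  have e2 : g'.left ≫ W.hom = V'.hom := MorphismProperty.Over.w g'
  let a : Z ⟶ V := MorphismProperty.Over.homMk (pullback.fst g.left g'.left) rfl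
  let b : Z ⟶ V' := MorphismProperty.Over.homMk (pullback.snd g.left g'.left) (by
    change pullback.snd g.left g'.left ≫ V'.hom = pullback.fst g.left g'.left ≫ V.hom
    rw [← e1, ← e2, pullback.condition_assoc])
  refine ⟨Z, a, b, z, ?_, hz1, hz2⟩
  exact MorphismProperty.Over.Hom.ext pullback.condition

private theorem ZPS_hom {X : Scheme.{u}} {W V : X.Etale} (g : V ⟶ W) (v : V.left) :
    W.hom (g.left v) = V.hom v := by
  have h : g.left ≫ W.hom = V.hom := MorphismProperty.Over.w g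
  rw [← Scheme.Hom.comp_apply, h]

/-- the points over `Z` -/
private abbrev ZPS_T {X : Scheme.{u}} (Z : Set X) (W : X.Etale) : Type u :=
  {w : W.left // W.hom w ∈ Z}

/-- the map on the points over `Z` -/
private def ZPS_m {X : Scheme.{u}} (Z : Set X) {W V : X.Etale} (g : V ⟶ W) :
    C(ZPS_T Z V, ZPS_T Z W) :=
  ⟨fun v => ⟨g.left v.1, by
    rw [ZPS_hom]
    exact v.2⟩, (g.left.continuous.comp continuous_subtype_val).subtype_mk _⟩

set_option backward.isDefEq.respectTransparency.types false in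
/-- **ZPS**. -/
theorem thm_ZPS (h1 : St_Sur.{u}) : St_ZPS.{u} := by
  intro p r X S f Z
  rw [Presheaf.isSheaf_iff_isSheaf_forget (tame f p) (ZP Z p r)
    (forget (ModuleCat.{u + 1} (Rg.{u} p r))), isSheaf_iff_isSheaf_of_type]
  intro W R hR
  have hR' : R ∈ X.smallEtaleTopology W := h1 p X S f W hR
  intro x hx
  choose V g v hg hv using ZPS_surj W R hR'
  have hvZ : ∀ w : W.left, W.hom w ∈ Z → (V w).hom (v w) ∈ Z := by
    intro w hw
    rw [← ZPS_hom (g w), hv]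
    exact hw
  -- the sections as locally constant functions
  let y : ∀ (Y : X.Etale) (k : Y ⟶ W), R k → LocallyConstant (ZPS_T Z Y) (ZMod (p ^ r)) :=
    fun Y k hk => (x k hk).down
  have hy : ∀ (Y Y' Q : X.Etale) (k : Y ⟶ W) (k' : Y' ⟶ W) (hk : R k) (hk' : R k')
      (a : Q ⟶ Y) (b : Q ⟶ Y') (z : ZPS_T Z Q), a ≫ k = b ≫ k' →
      y Y k hk (ZPS_m Z a z) = y Y' k' hk' (ZPS_m Z b z) := by
    intro Y Y' Q k k' hk hk' a b z hab
    have h2 := hx a b hk hk' hab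
    have h3 := congrArg (fun t : ULift.{u + 1} (LocallyConstant (ZPS_T Z Q) (ZMod (p ^ r))) =>
      t.down z) h2
    exact h3
  have hkey : ∀ (Y : X.Etale) (k : Y ⟶ W) (hk : R k) (z : ZPS_T Z Y)
      (w : W.left) (hw : W.hom w ∈ Z), k.left z.1 = w →
      y Y k hk z = y (V w) (g w) (hg w) ⟨v w, hvZ w hw⟩ := by
    intro Y k hk z w hw hzw
    obtain ⟨Q, a, b, t, hab, ha, hb⟩ := ZPS_pb k (g w) z.1 (v w) (hzw.trans (hv w).symm)
    have ht : Q.hom t ∈ Z := by
      rw [← ZPS_hom a, ha]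
      exact z.2
    have h4 := hy _ _ Q k (g w) hk (hg w) a b ⟨t, ht⟩ hab
    have e1 : ZPS_m Z a ⟨t, ht⟩ = z := Subtype.ext ha
    have e2 : ZPS_m Z b ⟨t, ht⟩ = ⟨v w, hvZ w hw⟩ := Subtype.ext hb
    rw [e1, e2] at h4
    exact h4
  obtain ⟨A, hA⟩ : ∃ A : ZPS_T Z W → ZMod (p ^ r), ∀ w, A w =
      y (V w.1) (g w.1) (hg w.1) ⟨v w.1, hvZ w.1 w.2⟩ :=
    ⟨_, fun _ => rfl⟩
  have hkey' : ∀ (Y : X.Etale) (k : Y ⟶ W) (hk : R k) (z : ZPS_T Z Y),
      y Y k hk z = A (ZPS_m Z k z) := by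
    intro Y k hk z
    rw [hA]
    exact hkey Y k hk z (k.left z.1) (ZPS_m Z k z).2 rfl
  have hlc : IsLocallyConstant A := by
    rw [IsLocallyConstant.iff_exists_open]
    intro w
    obtain ⟨U, hU, hU1, hU2⟩ := (y (V w.1) (g w.1) (hg w.1)).isLocallyConstant.exists_open
      ⟨v w.1, hvZ w.1 w.2⟩
    obtain ⟨O, hO, rfl⟩ := isOpen_induced_iff.1 hU
    have hop : IsOpenMap (g w.1).left := (g w.1).left.isOpenMap
    refine ⟨Subtype.val ⁻¹' ((g w.1).left '' O), (hop O hO).preimage continuous_subtype_val,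
      ⟨v w.1, hU1, hv w.1⟩, ?_⟩
    rintro ⟨w', hw'⟩ ⟨z, hz, hzw⟩
    have hzw' : (g w.1).left z = w' := hzw
    have hzZ : (V w.1).hom z ∈ Z := by
      rw [← ZPS_hom (g w.1), hzw']
      exact hw'
    have h10 : y (V w.1) (g w.1) (hg w.1) ⟨z, hzZ⟩ =
        y (V w.1) (g w.1) (hg w.1) ⟨v w.1, hvZ w.1 w.2⟩ := hU2 ⟨z, hzZ⟩ hz
    have h11 := hkey' (V w.1) (g w.1) (hg w.1) ⟨z, hzZ⟩
    have h12 : ZPS_m Z (g w.1) ⟨z, hzZ⟩ = ⟨w', hw'⟩ := Subtype.ext hzw'
    rw [h12] at h11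
    exact h11.symm.trans (h10.trans (hA w).symm)
  refine ⟨(ULift.up (⟨A, hlc⟩ : LocallyConstant (ZPS_T Z W) (ZMod (p ^ r))) :
    ULift.{u + 1} (LocallyConstant (ZPS_T Z W) (ZMod (p ^ r)))), ?_, ?_⟩
  · intro Y k hk
    have h5 : (⟨A, hlc⟩ : LocallyConstant (ZPS_T Z W) (ZMod (p ^ r))).comap (ZPS_m Z k) =
        y Y k hk := by
      ext z
      exact (hkey' Y k hk z).symm
    exact congrArg (fun t : LocallyConstant (ZPS_T Z Y) (ZMod (p ^ r)) =>
      (ULift.up t : ULift.{u + 1} (LocallyConstant (ZPS_T Z Y) (ZMod (p ^ r))))) h5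
  · intro t ht
    have h6 : (t : ULift.{u + 1} (LocallyConstant (ZPS_T Z W) (ZMod (p ^ r)))).down =
        (⟨A, hlc⟩ : LocallyConstant (ZPS_T Z W) (ZMod (p ^ r))) := by
      ext w
      have h7 := ht (g w.1) (hg w.1)
      have h8 := congrArg (fun t : ULift.{u + 1} (LocallyConstant (ZPS_T Z (V w.1))
        (ZMod (p ^ r))) => t.down ⟨v w.1, hvZ w.1 w.2⟩) h7
      have h9 : (t : ULift.{u + 1} (LocallyConstant (ZPS_T Z W) (ZMod (p ^ r)))).down
          (ZPS_m Z (g w.1) ⟨v w.1, hvZ w.1 w.2⟩) =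
            y (V w.1) (g w.1) (hg w.1) ⟨v w.1, hvZ w.1 w.2⟩ := h8
      have h12 : ZPS_m Z (g w.1) ⟨v w.1, hvZ w.1 w.2⟩ = w := Subtype.ext (hv w.1)
      rw [h12] at h9
      rw [h9]
      exact (hA w).symm
    exact congrArg (fun t : LocallyConstant (ZPS_T Z W) (ZMod (p ^ r)) =>
      (ULift.up t : ULift.{u + 1} (LocallyConstant (ZPS_T Z W) (ZMod (p ^ r))))) h6

end TPU
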