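import Pool.Agent.TPU.All0
import Pool.Agent.TPU.Asm1
import Pool.Agent.TPU.Br
import Pool.Agent.TPU.Br0
import Pool.Agent.TPU.F1I
import Pool.Agent.TPU.H90
import Pool.Agent.TPU.H90a
import Pool.Agent.TPU.OrdE
import Pool.Agent.TPU.OrdM
import Pool.Agent.TPU.OrdU
import Pool.Agent.TPU.ParE
import Pool.Agent.TPU.ZPS

/-!
# TPU: assembly
-/

set_option autoImplicit false

universe u

open CategoryTheory Limits AlgebraicGeometry Opposite

namespace TPU

theorem all_Br0 : St_Br0.{u} := thm_Br0 thm_Br thm_Kf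
theorem all_ParE : St_ParE.{u} := thm_ParE thm_Gen thm_Shr thm_EtDvr
theorem all_ZPS : St_ZPS.{u} := thm_ZPS all_Sur
theorem all_F1I : St_F1I.{u} := thm_F1I thm_Gen thm_EtDvr thm_UW thm_Br all_Br0
theorem all_OrdU : St_OrdU.{u} := thm_OrdU thm_Gen thm_EtDvr thm_UW thm_Br all_Br0

theorem all_H90 : St_H90.{u} := thm_H90 thm_Br thm_Kf thm_H90a
theorem all_OrdE : St_OrdE.{u} := thm_OrdE thm_Gen thm_EtDvr thm_UW all_H90 thm_Br all_ParE
theorem all_OrdM : St_OrdM.{u} :=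
  thm_OrdM all_OrdE all_OrdU all_ParE thm_Gen thm_EtDvr thm_UW thm_Br all_Zar

theorem all_Fin1 : St_Fin1.{u} := asm_Fin1 all_Fin all_Sur all_ZPS all_F1I all_OrdM

end TPU
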