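import Pool.Agent.TPU.St1

/-!
# TPU, module BB: the coarsening of a valuation ring over a discrete valuation ring
-/

set_option autoImplicit false

universe u

open CategoryTheory Limits AlgebraicGeometry Opposite

namespace TPU

/-- The elements of `A` outside of the kernel of `ρ` are units. -/
private lemma BB_unit {A κ : Type u} [CommRing A] [Field κ] (ρ : A →+* κ) (hA : IsDvr A)
    (hs : Function.Surjective ρ) (y : A) (hy : ρ y ≠ 0) : IsUnit y := by
  obtain ⟨h1, h2⟩ := hA
  have h3 : (RingHom.ker ρ).IsMaximal := RingHom.ker_isMaximal_of_surjective ρ hs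
  by_contra hn
  have h4 : y ∈ IsLocalRing.maximalIdeal A := hn
  rw [← IsLocalRing.eq_maximalIdeal h3, RingHom.mem_ker] at h4
  exact hy h4

/-- The coarsening. -/
private def BB_ring {A K κ M : Type u} [CommRing A] [Field K] [Field κ] [Field M] [Algebra K M]
    (φ : A →+* K) (ρ : A →+* κ) (v : ValuationSubring κ) (u : ValuationSubring M)
    (hw : ∀ b : A, ρ b ∈ v → algebraMap K M (φ b) ∈ u) : ValuationSubring M where
  carrier := {x | ∃ a : A, IsUnit a ∧ ρ a ∈ v ∧ algebraMap K M (φ a) * x ∈ u}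
  mul_mem' := by
    rintro x y ⟨a, ha1, ha2, ha3⟩ ⟨b, hb1, hb2, hb3⟩
    refine ⟨a * b, ha1.mul hb1, ?_, ?_⟩
    · rw [map_mul]
      exact mul_mem ha2 hb2
    · have h1 : algebraMap K M (φ (a * b)) * (x * y) =
          (algebraMap K M (φ a) * x) * (algebraMap K M (φ b) * y) := by
        rw [map_mul, map_mul]
        ring
      rw [h1]
      exact mul_mem ha3 hb3
  one_mem' := by
    refine ⟨1, isUnit_one, ?_, ?_⟩
    · rw [map_one]
      exact one_mem v
    · rw [map_one, map_one, one_mul]
      exact one_mem u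
  add_mem' := by
    rintro x y ⟨a, ha1, ha2, ha3⟩ ⟨b, hb1, hb2, hb3⟩
    refine ⟨a * b, ha1.mul hb1, ?_, ?_⟩
    · rw [map_mul]
      exact mul_mem ha2 hb2
    · have h1 : algebraMap K M (φ (a * b)) * (x + y) =
          algebraMap K M (φ b) * (algebraMap K M (φ a) * x) +
            algebraMap K M (φ a) * (algebraMap K M (φ b) * y) := by
        rw [map_mul, map_mul]
        ring
      rw [h1]
      exact add_mem (mul_mem (hw b hb2) ha3) (mul_mem (hw a ha2) hb3)
  zero_mem' := by
    refine ⟨1, isUnit_one, ?_, ?_⟩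
    · rw [map_one]
      exact one_mem v
    · rw [mul_zero]
      exact zero_mem u
  neg_mem' := by
    rintro x ⟨a, ha1, ha2, ha3⟩
    refine ⟨a, ha1, ha2, ?_⟩
    rw [mul_neg]
    exact neg_mem ha3
  mem_or_inv_mem' := by
    intro x
    rcases u.mem_or_inv_mem x with h | h
    · left
      refine ⟨1, isUnit_one, ?_, ?_⟩
      · rw [map_one]
        exact one_mem v
      · rw [map_one, map_one, one_mul]
        exact h
    · right
      refine ⟨1, isUnit_one, ?_, ?_⟩
      · rw [map_one]
        exact one_mem v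
      · rw [map_one, map_one, one_mul]
        exact h

/-- **BB**. The coarsening of `u` over `A`. -/
theorem thm_BB : St_BB.{u} := by
  intro A K κ M _ _ _ _ _ φ ρ v w u hL hu
  have hmem : ∀ x : K, algebraMap K M x ∈ u ↔ x ∈ w := by
    intro x
    rw [← hu]
    exact Iff.rfl
  have hw : ∀ b : A, ρ b ∈ v → algebraMap K M (φ b) ∈ u := by
    intro b hb
    rw [hmem, hL.mem]
    exact ⟨b, rfl, hb⟩
  have hle : u ≤ BB_ring φ ρ v u hw := by
    intro x hx
    refine ⟨1, isUnit_one, ?_, ?_⟩
    · rw [map_one]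
      exact one_mem v
    · rw [map_one, map_one, one_mul]
      exact hx
  refine ⟨BB_ring φ ρ v u hw, hle, ?_, ?_, ?_, ?_⟩
  · intro x
    constructor
    · rintro ⟨a, ha1, _, ha3⟩
      rw [← map_mul, hmem, hL.mem] at ha3
      obtain ⟨y, hy, _⟩ := ha3
      obtain ⟨a', rfl⟩ := ha1
      refine ⟨(↑a'⁻¹ : A) * y, ?_⟩
      rw [map_mul, hy, ← mul_assoc, ← map_mul, Units.inv_mul, map_one, one_mul]
    · rintro ⟨y, rfl⟩
      by_cases hy : ρ y ∈ v
      · exact hle (hw y hy)
      · have hy0 : ρ y ≠ 0 := by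
          intro h0
          rw [h0] at hy
          exact hy (zero_mem v)
        obtain ⟨y', hy'⟩ := BB_unit ρ hL.dvr hL.surj y hy0
        refine ⟨(↑y'⁻¹ : A), ⟨y'⁻¹, rfl⟩, ?_, ?_⟩
        · have h1 : ρ (↑y'⁻¹ : A) = (ρ y)⁻¹ := by
            apply eq_inv_of_mul_eq_one_left
            rw [← hy', ← map_mul, Units.inv_mul, map_one]
          rw [h1]
          exact (v.mem_or_inv_mem (ρ y)).resolve_left hy
        · rw [← map_mul, ← map_mul, ← hy', Units.inv_mul, map_one, map_one]
          exact one_mem u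
  · intro x hx
    exact ValuationSubring.nonunits_le_nonunits.mpr hle hx
  · intro σ hσ x hx
    obtain ⟨a, ha1, ha2, ha3⟩ := hx
    refine ⟨a, ha1, ha2, ?_⟩
    have h1 := hσ _ ha3
    have h2 : σ (algebraMap K M (φ a) * x) ∈ u := by
      have h3 := add_mem (ValuationSubring.nonunits_subset h1) ha3
      rwa [sub_add_cancel] at h3
    rwa [map_mul, AlgEquiv.commutes] at h2
  · intro x hx
    exact hx

end TPU
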