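import Pool.Agent.TPU.St1

/-!
# TPU, module Beta: an invariant element which separates the cosets modulo a maximal ideal (helper34)
-/

set_option autoImplicit false

universe u

open CategoryTheory Limits AlgebraicGeometry Opposite

namespace TPU

private theorem Beta_choose (p : ℕ) [hp : Fact p.Prime] (a k : ℕ) :
    (p ^ a * k).choose (p ^ a) ≡ k [MOD p] := by
  have hp0 : 0 < p := hp.out.pos
  induction a with
  | zero => simp [Nat.ModEq]
  | succ a ih =>
    refine (Choose.choose_modEq_choose_mod_mul_choose_div_nat (p := p)).trans ?_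
    have h1 : p ^ (a + 1) * k % p = 0 := by
      rw [pow_succ, mul_comm (p ^ a) p, mul_assoc, Nat.mul_mod_right]
    have h2 : p ^ (a + 1) % p = 0 := by
      rw [pow_succ, Nat.mul_mod_left]
    have h3 : p ^ (a + 1) * k / p = p ^ a * k := by
      rw [pow_succ, mul_comm (p ^ a) p, mul_assoc, Nat.mul_div_cancel_left _ hp0]
    have h4 : p ^ (a + 1) / p = p ^ a := by
      rw [pow_succ, Nat.mul_div_cancel _ hp0]
    rw [h1, h2, h3, h4, Nat.choose_self, one_mul]
    exact ih

private theorem Beta_artin {D κ : Type u} [Group D] [Finite D] [Field κ] [MulSemiringAction D κ]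
    (T : Subgroup D) (hker : ∀ σ : D, (∀ x : κ, σ • x = x) → σ ∈ T) :
    ∃ α : κ, α ≠ 0 ∧ (∀ τ ∈ T, τ • α = α) ∧ ∀ σ : D, σ • α = α → σ ∈ T := by
  classical
  let F := FixedPoints.subfield D κ
  let f : D →* (κ ≃ₐ[F] κ) := MulSemiringAction.toAlgAut D F κ
  let H : Subgroup (κ ≃ₐ[F] κ) := T.map f
  let L := IntermediateField.fixedField H
  obtain ⟨α₀, hα₀⟩ := Field.exists_primitive_element F L
  have hT : ∀ τ ∈ T, τ • (α₀ : κ) = α₀ := fun τ hτ => α₀.2 ⟨f τ, ⟨τ, hτ, rfl⟩⟩
  have hσ : ∀ σ : D, σ • (α₀ : κ) = α₀ → σ ∈ T := by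
    intro σ hσ
    have h2 : Algebra.adjoin F {α₀} = ⊤ := by
      rw [← IntermediateField.adjoin_simple_toSubalgebra_of_isAlgebraic
        (Algebra.IsAlgebraic.isAlgebraic α₀), hα₀, IntermediateField.top_toSubalgebra]
    have h3 : ((f σ).toAlgHom.comp L.val) = L.val := by
      refine AlgHom.ext_of_adjoin_eq_top h2 ?_
      intro y hy
      rw [Set.mem_singleton_iff.1 hy]
      exact hσ
    have h1 : f σ ∈ L.fixingSubgroup := by
      rw [IntermediateField.mem_fixingSubgroup_iff]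
      intro x hx
      exact congrArg (fun g => g ⟨x, hx⟩) h3
    rw [IntermediateField.fixingSubgroup_fixedField] at h1
    obtain ⟨τ, hτ, hτσ⟩ := h1
    have h4 : τ⁻¹ * σ ∈ T := by
      refine hker _ fun x => ?_
      rw [mul_smul]
      have h5 : σ • x = τ • x := congrArg (fun g : κ ≃ₐ[F] κ => g x) hτσ.symm
      rw [h5, inv_smul_smul]
    have h6 := T.mul_mem hτ h4
    rwa [mul_inv_cancel_left] at h6
  by_cases h0 : (α₀ : κ) = 0
  · have hall : ∀ σ : D, σ ∈ T := fun σ => hσ σ (by rw [h0, smul_zero])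
    exact ⟨1, one_ne_zero, fun τ _ => smul_one τ, fun σ _ => hall σ⟩
  · exact ⟨α₀, h0, hT, hσ⟩

/-- the action of a stabilizer on the quotient -/
@[instance_reducible] private def Beta_act {A G : Type u} [CommRing A] [Group G] [MulSemiringAction G A] (m : Ideal A)
    (D : Subgroup G) (hD : ∀ σ ∈ D, ∀ x ∈ m, σ • x ∈ m) : MulSemiringAction D (A ⧸ m) where
  smul σ x := Ideal.quotientMap m (MulSemiringAction.toRingHom G A (σ : G))
    (fun x hx => hD σ σ.2 x hx) x
  one_smul x := by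
    obtain ⟨a, rfl⟩ := Ideal.Quotient.mk_surjective x
    show Ideal.Quotient.mk m ((1 : G) • a) = _
    rw [one_smul]
  mul_smul σ τ x := by
    obtain ⟨a, rfl⟩ := Ideal.Quotient.mk_surjective x
    show Ideal.Quotient.mk m (((σ : G) * (τ : G)) • a) = Ideal.Quotient.mk m ((σ : G) • ((τ : G) • a))
    rw [mul_smul]
  smul_zero σ := map_zero (Ideal.quotientMap m (MulSemiringAction.toRingHom G A (σ : G)) _)
  smul_add σ := map_add (Ideal.quotientMap m (MulSemiringAction.toRingHom G A (σ : G)) _)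
  smul_one σ := map_one (Ideal.quotientMap m (MulSemiringAction.toRingHom G A (σ : G)) _)
  smul_mul σ := map_mul (Ideal.quotientMap m (MulSemiringAction.toRingHom G A (σ : G)) _)

/-- the residue of a separating element -/
private theorem Beta_res {A G : Type u} [CommRing A] [Group G] [Finite G] [MulSemiringAction G A]
    (m : Ideal A) [hm : m.IsMaximal] (D T : Subgroup G) (hTD : T ≤ D)
    (hD : ∀ σ ∈ D, ∀ x ∈ m, σ • x ∈ m)
    (hI : ∀ σ : G, (∀ x : A, σ • x - x ∈ m) → σ ∈ T) :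
    ∃ a : A, a ∉ m ∧ (∀ τ ∈ T, τ • a - a ∈ m) ∧ ∀ σ ∈ D, σ • a - a ∈ m → σ ∈ T := by
  letI : Field (A ⧸ m) := Ideal.Quotient.field m
  letI act : MulSemiringAction D (A ⧸ m) := Beta_act m D hD
  have hsm : ∀ (σ : D) (x : A), σ • (Ideal.Quotient.mk m x) = Ideal.Quotient.mk m ((σ : G) • x) :=
    fun σ x => rfl
  obtain ⟨α, h0, h1, h2⟩ := Beta_artin (D := D) (κ := A ⧸ m) (T.subgroupOf D) (by
    intro σ hσ
    rw [Subgroup.mem_subgroupOf]
    refine hI _ fun x => ?_
    have h3 := hσ (Ideal.Quotient.mk m x)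
    rw [hsm] at h3
    exact Ideal.Quotient.eq.1 h3)
  obtain ⟨a, rfl⟩ := Ideal.Quotient.mk_surjective α
  refine ⟨a, ?_, ?_, ?_⟩
  · intro ha
    exact h0 (Ideal.Quotient.eq_zero_iff_mem.2 ha)
  · intro τ hτ
    have h3 := h1 ⟨τ, hTD hτ⟩ (by rw [Subgroup.mem_subgroupOf]; exact hτ)
    rw [hsm] at h3
    exact Ideal.Quotient.eq.1 h3
  · intro σ hσ h3
    have h4 := h2 ⟨σ, hσ⟩ (by rw [hsm]; exact Ideal.Quotient.eq.2 h3)
    rw [Subgroup.mem_subgroupOf] at h4
    exact h4

/-- **Beta**. -/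
theorem thm_Beta : St_Beta.{u} := by
  classical
  intro p hp A G _ _ _ _ _ m hm T hT hI
  letI : Fintype G := Fintype.ofFinite G
  have hpow : ∀ σ : G, (∀ x ∈ m, σ • x ∈ m) → ∀ (k : ℕ), ∀ x ∈ m, σ ^ k • x ∈ m := by
    intro σ hσ k
    induction k with
    | zero => intro x hx; rw [pow_zero, one_smul]; exact hx
    | succ k ih => intro x hx; rw [pow_succ, mul_smul]; exact ih _ (hσ x hx)
  let D : Subgroup G :=
    { carrier := {σ | ∀ x ∈ m, σ • x ∈ m}
      mul_mem' := by
        intro σ τ hσ hτ x hx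
        rw [mul_smul]
        exact hσ _ (hτ x hx)
      one_mem' := by
        intro x hx
        rw [one_smul]
        exact hx
      inv_mem' := by
        intro σ hσ x hx
        have h1 : σ⁻¹ = σ ^ (orderOf σ - 1) := by
          rw [inv_eq_iff_mul_eq_one, ← pow_succ', Nat.sub_add_cancel (orderOf_pos σ),
            pow_orderOf_eq_one]
        rw [h1]
        exact hpow σ hσ _ x hx }
  have hDmem : ∀ σ, σ ∈ D ↔ ∀ x ∈ m, σ • x ∈ m := fun σ => Iff.rfl
  have hTD : T ≤ D := fun σ hσ => hT σ hσ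
  obtain ⟨a, ha0, ha1, ha2⟩ := Beta_res m D T hTD (fun σ hσ => hσ) hI
  -- the element of the Chinese remainder theorem
  have he : ∀ σ : G, ∃ e : A, e - 1 ∈ m ∧ (σ ∉ D → σ⁻¹ • e ∈ m) := by
    intro σ
    by_cases hσ : σ ∈ D
    · exact ⟨1, by rw [sub_self]; exact m.zero_mem, fun h => absurd hσ h⟩
    · have h1 := hσ
      rw [hDmem] at h1
      push Not at h1
      obtain ⟨x, hx, hσx⟩ := h1
      obtain ⟨r, i, hi, hri⟩ := hm.exists_inv hσx
      refine ⟨r * (σ • x), ?_, fun _ => ?_⟩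
      · have h2 : r * (σ • x) - 1 = -i := by
          rw [← hri]
          ring
        rw [h2]
        exact m.neg_mem hi
      · rw [smul_mul', inv_smul_smul]
        exact m.mul_mem_left _ hx
  choose e he1 he2 using he
  set q : A →+* A ⧸ m := Ideal.Quotient.mk m with hq
  have hqe : ∀ x y : A, q x = q y ↔ x - y ∈ m := fun x y => Ideal.Quotient.eq
  obtain ⟨θ, hθ⟩ : ∃ θ : A, θ = a * ∏ σ ∈ Finset.univ.filter (fun σ : G => σ ∉ D), e σ := ⟨_, rfl⟩
  have hθ1 : q θ = q a := by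
    rw [hθ, map_mul, map_prod]
    have h1 : ∀ σ ∈ Finset.univ.filter (fun σ : G => σ ∉ D), q (e σ) = 1 := by
      intro σ _
      rw [← map_one q, hqe]
      exact he1 σ
    rw [Finset.prod_congr rfl h1, Finset.prod_const_one, mul_one]
  have hθ2 : ∀ σ : G, σ ∉ D → σ • θ ∈ m := by
    intro σ hσ
    have hσ' : σ⁻¹ ∉ D := fun h => hσ (by have := D.inv_mem h; rwa [inv_inv] at this)
    rw [hθ, smul_mul', Finset.smul_prod']
    refine m.mul_mem_left _ ?_
    refine m.mem_of_dvd (Finset.dvd_prod_of_mem (fun ρ => σ • e ρ)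
      (Finset.mem_filter.2 ⟨Finset.mem_univ _, hσ'⟩)) ?_
    have h1 := he2 σ⁻¹ hσ'
    rwa [inv_inv] at h1
  have hθ3 : ∀ τ ∈ T, q (τ • θ) = q a := by
    intro τ hτ
    have h1 : q (τ • θ) = q (τ • a) := by
      rw [hqe, ← smul_sub]
      exact hT τ hτ _ ((hqe _ _).1 hθ1)
    rw [h1, hqe]
    exact ha1 τ hτ
  -- the order of `T`
  letI : Fintype T := Fintype.ofFinite T
  obtain ⟨s, k, hk, hcard⟩ := Nat.exists_eq_pow_mul_and_not_dvd (n := Fintype.card T)
    Fintype.card_ne_zero p hp.out.ne_one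
  have hpk : 0 < p ^ s := pow_pos hp.out.pos s
  obtain ⟨β, hβ⟩ : ∃ β : A, β = ∑ S ∈ (Finset.univ : Finset T).powersetCard (p ^ s),
    ∏ τ ∈ S, (τ : G) • θ := ⟨_, rfl⟩
  have hβσ : ∀ σ : G, σ • β = ∑ S ∈ (Finset.univ : Finset T).powersetCard (p ^ s),
      ∏ τ ∈ S, (σ * (τ : G)) • θ := by
    intro σ
    rw [hβ, Finset.smul_sum]
    refine Finset.sum_congr rfl fun S _ => ?_
    rw [Finset.smul_prod']
    exact Finset.prod_congr rfl fun τ _ => (mul_smul _ _ _).symm
  have hβT : ∀ σ ∈ T, σ • β = β := by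
    intro σ hσ
    rw [hβσ, hβ]
    have h1 := Finset.esymm_map_val (fun τ : T => (σ * (τ : G)) • θ) Finset.univ (p ^ s)
    have h2 := Finset.esymm_map_val (fun τ : T => ((τ : G)) • θ) Finset.univ (p ^ s)
    have h3 : (Finset.univ : Finset T).val.map (fun τ : T => (σ * (τ : G)) • θ) =
        (Finset.univ : Finset T).val.map (fun τ : T => ((τ : G)) • θ) := by
      have h4 := Multiset.map_univ_val_equiv (Equiv.mulLeft (⟨σ, hσ⟩ : T))
      conv_rhs => rw [← h4]
      rw [Multiset.map_map]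
      rfl
    rw [h3] at h1
    exact h1.symm.trans h2
  -- the residue of `β`
  letI : Field (A ⧸ m) := Ideal.Quotient.field m
  have hqβ : q β = ((Fintype.card T).choose (p ^ s) : A ⧸ m) * q a ^ p ^ s := by
    rw [hβ, map_sum]
    have h1 : ∀ S ∈ (Finset.univ : Finset T).powersetCard (p ^ s),
        q (∏ τ ∈ S, (τ : G) • θ) = q a ^ p ^ s := by
      intro S hS
      rw [Finset.mem_powersetCard] at hS
      rw [map_prod, Finset.prod_congr rfl (fun (τ : T) _ => hθ3 (τ : G) τ.2), Finset.prod_const, hS.2]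
    rw [Finset.sum_congr rfl h1, Finset.sum_const, Finset.card_powersetCard, Finset.card_univ,
      nsmul_eq_mul]
  have hchar : CharP (A ⧸ m) p := by
    rw [CharP.charP_iff_prime_eq_zero hp.out]
    have h1 : ((p : ℕ) : A) = 0 := CharP.cast_eq_zero A p
    have h2 := congrArg q h1
    rw [map_natCast, map_zero] at h2
    exact h2
  have hc : (((Fintype.card T).choose (p ^ s) : ℕ) : A ⧸ m) ≠ 0 := by
    intro h
    rw [CharP.cast_eq_zero_iff (A ⧸ m) p, hcard] at h
    exact hk (((Beta_choose p s k).dvd_iff (dvd_refl p)).1 h)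
  have hqa : q a ≠ 0 := by
    intro h
    exact ha0 (Ideal.Quotient.eq_zero_iff_mem.1 h)
  have hβm : β ∉ m := by
    intro h
    have h1 : q β = 0 := Ideal.Quotient.eq_zero_iff_mem.2 h
    rw [hqβ] at h1
    exact mul_ne_zero hc (pow_ne_zero _ hqa) h1
  refine ⟨β, hβT, ?_⟩
  intro σ hσT hmem
  by_cases hσD : σ ∈ D
  · -- `σ ∈ D`
    have h1 : q (σ • β) = ((Fintype.card T).choose (p ^ s) : A ⧸ m) * q (σ • a) ^ p ^ s := by
      rw [hβσ, map_sum]
      have h1 : ∀ S ∈ (Finset.univ : Finset T).powersetCard (p ^ s),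
          q (∏ τ ∈ S, (σ * (τ : G)) • θ) = q (σ • a) ^ p ^ s := by
        intro S hS
        rw [Finset.mem_powersetCard] at hS
        have h2 : ∀ τ : T, q ((σ * (τ : G)) • θ) = q (σ • a) := by
          intro τ
          rw [hqe, mul_smul, ← smul_sub]
          exact hσD _ ((hqe _ _).1 (hθ3 τ τ.2))
        rw [map_prod, Finset.prod_congr rfl (fun τ _ => h2 τ), Finset.prod_const, hS.2]
      rw [Finset.sum_congr rfl h1, Finset.sum_const, Finset.card_powersetCard, Finset.card_univ,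
        nsmul_eq_mul]
    have h2 : q β = q (σ • β) := (hqe _ _).2 hmem
    rw [hqβ, h1] at h2
    have h3 := mul_left_cancel₀ hc h2
    have h4 : (q a - q (σ • a)) ^ p ^ s = 0 := by
      rw [sub_pow_char_pow, h3, sub_self]
    have h5 : q (σ • a) = q a := (sub_eq_zero.1 (pow_eq_zero_iff hpk.ne' |>.1 h4)).symm
    exact hσT (ha2 σ hσD ((hqe _ _).1 h5))
  · -- `σ ∉ D`
    have h1 : σ • β ∈ m := by
      rw [hβσ]
      refine m.sum_mem fun S hS => ?_
      rw [Finset.mem_powersetCard] at hS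
      have h2 : S.Nonempty := by
        rw [← Finset.card_pos, hS.2]
        exact hpk
      obtain ⟨τ, hτ⟩ := h2
      refine m.mem_of_dvd (Finset.dvd_prod_of_mem (fun τ : T => (σ * (τ : G)) • θ) hτ) ?_
      refine hθ2 _ fun h3 => hσD ?_
      have h4 := D.mul_mem h3 (D.inv_mem (hTD τ.2))
      rwa [mul_inv_cancel_right] at h4
    apply hβm
    have h2 := m.add_mem hmem h1
    rwa [sub_add_cancel] at h2

end TPU
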