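import Pool.Agent.TPU.St1

/-!
# TPU BetaB: the element `β` for the valuation ring `B`
-/

set_option autoImplicit false

universe u

namespace TPU

/-- the action of the Galois group on the integral closure -/
@[instance_reducible]
private noncomputable def BetaB_act (A K M : Type u) [CommRing A] [Field K] [Field M] [Algebra A K]
    [Algebra K M] [Algebra A M] [IsScalarTower A K M] :
    MulSemiringAction (M ≃ₐ[K] M) (integralClosure A M) where
  smul σ x := ⟨σ x, x.2.map (σ.toAlgHom.restrictScalars A)⟩
  one_smul _ := rfl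
  mul_smul _ _ _ := rfl
  smul_zero σ := Subtype.ext (map_zero σ)
  smul_add σ x y := Subtype.ext (map_add σ (x : M) (y : M))
  smul_one σ := Subtype.ext (map_one σ)
  smul_mul σ x y := Subtype.ext (map_mul σ (x : M) (y : M))

private theorem BetaB_den (D M : Type u) [CommRing D] [IsDedekindDomain D] [Field M]
    [Algebra D M] [IsFractionRing D M] (B : ValuationSubring M) (x : M) (hx : x ∈ B) :
    ∃ s a : D, algebraMap D M s ∉ B.nonunits ∧ algebraMap D M s * x = algebraMap D M a := by
  classical
  set I : FractionalIdeal (nonZeroDivisors D) M :=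
    1 + FractionalIdeal.spanSingleton (nonZeroDivisors D) x with hI
  have h1I : (1 : M) ∈ I := by
    rw [hI, ← FractionalIdeal.mem_coe, FractionalIdeal.coe_add]
    exact Submodule.mem_sup_left (FractionalIdeal.one_mem_one _)
  have hxI : x ∈ I := by
    rw [hI, ← FractionalIdeal.mem_coe, FractionalIdeal.coe_add]
    exact Submodule.mem_sup_right (FractionalIdeal.mem_spanSingleton_self _ x)
  have hI0 : I ≠ 0 := by
    intro h
    rw [h, FractionalIdeal.mem_zero_iff] at h1I
    exact one_ne_zero h1I
  have h2 : (1 : M) ∈ I * I⁻¹ := by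
    rw [mul_inv_cancel₀ hI0]
    exact FractionalIdeal.one_mem_one _
  have h3 : I * I⁻¹ = I⁻¹ + FractionalIdeal.spanSingleton (nonZeroDivisors D) x * I⁻¹ := by
    rw [hI, add_mul, one_mul]
  rw [h3, ← FractionalIdeal.mem_coe, FractionalIdeal.coe_add] at h2
  obtain ⟨s₁, hs₁, t, ht, hst⟩ := Submodule.mem_sup.1 h2
  rw [FractionalIdeal.mem_coe] at hs₁ ht
  obtain ⟨s₂, hs₂, rfl⟩ := FractionalIdeal.mem_singleton_mul.1 ht
  have key : ∀ s ∈ I⁻¹, s ∉ B.nonunits →
      ∃ s' a : D, algebraMap D M s' ∉ B.nonunits ∧ algebraMap D M s' * x = algebraMap D M a := by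
    intro s hs hsB
    rw [FractionalIdeal.mem_inv_iff hI0] at hs
    obtain ⟨s', hs'⟩ := (FractionalIdeal.mem_one_iff _).1 (hs 1 h1I)
    obtain ⟨a, ha⟩ := (FractionalIdeal.mem_one_iff _).1 (hs x hxI)
    rw [mul_one] at hs'
    exact ⟨s', a, by rw [hs']; exact hsB, by rw [hs', ha]⟩
  by_cases h4 : s₁ ∈ B.nonunits
  · by_cases h5 : s₂ ∈ B.nonunits
    · exfalso
      rw [ValuationSubring.mem_nonunits_iff] at h4 h5
      have h6 : B.valuation (x * s₂) < 1 := by
        rw [map_mul]
        exact (mul_le_of_le_one_left' ((B.valuation_le_one_iff x).2 hx)).trans_lt h5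
      have h7 := Valuation.map_add_lt B.valuation h4 h6
      rw [hst, map_one] at h7
      exact lt_irrefl _ h7
    · exact key s₂ hs₂ h5
  · exact key s₁ hs₁ h4

theorem thm_BetaB (h1 : St_Beta.{u}) : St_BetaB.{u} := by
  intro p _ A K κ M _ _ _ _ _ _ _ φ ρ v w B T hL hp hB hT hI
  obtain ⟨hdom, hdvr⟩ := hL.dvr
  let _ : Algebra A K := φ.toAlgebra
  let _ : Algebra A M := ((algebraMap K M).comp φ).toAlgebra
  have _ : IsScalarTower A K M := IsScalarTower.of_algebraMap_eq fun _ => rfl
  have _ : IsFractionRing A K := by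
    refine ⟨?_, ?_, ?_⟩
    · intro y
      refine isUnit_iff_ne_zero.2 ?_
      intro h
      exact nonZeroDivisors.ne_zero y.2 (hL.inj (h.trans (map_zero φ).symm))
    · intro z
      obtain ⟨a, b, hb, hab⟩ := hL.frac z
      refine ⟨(a, ⟨b, mem_nonZeroDivisors_of_ne_zero ?_⟩), hab⟩
      rintro rfl
      exact hb (map_zero φ)
    · intro x y hxy
      exact ⟨1, by rw [hL.inj hxy]⟩
  have _ : IsDedekindDomain (integralClosure A M) := integralClosure.isDedekindDomain A K M
  have _ : IsFractionRing (integralClosure A M) M :=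
    integralClosure.isFractionRing_of_finite_extension K M
  let _ : MulSemiringAction (M ≃ₐ[K] M) (integralClosure A M) := BetaB_act A K M
  have hsm : ∀ (σ : M ≃ₐ[K] M) (x : integralClosure A M), ((σ • x : integralClosure A M) : M) =
      σ (x : M) := fun _ _ => rfl
  have hp' : (p : M) = 0 := by
    have := congrArg (algebraMap K M) hp
    rwa [map_natCast, map_zero] at this
  have _ : CharP (integralClosure A M) p := by
    refine (CharP.charP_iff_prime_eq_zero (Fact.out : p.Prime)).2 ?_
    refine Subtype.ext ?_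
    have h : ((p : integralClosure A M) : M) = (p : M) := by norm_cast
    rw [h, hp']
    rfl
  -- the ring homomorphism from `A` to `B`
  let φB : A →+* B := ((algebraMap K M).comp φ).codRestrict B (fun a => (hB (φ a)).2 ⟨a, rfl⟩)
  have hle : ∀ x : integralClosure A M, (x : M) ∈ B := by
    intro x
    have h2 : IsIntegral B (x : M) :=
      IsIntegral.map_of_comp_eq φB (RingHom.id M) (by ext a; rfl) x.2
    obtain ⟨y, hy⟩ := IsIntegrallyClosed.isIntegral_iff.1 h2
    rw [← hy]
    exact y.2
  let ι : integralClosure A M →+* B := (algebraMap (integralClosure A M) M).codRestrict B hle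
  have hι : ∀ x, ((ι x : B) : M) = (x : M) := fun _ => rfl
  let m : Ideal (integralClosure A M) := (IsLocalRing.maximalIdeal B).comap ι
  have hm : ∀ x : integralClosure A M, x ∈ m ↔ (x : M) ∈ B.nonunits := by
    intro x
    rw [← hι, ValuationSubring.coe_mem_nonunits_iff]
    rfl
  have _ : m.IsPrime := Ideal.comap_isPrime ι _
  have _ : Algebra.IsIntegral A (integralClosure A M) := inferInstance
  have hmc : m.comap (algebraMap A (integralClosure A M)) = IsLocalRing.maximalIdeal A := by
    ext a
    rw [Ideal.mem_comap, hm, IsLocalRing.mem_maximalIdeal, mem_nonunits_iff]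
    have h2 : ((algebraMap A (integralClosure A M) a : integralClosure A M) : M) =
      algebraMap K M (φ a) := rfl
    rw [h2, ValuationSubring.mem_nonunits_iff_or]
    constructor
    · rintro (h3 | h3) hu
      · rw [map_eq_zero] at h3
        have h4 : a = 0 := hL.inj (h3.trans (map_zero φ).symm)
        rw [h4] at hu
        exact not_isUnit_zero hu
      · apply h3
        obtain ⟨b, hb⟩ := hu.exists_right_inv
        have h4 : φ a * φ b = 1 := by rw [← map_mul, hb, map_one]
        have h5 : (φ a)⁻¹ = φ b := (eq_inv_of_mul_eq_one_right h4).symm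
        rw [← map_inv₀, h5]
        exact (hB _).2 ⟨b, rfl⟩
    · intro hu
      by_contra h3
      rw [not_or, not_not] at h3
      obtain ⟨h4, h5⟩ := h3
      apply hu
      rw [← map_inv₀, hB] at h5
      obtain ⟨b, hb⟩ := h5
      have h6 : φ a ≠ 0 := fun h => h4 (by rw [h, map_zero])
      refine isUnit_iff_exists_inv.2 ⟨b, hL.inj ?_⟩
      rw [map_mul, hb, mul_inv_cancel₀ h6, map_one]
  have _ : m.IsMaximal := by
    refine Ideal.isMaximal_of_isIntegral_of_isMaximal_comap (R := A) m ?_
    rw [hmc]
    infer_instance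
  have hTm : ∀ σ ∈ T, ∀ x ∈ m, σ • x ∈ m := by
    intro σ hσ x hx
    rw [hm] at hx ⊢
    rw [hsm]
    rw [ValuationSubring.mem_nonunits_iff_or] at hx ⊢
    rcases hx with hx | hx
    · left
      rw [hx, map_zero]
    · right
      intro h
      apply hx
      have h2 := hT σ⁻¹ (T.inv_mem hσ) _ h
      have h3 : σ⁻¹ (σ (x : M))⁻¹ = (x : M)⁻¹ := by
        rw [map_inv₀]
        congr 1
        exact σ.symm_apply_apply _
      rwa [h3] at h2
  have hIm : ∀ σ : M ≃ₐ[K] M, (∀ x : integralClosure A M, σ • x - x ∈ m) → σ ∈ T := by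
    intro σ hσ
    refine hI σ ?_
    intro x hx
    obtain ⟨s, a, hs, hsa⟩ := BetaB_den (integralClosure A M) M B x hx
    change (s : M) ∉ B.nonunits at hs
    change (s : M) * x = (a : M) at hsa
    have h2 := (hm _).1 (hσ s)
    have h3 := (hm _).1 (hσ a)
    change σ (s : M) - (s : M) ∈ B.nonunits at h2
    change σ (a : M) - (a : M) ∈ B.nonunits at h3
    rw [ValuationSubring.mem_nonunits_iff] at h2 h3 hs ⊢
    have hs1 : B.valuation (s : M) = 1 :=
      le_antisymm ((B.valuation_le_one_iff _).2 (hle s)) (not_lt.1 hs)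
    have hs2 : B.valuation (σ (s : M)) = 1 := by
      have h4 : σ (s : M) = (s : M) + (σ (s : M) - (s : M)) := by ring
      rw [h4, Valuation.map_add_eq_of_lt_left B.valuation (by rw [hs1]; exact h2), hs1]
    have hs0 : (s : M) ≠ 0 := by
      intro h
      rw [h, map_zero] at hs1
      exact zero_ne_one hs1
    have hs0' : σ (s : M) ≠ 0 := by
      intro h
      rw [h, map_zero] at hs2
      exact zero_ne_one hs2
    have h5 : σ (s : M) * σ x = σ (a : M) := by rw [← map_mul, hsa]
    have h6 : (s : M) * σ (s : M) * (σ x - x) =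
        (σ (a : M) - (a : M)) * (s : M) - (a : M) * (σ (s : M) - (s : M)) := by
      rw [← h5, ← hsa]
      ring
    have h7 : B.valuation (σ x - x) =
        B.valuation ((σ (a : M) - (a : M)) * (s : M) - (a : M) * (σ (s : M) - (s : M))) := by
      rw [← h6, map_mul, map_mul, hs1, hs2, one_mul, one_mul]
    rw [h7]
    refine Valuation.map_sub_lt B.valuation ?_ ?_
    · rw [map_mul, hs1, mul_one]
      exact h3
    · rw [map_mul]
      exact (mul_le_of_le_one_left' ((B.valuation_le_one_iff _).2 (hle a))).trans_lt h2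
  obtain ⟨β, hβ1, hβ2⟩ := h1 p (integralClosure A M) (M ≃ₐ[K] M) m T hTm hIm
  refine ⟨(β : M), ?_, ?_, ?_⟩
  · intro σ
    exact hle (σ • β)
  · intro σ hσ
    rw [← hsm, hβ1 σ hσ]
  · intro σ hσ h
    exact hβ2 σ hσ ((hm _).2 h)

end TPU
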