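import Pool.Agent.TPU.St1
import Pool.Agent.TPU.St2

/-!
# TPU: CG, literal tame covering sieves satisfy the geometric condition
-/

set_option autoImplicit false

universe u

open CategoryTheory Limits AlgebraicGeometry Opposite

namespace TPU

private lemma CG_nonunits {F : Type*} [Field F] (A : ValuationSubring F) (x : F) :
    x ∈ A.nonunits ↔ x = 0 ∨ x⁻¹ ∉ A := by
  rw [ValuationSubring.mem_nonunits_iff]
  by_cases hx : x = 0
  · simp [hx]
  · rw [← A.valuation_le_one_iff, not_le, map_inv₀]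
    have h0 : A.valuation x ≠ 0 := (Valuation.ne_zero_iff _).mpr hx
    simp only [hx, false_or]
    constructor
    · intro h
      exact (one_lt_inv₀ (zero_lt_iff.mpr h0)).mpr h
    · intro h
      exact (one_lt_inv₀ (zero_lt_iff.mpr h0)).mp h

private lemma CG_nonunits_map {F F' : Type*} [Field F] [Field F'] (τ : F →+* F')
    (A : ValuationSubring F) (A' : ValuationSubring F') (h : ∀ x, x ∈ A ↔ τ x ∈ A') (x : F) :
    x ∈ A.nonunits ↔ τ x ∈ A'.nonunits := by
  rw [CG_nonunits, CG_nonunits, h, map_inv₀, map_eq_zero]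

/-- The field part. -/
private theorem CG_field (p : ℕ) {K M Ω : Type u} [Field K] [Field M] [Field Ω] [IsSepClosed Ω]
    [Algebra K M] [FiniteDimensional K M] [IsGalois K M] (i : K →+* Ω) (u : ValuationSubring M)
    (O : ValuationSubring Ω) (hu : u.comap (algebraMap K M) = O.comap i) (h3 : St_Conj.{u}) :
    ∃ (τ : M →+* Ω) (s : Finset Ω), (∀ c, τ (algebraMap K M c) = i c) ∧
      ∀ (k : Subfield Ω), k = i.fieldRange →
      ∀ σ : Ω ≃+* Ω, (∀ x ∈ k, σ x = x) → Wild p O (k ⊔ Subfield.closure s) σ →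
        ∃ σM : M ≃ₐ[K] M, (∀ m, τ (σM m) = σ (τ m)) ∧
          (∀ x ∈ u, σM x - x ∈ u.nonunits) ∧ ∃ n : ℕ, σM ^ p ^ n = 1 := by
  classical
  let _ : Algebra K Ω := i.toAlgebra
  have hi : ∀ c, algebraMap K Ω c = i c := fun _ => rfl
  let τ0 : M →ₐ[K] Ω := IsSepClosed.lift
  obtain ⟨ρ, hρ⟩ := h3 K M u (O.comap τ0.toRingHom) (by
    rw [hu]
    ext c
    rw [ValuationSubring.mem_comap, ValuationSubring.mem_comap, ValuationSubring.mem_comap, ← hi]
    have : τ0.toRingHom (algebraMap K M c) = algebraMap K Ω c := τ0.commutes c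
    rw [this])
  let τ : M →ₐ[K] Ω := τ0.comp ρ.toAlgHom
  have hτu : ∀ x, x ∈ u ↔ τ x ∈ O := fun x => (hρ x).trans Iff.rfl
  let b := Module.finBasis K M
  refine ⟨τ.toRingHom, Finset.univ.image (fun j => τ (b j)), fun c => τ.commutes c, ?_⟩
  intro k hk σ hσ hw
  -- every element of the image of τ is in the subfield
  have hmem : ∀ m : M, τ m ∈ k ⊔ Subfield.closure
      (↑(Finset.univ.image (fun j => τ (b j))) : Set Ω) := by
    intro m
    rw [← b.sum_repr m, map_sum]
    refine sum_mem fun j _ => ?_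
    rw [map_smul, Algebra.smul_def, hi]
    refine mul_mem ?_ ?_
    · apply (le_sup_left : k ≤ _)
      rw [hk]
      exact ⟨_, rfl⟩
    · apply (le_sup_right : _ ≤ k ⊔ _)
      apply Subfield.subset_closure
      simp only [Finset.coe_image, Finset.coe_univ, Set.image_univ]
      exact ⟨j, rfl⟩
  let _ : Algebra M Ω := τ.toRingHom.toAlgebra
  have hτ : ∀ m, algebraMap M Ω m = τ m := fun _ => rfl
  have : IsScalarTower K M Ω := IsScalarTower.of_algebraMap_eq fun c => (τ.commutes c).symm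
  let χ : Ω ≃ₐ[K] Ω := AlgEquiv.ofRingEquiv (f := σ) (fun c => by
    rw [hi]
    apply hσ
    rw [hk]
    exact ⟨c, rfl⟩)
  have hχ : ∀ x, χ x = σ x := fun _ => rfl
  have hM : ∀ m, τ (χ.restrictNormal M m) = σ (τ m) := by
    intro m
    have := χ.restrictNormal_commutes M m
    rw [hτ, hτ, hχ] at this
    exact this
  refine ⟨χ.restrictNormal M, hM, ?_, ?_⟩
  · intro x hx
    have h1 := hw.1 (τ x) (hmem x) ((hτu x).mp hx)
    rw [CG_nonunits_map τ.toRingHom u O hτu]
    have h2 : τ.toRingHom (χ.restrictNormal M x - x) = σ (τ x) - τ x := by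
      rw [map_sub]
      congr 1
      exact hM x
    rw [h2]
    exact h1
  · obtain ⟨n, hn⟩ := hw.2
    refine ⟨n, ?_⟩
    have hpow : ∀ (k : ℕ) (m : M), τ (((χ.restrictNormal M) ^ k) m) = (σ ^ k) (τ m) := by
      intro k
      induction k with
      | zero => intro m; simp
      | succ k ih =>
        intro m
        rw [pow_succ, pow_succ]
        have e1 : ((χ.restrictNormal M) ^ k * χ.restrictNormal M) m =
            ((χ.restrictNormal M) ^ k) (χ.restrictNormal M m) := rfl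
        have e2 : (σ ^ k * σ) (τ m) = (σ ^ k) (σ (τ m)) := rfl
        rw [e1, e2, ih, hM]
    ext m
    have h1 := hpow (p ^ n) m
    rw [hn _ (hmem m)] at h1
    exact τ.injective h1

/-- The statement for schemes. -/
private theorem CG_key (h1 : St_Kf.{u}) (h3 : St_Conj.{u}) (p : ℕ) {Ω : Type u} [Field Ω]
    [IsSepClosed Ω] {Y Y' : Scheme.{u}} (g : Y' ⟶ Y) (x : Y) (y : Y') (hxy : g y = x)
    (φ : Y.residueField x ⟶ .of Ω) (O : ValuationSubring Ω)
    (w : ValuationSubring (Y'.residueField y))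
    (hT : Tame p ((Y.residueFieldCongr hxy).inv ≫ g.residueFieldMap y).hom (O.comap φ.hom) w) :
    ∃ (b : Spec (.of Ω) ⟶ Y') (s : Finset Ω), b ≫ g = Spec.map φ ≫ Y.fromSpecResidueField x ∧
      ∀ σ : Ω ≃+* Ω, (∀ z ∈ kf (Spec.map φ ≫ Y.fromSpecResidueField x), σ z = z) →
        Wild p O (kf (Spec.map φ ≫ Y.fromSpecResidueField x) ⊔ Subfield.closure s) σ →
          ∀ z ∈ kf b, σ z = z := by
  have hkf : kf (Spec.map φ ≫ Y.fromSpecResidueField x) = φ.hom.fieldRange := h1.1 Ω Y x φ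
  obtain ⟨hw, M, _, _, ψ, u, hfd, hgal, hψ, huw, H⟩ := hT
  have hu : u.comap (algebraMap (Y.residueField x) M) = O.comap φ.hom := by
    rw [← hw, ← huw]
    ext c
    rw [ValuationSubring.mem_comap, ValuationSubring.mem_comap, ValuationSubring.mem_comap, hψ]
  obtain ⟨τ, s, hτ, hs⟩ := CG_field p (Ω := Ω) φ.hom u O hu h3
  refine ⟨Spec.map (CommRingCat.ofHom (τ.comp ψ)) ≫ Y'.fromSpecResidueField y, s, ?_, ?_⟩
  · rw [Category.assoc, ← Scheme.Hom.SpecMap_residueFieldMap_fromSpecResidueField]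
    have e1 : Y.fromSpecResidueField (g y) =
        Spec.map (Y.residueFieldCongr hxy).inv ≫ Y.fromSpecResidueField x := by
      rw [← Scheme.residueFieldCongr_fromSpecResidueField hxy, ← Category.assoc, ← Spec.map_comp]
      simp
    rw [e1, ← Category.assoc, ← Category.assoc, ← Spec.map_comp, ← Spec.map_comp]
    congr 2
    ext c
    exact (congrArg τ (hψ c)).trans (hτ c)
  · intro σ hσ hwild z hz
    obtain ⟨σM, hσM, hin, hp⟩ := hs _ hkf σ hσ hwild
    have hkfb := h1.1 Ω Y' y (CommRingCat.ofHom (τ.comp ψ))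
    have hz2 : z ∈ (τ.comp ψ).fieldRange := (SetLike.ext_iff.mp hkfb z).mp hz
    obtain ⟨y0, hy0⟩ := hz2
    have h5 := H σM hin hp y0
    have h6 := hσM (ψ y0)
    rw [h5] at h6
    have hy1 : τ (ψ y0) = z := hy0
    rw [hy1] at h6
    exact h6.symm

theorem thm_CG (h1 : St_Kf.{u}) (h2 : St_Sv.{u}) (h3 : St_Conj.{u}) : St_CG.{u} := by
  intro p X S f U R hcov Ω _ _ a O hsep hsv
  obtain ⟨⟨x, φ⟩, ha'⟩ := (Scheme.SpecToEquivOfField Ω U.left).symm.surjective a
  have ha : a = Spec.map φ ≫ U.left.fromSpecResidueField x := ha'.symm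
  subst ha
  have hsv' := (h2 (U.left.residueField x) Ω φ.hom U.left S (U.hom ≫ f)
    (U.left.fromSpecResidueField x) O).mp hsv
  obtain ⟨V, g, b, hR, hpt, hT⟩ := hcov ⟨x, O.comap φ.hom, hsv'⟩
  obtain ⟨b', s, hb, hs⟩ := CG_key h1 h3 p g.left x b.pt hpt φ O b.v hT
  exact ⟨V, g, b', s, hR, hb, hs⟩

end TPU
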