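import Pool.Agent.TPU.St4

/-!
# TPU, module Comp (helper32): the composite valuation is an `S`-valuation
-/

set_option autoImplicit false

universe u

open CategoryTheory Limits AlgebraicGeometry Opposite

namespace TPU

/-- the composite valuation ring -/
private def Comp_ring {A κ K : Type u} [CommRing A] [IsDomain A] [ValuationRing A] [Field κ]
    [Field K] (ρ : A →+* κ) (hρ : ∀ y, ρ y ≠ 0 → IsUnit y) (φ : A →+* K)
    (hK : ∀ x : K, ∃ a b, φ b ≠ 0 ∧ x * φ b = φ a) (v : ValuationSubring κ) :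
    ValuationSubring K where
  toSubring := (v.toSubring.comap ρ).map φ
  mem_or_inv_mem' := by
    have key : ∀ (x : K) (y : A), φ y = x →
        x ∈ (v.toSubring.comap ρ).map φ ∨ x⁻¹ ∈ (v.toSubring.comap ρ).map φ := by
      intro x y hy
      by_cases h : ρ y ∈ v
      · exact Or.inl ⟨y, h, hy⟩
      · right
        have h0 : ρ y ≠ 0 := fun h0 => h (by rw [h0]; exact v.zero_mem)
        obtain ⟨u, hu⟩ := hρ y h0
        refine ⟨((u⁻¹ : Aˣ) : A), ?_, ?_⟩
        · show ρ ((u⁻¹ : Aˣ) : A) ∈ v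
          have h1 : ρ ((u⁻¹ : Aˣ) : A) = (ρ y)⁻¹ := by
            apply eq_inv_of_mul_eq_one_left
            rw [← hu, ← map_mul, Units.inv_mul, map_one]
          rw [h1]
          exact (v.mem_or_inv_mem (ρ y)).resolve_left h
        · have h2 : φ y ≠ 0 := by
            rw [← hu]
            exact (u.map (φ : A →* K)).ne_zero
          have h1 : φ ((u⁻¹ : Aˣ) : A) = (φ y)⁻¹ := by
            apply eq_inv_of_mul_eq_one_left
            rw [← hu, ← map_mul, Units.inv_mul, map_one]
          show φ ((u⁻¹ : Aˣ) : A) = x⁻¹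
          rw [h1, hy]
    intro x
    show x ∈ (v.toSubring.comap ρ).map φ ∨ x⁻¹ ∈ (v.toSubring.comap ρ).map φ
    obtain ⟨a, b, hb, hab⟩ := hK x
    have hb0 : b ≠ 0 := fun h => hb (by rw [h, map_zero])
    rcases ValuationRing.dvd_total b a with ⟨c, hc⟩ | ⟨c, hc⟩
    · refine key x c ?_
      have h1 : φ c * φ b = x * φ b := by
        rw [hab, hc, map_mul, mul_comm]
      exact mul_right_cancel₀ hb h1
    · by_cases hx : x = 0
      · subst hx
        exact Or.inl ((v.toSubring.comap ρ).map φ).zero_mem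
      · have h1 : φ c = x⁻¹ := by
          apply eq_inv_of_mul_eq_one_left
          have h2 : φ c * x * φ b = 1 * φ b := by
            rw [mul_assoc, hab, hc, map_mul, one_mul, mul_comm]
          exact mul_right_cancel₀ hb h2
        have h2 := key x⁻¹ c h1
        rw [inv_inv] at h2
        exact h2.symm

/-- **Comp**. The composite valuation is an `S`-valuation. -/
theorem thm_Comp : St_Comp.{u} := by
  intro W S s z K _ φ v hA _ hK hv
  obtain ⟨hdom, hdvr⟩ := hA
  have hρ : ∀ y : W.presheaf.stalk z, (W.residue z).hom y ≠ 0 → IsUnit y := by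
    intro y hy
    by_contra hu
    exact hy ((IsLocalRing.residue_eq_zero_iff y).2 ((IsLocalRing.mem_maximalIdeal y).2 hu))
  let w : ValuationSubring K := Comp_ring (W.residue z).hom hρ φ hK v
  have hw : ∀ x, x ∈ w ↔ ∃ y, φ y = x ∧ (W.residue z).hom y ∈ v := by
    intro x
    constructor
    · rintro ⟨y, h1, h2⟩
      exact ⟨y, h2, h1⟩
    · rintro ⟨y, h1, h2⟩
      exact ⟨y, h2, h1⟩
  obtain ⟨g, hg⟩ : ∃ g : Scheme.Hom (Spec (CommRingCat.of v)) S,
      Spec.map (CommRingCat.ofHom v.subtype) ≫ g = W.fromSpecResidueField z ≫ s := hv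
  let cp : Spec (CommRingCat.of v) := IsLocalRing.closedPoint (CommRingCat.of v)
  let q : S := g.base cp
  have hspec : s z ⤳ q := by
    let pt : Spec (W.residueField z) := IsLocalRing.closedPoint (W.residueField z)
    have h1 : (W.fromSpecResidueField z ≫ s) pt = s z := by
      rw [Scheme.Hom.comp_apply, Scheme.fromSpecResidueField_apply]
    have h2 : (Spec.map (CommRingCat.ofHom v.subtype) ≫ g) pt = s z := by
      rw [hg, h1]
    rw [Scheme.Hom.comp_apply] at h2
    rw [← h2]
    exact (IsLocalRing.specializes_closedPoint _).map g.continuous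
  obtain ⟨α, hα⟩ : ∃ α : S.presheaf.stalk q ⟶ W.presheaf.stalk z,
      Spec.map α ≫ S.fromSpecStalk q = W.fromSpecStalk z ≫ s :=
    ⟨S.presheaf.stalkSpecializes hspec ≫ s.stalkMap z, by
      rw [Spec.map_comp, Category.assoc, Scheme.SpecMap_stalkSpecializes_fromSpecStalk,
        Scheme.SpecMap_stalkMap_fromSpecStalk]⟩
  obtain ⟨β, hβ⟩ : ∃ β : S.presheaf.stalk q ⟶ .of v, Spec.map β ≫ S.fromSpecStalk q = g :=
    ⟨Scheme.stalkClosedPointTo g, Scheme.Spec_stalkClosedPointTo_fromSpecStalk g⟩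
  have hαβ : α ≫ W.residue z = β ≫ CommRingCat.ofHom v.subtype := by
    apply Spec.map_injective
    rw [← cancel_mono (S.fromSpecStalk q), Spec.map_comp, Spec.map_comp, Category.assoc,
      Category.assoc, hα, hβ, hg, Scheme.fromSpecResidueField, Category.assoc]
  have hmem : ∀ c : S.presheaf.stalk q, (φ.comp α.hom) c ∈ w := by
    intro c
    rw [hw]
    refine ⟨α.hom c, rfl, ?_⟩
    have h1 := congrArg (fun f => f.hom c) hαβ
    have h2 : (W.residue z).hom (α.hom c) = v.subtype (β.hom c) := h1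
    rw [h2]
    exact (β.hom c).2
  let γ : S.presheaf.stalk q ⟶ .of w := CommRingCat.ofHom ((φ.comp α.hom).codRestrict w hmem)
  refine ⟨w, hw, Spec.map γ ≫ S.fromSpecStalk q, ?_⟩
  have hγ : Spec.map (CommRingCat.ofHom w.subtype) ≫ Spec.map γ =
      Spec.map (CommRingCat.ofHom φ) ≫ Spec.map α := by
    rw [← Spec.map_comp]
    exact Spec.map_comp α (CommRingCat.ofHom φ)
  calc Spec.map (CommRingCat.ofHom w.subtype) ≫ Spec.map γ ≫ S.fromSpecStalk q
      = (Spec.map (CommRingCat.ofHom w.subtype) ≫ Spec.map γ) ≫ S.fromSpecStalk q :=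
        (Category.assoc _ _ _).symm
    _ = (Spec.map (CommRingCat.ofHom φ) ≫ Spec.map α) ≫ S.fromSpecStalk q := by rw [hγ]
    _ = Spec.map (CommRingCat.ofHom φ) ≫ Spec.map α ≫ S.fromSpecStalk q := Category.assoc _ _ _
    _ = Spec.map (CommRingCat.ofHom φ) ≫ W.fromSpecStalk z ≫ s := by rw [hα]
    _ = (Spec.map (CommRingCat.ofHom φ) ≫ W.fromSpecStalk z) ≫ s :=
        (Category.assoc _ _ _).symm

end TPU
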