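import Pool.Agent.TPU.St1

/-!
# TPU: module Conj, transitivity of the Galois group on the extensions of a valuation ring
-/

set_option autoImplicit false

universe u

open Polynomial

namespace TPU

section Conj

variable {K M : Type u} [Field K] [Field M] [Algebra K M]

/-- a polynomial relation with coefficients in the valuation ring, one of them `1` -/
private theorem Conj_poly (w : ValuationSubring M) (x : M) (hx : IsAlgebraic K x) :
    ∃ (g : K[X]) (k : ℕ), aeval x g = 0 ∧ (∀ i, w.valuation (algebraMap K M (g.coeff i)) ≤ 1) ∧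
      w.valuation (algebraMap K M (g.coeff k)) = 1 ∧
      ∀ i, k < i → w.valuation (algebraMap K M (g.coeff i)) < 1 := by
  classical
  obtain ⟨f, hf0, hfx⟩ := hx
  have hne : f.support.Nonempty := Polynomial.support_nonempty.2 hf0
  obtain ⟨j, hj, hjmax⟩ := Finset.exists_max_image f.support
    (fun i => w.valuation (algebraMap K M (f.coeff i))) hne
  have hj0 : f.coeff j ≠ 0 := Polynomial.mem_support_iff.1 hj
  have hjv : w.valuation (algebraMap K M (f.coeff j)) ≠ 0 := by
    rw [Valuation.ne_zero_iff]
    exact fun h => hj0 ((map_eq_zero _).1 h)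
  set g : K[X] := C (f.coeff j)⁻¹ * f with hg
  have hgc : ∀ i, g.coeff i = (f.coeff j)⁻¹ * f.coeff i := by
    intro i
    rw [hg, Polynomial.coeff_C_mul]
  have hval : ∀ i, w.valuation (algebraMap K M (g.coeff i)) ≤ 1 := by
    intro i
    rw [hgc i, map_mul, map_mul, map_inv₀, map_inv₀]
    have h1 : w.valuation (algebraMap K M (f.coeff i)) ≤
        w.valuation (algebraMap K M (f.coeff j)) := by
      by_cases hi : i ∈ f.support
      · exact hjmax i hi
      · rw [Polynomial.notMem_support_iff.1 hi, map_zero, map_zero]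
        exact zero_le
    calc (w.valuation (algebraMap K M (f.coeff j)))⁻¹ * w.valuation (algebraMap K M (f.coeff i))
        ≤ (w.valuation (algebraMap K M (f.coeff j)))⁻¹ *
          w.valuation (algebraMap K M (f.coeff j)) := mul_le_mul_right h1 _
      _ = 1 := inv_mul_cancel₀ hjv
  have hgj : w.valuation (algebraMap K M (g.coeff j)) = 1 := by
    rw [hgc j, inv_mul_cancel₀ hj0, map_one, map_one]
  set S : Finset ℕ := g.support.filter
    (fun i => w.valuation (algebraMap K M (g.coeff i)) = 1) with hS
  have hSne : S.Nonempty := by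
    refine ⟨j, ?_⟩
    rw [hS, Finset.mem_filter]
    refine ⟨?_, hgj⟩
    rw [Polynomial.mem_support_iff]
    intro h
    rw [h, map_zero, map_zero] at hgj
    exact zero_ne_one hgj
  refine ⟨g, S.max' hSne, ?_, hval, ?_, ?_⟩
  · rw [hg, map_mul, hfx, mul_zero]
  · have h2 := S.max'_mem hSne
    exact (Finset.mem_filter.1 h2).2
  · intro i hi
    refine lt_of_le_of_ne (hval i) ?_
    intro h3
    have h4 : i ∈ S := by
      rw [hS, Finset.mem_filter]
      refine ⟨?_, h3⟩
      rw [Polynomial.mem_support_iff]
      intro h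
      rw [h, map_zero, map_zero] at h3
      exact zero_ne_one h3
    exact absurd (S.le_max' i h4) (not_le.2 hi)

/-- the denominator -/
private theorem Conj_den (w : ValuationSubring M) (x : M) (hxw : x ∈ w) (hx : IsAlgebraic K x) :
    ∃ y : M, w.valuation y = 1 ∧ ∀ V : ValuationSubring M,
      (∀ a : K, algebraMap K M a ∈ w → algebraMap K M a ∈ V) → y ∈ V ∧ x * y ∈ V := by
  obtain ⟨g, k, hg0, hg1, hgk, hgi⟩ := Conj_poly w x hx
  have hxv : w.valuation x ≤ 1 := (w.valuation_le_one_iff x).2 hxw
  set n := g.natDegree with hn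
  have hkn : k ≤ n := by
    by_contra hcon
    have h1 := Polynomial.coeff_eq_zero_of_natDegree_lt (not_le.1 hcon)
    rw [h1, map_zero, map_zero] at hgk
    exact zero_ne_one hgk
  obtain ⟨m, hm⟩ := Nat.exists_eq_add_of_le hkn
  set y : M := ∑ i ∈ Finset.range (m + 1), algebraMap K M (g.coeff (k + i)) * x ^ i with hy
  have hsum : ∑ i ∈ Finset.range k, algebraMap K M (g.coeff i) * x ^ i + x ^ k * y = 0 := by
    have h1 : aeval x g = ∑ i ∈ Finset.range (n + 1), algebraMap K M (g.coeff i) * x ^ i := by
      rw [Polynomial.aeval_eq_sum_range]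
      exact Finset.sum_congr rfl fun i _ => Algebra.smul_def _ _
    rw [hg0, hm, add_assoc, Finset.sum_range_add] at h1
    rw [h1, hy, Finset.mul_sum]
    congr 1
    refine Finset.sum_congr rfl fun i _ => ?_
    rw [pow_add]
    ring
  have hyv : w.valuation y = 1 := by
    rw [hy, Finset.sum_range_succ', pow_zero, mul_one, Nat.add_zero]
    have h1 : w.valuation (∑ i ∈ Finset.range m,
        algebraMap K M (g.coeff (k + (i + 1))) * x ^ (i + 1)) < 1 := by
      refine Valuation.map_sum_lt _ one_ne_zero ?_
      intro i _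
      rw [map_mul, map_pow]
      calc w.valuation (algebraMap K M (g.coeff (k + (i + 1)))) * w.valuation x ^ (i + 1)
          ≤ w.valuation (algebraMap K M (g.coeff (k + (i + 1)))) * 1 :=
            mul_le_mul_right (pow_le_one₀ zero_le hxv) _
        _ < 1 := by
            rw [mul_one]
            exact hgi _ (by omega)
    rw [Valuation.map_add_eq_of_lt_right _ (by rw [hgk]; exact h1), hgk]
  refine ⟨y, hyv, ?_⟩
  intro V hV
  have hcoef : ∀ i, algebraMap K M (g.coeff i) ∈ V := fun i =>
    hV _ ((w.valuation_le_one_iff _).1 (hg1 i))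
  by_cases hxV : x ∈ V
  · have h1 : y ∈ V := by
      rw [hy]
      exact sum_mem fun i _ => mul_mem (hcoef _) (pow_mem hxV _)
    exact ⟨h1, mul_mem hxV h1⟩
  · have hx0 : x ≠ 0 := by
      intro h
      rw [h] at hxV
      exact hxV (zero_mem V)
    have hxi : x⁻¹ ∈ V := (V.mem_or_inv_mem x).resolve_left hxV
    have hy0 : y ≠ 0 := by
      intro h
      rw [h, map_zero] at hyv
      exact zero_ne_one hyv
    have hk0 : k ≠ 0 := by
      intro h
      rw [h] at hsum
      simp at hsum
      exact hy0 hsum
    have hyeq : y = -∑ i ∈ Finset.range k, algebraMap K M (g.coeff i) * x⁻¹ ^ (k - i) := by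
      have h1 : x ^ k * y = x ^ k *
          (-∑ i ∈ Finset.range k, algebraMap K M (g.coeff i) * x⁻¹ ^ (k - i)) := by
        have h2 : x ^ k * y = -∑ i ∈ Finset.range k, algebraMap K M (g.coeff i) * x ^ i :=
          eq_neg_of_add_eq_zero_right hsum
        rw [h2, mul_neg, Finset.mul_sum]
        congr 1
        refine Finset.sum_congr rfl fun i hi => ?_
        have hik : i < k := Finset.mem_range.1 hi
        have h3 : x ^ k = x ^ i * x ^ (k - i) := by
          rw [← pow_add]
          congr 1
          omega
        have h4 : x ^ (k - i) * x⁻¹ ^ (k - i) = 1 := by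
          rw [← mul_pow, mul_inv_cancel₀ hx0, one_pow]
        calc algebraMap K M (g.coeff i) * x ^ i
            = algebraMap K M (g.coeff i) * x ^ i * (x ^ (k - i) * x⁻¹ ^ (k - i)) := by
              rw [h4, mul_one]
          _ = _ := by rw [h3]; ring
      exact mul_left_cancel₀ (pow_ne_zero k hx0) h1
    have hxyeq : x * y = -∑ i ∈ Finset.range k,
        algebraMap K M (g.coeff i) * x⁻¹ ^ (k - 1 - i) := by
      rw [hyeq, mul_neg, Finset.mul_sum]
      congr 1
      refine Finset.sum_congr rfl fun i hi => ?_
      have hik : i < k := Finset.mem_range.1 hi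
      have h3 : k - i = (k - 1 - i) + 1 := by omega
      rw [h3, pow_succ]
      calc x * (algebraMap K M (g.coeff i) * (x⁻¹ ^ (k - 1 - i) * x⁻¹))
          = algebraMap K M (g.coeff i) * x⁻¹ ^ (k - 1 - i) * (x * x⁻¹) := by ring
        _ = _ := by rw [mul_inv_cancel₀ hx0, mul_one]
    refine ⟨?_, ?_⟩
    · rw [hyeq]
      exact neg_mem (sum_mem fun i _ => mul_mem (hcoef _) (pow_mem hxi _))
    · rw [hxyeq]
      exact neg_mem (sum_mem fun i _ => mul_mem (hcoef _) (pow_mem hxi _))

end Conj

section main

variable {A K M : Type u} [CommRing A] [IsDomain A] [Field K] [Field M] [Algebra A K]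
  [IsFractionRing A K] [Algebra K M] [Algebra A M] [IsScalarTower A K M]

/-- elements in all valuation rings over `A` are integral -/
private theorem Conj_integral (y : M)
    (hy : ∀ V : ValuationSubring M, (∀ a : A, algebraMap A M a ∈ V) → y ∈ V) :
    y ∈ integralClosure A M := by
  by_contra hcon
  obtain ⟨V, hV1, hV2⟩ := Subring.exists_le_valuationSubring_of_isIntegrallyClosedIn
    (R := (integralClosure A M).toSubring) (x := y) hcon
  refine hV2 (hy V fun a => hV1 ?_)
  exact (integralClosure A M).algebraMap_mem a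

/-- integral elements are in every valuation ring over `A` -/
private theorem Conj_mem (u : ValuationSubring M) (hu : ∀ a : A, algebraMap A M a ∈ u) (y : M)
    (hy : y ∈ integralClosure A M) : y ∈ u := by
  have h1 : IsIntegral A y := hy
  have h2 : IsIntegral u.toSubring y := by
    obtain ⟨p, hp, hp2⟩ := h1
    let f : A →+* u.toSubring := (algebraMap A M).codRestrict u.toSubring hu
    refine ⟨p.map f, hp.map f, ?_⟩
    rw [Polynomial.eval₂_map]
    exact hp2
  exact LocalSubring.mem_of_isMax_of_isIntegral (R := u.toLocalSubring)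
    u.isMax_toLocalSubring h2

/-- the prime of the integral closure -/
private def Conj_P (u : ValuationSubring M) (hu : ∀ a : A, algebraMap A M a ∈ u) :
    Ideal (integralClosure A M) where
  carrier := {b | u.valuation (b : M) < 1}
  zero_mem' := by
    show u.valuation ((0 : integralClosure A M) : M) < 1
    rw [ZeroMemClass.coe_zero, map_zero]
    exact zero_lt_one
  add_mem' := by
    intro a b ha hb
    exact (u.valuation.map_add _ _).trans_lt (max_lt ha hb)
  smul_mem' := by
    intro c b hb
    show u.valuation ((c * b : integralClosure A M) : M) < 1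
    rw [MulMemClass.coe_mul, map_mul]
    have h1 : u.valuation (c : M) ≤ 1 := (u.valuation_le_one_iff _).2 (Conj_mem u hu c c.2)
    exact (mul_le_mul_left h1 _).trans_lt (by rw [one_mul]; exact hb)

private theorem Conj_P_prime (u : ValuationSubring M) (hu : ∀ a : A, algebraMap A M a ∈ u) :
    (Conj_P u hu).IsPrime := by
  constructor
  · rw [Ideal.ne_top_iff_one]
    intro h
    have h1 : u.valuation ((1 : integralClosure A M) : M) < 1 := h
    rw [OneMemClass.coe_one, map_one] at h1
    exact lt_irrefl _ h1
  · intro a b hab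
    have h1 : u.valuation ((a * b : integralClosure A M) : M) < 1 := hab
    rw [MulMemClass.coe_mul, map_mul] at h1
    by_contra hcon
    rw [not_or] at hcon
    have ha : 1 ≤ u.valuation (a : M) := not_lt.1 hcon.1
    have hb : 1 ≤ u.valuation (b : M) := not_lt.1 hcon.2
    exact absurd h1 (not_lt.2 (one_le_mul ha hb))

private theorem Conj_half [FiniteDimensional K M] (u u' : ValuationSubring M)
    (hu : ∀ a : K, algebraMap K M a ∈ u ↔ a ∈ (algebraMap A K).range)
    (huA : ∀ a : A, algebraMap A M a ∈ u) (huA' : ∀ a : A, algebraMap A M a ∈ u')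
    (g : integralClosure A M ≃ₐ[A] integralClosure A M) (σ : M ≃ₐ[K] M)
    (hσ : ∀ b : integralClosure A M, ((g b : integralClosure A M) : M) = σ (b : M))
    (hP : ∀ b, g b ∈ Conj_P u' huA' → b ∈ Conj_P u huA) (x : M) (hx : x ∈ u) : σ x ∈ u' := by
  obtain ⟨y, hy1, hy2⟩ := Conj_den (K := K) u x hx (Algebra.IsAlgebraic.isAlgebraic x)
  have hV : ∀ V : ValuationSubring M, (∀ a : A, algebraMap A M a ∈ V) →
      ∀ a : K, algebraMap K M a ∈ u → algebraMap K M a ∈ V := by
    intro V hV a ha
    obtain ⟨b, rfl⟩ := (hu a).1 ha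
    rw [← IsScalarTower.algebraMap_apply A K M]
    exact hV b
  have hyB : y ∈ integralClosure A M := Conj_integral y fun V h => (hy2 V (hV V h)).1
  have hxyB : x * y ∈ integralClosure A M := Conj_integral (x * y) fun V h => (hy2 V (hV V h)).2
  have h1 : (⟨y, hyB⟩ : integralClosure A M) ∉ Conj_P u huA := by
    intro h
    have h2 : u.valuation y < 1 := h
    rw [hy1] at h2
    exact lt_irrefl _ h2
  have h2 : g ⟨y, hyB⟩ ∉ Conj_P u' huA' := fun h => h1 (hP _ h)
  have h3 : ¬ u'.valuation (σ y) < 1 := by
    rw [← hσ ⟨y, hyB⟩]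
    exact h2
  have h4 : u'.valuation (σ (x * y)) ≤ 1 := by
    rw [u'.valuation_le_one_iff, ← hσ ⟨x * y, hxyB⟩]
    exact Conj_mem u' huA' _ (g ⟨x * y, hxyB⟩).2
  rw [← u'.valuation_le_one_iff]
  rw [map_mul, map_mul] at h4
  by_contra hcon
  have h5 : 1 < u'.valuation (σ x) := not_le.1 hcon
  have h6 : 1 ≤ u'.valuation (σ y) := not_lt.1 h3
  exact absurd h4 (not_le.2 (lt_of_lt_of_le h5 (le_mul_of_one_le_right zero_le h6)))

private theorem Conj_main [IsIntegrallyClosed A] [FiniteDimensional K M] [IsGalois K M]
    (u u' : ValuationSubring M)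
    (hu : ∀ a : K, algebraMap K M a ∈ u ↔ a ∈ (algebraMap A K).range)
    (hu' : ∀ a : K, algebraMap K M a ∈ u' ↔ a ∈ (algebraMap A K).range) :
    ∃ σ : M ≃ₐ[K] M, ∀ x, x ∈ u ↔ σ x ∈ u' := by
  have huA : ∀ a : A, algebraMap A M a ∈ u := fun a => by
    rw [IsScalarTower.algebraMap_apply A K M]
    exact (hu _).2 ⟨a, rfl⟩
  have huA' : ∀ a : A, algebraMap A M a ∈ u' := fun a => by
    rw [IsScalarTower.algebraMap_apply A K M]
    exact (hu' _).2 ⟨a, rfl⟩
  have : IsFractionRing (integralClosure A M) M :=
    integralClosure.isFractionRing_of_finite_extension K M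
  have hinv : Algebra.IsInvariant A (integralClosure A M)
      (integralClosure A M ≃ₐ[A] integralClosure A M) :=
    Algebra.isInvariant_of_isGalois' A K M (integralClosure A M)
  have hfin : Finite (integralClosure A M ≃ₐ[A] integralClosure A M) :=
    Finite.of_equiv _ (galRestrict A K M (integralClosure A M)).toEquiv
  have hP := Conj_P_prime u huA
  have hP' := Conj_P_prime u' huA'
  have hunder : (Conj_P u huA).under A = (Conj_P u' huA').under A := by
    ext a
    show u.valuation (algebraMap A M a) < 1 ↔ u'.valuation (algebraMap A M a) < 1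
    have key : ∀ w : ValuationSubring M,
        (∀ a : K, algebraMap K M a ∈ w ↔ a ∈ (algebraMap A K).range) →
        (w.valuation (algebraMap A M a) < 1 ↔ (algebraMap A K a = 0 ∨
          (algebraMap A K a)⁻¹ ∉ (algebraMap A K).range)) := by
      intro w hw
      rw [IsScalarTower.algebraMap_apply A K M]
      by_cases h0 : algebraMap A K a = 0
      · rw [h0, map_zero, map_zero]
        simp
      · have h1 : w.valuation (algebraMap K M (algebraMap A K a)) ≠ 0 := by
          rw [Valuation.ne_zero_iff]
          exact fun h => h0 ((map_eq_zero _).1 h)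
        rw [← hw, map_inv₀, ← w.valuation_le_one_iff, map_inv₀, not_le,
          one_lt_inv₀ (zero_lt_iff.2 h1)]
        constructor
        · intro h
          exact Or.inr h
        · rintro (h | h)
          · exact absurd h h0
          · exact h
    rw [key u hu, key u' hu']
  obtain ⟨g, hg⟩ := Algebra.IsInvariant.exists_smul_of_under_eq A (integralClosure A M)
    (integralClosure A M ≃ₐ[A] integralClosure A M) (Conj_P u huA) (Conj_P u' huA') hunder
  have hgP : ∀ b, b ∈ Conj_P u huA ↔ g b ∈ Conj_P u' huA' := by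
    intro b
    rw [hg]
    exact (Ideal.smul_mem_pointwise_smul_iff (a := g) (S := Conj_P u huA) (x := b)).symm
  let σ : M ≃ₐ[K] M := (galRestrict A K M (integralClosure A M)).symm g
  have hσ : ∀ b : integralClosure A M, ((g b : integralClosure A M) : M) = σ (b : M) := by
    intro b
    have h1 := algebraMap_galRestrict_apply (K := K) (L := M) A
      (B := integralClosure A M) σ b
    have h2 : galRestrict A K M (integralClosure A M) σ = g := by
      simp [σ]
    rw [h2] at h1
    exact h1
  have hσ' : ∀ b : integralClosure A M,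
      ((g.symm b : integralClosure A M) : M) = σ.symm (b : M) := by
    intro b
    rw [AlgEquiv.eq_symm_apply, ← hσ, AlgEquiv.apply_symm_apply]
  refine ⟨σ, fun x => ⟨?_, ?_⟩⟩
  · intro hx
    exact Conj_half u u' hu huA huA' g σ hσ (fun b h => (hgP b).2 h) x hx
  · intro hx
    have h1 := Conj_half u' u hu' huA' huA g.symm σ.symm hσ' (fun b h => by
      have h2 := (hgP (g.symm b)).1 h
      rwa [AlgEquiv.apply_symm_apply] at h2) (σ x) hx
    rwa [AlgEquiv.symm_apply_apply] at h1

end main

theorem thm_Conj : St_Conj.{u} := by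
  intro K M _ _ _ _ _ u u' h
  let O : ValuationSubring K := u.comap (algebraMap K M)
  let _ : Algebra O M := ((algebraMap K M).comp O.subtype).toAlgebra
  have : IsScalarTower O K M := IsScalarTower.of_algebraMap_eq fun _ => rfl
  have hO : ∀ a : K, a ∈ (algebraMap O K).range ↔ a ∈ O := by
    intro a
    constructor
    · rintro ⟨b, rfl⟩
      exact b.2
    · intro ha
      exact ⟨⟨a, ha⟩, rfl⟩
  refine Conj_main (A := O) u u' (fun a => ?_) (fun a => ?_)
  · rw [hO]
    rfl
  · rw [hO]
    show a ∈ u'.comap (algebraMap K M) ↔ a ∈ u.comap (algebraMap K M)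
    rw [h]

end TPU
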