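import Pool.Agent.TPU.St4

/-!
# TPU, module Core: assembly of the algebra (helper31)
-/

set_option autoImplicit false

universe u

open CategoryTheory Limits AlgebraicGeometry Opposite

namespace TPU

/-- An element of the inertia group of `O` maps `O` into itself. -/
private lemma Core_mem {K M : Type u} [Field K] [Field M] [Algebra K M] (O : ValuationSubring M)
    (σ : M ≃ₐ[K] M) (h : ∀ x ∈ O, σ x - x ∈ O.nonunits) (x : M) (hx : x ∈ O) : σ x ∈ O := by
  have h1 := add_mem (ValuationSubring.nonunits_subset (h x hx)) hx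
  rwa [sub_add_cancel] at h1

/-- The product of two elements of the inertia group. -/
private lemma Core_mul {K M : Type u} [Field K] [Field M] [Algebra K M] (O : ValuationSubring M)
    (σ τ : M ≃ₐ[K] M) (h : ∀ x ∈ O, σ x - x ∈ O.nonunits) (h' : ∀ x ∈ O, τ x - x ∈ O.nonunits) :
    ∀ x ∈ O, (σ * τ) x - x ∈ O.nonunits := by
  intro x hx
  have h1 := add_mem (h (τ x) (Core_mem O τ h' x hx)) (h' x hx)
  rwa [sub_add_sub_cancel] at h1

/-- The powers of an element of the inertia group. -/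
private lemma Core_pow {K M : Type u} [Field K] [Field M] [Algebra K M] (O : ValuationSubring M)
    (σ : M ≃ₐ[K] M) (h : ∀ x ∈ O, σ x - x ∈ O.nonunits) (n : ℕ) :
    ∀ x ∈ O, (σ ^ n) x - x ∈ O.nonunits := by
  induction n with
  | zero =>
    intro x _
    rw [pow_zero, AlgEquiv.one_apply, sub_self]
    exact zero_mem _
  | succ n ih =>
    rw [pow_succ]
    exact Core_mul O _ _ ih h

/-- The inertia group of `O`. -/
private def Core_in (K M : Type u) [Field K] [Field M] [Algebra K M] [FiniteDimensional K M]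
    (O : ValuationSubring M) : Subgroup (M ≃ₐ[K] M) where
  carrier := {σ | ∀ x ∈ O, σ x - x ∈ O.nonunits}
  mul_mem' := fun {σ τ} h h' => Core_mul O σ τ h h'
  one_mem' := by
    intro x _
    rw [AlgEquiv.one_apply, sub_self]
    exact zero_mem _
  inv_mem' := by
    intro σ h
    have h1 : σ⁻¹ = σ ^ (Nat.card (M ≃ₐ[K] M) - 1) := by
      apply inv_eq_of_mul_eq_one_right
      have h2 : 0 < Nat.card (M ≃ₐ[K] M) := Nat.card_pos
      rw [← pow_succ', Nat.sub_add_cancel h2, pow_card_eq_one']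
    show ∀ x ∈ O, σ⁻¹ x - x ∈ O.nonunits
    rw [h1]
    exact Core_pow O σ h _

private lemma Core_mem_in {K M : Type u} [Field K] [Field M] [Algebra K M]
    [FiniteDimensional K M] (O : ValuationSubring M) (σ : M ≃ₐ[K] M) :
    σ ∈ Core_in K M O ↔ ∀ x ∈ O, σ x - x ∈ O.nonunits := Iff.rfl

/-- The Galois theory: `k₁ = M^T`, `L = M^N`. -/
private lemma Core_gal (p : ℕ) (K M : Type u) [Field K] [Field M] [Algebra K M]
    [FiniteDimensional K M] (N T : Subgroup (M ≃ₐ[K] M)) (hn : (N.subgroupOf T).Normal)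
    (hi : ¬ p ∣ (N.subgroupOf T).index) (k₁ : Subfield M)
    (hk : k₁ = FixedPoints.subfield T M) :
    ∃ L : IntermediateField k₁ M, FiniteDimensional k₁ L ∧ IsGalois k₁ L ∧
      ¬ p ∣ Nat.card (L ≃ₐ[k₁] L) ∧ ∀ y : M, (∀ σ ∈ N, σ y = y) → y ∈ L := by
  subst hk
  let e : T ≃* (M ≃ₐ[FixedPoints.subfield T M] M) := FixedPoints.toAlgAutMulEquiv T M
  let H : Subgroup (M ≃ₐ[FixedPoints.subfield T M] M) := (N.subgroupOf T).map e.toMonoidHom
  have hH : H.Normal := hn.map _ e.surjective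
  have hfix : ∀ y : M, (∀ σ ∈ N, σ y = y) → y ∈ IntermediateField.fixedField H := by
    intro y hy
    rw [IntermediateField.mem_fixedField_iff]
    rintro f ⟨τ, hτ, rfl⟩
    exact hy τ hτ
  refine ⟨IntermediateField.fixedField H, inferInstance, inferInstance, ?_, hfix⟩
  have h1 := Nat.card_congr (IsGalois.normalAutEquivQuotient H).toEquiv
  rw [← h1]
  have h2 : Nat.card ((M ≃ₐ[FixedPoints.subfield T M] M) ⧸ H) = H.index := rfl
  rw [h2]
  have h3 : H.index = (N.subgroupOf T).index :=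
    Subgroup.index_map_equiv (N.subgroupOf T) e
  rw [h3]
  exact hi

/-- **Core**. Assembly of the algebra. -/
theorem thm_Core (h1 : St_BB.{u}) (h2 : St_Grp.{u}) (h3 : St_BetaB.{u}) (h4 : St_Pol.{u})
    (h5 : St_Res.{u}) : St_Core.{u} := by
  intro p hp A K κ M _ _ _ _ _ _ _ φ ρ v w u hL hpK huw
  obtain ⟨B, huB, hBA, hBn, hBi, _⟩ := h1 A K κ M φ ρ v w u hL huw
  have hJI : Core_in K M B ≤ Core_in K M u := by
    intro σ hσ
    rw [Core_mem_in] at hσ ⊢
    exact fun x hx => hBn _ (hσ x (huB hx))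
  obtain ⟨N, T, hNT, hJT, hTI, hnor, hind, hNp, hNle⟩ :=
    h2 p (M ≃ₐ[K] M) (Core_in K M u) (Core_in K M B) hJI
  have hTB : ∀ σ ∈ T, ∀ x ∈ B, σ x ∈ B := fun σ hσ => hBi σ (hTI hσ)
  obtain ⟨β₀, hβB, hβT, hβn⟩ :=
    h3 p A K κ M φ ρ v w B T hL hpK hBA hTB (fun σ hσ => hJT hσ)
  obtain ⟨⟨h, hmon, hroot, hdB, hdn⟩, hadj⟩ :=
    h4 A K M φ B T β₀ hL.inj hBA hβB hβT hβn
  have hβ0 : β₀ ∈ B := by
    have h6 := hβB 1
    rwa [AlgEquiv.one_apply] at h6
  refine ⟨B, ⟨β₀, hβ0⟩, h, hBA, hmon, hroot, hdB, hdn, ?_, ?_⟩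
  · intro k₁ hk₁
    have hk : k₁ = FixedPoints.subfield T M := by
      have h6 : k₁ = (IntermediateField.adjoin K {β₀}).toSubfield := by
        rw [hk₁]
        have h7 : (algebraMap K M).fieldRange = Subfield.closure (Set.range (algebraMap K M)) := by
          rw [← RingHom.coe_fieldRange, Subfield.closure_eq]
        rw [h7, ← Subfield.closure_union]
        rfl
      rw [h6]
      ext x
      rw [IntermediateField.mem_toSubfield, hadj x]
      constructor
      · intro h7 σ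
        exact h7 σ σ.2
      · intro h7 σ hσ
        exact h7 ⟨σ, hσ⟩
    obtain ⟨L, hL1, hL2, hL3, hL4⟩ := Core_gal p K M N T hnor hind k₁ hk
    refine ⟨L, hL1, hL2, hL3, fun y hy => hL4 y ?_⟩
    intro σ hσ
    have h8 : N ≤ MulAction.stabilizer (M ≃ₐ[K] M) y :=
      hNle _ fun τ hτ hτp => hy τ hτ hτp
    exact h8 hσ
  · intro κ₁ _ i j hij hj
    obtain ⟨v₁, _, hv₁⟩ := h5 p A K κ M φ ρ v w u B T ⟨β₀, hβ0⟩ hL hpK huw huB hBA
      (fun σ hσ hσp => hNT (hNp σ hσ hσp)) hβB hβT hβn κ₁ i j hij hj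
    exact ⟨v₁, hv₁⟩

end TPU
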