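import Pool.Agent.TPU.St4

/-!
# TPU: étale over a discrete valuation ring is a discrete valuation ring
-/

set_option autoImplicit false

universe u

open CategoryTheory Limits AlgebraicGeometry Opposite

namespace TPU

private theorem EtDvr_of (B : Type u) [CommRing B] [IsLocalRing B] [IsNoetherianRing B] (π : B)
    (hπ : IsLocalRing.maximalIdeal B = Ideal.span {π}) (hreg : ∀ x : B, π * x = 0 → x = 0) :
    IsDvr B := by
  have key : ∀ x : B, x ≠ 0 → ∃ (n : ℕ) (v : B), IsUnit v ∧ x = π ^ n * v := by
    intro x hx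
    have h1 : ∃ n : ℕ, ¬ π ^ n ∣ x := by
      by_contra hc
      push Not at hc
      have h2 : x ∈ ⨅ n : ℕ, IsLocalRing.maximalIdeal B ^ n := by
        rw [Ideal.mem_iInf]
        intro n
        rw [hπ, Ideal.span_singleton_pow, Ideal.mem_span_singleton]
        exact hc n
      rw [Ideal.iInf_pow_eq_bot_of_isLocalRing _ (IsLocalRing.maximalIdeal.isMaximal B).ne_top]
        at h2
      exact hx h2
    classical
    obtain ⟨k, hk⟩ : ∃ k, Nat.find h1 = k + 1 := by
      refine Nat.exists_eq_succ_of_ne_zero fun h0 => ?_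
      have h2 := Nat.find_spec h1
      rw [h0, pow_zero] at h2
      exact h2 (one_dvd x)
    have h2 : π ^ k ∣ x := by
      have h3 := Nat.find_min h1 (m := k) (by omega)
      exact not_not.1 h3
    obtain ⟨v, hv⟩ := h2
    refine ⟨k, v, ?_, hv⟩
    by_contra hu
    have h3 : v ∈ IsLocalRing.maximalIdeal B := hu
    rw [hπ, Ideal.mem_span_singleton] at h3
    obtain ⟨w, hw⟩ := h3
    have h4 := Nat.find_spec h1
    rw [hk] at h4
    apply h4
    refine ⟨w, ?_⟩
    rw [hv, hw]
    ring
  have hpow : ∀ (n : ℕ) (x : B), π ^ n * x = 0 → x = 0 := by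
    intro n
    induction n with
    | zero =>
      intro x hx
      rwa [pow_zero, one_mul] at hx
    | succ n ih =>
      intro x hx
      apply ih
      apply hreg
      rw [← hx]
      ring
  have hnzd : NoZeroDivisors B := by
    constructor
    intro a b hab
    by_contra hc
    push Not at hc
    obtain ⟨n, v, hv, ha⟩ := key a hc.1
    obtain ⟨k, w, hw, hb⟩ := key b hc.2
    rw [ha, hb] at hab
    have h1 : π ^ (n + k) * (v * w) = 0 := by
      rw [← hab]
      ring
    have h2 := hpow _ _ h1
    exact (hv.mul hw).ne_zero h2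
  have hdom : IsDomain B := NoZeroDivisors.to_isDomain B
  refine ⟨hdom, ?_⟩
  have hf : ¬ IsField B := by
    intro hF
    have h1 := (IsLocalRing.isField_iff_maximalIdeal_eq).1 hF
    rw [hπ, Ideal.span_singleton_eq_bot] at h1
    have h2 := hreg 1 (by rw [h1, zero_mul])
    exact one_ne_zero h2
  have hp : (IsLocalRing.maximalIdeal B).IsPrincipal := ⟨⟨π, hπ⟩⟩
  exact ((IsDiscreteValuationRing.TFAE B hf).out 0 4).2 hp

private theorem EtDvr_alg (A B : Type u) [CommRing A] [CommRing B] [Algebra A B] [IsLocalRing A]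
    [IsLocalRing B] [IsLocalHom (algebraMap A B)] [Algebra.EssFiniteType A B]
    [Algebra.FormallyUnramified A B] [Module.Flat A B] (hA : IsDvr A) : IsDvr B := by
  obtain ⟨hdom, hdvr⟩ := hA
  have hN : IsNoetherianRing B := Algebra.EssFiniteType.isNoetherianRing A B
  obtain ⟨π, hπ⟩ := IsDiscreteValuationRing.exists_irreducible A
  have h1 : IsLocalRing.maximalIdeal A = Ideal.span {π} := hπ.maximalIdeal_eq
  have h2 : IsLocalRing.maximalIdeal B = Ideal.span {algebraMap A B π} := by
    rw [← Algebra.FormallyUnramified.map_maximalIdeal (R := A) (S := B), h1, Ideal.map_span,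
      Set.image_singleton]
  refine EtDvr_of B (algebraMap A B π) h2 ?_
  have h3 : IsSMulRegular A π := by
    intro a b hab
    have h4 : π * a = π * b := hab
    exact mul_left_cancel₀ hπ.ne_zero h4
  have h5 : IsSMulRegular B (algebraMap A B π) := IsSMulRegular.of_flat h3
  intro x hx
  apply h5
  show algebraMap A B π * x = algebraMap A B π * 0
  rw [hx, mul_zero]

theorem thm_EtDvr : St_EtDvr.{u} := by
  intro V W g _ x hA
  let A := W.presheaf.stalk (g x)
  let B := V.presheaf.stalk x
  algebraize [(g.stalkMap x).hom]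
  have h1 : IsLocalHom (algebraMap (W.presheaf.stalk (g x)) (V.presheaf.stalk x)) :=
    inferInstanceAs <| IsLocalHom (g.stalkMap x).hom
  have h2 : Algebra.EssFiniteType (W.presheaf.stalk (g x)) (V.presheaf.stalk x) :=
    LocallyOfFiniteType.stalkMap g x
  have h3 : Algebra.FormallyUnramified (W.presheaf.stalk (g x)) (V.presheaf.stalk x) :=
    FormallyUnramified.stalkMap g x
  have h4 : Module.Flat (W.presheaf.stalk (g x)) (V.presheaf.stalk x) := Flat.stalkMap g x
  exact EtDvr_alg _ _ hA

end TPU
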