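import Pool.Agent.TPU.Kf2

/-!
# TPU, module EtNb: the étale neighbourhood given by a root of a polynomial with unit derivative
-/

set_option autoImplicit false

universe u

open CategoryTheory Limits AlgebraicGeometry Opposite

namespace TPU

/-- the field of a point of an affine open subscheme -/
theorem EtNb_kf {Ω : Type u} [Field Ω] {Y : Scheme.{u}} {R : CommRingCat.{u}} (j : Spec R ⟶ Y)
    [IsOpenImmersion j] (ψ : R ⟶ .of Ω) :
    kf (Spec.map ψ ≫ j) = Subfield.closure (Set.range ψ.hom) := by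
  apply le_antisymm
  · let k : Subfield Ω := Subfield.closure (Set.range ψ.hom)
    have hk : ∀ x, ψ.hom x ∈ k := fun x => Subfield.subset_closure ⟨x, rfl⟩
    let ψ' : R ⟶ .of k := CommRingCat.ofHom (RingHom.codRestrict ψ.hom k hk)
    have h1 : ψ = ψ' ≫ CommRingCat.ofHom k.subtype := by
      ext x
      rfl
    have h2 : Spec.map ψ ≫ j = Spec.map (CommRingCat.ofHom k.subtype) ≫ (Spec.map ψ' ≫ j) := by
      rw [← Category.assoc, ← Spec.map_comp, ← h1]
    rw [h2]
    exact Kf2_le k _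
  · rw [Subfield.closure_le]
    obtain ⟨k, hk⟩ : ∃ k : Subfield Ω, kf (Spec.map ψ ≫ j) = k := ⟨_, rfl⟩
    rw [hk]
    obtain ⟨b', hb'⟩ := Kf2_fac (Spec.map ψ ≫ j) k hk.le
    have hr : Set.range b' ⊆ Set.range j := by
      rintro _ ⟨y, rfl⟩
      let p : Spec (.of Ω) := IsLocalRing.closedPoint Ω
      have hy : y = Spec.map (CommRingCat.ofHom k.subtype) p :=
        Subsingleton.elim (α := PrimeSpectrum k) _ _
      rw [hy, ← Scheme.Hom.comp_apply, hb', Scheme.Hom.comp_apply]
      exact ⟨_, rfl⟩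
    let b'' := IsOpenImmersion.lift j b' hr
    have h3 : b'' ≫ j = b' := IsOpenImmersion.lift_fac j b' hr
    obtain ⟨θ, hθ⟩ := Spec.map_surjective b''
    have h4 : Spec.map (θ ≫ CommRingCat.ofHom k.subtype) = Spec.map ψ := by
      rw [← cancel_mono j, Spec.map_comp, Category.assoc, hθ, h3, hb']
    have h5 := Spec.map_injective h4
    rintro _ ⟨x, rfl⟩
    have h6 : ψ.hom x = (θ.hom x : Ω) := by
      rw [← h5]
      rfl
    rw [h6]
    exact (θ.hom x).2

private theorem EtNb_coef (W : Scheme.{u}) (z : W) (c : ℕ → W.presheaf.stalk z) (n : ℕ) :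
    ∃ (U : W.Opens) (hU : z ∈ U), ∀ i < n, ∃ s, (W.presheaf.germ U z hU).hom s = c i := by
  induction n with
  | zero => exact ⟨⊤, trivial, fun i hi => absurd hi (Nat.not_lt_zero i)⟩
  | succ n ih =>
    obtain ⟨U, hU, h⟩ := ih
    obtain ⟨V, hV, s, hs⟩ := TopCat.Presheaf.exists_germ_eq W.presheaf (c n)
    refine ⟨U ⊓ V, ⟨hU, hV⟩, fun i hi => ?_⟩
    rcases Nat.lt_succ_iff_lt_or_eq.1 hi with h' | rfl
    · obtain ⟨t, ht⟩ := h i h'
      refine ⟨(W.presheaf.map (homOfLE inf_le_left).op).hom t, ?_⟩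
      rw [← ht]
      exact TopCat.Presheaf.germ_res_apply W.presheaf (homOfLE inf_le_left) z _ t
    · refine ⟨(W.presheaf.map (homOfLE inf_le_right).op).hom s, ?_⟩
      rw [← hs]
      exact TopCat.Presheaf.germ_res_apply W.presheaf (homOfLE inf_le_right) z _ s

private theorem EtNb_aff (W : Scheme.{u}) (z : W) (h : Polynomial (W.presheaf.stalk z))
    (hm : h.Monic) :
    ∃ (U : W.Opens) (_ : IsAffineOpen U) (hzU : z ∈ U) (h₀ : Polynomial Γ(W, U)),
      h₀.Monic ∧ h₀.map (W.presheaf.germ U z hzU).hom = h := by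
  obtain ⟨U, hU, hc⟩ := EtNb_coef W z h.coeff (h.natDegree + 1)
  obtain ⟨_, ⟨V, hV, rfl⟩, hzV, hVU⟩ := W.isBasis_affineOpens.exists_subset_of_mem_open hU U.isOpen
  have hl : h ∈ Polynomial.lifts (W.presheaf.germ V z hzV).hom := by
    rw [Polynomial.lifts_iff_coeff_lifts]
    intro i
    by_cases hi : i < h.natDegree + 1
    · obtain ⟨s, hs⟩ := hc i hi
      refine ⟨(W.presheaf.map (homOfLE hVU).op).hom s, ?_⟩
      rw [← hs]
      exact TopCat.Presheaf.germ_res_apply W.presheaf (homOfLE hVU) z _ s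
    · rw [Polynomial.coeff_eq_zero_of_natDegree_lt (by omega)]
      exact ⟨0, map_zero _⟩
  obtain ⟨q, hq, -, hqm⟩ := Polynomial.lifts_and_natDegree_eq_and_monic hl hm
  exact ⟨V, hV, hzV, q, hqm, hq⟩

private theorem EtNb_cl {R Ω : Type u} [CommRing R] [Field Ω] (P : StandardEtalePair R)
    (θ : P.Ring →+* Ω) :
    Subfield.closure (Set.range θ) =
      Subfield.closure (Set.range (θ.comp (algebraMap R P.Ring))) ⊔ Subfield.closure {θ P.X} := by
  apply le_antisymm
  · obtain ⟨K, hK⟩ : ∃ K : Subfield Ω, Subfield.closure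
        (Set.range (θ.comp (algebraMap R P.Ring))) ⊔ Subfield.closure {θ P.X} = K := ⟨_, rfl⟩
    rw [hK]
    have hR : ∀ x, (θ.comp (algebraMap R P.Ring)) x ∈ K := fun x => by
      rw [← hK]
      exact (le_sup_left : Subfield.closure (Set.range (θ.comp (algebraMap R P.Ring))) ≤ _)
        (Subfield.subset_closure ⟨x, rfl⟩)
    have hX : θ P.X ∈ K := by
      rw [← hK]
      exact (le_sup_right : Subfield.closure {θ P.X} ≤
        Subfield.closure (Set.range (θ.comp (algebraMap R P.Ring))) ⊔ _)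
          (Subfield.subset_closure rfl)
    let _ : Algebra R Ω := (θ.comp (algebraMap R P.Ring)).toAlgebra
    let _ : Algebra R K := (RingHom.codRestrict (θ.comp (algebraMap R P.Ring)) K hR).toAlgebra
    let θ' : P.Ring →ₐ[R] Ω := { θ with commutes' := fun _ => rfl }
    let ι : K →ₐ[R] Ω := { K.subtype with commutes' := fun _ => rfl }
    have hι : Function.Injective ι := K.subtype.injective
    have h1 : P.HasMap (⟨θ P.X, hX⟩ : K) := by
      refine ⟨?_, ?_⟩
      · apply hι
        rw [map_zero, ← Polynomial.aeval_algHom_apply]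
        exact (P.hasMap_X.map θ').1
      · rw [isUnit_iff_ne_zero]
        intro h0
        have h2 := congrArg ι h0
        rw [map_zero, ← Polynomial.aeval_algHom_apply] at h2
        exact (P.hasMap_X.map θ').2.ne_zero h2
    have h3 : ι.comp (P.lift _ h1) = θ' := by
      apply P.hom_ext
      rw [AlgHom.comp_apply, P.lift_X]
      rfl
    rw [Subfield.closure_le]
    rintro _ ⟨x, rfl⟩
    have h4 : θ x = (P.lift _ h1 x : Ω) := by
      have h5 : θ x = θ' x := rfl
      rw [h5, ← h3]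
      rfl
    rw [h4]
    exact (P.lift _ h1 x).2
  · refine sup_le ?_ ?_
    · apply Subfield.closure_mono
      rintro _ ⟨x, rfl⟩
      exact ⟨algebraMap R P.Ring x, rfl⟩
    · rw [Subfield.closure_le]
      rintro _ rfl
      exact Subfield.subset_closure ⟨P.X, rfl⟩

theorem thm_EtNb : St_EtNb.{u} := by
  intro W z M _ B φ β h hφ hm h0 h1
  obtain ⟨U, hU, hzU, h₀, hm₀, rfl⟩ := EtNb_aff W z h hm
  let gm : Γ(W, U) →+* W.presheaf.stalk z := (W.presheaf.germ U z hzU).hom
  let _ : Algebra Γ(W, U) B := (φ.comp gm).toAlgebra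
  let P : StandardEtalePair Γ(W, U) :=
    { f := h₀
      monic_f := hm₀
      g := Polynomial.derivative h₀
      cond := ⟨1, 0, 1, by ring⟩ }
  have hP : P.HasMap β := by
    refine ⟨?_, ?_⟩
    · rw [← h0, Polynomial.eval₂_map]
      rfl
    · rw [Polynomial.derivative_map, Polynomial.eval₂_map] at h1
      exact h1
  let θ : P.Ring →ₐ[Γ(W, U)] B := P.lift β hP
  have hθX : θ P.X = β := P.lift_X β hP
  have hθR : θ.toRingHom.comp (algebraMap Γ(W, U) P.Ring) = φ.comp gm := θ.comp_algebraMap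
  let g : Spec (.of P.Ring) ⟶ W :=
    Spec.map (CommRingCat.ofHom (algebraMap Γ(W, U) P.Ring)) ≫ hU.fromSpec
  let ρ : Spec (.of B) ⟶ Spec (.of P.Ring) := Spec.map (CommRingCat.ofHom θ.toRingHom)
  have hg : Etale g := by
    have : Etale (Spec.map (CommRingCat.ofHom (algebraMap Γ(W, U) P.Ring))) := by
      rw [HasRingHomProperty.Spec_iff (P := @Etale)]
      show (algebraMap Γ(W, U) P.Ring).Etale
      rw [RingHom.etale_algebraMap]
      infer_instance
    infer_instance
  have hρg : ρ ≫ g = Spec.map (CommRingCat.ofHom (φ.comp gm)) ≫ hU.fromSpec := by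
    show Spec.map (CommRingCat.ofHom θ.toRingHom) ≫
      Spec.map (CommRingCat.ofHom (algebraMap Γ(W, U) P.Ring)) ≫ hU.fromSpec = _
    rw [← Category.assoc, ← Spec.map_comp, ← CommRingCat.ofHom_comp, hθR]
  have hk : ∀ (Ω : Type u) [Field Ω] (χ : B →+* Ω),
      kf (Spec.map (CommRingCat.ofHom χ) ≫ ρ) =
        kf (Spec.map (CommRingCat.ofHom χ) ≫ ρ ≫ g) ⊔ Subfield.closure {χ β} := by
    intro Ω _ χ
    have e1 : Spec.map (CommRingCat.ofHom χ) ≫ ρ =
        Spec.map (CommRingCat.ofHom (χ.comp θ.toRingHom)) ≫ 𝟙 _ := by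
      rw [Category.comp_id]
      show Spec.map (CommRingCat.ofHom χ) ≫ Spec.map (CommRingCat.ofHom θ.toRingHom) = _
      rw [← Spec.map_comp, ← CommRingCat.ofHom_comp]
    have e2 : Spec.map (CommRingCat.ofHom χ) ≫ ρ ≫ g =
        Spec.map (CommRingCat.ofHom ((χ.comp θ.toRingHom).comp (algebraMap Γ(W, U) P.Ring))) ≫
          hU.fromSpec := by
      rw [hρg, ← Category.assoc, ← Spec.map_comp, ← CommRingCat.ofHom_comp, RingHom.comp_assoc,
        hθR]
    rw [e1, e2, EtNb_kf, EtNb_kf]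
    have e3 := EtNb_cl P (χ.comp θ.toRingHom)
    have e4 : (χ.comp θ.toRingHom) P.X = χ β := congrArg χ hθX
    rw [e4] at e3
    exact e3
  refine ⟨Spec (.of P.Ring), g, ρ, hg, ?_, hk _ (IsLocalRing.residue B), hk _ B.subtype⟩
  rw [hρg, ← hU.fromSpecStalk_eq_fromSpecStalk hzU]
  show _ = Spec.map (CommRingCat.ofHom φ) ≫ Spec.map (W.presheaf.germ U z hzU) ≫ hU.fromSpec
  rw [← Category.assoc, ← Spec.map_comp]
  rfl

end TPU
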