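import Pool.Agent.TPU.St1
import Pool.Agent.TPU.St2

/-!
# [GC] The geometric condition for tame covering sieves implies the literal one
-/

set_option autoImplicit false

universe u

open CategoryTheory Limits AlgebraicGeometry Opposite

namespace TPU

private lemma GC_nonunits {K L : Type u} [Field K] [Field L] (φ : K →+* L) (O : ValuationSubring L)
    (x : K) (hx : x ∈ (O.comap φ).nonunits) : φ x ∈ O.nonunits := by
  rw [ValuationSubring.mem_nonunits_iff_or] at hx ⊢
  rcases hx with rfl | hx
  · left; exact map_zero φ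
  · right
    intro h
    apply hx
    rw [ValuationSubring.mem_comap, map_inv₀]
    exact h

/-- The field theoretic part. -/
private lemma GC_field (p : ℕ) {K Ω L : Type u} [Field K] [Field Ω] [Algebra K Ω] [IsGalois K Ω]
    [Field L] (j : L →+* Ω) (φ : K →+* L) (hj : ∀ a, j (φ a) = algebraMap K Ω a)
    (O : ValuationSubring Ω) (s t : Finset Ω)
    (ht : j.fieldRange ≤ (algebraMap K Ω).fieldRange ⊔ Subfield.closure (t : Set Ω))
    (hw : ∀ σ : Ω ≃+* Ω, (∀ x ∈ (algebraMap K Ω).fieldRange, σ x = x) →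
      Wild p O ((algebraMap K Ω).fieldRange ⊔ Subfield.closure (s : Set Ω)) σ →
        ∀ x ∈ j.fieldRange, σ x = x) (v : ValuationSubring K)
    (hv : O.comap (algebraMap K Ω) = v) : Tame p φ v (O.comap j) := by
  classical
  refine ⟨?_, ?_⟩
  · rw [← hv]
    ext x
    rw [ValuationSubring.mem_comap, ValuationSubring.mem_comap, ValuationSubring.mem_comap, hj]
  let N : FiniteGaloisIntermediateField K Ω :=
    FiniteGaloisIntermediateField.adjoin K ((s ∪ t : Finset Ω) : Set Ω)
  have hsub : ((s ∪ t : Finset Ω) : Set Ω) ⊆ (N.toIntermediateField : Set Ω) :=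
    FiniteGaloisIntermediateField.subset_adjoin K _
  have hK : (algebraMap K Ω).fieldRange ≤ N.toIntermediateField.toSubfield := by
    rintro _ ⟨x, rfl⟩
    exact N.toIntermediateField.algebraMap_mem x
  have hs' : (algebraMap K Ω).fieldRange ⊔ Subfield.closure (s : Set Ω) ≤
      N.toIntermediateField.toSubfield := by
    refine sup_le hK (Subfield.closure_le.2 ?_)
    intro x hx
    exact hsub (by simp at hx; simp [hx])
  have ht' : (algebraMap K Ω).fieldRange ⊔ Subfield.closure (t : Set Ω) ≤
      N.toIntermediateField.toSubfield := by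
    refine sup_le hK (Subfield.closure_le.2 ?_)
    intro x hx
    exact hsub (by simp at hx; simp [hx])
  have hjN : ∀ y, j y ∈ N.toIntermediateField := fun y => ht' (ht ⟨y, rfl⟩)
  let ψ : L →+* N.toIntermediateField := j.codRestrict N.toIntermediateField hjN
  refine ⟨N.toIntermediateField, inferInstance, inferInstance, ψ,
    O.comap (algebraMap N.toIntermediateField Ω), N.finiteDimensional, N.isGalois, ?_, ?_, ?_⟩
  · intro a
    exact Subtype.ext (hj a)
  · ext y
    rw [ValuationSubring.mem_comap, ValuationSubring.mem_comap, ValuationSubring.mem_comap]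
    rfl
  · intro σ hσ hpow y
    obtain ⟨n, hn⟩ := hpow
    let τ : Ω ≃ₐ[K] Ω := σ.liftNormal Ω
    have hτ : ∀ z : N.toIntermediateField, τ (z : Ω) = ((σ z : N.toIntermediateField) : Ω) := by
      intro z
      exact AlgEquiv.liftNormal_commutes σ Ω z
    let ρ : Ω ≃+* Ω := τ.toRingEquiv
    have hρ : ∀ z : N.toIntermediateField, ρ (z : Ω) = ((σ z : N.toIntermediateField) : Ω) := hτ
    have hpw : ∀ (k : ℕ) (z : N.toIntermediateField),
        (ρ ^ k) (z : Ω) = (((σ ^ k) z : N.toIntermediateField) : Ω) := by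
      intro k
      induction k with
      | zero => intro z; rfl
      | succ k ih =>
        intro z
        have h1 : (ρ ^ (k + 1)) (z : Ω) = (ρ ^ k) (ρ (z : Ω)) := by rw [pow_succ]; rfl
        have h2 : (σ ^ (k + 1)) z = (σ ^ k) (σ z) := by rw [pow_succ]; rfl
        rw [h1, h2, hρ, ih]
    have hfix := hw ρ (by
      rintro _ ⟨x, rfl⟩
      exact τ.commutes x) (by
      refine ⟨?_, n, ?_⟩
      · intro x hx hxO
        have hxN := hs' hx
        have h1 := hσ ⟨x, hxN⟩ hxO
        have h2 := GC_nonunits _ _ _ h1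
        have h3 : ρ x = ((σ ⟨x, hxN⟩ : N.toIntermediateField) : Ω) := hρ ⟨x, hxN⟩
        rw [h3]
        exact h2
      · intro x hx
        have hxN := hs' hx
        have h3 := hpw (p ^ n) ⟨x, hxN⟩
        rw [hn] at h3
        exact h3)
    have h4 := hfix (j y) ⟨y, rfl⟩
    have h5 : ρ (j y) = ((σ (ψ y) : N.toIntermediateField) : Ω) := hρ (ψ y)
    apply Subtype.ext
    rw [← h5, h4]
    rfl

theorem thm_GC (h1 : St_Kf.{u}) (h2 : St_Sv.{u}) (h3 : St_VExt.{u}) : St_GC.{u} := by
  intro p X S f U R hG a0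
  obtain ⟨x, v, hext⟩ := a0
  obtain ⟨hkf1, -, -, -, hkf5⟩ := h1
  let K : Type u := U.left.residueField x
  let Ω : Type u := SeparableClosure K
  obtain ⟨O, hO⟩ := h3 K Ω (algebraMap K Ω) v
  let i : U.left.residueField x ⟶ CommRingCat.of Ω := CommRingCat.ofHom (algebraMap K Ω)
  let a : Spec (.of Ω) ⟶ U.left := Spec.map i ≫ U.left.fromSpecResidueField x
  have hka : kf a = (algebraMap K Ω).fieldRange := hkf1 Ω U.left x i
  have hsep : Algebra.IsSeparable (kf a) Ω := by
    rw [hka]
    let _ : Algebra K (algebraMap K Ω).fieldRange := (algebraMap K Ω).rangeRestrictField.toAlgebra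
    have : IsScalarTower K (algebraMap K Ω).fieldRange Ω := IsScalarTower.of_algebraMap_eq fun _ => rfl
    exact Algebra.isSeparable_tower_top_of_isSeparable K _ Ω
  have hSV : SV (U.hom ≫ f) a O := by
    refine (h2 K Ω (algebraMap K Ω) U.left S (U.hom ≫ f) (U.left.fromSpecResidueField x) O).2 ?_
    rw [hO]
    exact hext
  obtain ⟨V, g, b, s, hR, hb, hσ⟩ := hG Ω a O hsep hSV
  obtain ⟨⟨y, j⟩, hbj⟩ := (Scheme.SpecToEquivOfField Ω V.left).symm.surjective b
  have hbj' : Spec.map j ≫ V.left.fromSpecResidueField y = b := hbj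
  have hkb : kf b = j.hom.fieldRange := by
    rw [← hbj']
    exact hkf1 Ω V.left y j
  -- comparison of the points
  have hcmp : (⟨g.left y, g.left.residueFieldMap y ≫ j⟩ : Σ z, U.left.residueField z ⟶ .of Ω) = ⟨x, i⟩ := by
    apply (Scheme.SpecToEquivOfField Ω U.left).symm.injective
    show Spec.map (g.left.residueFieldMap y ≫ j) ≫ U.left.fromSpecResidueField (g.left y) =
      Spec.map i ≫ U.left.fromSpecResidueField x
    rw [Spec.map_comp, Category.assoc, Scheme.Hom.SpecMap_residueFieldMap_fromSpecResidueField,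
      ← Category.assoc, hbj']
    exact hb
  rw [Scheme.SpecToEquivOfField_eq_iff] at hcmp
  obtain ⟨e, he⟩ := hcmp
  have he' : (U.left.residueFieldCongr e).inv ≫ g.left.residueFieldMap y ≫ j = i := by
    rw [Iso.inv_comp_eq]
    exact he
  have hSb : SV (V.hom ≫ f) b O := by
    obtain ⟨q, hq⟩ := hSV
    refine ⟨q, ?_⟩
    rw [hq, ← hb, Category.assoc]
    have hw : g.left ≫ U.hom = V.hom := CategoryTheory.Over.w g.hom
    rw [← Category.assoc g.left, hw]
  have hSb' : SV (V.hom ≫ f) (V.left.fromSpecResidueField y) (O.comap j.hom) := by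
    refine (h2 (V.left.residueField y) Ω j.hom V.left S (V.hom ≫ f)
      (V.left.fromSpecResidueField y) O).1 ?_
    have : Spec.map (CommRingCat.ofHom j.hom) ≫ V.left.fromSpecResidueField y = b := hbj'
    rw [this]
    exact hSb
  refine ⟨V, g, ⟨y, O.comap j.hom, hSb'⟩, hR, e, ?_⟩
  obtain ⟨-, t, ht⟩ := hkf5 Ω V.left U.left b g.left
  rw [hb, hka, hkb] at ht
  refine GC_field p j.hom _ ?_ O s t ht.le ?_ v hO
  · intro z
    have := congrArg (fun q => q.hom z) he'
    exact this
  · intro σ hσ1 hσ2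
    rw [← hkb]
    rw [← hka] at hσ1 hσ2
    exact hσ σ hσ1 hσ2

end TPU
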