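import Pool.Agent.TPU.St4

/-!
# TPU, module GTR: restriction of a geometric torsor to a smaller open subset (helper77)
-/

set_option autoImplicit false

universe u

open CategoryTheory Limits AlgebraicGeometry Opposite

namespace TPU

theorem thm_GTR : St_GTR.{u} := by
  intro V G G' h E π Δ _ act hGT hEt
  let j : (G' : Scheme.{u}) ⟶ G := V.homOfLE h
  have hw : ∀ δ, (pullback.fst π j ≫ act δ) ≫ π = pullback.snd π j ≫ j := by
    intro δ
    rw [Category.assoc, hGT.ov, pullback.condition]
  let act' : Δ → (pullback π j ⟶ pullback π j) := fun δ =>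
    pullback.lift (pullback.fst π j ≫ act δ) (pullback.snd π j) (hw δ)
  have h1 : ∀ δ, act' δ ≫ pullback.fst π j = pullback.fst π j ≫ act δ := fun δ =>
    pullback.lift_fst _ _ _
  have h2 : ∀ δ, act' δ ≫ pullback.snd π j = pullback.snd π j := fun δ =>
    pullback.lift_snd _ _ _
  have hj : j ≫ G.ι = G'.ι := V.homOfLE_ι h
  refine ⟨pullback π j, pullback.fst π j, pullback.snd π j, act', inferInstance, inferInstance,
    ⟨h2, ?_, ?_, ?_, ?_⟩, ?_, h1⟩
  · refine pullback.hom_ext ?_ ?_
    · rw [h1, hGT.one, Category.comp_id, Category.id_comp]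
    · rw [h2, Category.id_comp]
  · intro δ ε
    refine pullback.hom_ext ?_ ?_
    · rw [h1, hGT.mul, Category.assoc, h1, ← Category.assoc, ← Category.assoc, h1]
    · rw [h2, Category.assoc, h2, h2]
  · intro Ω _ _ c
    obtain ⟨s, hs⟩ := hGT.ex Ω (c ≫ j)
    exact ⟨pullback.lift s c hs, pullback.lift_snd _ _ _⟩
  · intro Ω _ _ s t hst
    have h3 : (s ≫ pullback.fst π j) ≫ π = (t ≫ pullback.fst π j) ≫ π := by
      rw [Category.assoc, Category.assoc, pullback.condition, ← Category.assoc, hst,
        Category.assoc]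
    obtain ⟨δ, hδ, hu⟩ := hGT.tr Ω _ _ h3
    have h4 : ∀ δ', (t = s ≫ act' δ' ↔
        t ≫ pullback.fst π j = (s ≫ pullback.fst π j) ≫ act δ') := by
      intro δ'
      rw [← cancel_mono (pullback.fst π j), Category.assoc, Category.assoc, h1]
    exact ⟨δ, (h4 δ).2 hδ, fun δ' hδ' => hu δ' ((h4 δ').1 hδ')⟩
  · rw [← hj, ← Category.assoc, ← pullback.condition, Category.assoc]

end TPU

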