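import Pool.Agent.TPU.St2

/-!
# [GTop] The geometric coverings form a Grothendieck topology
-/

set_option autoImplicit false

universe u

open CategoryTheory Limits AlgebraicGeometry Opposite

namespace TPU

private theorem GTop_isPullback {X : Scheme.{u}} {V U U' : X.Etale} (g : V ⟶ U) (h : U' ⟶ U) :
    IsPullback (pullback.fst g h).left (pullback.snd g h).left g.left h.left := by
  have h1 := (IsPullback.of_hasPullback g h).map (Scheme.Etale.forget X ⋙ Over.forget X)
  exact h1

private theorem GTop_wild_mono (p : ℕ) {Ω : Type u} [Field Ω] (O : ValuationSubring Ω)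
    {M N : Subfield Ω} (h : N ≤ M) {σ : Ω ≃+* Ω} (hσ : Wild p O M σ) : Wild p O N σ :=
  ⟨fun x hx => hσ.1 x (h hx), hσ.2.imp fun _ hn x hx => hn x (h hx)⟩

private theorem GTop_trans {Ω : Type u} [Field Ω] {K L : Subfield Ω} (hKL : K ≤ L)
    (h : ∀ x ∈ L, IsSeparable K x) (hL : Algebra.IsSeparable L Ω) : Algebra.IsSeparable K Ω := by
  let : Algebra K L := (Subfield.inclusion hKL).toAlgebra
  have : IsScalarTower K L Ω := IsScalarTower.of_algebraMap_eq fun _ => rfl
  have : Algebra.IsSeparable K L := by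
    refine ⟨fun x => ?_⟩
    have h1 := h (x : Ω) x.2
    have h2 : IsSeparable K (IsScalarTower.toAlgHom K L Ω x) := h1
    unfold IsSeparable at h2 ⊢
    rwa [minpoly.algHom_eq _ (algebraMap L Ω).injective] at h2
  exact Algebra.IsSeparable.trans K L Ω

private theorem GTop_top {Ω : Type u} [Field Ω] {K L : Subfield Ω} (hKL : K ≤ L)
    (hK : Algebra.IsSeparable K Ω) : Algebra.IsSeparable L Ω := by
  let : Algebra K L := (Subfield.inclusion hKL).toAlgebra
  have : IsScalarTower K L Ω := IsScalarTower.of_algebraMap_eq fun _ => rfl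
  exact Algebra.isSeparable_tower_top_of_isSeparable K L Ω

private theorem GTop_SV {X S : Scheme.{u}} (f : X ⟶ S) {V U : X.Etale} (g : V ⟶ U) {Ω : Type u}
    [Field Ω] (b : Spec (.of Ω) ⟶ V.left) (O : ValuationSubring Ω) :
    SV (U.hom ≫ f) (b ≫ g.left) O ↔ SV (V.hom ≫ f) b O := by
  have h : (b ≫ g.left) ≫ U.hom ≫ f = b ≫ V.hom ≫ f := by
    rw [Category.assoc]
    congr 1
    rw [← Category.assoc]
    congr 1
    exact MorphismProperty.Over.w g
  unfold SV
  rw [h]

/-- **GTop**. The geometric coverings form a Grothendieck topology. -/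
theorem thm_GTop (h1 : St_Kf.{u}) : St_GTop.{u} := by
  classical
  obtain ⟨-, kle, -, kfix, ket⟩ := h1
  intro p X S f
  refine ⟨?_, ?_, ?_⟩
  · intro U Ω _ _ a O _ _
    refine ⟨U, 𝟙 U, a, ∅, trivial, ?_, fun σ h _ => h⟩
    exact Category.comp_id a
  · intro U U' h R hR Ω _ _ a' O hsep hSV
    have hle := kle Ω U'.left U.left a' h.left
    obtain ⟨hs, -⟩ := ket Ω U'.left U.left a' h.left
    obtain ⟨V, g, b, s, hg, hb, hfix⟩ := hR Ω (a' ≫ h.left) O (GTop_trans hle hs hsep)
      ((GTop_SV f h a' O).2 hSV)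
    have hP := GTop_isPullback g h
    refine ⟨pullback g h, pullback.snd g h, hP.lift b a' hb, s, ?_, hP.lift_snd _ _ _, ?_⟩
    · show R (pullback.snd g h ≫ h)
      rw [← pullback.condition]
      exact R.downward_closed hg _
    · intro σ hσ hw
      have e1 : ∀ x ∈ kf b, σ x = x := by
        apply hfix σ (fun x hx => hσ x (hle hx))
        exact GTop_wild_mono p O (sup_le_sup_right hle _) hw
      have e2 := (kfix Ω V.left b (σ : Ω →+* Ω)).2 e1
      have e3 := (kfix Ω U'.left a' (σ : Ω →+* Ω)).2 hσ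
      refine (kfix Ω (pullback g h).left (hP.lift b a' hb) (σ : Ω →+* Ω)).1 ?_
      apply hP.hom_ext
      · rw [Category.assoc, hP.lift_fst, e2]
      · rw [Category.assoc, hP.lift_snd, e3]
  · intro U R R' hR hR' Ω _ _ a O hsep hSV
    obtain ⟨V, g, b, s, hg, hb, hfix⟩ := hR Ω a O hsep hSV
    subst hb
    have hle := kle Ω V.left U.left b g.left
    obtain ⟨-, t, ht⟩ := ket Ω V.left U.left b g.left
    obtain ⟨V', g', b', s', hg', hb', hfix'⟩ := hR' V g hg Ω b O (GTop_top hle hsep)
      ((GTop_SV f g b O).1 hSV)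
    refine ⟨V', g' ≫ g, b', s ∪ t ∪ s', hg', ?_, ?_⟩
    · rw [← hb', Category.assoc]
      rfl
    · intro σ hσ hw
      have e1 : ∀ x ∈ kf b, σ x = x := by
        apply hfix σ hσ
        refine GTop_wild_mono p O (sup_le_sup_left (Subfield.closure_mono ?_) _) hw
        rw [Finset.coe_union, Finset.coe_union]
        exact Set.subset_union_left.trans Set.subset_union_left
      apply hfix' σ e1
      refine GTop_wild_mono p O ?_ hw
      rw [ht, sup_assoc, ← Subfield.closure_union]
      refine sup_le_sup_left (Subfield.closure_mono ?_) _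
      rw [Finset.coe_union, Finset.coe_union]
      exact Set.union_subset_union_left _ Set.subset_union_right

end TPU
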