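import Pool.Agent.TPU.St1

/-!
# TPU: module GalA (helper75)

Spreading out a finite Galois extension of the fraction field of a domain.
-/

set_option autoImplicit false

universe u

open Polynomial

namespace TPU

/-- `AdjoinRoot f` is étale if `f` is monic and separable -/
private theorem GalA_etale {O : Type u} [CommRing O] (f : O[X]) (hf : f.Monic)
    (hs : f.Separable) : Algebra.Etale O (AdjoinRoot f) := by
  obtain ⟨a, b, hab⟩ := hs
  let P : StandardEtalePair O :=
    { f := f
      monic_f := hf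
      g := 1
      cond := ⟨b, a, 0, by rw [pow_zero, ← hab]; ring⟩ }
  have h1 : P.HasMap (AdjoinRoot.root f) := by
    refine ⟨?_, ?_⟩
    · show aeval (AdjoinRoot.root f) f = 0
      rw [AdjoinRoot.aeval_eq, AdjoinRoot.mk_self]
    · show IsUnit (aeval (AdjoinRoot.root f) (1 : O[X]))
      rw [map_one]
      exact isUnit_one
  have h2 : aeval P.X f = 0 := P.hasMap_X.1
  have h3 : (AdjoinRoot.liftAlgHom f (Algebra.ofId O P.Ring) P.X h2) (AdjoinRoot.root f) = P.X :=
    AdjoinRoot.liftAlgHom_root f _ _ h2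
  have h4 : P.lift (AdjoinRoot.root f) h1 P.X = AdjoinRoot.root f := P.lift_X _ h1
  let e : P.Ring ≃ₐ[O] AdjoinRoot f := AlgEquiv.ofAlgHom (P.lift (AdjoinRoot.root f) h1)
    (AdjoinRoot.liftAlgHom f (Algebra.ofId O P.Ring) P.X h2)
    (by
      apply AdjoinRoot.algHom_ext
      rw [AlgHom.comp_apply, h3, h4, AlgHom.id_apply])
    (by
      apply StandardEtalePair.hom_ext
      rw [AlgHom.comp_apply, h4, h3, AlgHom.id_apply])
  exact Algebra.Etale.of_equiv e

private theorem GalA_hom_ext {O R : Type u} [CommRing O] [CommRing R] (f : O[X])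
    (s t : AdjoinRoot f →+* R) (h1 : ∀ x, s (AdjoinRoot.of f x) = t (AdjoinRoot.of f x))
    (h2 : s (AdjoinRoot.root f) = t (AdjoinRoot.root f)) : s = t := by
  refine RingHom.ext fun x => ?_
  obtain ⟨p, rfl⟩ := AdjoinRoot.mk_surjective x
  induction p using Polynomial.induction_on' with
  | add p q hp hq => rw [map_add, map_add, map_add, hp, hq]
  | monomial n a =>
    rw [← C_mul_X_pow_eq_monomial, map_mul, map_mul, map_mul, map_pow, map_pow, map_pow,
      AdjoinRoot.mk_C, AdjoinRoot.mk_X, h1, h2]

/-- the minimal polynomial of a primitive element of a Galois extension -/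
private theorem GalA_prod (K L : Type u) [Field K] [Field L] [Algebra K L] [FiniteDimensional K L]
    [IsGalois K L] (γ : L) (hγ : IntermediateField.adjoin K {γ} = ⊤) :
    (minpoly K γ).map (algebraMap K L) = ∏ σ : L ≃ₐ[K] L, (X - C (σ γ)) := by
  have hint : IsIntegral K γ := Algebra.IsIntegral.isIntegral γ
  have hinj : Function.Injective (fun σ : L ≃ₐ[K] L => σ γ) := by
    intro σ τ h
    have h' : ∀ x ∈ IntermediateField.adjoin K {γ}, σ x = τ x := by
      intro x hx
      induction hx using IntermediateField.adjoin_induction with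
      | mem x hx =>
        rw [Set.mem_singleton_iff.1 hx]
        exact h
      | algebraMap x => rw [AlgEquiv.commutes, AlgEquiv.commutes]
      | add x y _ _ hx hy => rw [map_add, map_add, hx, hy]
      | inv x _ hx => rw [map_inv₀, map_inv₀, hx]
      | mul x y _ _ hx hy => rw [map_mul, map_mul, hx, hy]
    ext x
    exact h' x (by rw [hγ]; trivial)
  have hmon : (∏ σ : L ≃ₐ[K] L, (X - C (σ γ))).Monic := monic_prod_X_sub_C _ _
  have hmm : ((minpoly K γ).map (algebraMap K L)).Monic := (minpoly.monic hint).map _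
  have hdvd : (∏ σ : L ≃ₐ[K] L, (X - C (σ γ))) ∣ (minpoly K γ).map (algebraMap K L) := by
    refine Finset.prod_dvd_of_coprime ?_ ?_
    · intro σ _ τ _ hne
      exact pairwise_coprime_X_sub_C hinj hne
    · intro σ _
      rw [dvd_iff_isRoot, IsRoot.def, eval_map, ← aeval_def]
      have : σ (aeval γ (minpoly K γ)) = 0 := by rw [minpoly.aeval, map_zero]
      rw [← this]
      exact (aeval_algHom_apply (σ : L →ₐ[K] L) γ (minpoly K γ))
  refine (eq_of_monic_of_dvd_of_natDegree_le hmon hmm hdvd ?_)
  rw [natDegree_map, natDegree_prod_of_monic _ _ fun σ _ => monic_X_sub_C _]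
  simp only [natDegree_X_sub_C, Finset.sum_const, smul_eq_mul, mul_one, Finset.card_univ]
  rw [← Nat.card_eq_fintype_card, IsGalois.card_aut_eq_finrank,
    ← IntermediateField.adjoin.finrank hint, hγ, IntermediateField.finrank_top']

/-- a common denominator for finitely many polynomials -/
private theorem GalA_den (A K : Type u) [CommRing A] [IsDomain A] [Field K] [Algebra A K]
    [IsFractionRing A K] (T : Finset K[X]) : ∃ c : A, c ≠ 0 ∧ ∀ p ∈ T, ∀ n,
      ∃ x : A, algebraMap A K x = algebraMap A K c * p.coeff n := by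
  classical
  obtain ⟨c, hc⟩ := IsLocalization.exist_integer_multiples_of_finset (nonZeroDivisors A)
    (T.biUnion fun p => p.support.image p.coeff)
  refine ⟨c, nonZeroDivisors.ne_zero c.2, fun p hp n => ?_⟩
  by_cases hn : p.coeff n = 0
  · exact ⟨0, by rw [hn, map_zero, mul_zero]⟩
  · obtain ⟨x, hx⟩ := hc (p.coeff n) (Finset.mem_biUnion.2 ⟨p, hp,
      Finset.mem_image_of_mem _ (mem_support_iff.2 hn)⟩)
    refine ⟨x, ?_⟩
    rw [hx, Algebra.smul_def]

theorem thm_GalA : St_GalA.{u} := by
  intro A K L _ _ _ _ _ _ _ _ _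
  classical
  obtain ⟨γ, hγ⟩ := Field.exists_primitive_element K L
  have hint : IsIntegral K γ := Algebra.IsIntegral.isIntegral γ
  have hall : ∀ y : L, ∃ g : K[X], aeval γ g = y := by
    intro y
    have h1 : y ∈ IntermediateField.adjoin K {γ} := by rw [hγ]; trivial
    have h2 : y ∈ (IntermediateField.adjoin K {γ}).toSubalgebra := h1
    rw [IntermediateField.adjoin_simple_toSubalgebra_of_isAlgebraic hint.isAlgebraic,
      Algebra.adjoin_singleton_eq_range_aeval] at h2
    exact h2
  have hg : ∀ σ : L ≃ₐ[K] L, ∃ g : K[X], aeval γ g = σ γ := fun σ => hall _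
  choose g hg using hg
  obtain ⟨a, b, hab⟩ : (minpoly K γ).Separable := Algebra.IsSeparable.isSeparable K γ
  obtain ⟨c, hc0, hc⟩ := GalA_den A K ({minpoly K γ, a, b} ∪ Finset.univ.image g)
  have hcK : algebraMap A K c ≠ 0 := by
    rw [Ne, IsFractionRing.to_map_eq_zero_iff]
    exact hc0
  have hunit : IsUnit (algebraMap A K c) := isUnit_iff_ne_zero.2 hcK
  -- the map of the localization to `K`
  let ι : Localization.Away c →+* K := IsLocalization.Away.lift c hunit
  have hι : ∀ x : A, ι (algebraMap A _ x) = algebraMap A K x := fun x =>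
    IsLocalization.Away.lift_eq c hunit x
  have hιinj : Function.Injective ι := by
    have hle : Submonoid.powers c ≤ nonZeroDivisors A := powers_le_nonZeroDivisors_of_noZeroDivisors hc0
    rw [injective_iff_map_eq_zero]
    intro x hx
    obtain ⟨⟨y, s⟩, hys⟩ := IsLocalization.surj (Submonoid.powers c) x
    have h1 : ι (x * algebraMap A _ s) = ι (algebraMap A _ y) := by rw [hys]
    rw [map_mul, hx, zero_mul, hι] at h1
    have hy : y = 0 := (IsFractionRing.to_map_eq_zero_iff (K := K)).1 h1.symm
    rw [hy, map_zero] at hys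
    exact (IsLocalization.map_units _ s).mul_left_eq_zero.1 hys
  have hlift : ∀ p ∈ ({minpoly K γ, a, b} ∪ Finset.univ.image g : Finset K[X]),
      p ∈ Polynomial.lifts ι := by
    intro p hp
    rw [Polynomial.lifts_iff_coeff_lifts]
    intro n
    obtain ⟨x, hx⟩ := hc p hp n
    refine ⟨algebraMap A _ x * IsLocalization.Away.invSelf c, ?_⟩
    have h1 : algebraMap A K c * ι (IsLocalization.Away.invSelf c) = 1 := by
      rw [← hι, ← map_mul, IsLocalization.Away.mul_invSelf, map_one]
    rw [map_mul, hι, hx]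
    linear_combination (p.coeff n) * h1
  obtain ⟨M, hM, hMdeg, hMmon⟩ := Polynomial.lifts_and_natDegree_eq_and_monic
    (hlift (minpoly K γ) (by simp)) (minpoly.monic hint)
  obtain ⟨a', ha'⟩ := (Polynomial.mem_lifts a).1 (hlift a (by simp))
  obtain ⟨b', hb'⟩ := (Polynomial.mem_lifts b).1 (hlift b (by simp))
  have hg' : ∀ σ, ∃ q : (Localization.Away c)[X], q.map ι = g σ := fun σ =>
    (Polynomial.mem_lifts (g σ)).1 (hlift (g σ) (by simp))
  choose g' hg' using hg'
  have hsep : M.Separable := by
    refine ⟨a', b', Polynomial.map_injective ι hιinj ?_⟩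
    rw [Polynomial.map_add, Polynomial.map_mul, Polynomial.map_mul, ← derivative_map, hM, ha', hb',
      hab, Polynomial.map_one]
  -- the map to `L`
  have hev : ∀ p : (Localization.Away c)[X], p.eval₂ ((algebraMap K L).comp ι) γ =
      aeval γ (p.map ι) := by
    intro p
    rw [aeval_def, eval₂_map]
  have hMγ : M.eval₂ ((algebraMap K L).comp ι) γ = 0 := by rw [hev, hM, minpoly.aeval]
  let j : AdjoinRoot M →+* L := AdjoinRoot.lift ((algebraMap K L).comp ι) γ hMγ
  have hj : ∀ p, j (AdjoinRoot.mk M p) = aeval γ (p.map ι) := fun p => by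
    rw [← hev]
    exact AdjoinRoot.lift_mk hMγ p
  have hjof : ∀ x, j (AdjoinRoot.of M x) = algebraMap K L (ι x) := fun x => AdjoinRoot.lift_of hMγ
  have hjroot : j (AdjoinRoot.root M) = γ := AdjoinRoot.lift_root hMγ
  have hjinj : Function.Injective j := by
    rw [injective_iff_map_eq_zero]
    intro x hx
    obtain ⟨p, rfl⟩ := AdjoinRoot.mk_surjective x
    rw [hj] at hx
    have h1 : minpoly K γ ∣ p.map ι := minpoly.dvd K γ hx
    rw [← hM, ← Polynomial.modByMonic_eq_zero_iff_dvd (hMmon.map ι), ← Polynomial.map_modByMonic ι hMmon,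
      Polynomial.map_eq_zero_iff hιinj, Polynomial.modByMonic_eq_zero_iff_dvd hMmon] at h1
    exact AdjoinRoot.mk_eq_zero.2 h1
  -- the action
  have hθ : ∀ σ, j (AdjoinRoot.mk M (g' σ)) = σ γ := fun σ => by rw [hj, hg', hg]
  have hjM : ∀ (σ : L ≃ₐ[K] L), M.eval₂ (AdjoinRoot.of M) (AdjoinRoot.mk M (g' σ)) = 0 := by
    intro σ
    apply hjinj
    rw [map_zero, Polynomial.hom_eval₂, hθ]
    have h1 : j.comp (AdjoinRoot.of M) = (algebraMap K L).comp ι := AdjoinRoot.lift_comp_of hMγ
    rw [h1, ← Polynomial.eval₂_map, hM, ← aeval_def]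
    have h2 : aeval (σ γ) (minpoly K γ) = σ (aeval γ (minpoly K γ)) :=
      aeval_algHom_apply (σ : L →ₐ[K] L) γ (minpoly K γ)
    rw [h2, minpoly.aeval, map_zero]
  let act : (L ≃ₐ[K] L) → (AdjoinRoot M →+* AdjoinRoot M) := fun σ =>
    AdjoinRoot.lift (AdjoinRoot.of M) (AdjoinRoot.mk M (g' σ)) (hjM σ)
  have hactroot : ∀ σ, act σ (AdjoinRoot.root M) = AdjoinRoot.mk M (g' σ) := fun σ =>
    AdjoinRoot.lift_root (hjM σ)
  have hactof : ∀ σ x, act σ (AdjoinRoot.of M x) = AdjoinRoot.of M x := fun σ x =>
    AdjoinRoot.lift_of (hjM σ)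
  have hactj : ∀ σ x, j (act σ x) = σ (j x) := by
    intro σ x
    have h1 : j.comp (act σ) = ((σ : L ≃ₐ[K] L) : L →+* L).comp j := by
      refine GalA_hom_ext M _ _ ?_ ?_
      · intro x
        rw [RingHom.comp_apply, RingHom.comp_apply, hactof, hjof]
        exact (σ.commutes _).symm
      · rw [RingHom.comp_apply, RingHom.comp_apply, hactroot, hθ, hjroot]
        rfl
    exact congrArg (fun f : AdjoinRoot M →+* L => f x) h1
  -- the product formula
  have hprod : M.map (AdjoinRoot.of M) = ∏ σ : L ≃ₐ[K] L, (X - C (act σ (AdjoinRoot.root M))) := by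
    apply Polynomial.map_injective j hjinj
    rw [Polynomial.map_map]
    have h1 : j.comp (AdjoinRoot.of M) = (algebraMap K L).comp ι := AdjoinRoot.lift_comp_of hMγ
    rw [h1, ← Polynomial.map_map, hM, GalA_prod K L γ hγ, Polynomial.map_prod]
    refine Finset.prod_congr rfl fun σ _ => ?_
    rw [Polynomial.map_sub, Polynomial.map_X, Polynomial.map_C, hactj, hjroot]
  refine ⟨c, hc0, AdjoinRoot M, inferInstance, inferInstance, j, act, GalA_etale M hMmon hsep,
    hMmon.finite_adjoinRoot, hjinj, ?_, ?_, hactj, ?_, ?_⟩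
  · intro x
    rw [AdjoinRoot.algebraMap_eq, hjof, hι]
  · intro y
    obtain ⟨p, hp⟩ := hall y
    obtain ⟨d, hd0, hd⟩ := GalA_den A K {p}
    have hd' : ∀ n, ∃ x : A, algebraMap A K x = algebraMap A K d * p.coeff n := fun n =>
      hd p (Finset.mem_singleton_self p) n
    have hdp : C (algebraMap A K d) * p ∈ Polynomial.lifts ι := by
      rw [Polynomial.lifts_iff_coeff_lifts]
      intro n
      obtain ⟨x, hx⟩ := hd' n
      exact ⟨algebraMap A _ x, by rw [hι, hx, coeff_C_mul]⟩
    obtain ⟨q, hq⟩ := (Polynomial.mem_lifts _).1 hdp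
    have hjd : j (AdjoinRoot.of M (algebraMap A _ d)) = algebraMap K L (algebraMap A K d) := by
      rw [hjof, hι]
    have hdK : algebraMap A K d ≠ 0 := by
      rw [Ne, IsFractionRing.to_map_eq_zero_iff]
      exact hd0
    refine ⟨AdjoinRoot.mk M q, AdjoinRoot.of M (algebraMap A _ d), ?_, ?_⟩
    · intro h0
      rw [h0, map_zero] at hjd
      exact hdK ((map_eq_zero (algebraMap K L)).1 hjd.symm)
    · rw [hjd, hj, hq, map_mul, aeval_C, hp, mul_comm]
  · intro σ x
    rw [AdjoinRoot.algebraMap_eq]
    exact hactof σ x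
  · intro Ω _ _ e
    have hMe : (M.map e).Separable := hsep.map
    refine ⟨?_, ?_⟩
    · have hdeg : (M.map e).degree ≠ 0 := by
        rw [hMmon.degree_map e]
        intro h0
        have h1 : M.natDegree = 0 := natDegree_eq_of_degree_eq_some h0
        rw [hMdeg] at h1
        exact (minpoly.natDegree_pos hint).ne' h1
      obtain ⟨x, hx⟩ := IsSepClosed.exists_root _ hdeg hMe
      rw [IsRoot.def, eval_map] at hx
      refine ⟨AdjoinRoot.lift e x hx, ?_⟩
      rw [AdjoinRoot.algebraMap_eq]
      exact AdjoinRoot.lift_comp_of hx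
    · intro s t hs ht
      rw [AdjoinRoot.algebraMap_eq] at hs ht
      have hprod2 : M.map e = ∏ σ : L ≃ₐ[K] L, (X - C (s (act σ (AdjoinRoot.root M)))) := by
        have h1 := congrArg (Polynomial.map s) hprod
        rw [Polynomial.map_map, hs, Polynomial.map_prod] at h1
        rw [h1]
        refine Finset.prod_congr rfl fun σ _ => ?_
        rw [Polynomial.map_sub, Polynomial.map_X, Polynomial.map_C]
      have hinj : Function.Injective fun σ : L ≃ₐ[K] L => s (act σ (AdjoinRoot.root M)) := by
        rw [hprod2] at hMe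
        exact separable_prod_X_sub_C_iff.1 hMe
      have hroot : (M.map e).eval (t (AdjoinRoot.root M)) = 0 := by
        rw [eval_map, ← ht, ← Polynomial.hom_eval₂, AdjoinRoot.eval₂_root, map_zero]
      rw [hprod2, eval_prod, Finset.prod_eq_zero_iff] at hroot
      obtain ⟨σ, -, hσ⟩ := hroot
      rw [eval_sub, eval_X, eval_C, sub_eq_zero] at hσ
      refine ⟨σ, ?_, ?_⟩
      · refine GalA_hom_ext M _ _ ?_ ?_
        · intro x
          rw [RingHom.comp_apply, hactof]
          have h1 := congrArg (fun f : Localization.Away c →+* Ω => f x) (ht.trans hs.symm)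
          exact h1
        · rw [RingHom.comp_apply, hσ]
      · intro τ hτ
        apply hinj
        show s (act τ (AdjoinRoot.root M)) = s (act σ (AdjoinRoot.root M))
        rw [← hσ, hτ]
        rfl

end TPU
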