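import Pool.Agent.TPU.St4

/-!
# [GalB] Finite étale torsor over an open neighbourhood of a generic point
-/

set_option autoImplicit false

universe u

open CategoryTheory Limits AlgebraicGeometry Opposite

namespace TPU

private theorem GalB_frac {F : Type u} [CommRing F] (I : Ideal F) [I.IsPrime]
    (z : I.ResidueField) : ∃ a b : F, algebraMap F I.ResidueField b ≠ 0 ∧
      z * algebraMap F I.ResidueField b = algebraMap F I.ResidueField a := by
  obtain ⟨x, y, hy, hxy⟩ := IsFractionRing.div_surjective (A := F ⧸ I) z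
  obtain ⟨a, rfl⟩ := Ideal.Quotient.mk_surjective x
  obtain ⟨b, rfl⟩ := Ideal.Quotient.mk_surjective y
  have e : ∀ c : F, algebraMap (F ⧸ I) I.ResidueField (Ideal.Quotient.mk I c) =
      algebraMap F I.ResidueField c := fun c => rfl
  have hb : algebraMap F I.ResidueField b ≠ 0 := by
    rw [← e]
    exact IsFractionRing.to_map_ne_zero_of_mem_nonZeroDivisors hy
  refine ⟨a, b, hb, ?_⟩
  rw [← hxy, e, e, div_mul_cancel₀ _ hb]

private theorem GalB_kfSpec (hk : ∀ (Ω : Type u) [Field Ω] (Y : Scheme.{u}) (y : Y)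
      (φ : Y.residueField y ⟶ .of Ω),
      kf (Spec.map φ ≫ Y.fromSpecResidueField y) = φ.hom.fieldRange)
    {F M : Type u} [CommRing F] [Field M] (g : F →+* M) (x : M) :
    x ∈ kf (Spec.map (CommRingCat.ofHom g)) ↔ ∃ a b : F, g b ≠ 0 ∧ x * g b = g a := by
  obtain ⟨⟨y, φ⟩, h⟩ := (Scheme.SpecToEquivOfField M (Spec (.of F))).symm.surjective
    (Spec.map (CommRingCat.ofHom g))
  have h' : Spec.map φ ≫ (Spec (.of F)).fromSpecResidueField y =
    Spec.map (CommRingCat.ofHom g) := h
  rw [← h', hk]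
  rw [← Scheme.Spec.map_residueFieldIso_inv_eq_fromSpecResidueField, ← Spec.map_comp,
    ← Spec.map_comp, Spec.map_inj] at h'
  have hy : y.asIdeal.IsPrime := y.isPrime
  have hg : ∀ a : F, g a = φ.hom ((Scheme.Spec.residueFieldIso (.of F) y).inv.hom
      (algebraMap F y.asIdeal.ResidueField a)) := by
    intro a
    have := congrArg (fun q => q.hom a) h'
    exact this.symm
  constructor
  · rintro ⟨z, hz⟩
    obtain ⟨w, hw⟩ : ∃ w : y.asIdeal.ResidueField,
        (Scheme.Spec.residueFieldIso (.of F) y).inv.hom w = z :=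
      ⟨(Scheme.Spec.residueFieldIso (.of F) y).hom.hom z, by
        rw [← RingHom.comp_apply, ← CommRingCat.hom_comp, Iso.hom_inv_id]; rfl⟩
    obtain ⟨a, b, hb, hab⟩ := GalB_frac y.asIdeal w
    refine ⟨a, b, ?_, ?_⟩
    · rw [hg]
      intro h0
      apply hb
      have h1 := φ.hom.injective (h0.trans (map_zero φ.hom).symm)
      exact (Scheme.Spec.residueFieldIso (.of F) y).inv.hom.injective
        (h1.trans (map_zero _).symm)
    · rw [hg, hg, ← hab, map_mul, map_mul, hw, hz]
  · rintro ⟨a, b, hb, hab⟩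
    rw [← eq_div_iff hb] at hab
    rw [hab]
    refine div_mem ?_ ?_
    · rw [hg]; exact ⟨_, rfl⟩
    · rw [hg]; exact ⟨_, rfl⟩

private theorem GalB_iso {E V V' : Scheme.{u}} (π : E ⟶ V) (i : V ≅ V') {Δ : Type u} [Group Δ]
    (act : Δ → (E ⟶ E)) (h : GT π act) : GT (π ≫ i.hom) act := by
  refine ⟨fun δ => ?_, h.one, h.mul, fun Ω _ _ c => ?_, fun Ω _ _ s t hst => ?_⟩
  · rw [← Category.assoc, h.ov]
  · obtain ⟨s, hs⟩ := h.ex Ω (c ≫ i.inv)
    refine ⟨s, ?_⟩
    rw [← Category.assoc, hs, Category.assoc, Iso.inv_hom_id, Category.comp_id]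
  · refine h.tr Ω s t ?_
    rwa [← Category.assoc, ← Category.assoc, cancel_mono] at hst

private theorem GalB_res {F : Type u} [CommRing F] [IsDomain F] (e : Spec (.of F))
    (he : e.asIdeal = ⊥) : Function.Injective ((Spec (.of F)).residue e).hom := by
  have hp : e.asIdeal.IsPrime := e.isPrime
  have h1 : Function.Injective (algebraMap (Localization.AtPrime e.asIdeal)
      e.asIdeal.ResidueField) := by
    rw [RingHom.injective_iff_ker_eq_bot]
    refine IsLocalRing.ker_residue.trans ?_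
    rw [← Localization.AtPrime.map_eq_maximalIdeal]
    exact (congrArg (Ideal.map (algebraMap F (Localization.AtPrime e.asIdeal))) he).trans
      Ideal.map_bot
  have h2 := Scheme.Spec.residue_residueFieldIso_hom (.of F) e
  have h3 : ∀ x, (Scheme.Spec.residueFieldIso (.of F) e).hom.hom
      (((Spec (.of F)).residue e).hom x) = algebraMap (Localization.AtPrime e.asIdeal)
      e.asIdeal.ResidueField ((Spec.stalkIso (.of F) e).hom.hom x) := fun x =>
    congrArg (fun q => q.hom x) h2
  intro x y hxy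
  have h4 := congrArg (Scheme.Spec.residueFieldIso (.of F) e).hom.hom hxy
  rw [h3, h3] at h4
  have h5 := h1 h4
  have h6 := congrArg (Spec.stalkIso (.of F) e).inv.hom h5
  rwa [← RingHom.comp_apply, ← RingHom.comp_apply, ← CommRingCat.hom_comp,
    Iso.hom_inv_id] at h6

private theorem GalB_core (h1 : St_GalA.{u})
    (hk : ∀ (Ω : Type u) [Field Ω] (Y : Scheme.{u}) (y : Y) (φ : Y.residueField y ⟶ .of Ω),
      kf (Spec.map φ ≫ Y.fromSpecResidueField y) = φ.hom.fieldRange)
    {C M : Type u} [CommRing C] [Field M] (θ : C →+* M) (hθ : Function.Injective θ)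
    (K : Subfield M) (hK1 : ∀ x, θ x ∈ K) (hK2 : ∀ y ∈ K, ∃ a b : C, θ b ≠ 0 ∧ y * θ b = θ a)
    (L : IntermediateField K M) [FiniteDimensional K L] [IsGalois K L] :
    ∃ (c : C) (E : Scheme.{u}) (π : E ⟶ Spec (.of (Localization.Away c)))
      (act : (L ≃ₐ[K] L) → (E ⟶ E)) (l : Spec (.of M) ⟶ E),
      Etale π ∧ IsFinite π ∧ GT π act ∧
      l ≫ π ≫ Spec.map (CommRingCat.ofHom (algebraMap C (Localization.Away c))) =
        Spec.map (CommRingCat.ofHom θ) ∧
      kf l = L.toSubfield ∧
      (∀ e : E, (π ≫ Spec.map (CommRingCat.ofHom (algebraMap C (Localization.Away c)))) e ∈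
        Set.range (Spec.map (CommRingCat.ofHom θ)) → e ∈ Set.range l) ∧
      ∀ e ∈ Set.range l, Function.Injective (E.residue e).hom := by
  have hC : IsDomain C := hθ.isDomain θ
  let i1 : Algebra C K := (θ.codRestrict K hK1).toAlgebra
  have i2 : FaithfulSMul C K := by
    rw [faithfulSMul_iff_algebraMap_injective]
    intro x y hxy
    exact hθ (congrArg (Subtype.val) hxy)
  have i3 : IsFractionRing C K := by
    refine IsFractionRing.of_field _ _ fun z => ?_
    obtain ⟨a, b, hb, hab⟩ := hK2 z z.2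
    refine ⟨a, b, ?_⟩
    have hb' : algebraMap C K b ≠ 0 := fun h0 => hb (congrArg Subtype.val h0)
    rw [eq_div_iff hb']
    exact Subtype.ext hab
  obtain ⟨c, hc, F, _, _, j, act, hE, hF, hj, hjC, hjL, hact, hactO, hΩ⟩ := h1 C K L
  have hLoc : IsDomain (Localization.Away c) := IsLocalization.isDomain_localization
    (powers_le_nonZeroDivisors_of_noZeroDivisors hc)
  obtain ⟨ι, hι⟩ : ∃ ι : F →+* M, ι = (algebraMap L M).comp j := ⟨_, rfl⟩
  have hιi : Function.Injective ι := by
    rw [hι]; exact (algebraMap L M).injective.comp hj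
  have hFd : IsDomain F := hj.isDomain j
  have hl1 : ∀ x : PrimeSpectrum M, (Spec.map (CommRingCat.ofHom ι) x).asIdeal = ⊥ := by
    intro x
    have hx : x.asIdeal = ⊥ := by
      rcases Ideal.eq_bot_or_top x.asIdeal with h | h
      · exact h
      · exact absurd h x.isPrime.ne_top
    have : (Spec.map (CommRingCat.ofHom ι) x).asIdeal = x.asIdeal.comap ι := rfl
    rw [this, hx, ← RingHom.ker_eq_comap_bot, (RingHom.injective_iff_ker_eq_bot _).1 hιi]
  have hl2 : ∀ e : Spec (.of F), e ∈ Set.range (Spec.map (CommRingCat.ofHom ι)) ↔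
      e.asIdeal = ⊥ := by
    intro e
    constructor
    · rintro ⟨x, rfl⟩
      exact hl1 x
    · intro he
      refine ⟨(⊥ : PrimeSpectrum M), ?_⟩
      exact PrimeSpectrum.ext ((hl1 _).trans he.symm)
  refine ⟨c, Spec (.of F), Spec.map (CommRingCat.ofHom (algebraMap (Localization.Away c) F)),
    fun σ => Spec.map (CommRingCat.ofHom (act σ)), Spec.map (CommRingCat.ofHom ι),
    ?_, ?_, ?_, ?_, ?_, ?_, ?_⟩
  · rw [HasRingHomProperty.Spec_iff (P := @Etale)]
    exact RingHom.etale_algebraMap.2 hE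
  · rw [IsFinite.SpecMap_iff]
    exact RingHom.finite_algebraMap.2 hF
  · refine ⟨fun δ => ?_, ?_, fun δ ε => ?_, fun Ω _ _ d => ?_, fun Ω _ _ s t hst => ?_⟩
    · rw [← Spec.map_comp, ← CommRingCat.ofHom_comp]
      congr 2
      ext x
      exact hactO δ x
    · rw [← Spec.map_id]
      congr 1
      ext x
      refine hj ?_
      exact (hact 1 x).trans rfl
    · rw [← Spec.map_comp, ← CommRingCat.ofHom_comp]
      congr 2
      ext x
      refine hj ?_
      rw [RingHom.comp_apply, hact, hact, hact]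
      rfl
    · obtain ⟨d, rfl⟩ := Spec.map_surjective d
      obtain ⟨s, hs⟩ := (hΩ Ω d.hom).1
      refine ⟨Spec.map (CommRingCat.ofHom s), ?_⟩
      rw [← Spec.map_comp, ← CommRingCat.ofHom_comp, hs]
      rfl
    · obtain ⟨s, rfl⟩ := Spec.map_surjective s
      obtain ⟨t, rfl⟩ := Spec.map_surjective t
      rw [← Spec.map_comp, ← Spec.map_comp, Spec.map_inj] at hst
      have h2 : s.hom.comp (algebraMap (Localization.Away c) F) =
        t.hom.comp (algebraMap (Localization.Away c) F) := congrArg (fun q => q.hom) hst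
      obtain ⟨σ, hσ, hσu⟩ := (hΩ Ω (s.hom.comp (algebraMap (Localization.Away c) F))).2
        s.hom t.hom rfl h2.symm
      refine ⟨σ, ?_, fun τ hτ => hσu τ ?_⟩
      · show Spec.map t = Spec.map s ≫ Spec.map (CommRingCat.ofHom (act σ))
        rw [← Spec.map_comp, Spec.map_inj]
        refine CommRingCat.hom_ext ?_
        exact hσ
      · have hτ' : Spec.map t = Spec.map s ≫ Spec.map (CommRingCat.ofHom (act τ)) := hτ
        rw [← Spec.map_comp, Spec.map_inj] at hτ'
        exact congrArg (fun q => q.hom) hτ'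
  · rw [← Spec.map_comp, ← Spec.map_comp]
    congr 1
    ext x
    show ι (algebraMap (Localization.Away c) F (algebraMap C _ x)) = θ x
    rw [hι]
    show algebraMap L M (j (algebraMap (Localization.Away c) F (algebraMap C _ x))) = θ x
    rw [hjC]
    rfl
  · ext x
    rw [GalB_kfSpec hk]
    constructor
    · rintro ⟨a, b, hb, hab⟩
      rw [← eq_div_iff hb] at hab
      rw [hab]
      refine div_mem ?_ ?_
      · rw [hι]; exact (j a).2
      · rw [hι]; exact (j b).2
    · intro hx
      obtain ⟨a, b, hb, hab⟩ := hjL ⟨x, hx⟩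
      refine ⟨a, b, fun h0 => hb (hιi (h0.trans (map_zero ι).symm)), ?_⟩
      rw [hι]
      exact congrArg Subtype.val hab
  · rintro e ⟨x, hx⟩
    rw [hl2]
    have hx0 : x.asIdeal = ⊥ := by
      rcases Ideal.eq_bot_or_top (K := M) x.asIdeal with h | h
      · exact h
      · exact absurd h x.isPrime.ne_top
    have h3 : (e.asIdeal.comap (algebraMap (Localization.Away c) F)).comap
        (algebraMap C (Localization.Away c)) = ⊥ := by
      have h4 : (e.asIdeal.comap (algebraMap (Localization.Away c) F)).comap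
        (algebraMap C (Localization.Away c)) = x.asIdeal.comap θ :=
        (congrArg PrimeSpectrum.asIdeal hx).symm
      rw [h4]
      exact (congrArg (Ideal.comap θ) hx0).trans
        ((RingHom.ker_eq_comap_bot θ).symm.trans ((RingHom.injective_iff_ker_eq_bot θ).1 hθ))
    have h5 : e.asIdeal.comap (algebraMap (Localization.Away c) F) = ⊥ :=
      (IsLocalization.map_under (Submonoid.powers c) (Localization.Away c)
        (e.asIdeal.comap (algebraMap (Localization.Away c) F))).symm.trans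
        ((congrArg (Ideal.map (algebraMap C (Localization.Away c))) h3).trans Ideal.map_bot)
    have h6 : Algebra.IsIntegral (Localization.Away c) F := inferInstance
    exact Ideal.eq_bot_of_comap_eq_bot h5
  · intro e he
    exact GalB_res e ((hl2 e).1 he)

theorem thm_GalB (h1 : St_GalA.{u}) (h2 : St_Kf.{u}) : St_GalB.{u} := by
  intro V _ η hη M _ a ha L _ _
  obtain ⟨hk, -, -, -, -⟩ := h2
  obtain ⟨y, φ, hφ⟩ : ∃ (y : V) (φ : V.residueField y ⟶ .of M),
      a = Spec.map φ ≫ V.fromSpecResidueField y := by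
    obtain ⟨⟨y, φ⟩, h⟩ := (Scheme.SpecToEquivOfField M V).symm.surjective a
    exact ⟨y, φ, h.symm⟩
  obtain rfl : y = η := by
    obtain ⟨x, hx⟩ := ha
    rw [hφ, Scheme.Hom.comp_apply, Scheme.fromSpecResidueField_apply] at hx
    exact hx
  obtain ⟨U, hxU, hU, hinj⟩ := V.exists_germ_injective y
  have hkf : kf a = φ.hom.fieldRange := by
    rw [hφ]; exact hk _ _ _ _
  obtain ⟨θ, hθe⟩ : ∃ θ : Γ(V, U) →+* M,
      θ = (V.presheaf.germ U y hxU ≫ V.residue y ≫ φ).hom := ⟨_, rfl⟩
  have hθx : ∀ x, θ x = φ.hom ((V.residue y).hom ((V.presheaf.germ U y hxU).hom x)) := by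
    intro x; rw [hθe]; rfl
  have hθ : Function.Injective θ := by
    intro x x' hxx
    rw [hθx, hθx] at hxx
    exact hinj (hη (φ.hom.injective hxx))
  have haθ : Spec.map (CommRingCat.ofHom θ) ≫ hU.fromSpec = a := by
    rw [hφ, hθe]
    show Spec.map (V.presheaf.germ U y hxU ≫ V.residue y ≫ φ) ≫ hU.fromSpec =
      Spec.map φ ≫ Spec.map (V.residue y) ≫ V.fromSpecStalk y
    rw [← hU.fromSpecStalk_eq_fromSpecStalk hxU, IsAffineOpen.fromSpecStalk]
    simp only [Spec.map_comp, Category.assoc]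
  have hK1 : ∀ x, θ x ∈ kf a := by
    intro x; rw [hkf, hθx]; exact ⟨_, rfl⟩
  have hK2 : ∀ z ∈ kf a, ∃ b d : Γ(V, U), θ d ≠ 0 ∧ z * θ d = θ b := by
    intro z hz
    rw [hkf] at hz
    obtain ⟨w, rfl⟩ := hz
    obtain ⟨s, rfl⟩ := V.residue_surjective y w
    let i1 := V.presheaf.algebra_section_stalk ⟨y, hxU⟩
    have i2 := hU.isLocalization_stalk ⟨y, hxU⟩
    obtain ⟨⟨b, d⟩, hbd⟩ := IsLocalization.surj (hU.primeIdealOf ⟨y, hxU⟩).asIdeal.primeCompl s
    refine ⟨b, d, ?_, ?_⟩
    · rw [hθx]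
      intro h0
      have h3 : IsUnit ((V.presheaf.germ U y hxU).hom d) :=
        IsLocalization.map_units (V.presheaf.stalk y) d
      exact (((h3.map (V.residue y).hom).map φ.hom).ne_zero) h0
    · rw [hθx, hθx]
      have h4 : s * (V.presheaf.germ U y hxU).hom d = (V.presheaf.germ U y hxU).hom b := hbd
      rw [← h4, map_mul, map_mul]
  obtain ⟨c, E, π, act, l, e1, e2, e3, e4, e5, e6, e7⟩ :=
    GalB_core h1 hk θ hθ (kf a) hK1 hK2 L
  obtain ⟨j0, hj0⟩ : ∃ j0 : Spec (.of (Localization.Away c)) ⟶ V,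
      j0 = Spec.map (CommRingCat.ofHom (algebraMap Γ(V, U) (Localization.Away c))) ≫
        hU.fromSpec := ⟨_, rfl⟩
  have hopen : IsOpenImmersion j0 := by
    rw [hj0]; infer_instance
  have hla : l ≫ π ≫ j0 = a := by
    rw [hj0, ← haθ, ← e4]
    simp only [Category.assoc]
  refine ⟨j0.opensRange, E, π ≫ j0.isoOpensRange.hom, act, l, ?_, inferInstance, inferInstance,
    GalB_iso π j0.isoOpensRange act e3, ?_, e5, ?_, e7⟩
  · obtain ⟨x, hx⟩ := ha
    rw [← hla] at hx
    exact ⟨(l ≫ π) x, hx⟩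
  · rw [Category.assoc, Scheme.Hom.isoOpensRange_hom_ι]
    exact hla
  · intro e he
    rw [Category.assoc, Scheme.Hom.isoOpensRange_hom_ι] at he
    refine e6 e ?_
    obtain ⟨x, hx⟩ := ha
    refine ⟨x, ?_⟩
    have h5 : hU.fromSpec ((Spec.map (CommRingCat.ofHom θ)) x) =
        hU.fromSpec ((π ≫ Spec.map (CommRingCat.ofHom
          (algebraMap Γ(V, U) (Localization.Away c)))) e) := by
      have h6 : (Spec.map (CommRingCat.ofHom θ) ≫ hU.fromSpec) x = y := by rw [haθ]; exact hx
      have h7 : ((π ≫ Spec.map (CommRingCat.ofHom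
          (algebraMap Γ(V, U) (Localization.Away c)))) ≫ hU.fromSpec) e = y := by
        rw [Category.assoc, ← hj0]; exact he
      exact h6.trans h7.symm
    exact hU.fromSpec.isOpenEmbedding.injective h5

end TPU
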