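import Pool.Agent.TPU.Kf2

/-!
helper58. TPU, module GalD: the torsor with a morphism to a given étale `D`.
-/

set_option autoImplicit false

universe u

open CategoryTheory Limits AlgebraicGeometry Opposite

namespace TPU

/-- A morphism from `Spec M` to `D` whose field is contained in the field of the point `l` of `E`
extends to the spectrum of the local ring, if this ring is a field. -/
private theorem GalD_loc {M : Type u} [Field M] {E D V : Scheme.{u}} (l : Spec (.of M) ⟶ E)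
    (hl : ∀ e ∈ Set.range l, Function.Injective (E.residue e).hom) (q : E ⟶ V) (d : D ⟶ V)
    (ξ : Spec (.of M) ⟶ D) (h : ξ ≫ d = l ≫ q) (hk : kf ξ ≤ kf l) :
    ∃ (e : E) (ψ : Spec (E.presheaf.stalk e) ⟶ D), (∀ e' ∈ Set.range l, e' = e) ∧
      ψ ≫ d = E.fromSpecStalk e ≫ q := by
  obtain ⟨e, he⟩ : ∃ e, e = (Scheme.SpecToEquivOfField M E l).1 := ⟨_, rfl⟩
  subst he
  set e := (Scheme.SpecToEquivOfField M E l).1 with he
  set φ : E.residueField e ⟶ .of M := (Scheme.SpecToEquivOfField M E l).2 with hφ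
  have hle : Spec.map φ ≫ E.fromSpecResidueField e = l :=
    (Scheme.SpecToEquivOfField M E).left_inv l
  have hrange : ∀ x, l x = e := by
    intro x
    rw [← hle, Scheme.Hom.comp_apply, Scheme.fromSpecResidueField_apply]
  have hinj : Function.Injective (E.residue e).hom :=
    hl e ⟨(IsLocalRing.closedPoint M : PrimeSpectrum M), hrange _⟩
  obtain ⟨b', hb'⟩ := Kf2_fac ξ (kf l) hk
  -- the isomorphism of the local ring with the field of `l`
  let g : E.presheaf.stalk e →+* kf l :=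
    RingHom.codRestrict (φ.hom.comp (E.residue e).hom) (kf l) (fun x => ⟨(E.residue e).hom x, rfl⟩)
  have hg1 : Function.Injective g := by
    intro x y hxy
    have h1 : φ.hom ((E.residue e).hom x) = φ.hom ((E.residue e).hom y) :=
      congrArg Subtype.val hxy
    exact hinj (φ.hom.injective h1)
  have hg2 : Function.Surjective g := by
    rintro ⟨y, z, hz⟩
    obtain ⟨x, hx⟩ := E.residue_surjective e z
    refine ⟨x, Subtype.ext ?_⟩
    show φ.hom ((E.residue e).hom x) = y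
    rw [← hz, ← hx]
  obtain ⟨gm, hgm⟩ : ∃ gm : E.presheaf.stalk e ⟶ CommRingCat.of (kf l), gm = CommRingCat.ofHom g :=
    ⟨_, rfl⟩
  have hiso : IsIso gm := by
    rw [hgm]
    exact (ConcreteCategory.isIso_iff_bijective _).2 ⟨hg1, hg2⟩
  have hfac : gm ≫ CommRingCat.ofHom (kf l).subtype = E.residue e ≫ φ := by
    rw [hgm]
    ext x
    rfl
  have hl2 : l = Spec.map (CommRingCat.ofHom (kf l).subtype) ≫ Spec.map gm ≫
      E.fromSpecStalk e := by
    rw [← Category.assoc, ← Spec.map_comp, hfac, Spec.map_comp, Category.assoc]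
    exact hle.symm
  refine ⟨e, Spec.map (inv gm) ≫ b', ?_, ?_⟩
  · rintro _ ⟨x, rfl⟩
    exact hrange x
  · have hepi := Kf2_epi (kf l)
    rw [← cancel_epi (Spec.map gm),
      ← cancel_epi (Spec.map (CommRingCat.ofHom (kf l).subtype))]
    have h1 : Spec.map gm ≫ Spec.map (inv gm) = 𝟙 _ := by
      rw [← Spec.map_comp, IsIso.inv_hom_id, Spec.map_id]
    have h2 : Spec.map (CommRingCat.ofHom (kf l).subtype) ≫ Spec.map gm ≫
        (Spec.map (inv gm) ≫ b') ≫ d = ξ ≫ d := by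
      rw [Category.assoc, reassoc_of% h1, ← Category.assoc, hb']
    rw [h2, h]
    conv_lhs => rw [hl2]
    simp only [Category.assoc]

theorem thm_GalD (h1 : St_GalB.{u}) (h2 : St_GTR.{u}) (_h3 : St_Kf.{u}) : St_GalD.{u} := by
  intro V _ η hη M _ a ha L _ _ D d _ ξ hξ hkf
  obtain ⟨G₀, E₀, π₀, act₀, l, hηG, hEt, hFin, hGT, hla, hkl, hover, hinj⟩ := h1 V η hη M a ha L
  have hk : kf ξ ≤ kf l := by
    rw [hkl]
    exact fun x hx => hkf x hx
  obtain ⟨e, ψ, he, hψ⟩ := GalD_loc l hinj (π₀ ≫ G₀.ι) d ξ (by rw [hξ, hla]) hk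
  have hN : IsLocallyNoetherian E₀ := LocallyOfFiniteType.isLocallyNoetherian (π₀ ≫ G₀.ι)
  obtain ⟨E₁, he1, m₁, -, hm₁⟩ := spread_out_of_isGermInjective' (π₀ ≫ G₀.ι) d ψ hψ
  -- the closed set which is removed
  have hcl : IsClosed (π₀ '' (E₁ : Set E₀)ᶜ) :=
    π₀.isClosedMap _ E₁.isOpen.isClosed_compl
  obtain ⟨G, hG⟩ : ∃ G : V.Opens, G = G₀.ι ''ᵁ ⟨(π₀ '' (E₁ : Set E₀)ᶜ)ᶜ, hcl.isOpen_compl⟩ :=
    ⟨_, rfl⟩
  have hmem : ∀ v, v ∈ G ↔ ∃ y, y ∉ π₀ '' (E₁ : Set E₀)ᶜ ∧ G₀.ι y = v := by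
    intro v
    rw [hG]
    rfl
  have hle : G ≤ G₀ := by
    intro v hv
    obtain ⟨y, -, rfl⟩ := (hmem v).1 hv
    exact y.2
  have hηG' : η ∈ G := by
    rw [hmem]
    refine ⟨⟨η, hηG⟩, ?_, rfl⟩
    rintro ⟨e', he', he''⟩
    have h4 : (π₀ ≫ G₀.ι) e' = η := by
      rw [Scheme.Hom.comp_apply, he'']
      rfl
    have h5 := he e' (hover e' h4)
    rw [h5] at he'
    exact he' he1
  obtain ⟨E', ι, π', act', -, hEt', hGT', hcomp, -⟩ :=
    h2 V G₀ G hle E₀ π₀ (L ≃ₐ[kf a] L) act₀ hGT hEt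
  have hran : Set.range ι ⊆ Set.range E₁.ι := by
    rintro _ ⟨x, rfl⟩
    rw [Scheme.Opens.range_ι]
    by_contra hcon
    obtain ⟨y, hy1, hy2⟩ := (hmem (G.ι (π' x))).1 (π' x).2
    have h6 : G₀.ι (π₀ (ι x)) = G₀.ι y := by
      rw [hy2]
      have := congrArg (fun k : E' ⟶ V => k x) hcomp
      simp only [Scheme.Hom.comp_apply] at this
      exact this.symm
    have h7 : π₀ (ι x) = y := G₀.ι.isOpenEmbedding.injective h6
    exact hy1 ⟨ι x, hcon, h7⟩
  refine ⟨G, E', π', act', IsOpenImmersion.lift E₁.ι ι hran ≫ m₁, hηG', hEt', hGT', ?_⟩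
  rw [Category.assoc, hm₁, IsOpenImmersion.lift_fac_assoc, hcomp]

end TPU
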