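import Pool.Agent.TPU.St1

/-!
# TPU, module Grp: the subgroup generated by the elements of `p`-power order (helper5)
-/

set_option autoImplicit false

universe u

namespace TPU

theorem thm_Grp : St_Grp.{u} := by
  intro p hp G _ _ I J hJ
  set S : Set G := {σ | σ ∈ I ∧ ∃ n : ℕ, σ ^ p ^ n = 1} with hS
  set N : Subgroup G := Subgroup.closure S with hN
  have hNI : N ≤ I := (Subgroup.closure_le I).2 fun σ h => h.1
  have hTI : N ⊔ J ≤ I := sup_le hNI hJ
  have hconj : ∀ t ∈ I, ∀ n ∈ N, t * n * t⁻¹ ∈ N := by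
    intro t ht n hn
    induction hn using Subgroup.closure_induction with
    | mem x hx =>
      refine Subgroup.subset_closure ⟨I.mul_mem (I.mul_mem ht hx.1) (I.inv_mem ht), ?_⟩
      obtain ⟨m, hm⟩ := hx.2
      exact ⟨m, by rw [conj_pow, hm, mul_one, mul_inv_cancel]⟩
    | one =>
      rw [mul_one, mul_inv_cancel]
      exact N.one_mem
    | mul x y _ _ hx hy =>
      have h1 : t * (x * y) * t⁻¹ = (t * x * t⁻¹) * (t * y * t⁻¹) := by group
      rw [h1]
      exact N.mul_mem hx hy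
    | inv x _ hx =>
      have h1 : t * x⁻¹ * t⁻¹ = (t * x * t⁻¹)⁻¹ := by group
      rw [h1]
      exact N.inv_mem hx
  refine ⟨N, N ⊔ J, le_sup_left, le_sup_right, hTI, ⟨fun n hn g => ?_⟩, ?_, ?_, ?_⟩
  · rw [Subgroup.mem_subgroupOf] at hn ⊢
    exact hconj g (hTI g.2) n hn
  · obtain ⟨P⟩ : Nonempty (Sylow p ↥(N ⊔ J)) := inferInstance
    have h1 : (P : Subgroup ↥(N ⊔ J)) ≤ N.subgroupOf (N ⊔ J) := by
      intro g hg
      rw [Subgroup.mem_subgroupOf]
      refine Subgroup.subset_closure ⟨hTI g.2, ?_⟩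
      obtain ⟨k, hk⟩ := P.isPGroup' ⟨g, hg⟩
      refine ⟨k, ?_⟩
      have h2 := congrArg (fun z : ↥(P : Subgroup ↥(N ⊔ J)) => ((z : ↥(N ⊔ J)) : G)) hk
      simpa using h2
    intro h
    exact P.not_dvd_index (h.trans (Subgroup.index_dvd_of_le h1))
  · intro σ hσ h
    exact Subgroup.subset_closure ⟨hσ, h⟩
  · intro H h
    exact (Subgroup.closure_le H).2 fun σ hσ => h σ hσ.1 hσ.2

end TPU
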