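import Pool.Agent.TPU.St3

/-!
# TPU, module Inj: injective sheaves of modules are flasque for subobjects of the final object
-/

set_option autoImplicit false

universe u

open CategoryTheory Limits AlgebraicGeometry Opposite

namespace TPU

section

variable {C : Type (u + 1)} [Category.{u} C] [HasBinaryProducts C] (J : GrothendieckTopology C)
  (U : C) (R : Type (u + 1)) [CommRing R]

private theorem Inj_eta_app (I : Sheaf J (ModuleCat.{u + 1} R)) (W : C)
    (y : I.obj.obj (op W)) :
    (((eta J U _).app I).hom.app (op W)).hom y =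
      (I.obj.map (prod.snd : U ⨯ W ⟶ W).op).hom y := by
  have h : ((eta J U (ModuleCat.{u + 1} R)).app I).hom.app (op W) =
      I.obj.map ((Over.forgetAdjStar U).counit.app W).op := by
    show 𝟙 _ ≫ _ = _
    rw [Category.id_comp]
    rfl
  rw [h, Over.forgetAdjStar_counit_app]
  rfl

private theorem Inj_mono {X Y : C} (f : X ⟶ Y) [Mono f] :
    Mono (((Functor.whiskeringRight Cᵒᵖ _ _).obj (ModuleCat.free.{u + 1} R)).map
      (uliftYoneda.{u + 1}.map f)) := by
  have : ∀ V : Cᵒᵖ, Mono ((((Functor.whiskeringRight Cᵒᵖ _ _).obj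
      (ModuleCat.free.{u + 1} R)).map (uliftYoneda.{u + 1}.map f)).app V) := by
    intro V
    rw [ModuleCat.mono_iff_injective]
    refine Finsupp.mapDomain_injective ?_
    rintro ⟨a⟩ ⟨b⟩ hab
    have h := congrArg ULift.down hab
    exact congrArg ULift.up ((cancel_mono f).1 h)
  exact NatTrans.mono_of_mono_app _

private theorem Inj_surj (I : Cᵒᵖ ⥤ ModuleCat.{u + 1} R) [Injective I] {X Y : C} (f : X ⟶ Y)
    [Mono f] (x : I.obj (op X)) : ∃ y : I.obj (op Y), (I.map f.op).hom y = x := by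
  let adj := (ModuleCat.adj.{u + 1} R).whiskerRight Cᵒᵖ
  have hm := Inj_mono (C := C) R f
  let α := (adj.homEquiv (uliftYoneda.{u + 1}.obj X) I).symm
    (uliftYonedaEquiv.{u + 1}.symm (x : (I ⋙ forget _).obj (op X)))
  let β := Injective.factorThru α (((Functor.whiskeringRight Cᵒᵖ _ _).obj
    (ModuleCat.free.{u + 1} R)).map (uliftYoneda.{u + 1}.map f))
  have hβ : ((Functor.whiskeringRight Cᵒᵖ _ _).obj
    (ModuleCat.free.{u + 1} R)).map (uliftYoneda.{u + 1}.map f) ≫ β = α :=
    Injective.comp_factorThru _ _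
  refine ⟨uliftYonedaEquiv.{u + 1} (adj.homEquiv _ _ β), ?_⟩
  have h1 := uliftYonedaEquiv_naturality.{u + 1} (X := op Y) (Y := op X)
    (adj.homEquiv (uliftYoneda.{u + 1}.obj Y) I β) f.op
  have h2 : uliftYoneda.{u + 1}.map f ≫ adj.homEquiv (uliftYoneda.{u + 1}.obj Y) I β =
      uliftYonedaEquiv.{u + 1}.symm (x : (I ⋙ forget _).obj (op X)) := by
    rw [← adj.homEquiv_naturality_left, hβ]
    exact Equiv.apply_symm_apply _ _
  refine Eq.trans h1 ?_
  rw [show (uliftYoneda.{u + 1}.map f.op.unop ≫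
    adj.homEquiv (uliftYoneda.{u + 1}.obj Y) I β) = _ from h2]
  exact Equiv.apply_symm_apply _ _

end

theorem thm_Inj : St_Inj.{u} := by
  intro C _ _ J U R _ hU I _
  have hI : Injective I.obj := Injective.injective_of_adjoint
    (sheafificationAdjunction J (ModuleCat.{u + 1} R)) I
  have h : ∀ W : Cᵒᵖ, Epi (((sheafToPresheaf J (ModuleCat.{u + 1} R)).map
      ((eta J U _).app I)).app W) := by
    rintro ⟨W⟩
    rw [ModuleCat.epi_iff_surjective]
    intro x
    have := hU W
    obtain ⟨y, hy⟩ := Inj_surj R I.obj (prod.snd : U ⨯ W ⟶ W) x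
    exact ⟨y, (Inj_eta_app J U R I W y).trans hy⟩
  exact (sheafToPresheaf J (ModuleCat.{u + 1} R)).epi_of_epi_map (NatTrans.epi_of_epi_app _)

end TPU
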