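import Pool.Agent.TPU.St2

/-!
# TPU, module Kf: the residue subfield of a field valued point
-/

set_option autoImplicit false

universe u

open CategoryTheory Limits AlgebraicGeometry Opposite

namespace TPU

private theorem Kf_one {Ω : Type u} [Field Ω] {Y : Scheme.{u}} (y : Y)
    (φ : Y.residueField y ⟶ .of Ω) :
    kf (Spec.map φ ≫ Y.fromSpecResidueField y) = φ.hom.fieldRange := by
  have h := (Scheme.SpecToEquivOfField Ω Y).apply_symm_apply ⟨y, φ⟩
  exact congrArg (fun s : Σ x, Y.residueField x ⟶ .of Ω => s.2.hom.fieldRange) h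

private theorem Kf_ex {Ω : Type u} [Field Ω] {Y : Scheme.{u}} (a : Spec (.of Ω) ⟶ Y) :
    ∃ (y : Y) (φ : Y.residueField y ⟶ .of Ω), a = Spec.map φ ≫ Y.fromSpecResidueField y := by
  obtain ⟨⟨y, φ⟩, h⟩ := (Scheme.SpecToEquivOfField Ω Y).symm.surjective a
  exact ⟨y, φ, h.symm⟩

private theorem Kf_comp {Ω : Type u} [Field Ω] {Y Y' : Scheme.{u}} (y : Y)
    (φ : Y.residueField y ⟶ .of Ω) (g : Y ⟶ Y') :
    kf ((Spec.map φ ≫ Y.fromSpecResidueField y) ≫ g) =
      (φ.hom.comp (g.residueFieldMap y).hom).fieldRange := by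
  have h : (Spec.map φ ≫ Y.fromSpecResidueField y) ≫ g =
      Spec.map (g.residueFieldMap y ≫ φ) ≫ Y'.fromSpecResidueField (g y) := by
    rw [Spec.map_comp, Category.assoc, Category.assoc,
      Scheme.Hom.SpecMap_residueFieldMap_fromSpecResidueField]
  rw [h, Kf_one]
  rfl

private theorem Kf_sep {K L Ω : Type u} [Field K] [Field L] [Field Ω] (i : K →+* L)
    (φ : L →+* Ω) (h : letI := i.toAlgebra; Algebra.IsSeparable K L) :
    ∀ x ∈ φ.fieldRange, IsSeparable (φ.comp i).fieldRange x := by
  rintro x ⟨z, rfl⟩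
  let _ : Algebra K L := i.toAlgebra
  have hz : (minpoly K z).Separable := Algebra.IsSeparable.isSeparable K z
  have hs : ((minpoly K z).map (φ.comp i).rangeRestrictField).Separable := hz.map
  have h0 : Polynomial.aeval (φ z) ((minpoly K z).map (φ.comp i).rangeRestrictField) = 0 := by
    rw [Polynomial.aeval_def, Polynomial.eval₂_map]
    have h1 : (algebraMap (φ.comp i).fieldRange Ω).comp (φ.comp i).rangeRestrictField =
        φ.comp i := rfl
    rw [h1, ← Polynomial.hom_eval₂]
    have h2 : Polynomial.eval₂ i z (minpoly K z) = 0 := minpoly.aeval K z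
    rw [h2, map_zero]
  exact hs.of_dvd (minpoly.dvd _ _ h0)

private theorem Kf_fin {K L Ω : Type u} [Field K] [Field L] [Field Ω] (i : K →+* L)
    (φ : L →+* Ω) (h : letI := i.toAlgebra; Module.Finite K L) :
    ∃ t : Finset Ω, φ.fieldRange = (φ.comp i).fieldRange ⊔ Subfield.closure t := by
  classical
  let _ : Algebra K L := i.toAlgebra
  obtain ⟨s, hs⟩ := h.fg_top
  refine ⟨s.image φ, le_antisymm ?_ ?_⟩
  · rintro x ⟨z, rfl⟩
    have hz : z ∈ Submodule.span K (s : Set L) := by
      rw [hs]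
      trivial
    induction hz using Submodule.span_induction with
    | mem y hy =>
      refine (le_sup_right : _ ≤ (φ.comp i).fieldRange ⊔ Subfield.closure _) ?_
      exact Subfield.subset_closure (by simpa using ⟨y, hy, rfl⟩)
    | zero => rw [map_zero]; exact zero_mem _
    | add a b _ _ ha hb => rw [map_add]; exact add_mem ha hb
    | smul c a _ ha =>
      have h1 : φ (c • a) = φ (i c) * φ a := by
        rw [← map_mul]
        rfl
      rw [h1]
      refine mul_mem ?_ ha
      exact (le_sup_left : (φ.comp i).fieldRange ≤ _) ⟨c, rfl⟩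
  · refine sup_le ?_ ?_
    · rintro x ⟨z, rfl⟩
      exact ⟨i z, rfl⟩
    · rw [Subfield.closure_le]
      intro x hx
      simp only [Finset.coe_image, Set.mem_image, Finset.mem_coe] at hx
      obtain ⟨z, _, rfl⟩ := hx
      exact ⟨z, rfl⟩

private theorem Kf_modfin {X Y : Scheme.{u}} (f : X ⟶ Y) [Etale f] (x : X) :
    letI : Algebra (Y.residueField (f x)) (X.residueField x) :=
      (f.residueFieldMap x).hom.toAlgebra
    Module.Finite (Y.residueField (f x)) (X.residueField x) := by
  algebraize [(f.stalkMap x).hom]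
  have : IsLocalHom (algebraMap (Y.presheaf.stalk (f x)) (X.presheaf.stalk x)) :=
    inferInstanceAs <| IsLocalHom (f.stalkMap x).hom
  have : Algebra.EssFiniteType (Y.presheaf.stalk (f x)) (X.presheaf.stalk x) := by
    rw [← RingHom.essFiniteType_algebraMap, RingHom.algebraMap_toAlgebra]
    exact LocallyOfFiniteType.stalkMap f x
  have : Algebra.FormallyUnramified (Y.presheaf.stalk (f x)) (X.presheaf.stalk x) := by
    rw [← RingHom.formallyUnramified_algebraMap, RingHom.algebraMap_toAlgebra]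
    exact FormallyUnramified.stalkMap f x
  have h : (algebraMap (IsLocalRing.ResidueField <| Y.presheaf.stalk (f x))
      (IsLocalRing.ResidueField <| X.presheaf.stalk x)).Finite :=
    RingHom.finite_algebraMap.2 inferInstance
  have he : algebraMap (IsLocalRing.ResidueField <| Y.presheaf.stalk (f x))
      (IsLocalRing.ResidueField <| X.presheaf.stalk x) = (f.residueFieldMap x).hom := by
    refine RingHom.ext fun x ↦ ?_
    obtain ⟨x, rfl⟩ := IsLocalRing.residue_surjective x
    rfl
  rw [he] at h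
  exact h

theorem thm_Kf : St_Kf.{u} := by
  refine ⟨fun Ω _ Y y φ => Kf_one y φ, ?_, ?_, ?_, ?_⟩
  · intro Ω _ Y Y' a g
    obtain ⟨y, φ, rfl⟩ := Kf_ex a
    rw [Kf_comp, Kf_one]
    rintro x ⟨z, rfl⟩
    exact ⟨_, rfl⟩
  · intro Ω Ω' _ _ i Y a
    obtain ⟨y, φ, rfl⟩ := Kf_ex a
    rw [Kf_one, ← Category.assoc, ← Spec.map_comp, Kf_one]
    ext x
    simp [RingHom.mem_fieldRange, Subfield.mem_map]
  · intro Ω _ Y a σ
    obtain ⟨y, φ, rfl⟩ := Kf_ex a
    rw [Kf_one, ← Category.assoc, ← Spec.map_comp]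
    constructor
    · intro h
      have h1 : (⟨y, φ ≫ CommRingCat.ofHom σ⟩ : Σ x, Y.residueField x ⟶ .of Ω) = ⟨y, φ⟩ :=
        (Scheme.SpecToEquivOfField Ω Y).symm.injective h
      have h2 : φ ≫ CommRingCat.ofHom σ = φ := eq_of_heq (Sigma.mk.inj h1).2
      rintro x ⟨z, rfl⟩
      exact ConcreteCategory.congr_hom h2 z
    · intro h
      have h2 : φ ≫ CommRingCat.ofHom σ = φ := by
        ext z
        exact h _ ⟨z, rfl⟩
      rw [h2]
  · intro Ω _ Y Y' a g _
    obtain ⟨y, φ, rfl⟩ := Kf_ex a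
    rw [Kf_comp, Kf_one]
    refine ⟨?_, Kf_fin _ _ (Kf_modfin g y)⟩
    have hs : letI : Algebra (Y'.residueField (g.base y)) (Y.residueField y) :=
      (g.residueFieldMap y).hom.toAlgebra
      Algebra.IsSeparable (Y'.residueField (g.base y)) (Y.residueField y) := inferInstance
    exact Kf_sep _ _ hs

end TPU
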