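import Pool.Agent.TPU.St4

/-!
helper17: `kf` of a point of a fibre product.
-/

set_option autoImplicit false

universe u

open CategoryTheory Limits AlgebraicGeometry Opposite

namespace TPU

/-- a morphism factors through the spectrum of any field which contains its field -/
theorem Kf2_fac {M : Type u} [Field M] {Y : Scheme.{u}} (b : Spec (.of M) ⟶ Y) (k : Subfield M)
    (h : kf b ≤ k) :
    ∃ b' : Spec (.of k) ⟶ Y, Spec.map (CommRingCat.ofHom k.subtype) ≫ b' = b := by
  have hh : ∀ x, (Scheme.SpecToEquivOfField M Y b).2.hom x ∈ k := fun x => h ⟨x, rfl⟩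
  let ψ : Y.residueField (Scheme.SpecToEquivOfField M Y b).1 →+* k :=
    RingHom.codRestrict (Scheme.SpecToEquivOfField M Y b).2.hom k hh
  refine ⟨Spec.map (CommRingCat.ofHom ψ) ≫
    Y.fromSpecResidueField (Scheme.SpecToEquivOfField M Y b).1, ?_⟩
  rw [← Category.assoc, ← Spec.map_comp]
  have h1 : CommRingCat.ofHom ψ ≫ CommRingCat.ofHom k.subtype =
      (Scheme.SpecToEquivOfField M Y b).2 := by
    ext x
    rfl
  rw [h1]
  exact (Scheme.SpecToEquivOfField M Y).left_inv b

theorem Kf2_le {M : Type u} [Field M] {Y : Scheme.{u}} (k : Subfield M)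
    (b' : Spec (.of k) ⟶ Y) : kf (Spec.map (CommRingCat.ofHom k.subtype) ≫ b') ≤ k := by
  have h0 : Spec.map (Scheme.SpecToEquivOfField k Y b').2 ≫
      Y.fromSpecResidueField (Scheme.SpecToEquivOfField k Y b').1 = b' :=
    (Scheme.SpecToEquivOfField k Y).left_inv b'
  have h1 : Spec.map (CommRingCat.ofHom k.subtype) ≫ b' =
      (Scheme.SpecToEquivOfField M Y).symm ⟨(Scheme.SpecToEquivOfField k Y b').1,
        (Scheme.SpecToEquivOfField k Y b').2 ≫ CommRingCat.ofHom k.subtype⟩ := by
    show _ = Spec.map ((Scheme.SpecToEquivOfField k Y b').2 ≫ CommRingCat.ofHom k.subtype) ≫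
      Y.fromSpecResidueField (Scheme.SpecToEquivOfField k Y b').1
    rw [Spec.map_comp, Category.assoc, h0]
  unfold kf
  rw [h1, Equiv.apply_symm_apply]
  rintro x ⟨y, rfl⟩
  exact ((Scheme.SpecToEquivOfField k Y b').2.hom y).2

theorem Kf2_epi {M : Type u} [Field M] (k : Subfield M) :
    Epi (Spec.map (CommRingCat.ofHom k.subtype)) := by
  have : Flat (Spec.map (CommRingCat.ofHom k.subtype)) := by
    rw [Flat.SpecMap_iff]
    show RingHom.Flat (algebraMap k M)
    rw [RingHom.flat_algebraMap_iff]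
    infer_instance
  have : Surjective (Spec.map (CommRingCat.ofHom k.subtype)) := by
    refine ⟨fun y => ⟨IsLocalRing.closedPoint M, ?_⟩⟩
    exact Subsingleton.elim (α := PrimeSpectrum k) _ _
  exact Flat.epi_of_flat_of_surjective _

theorem thm_Kf2 : St_Kf2.{u} := by
  intro Y Y' T s s' M _ a
  obtain ⟨b1, h1⟩ := Kf2_fac (a ≫ pullback.fst s s')
    (kf (a ≫ pullback.fst s s') ⊔ kf (a ≫ pullback.snd s s')) le_sup_left
  obtain ⟨b2, h2⟩ := Kf2_fac (a ≫ pullback.snd s s')
    (kf (a ≫ pullback.fst s s') ⊔ kf (a ≫ pullback.snd s s')) le_sup_right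
  have := Kf2_epi (kf (a ≫ pullback.fst s s') ⊔ kf (a ≫ pullback.snd s s'))
  have h3 : b1 ≫ s = b2 ≫ s' := by
    rw [← cancel_epi (Spec.map (CommRingCat.ofHom
      (kf (a ≫ pullback.fst s s') ⊔ kf (a ≫ pullback.snd s s')).subtype)),
      ← Category.assoc, ← Category.assoc, h1, h2, Category.assoc, Category.assoc,
      pullback.condition]
  have h4 : a = Spec.map (CommRingCat.ofHom
      (kf (a ≫ pullback.fst s s') ⊔ kf (a ≫ pullback.snd s s')).subtype) ≫
        pullback.lift b1 b2 h3 := by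
    apply pullback.hom_ext
    · rw [Category.assoc, pullback.lift_fst, h1]
    · rw [Category.assoc, pullback.lift_snd, h2]
  have h5 := Kf2_le (kf (a ≫ pullback.fst s s') ⊔ kf (a ≫ pullback.snd s s'))
    (pullback.lift b1 b2 h3)
  rwa [← h4] at h5

end TPU
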