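import Pool.Agent.TPU.St2
import Pool.Agent.TPU.St3

/-!
# TPU [LamS] : locally constant functions are a sheaf for the tame topology (helper89)
-/

set_option autoImplicit false

universe u

open CategoryTheory Limits AlgebraicGeometry Opposite

namespace TPU

set_option backward.isDefEq.respectTransparency.types false in
private theorem LamS_surj {X : Scheme.{u}} (W : X.Etale) (R : Sieve W)
    (hR : R ∈ X.smallEtaleTopology W) (w : W.left) :
    ∃ (V : X.Etale) (g : V ⟶ W) (v : V.left), R g ∧ g.left v = w := by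
  have h1 : R ∈ (X.smallPretopology @Etale @Etale).toGrothendieck W := by
    rw [← Scheme.smallGrothendieckTopology_eq_toGrothendieck_smallPretopology X le_rfl]
    exact hR
  obtain ⟨Y, f, y, hf, -, hy⟩ := (Scheme.mem_toGrothendieck_smallPretopology W R).1 h1 w
  exact ⟨Y, f, y, hf, hy⟩

set_option backward.isDefEq.respectTransparency.types false in
private theorem LamS_pb {X : Scheme.{u}} {W V V' : X.Etale} (g : V ⟶ W) (g' : V' ⟶ W)
    (v : V.left) (v' : V'.left) (h : g.left v = g'.left v') :
    ∃ (Z : X.Etale) (a : Z ⟶ V) (b : Z ⟶ V') (z : Z.left), a ≫ g = b ≫ g' ∧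
      a.left z = v ∧ b.left z = v' := by
  obtain ⟨z, hz1, hz2⟩ := Scheme.Pullback.exists_preimage_pullback v v' h
  let Z : X.Etale := Scheme.Etale.mk (pullback.fst g.left g'.left ≫ V.hom)
  have e1 : g.left ≫ W.hom = V.hom := MorphismProperty.Over.w g
  have e2 : g'.left ≫ W.hom = V'.hom := MorphismProperty.Over.w g'
  let a : Z ⟶ V := MorphismProperty.Over.homMk (pullback.fst g.left g'.left) rfl
  let b : Z ⟶ V' := MorphismProperty.Over.homMk (pullback.snd g.left g'.left) (by
    change pullback.snd g.left g'.left ≫ V'.hom = pullback.fst g.left g'.left ≫ V.hom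
    rw [← e1, ← e2, pullback.condition_assoc])
  refine ⟨Z, a, b, z, ?_, hz1, hz2⟩
  exact MorphismProperty.Over.Hom.ext pullback.condition

set_option backward.isDefEq.respectTransparency.types false in
/-- **LamS**. -/
theorem thm_LamS (h1 : St_Sur.{u}) : St_LamS.{u} := by
  intro p r X S f
  rw [Presheaf.isSheaf_iff_isSheaf_forget (tame f p) (LamP X p r)
    (forget (ModuleCat.{u + 1} (Rg.{u} p r))), isSheaf_iff_isSheaf_of_type]
  intro W R hR
  have hR' : R ∈ X.smallEtaleTopology W := h1 p X S f W hR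
  intro x hx
  choose V g v hg hv using LamS_surj W R hR'
  -- the sections as locally constant functions
  let y : ∀ (Y : X.Etale) (k : Y ⟶ W), R k → LocallyConstant Y.left (ZMod (p ^ r)) :=
    fun Y k hk => (x k hk).down
  have hy : ∀ (Y Y' Z : X.Etale) (k : Y ⟶ W) (k' : Y' ⟶ W) (hk : R k) (hk' : R k')
      (a : Z ⟶ Y) (b : Z ⟶ Y') (z : Z.left), a ≫ k = b ≫ k' →
      y Y k hk (a.left z) = y Y' k' hk' (b.left z) := by
    intro Y Y' Z k k' hk hk' a b z hab
    have h2 := hx a b hk hk' hab
    have h3 := congrArg (fun t : ULift.{u + 1} (LocallyConstant Z.left (ZMod (p ^ r))) =>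
      t.down z) h2
    exact h3
  have hkey : ∀ (Y : X.Etale) (k : Y ⟶ W) (hk : R k) (z : Y.left),
      y Y k hk z = y (V (k.left z)) (g (k.left z)) (hg (k.left z)) (v (k.left z)) := by
    intro Y k hk z
    obtain ⟨Z, a, b, t, hab, ha, hb⟩ := LamS_pb k (g (k.left z)) z (v (k.left z))
      (hv (k.left z)).symm
    have h4 := hy _ _ Z k (g (k.left z)) hk (hg (k.left z)) a b t hab
    rw [ha, hb] at h4
    exact h4
  obtain ⟨A, hA⟩ : ∃ A : W.left → ZMod (p ^ r), ∀ w, A w = y (V w) (g w) (hg w) (v w) :=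
    ⟨_, fun _ => rfl⟩
  have hkey' : ∀ (Y : X.Etale) (k : Y ⟶ W) (hk : R k) (z : Y.left),
      y Y k hk z = A (k.left z) := by
    intro Y k hk z
    rw [hkey, hA]
  have hlc : IsLocallyConstant A := by
    rw [IsLocallyConstant.iff_exists_open]
    intro w
    obtain ⟨U, hU, hU1, hU2⟩ := (y (V w) (g w) (hg w)).isLocallyConstant.exists_open (v w)
    have hop : IsOpenMap (g w).left := (g w).left.isOpenMap
    refine ⟨(g w).left '' U, hop U hU, ⟨v w, hU1, hv w⟩, ?_⟩
    rintro _ ⟨z, hz, rfl⟩
    have h10 : y (V w) (g w) (hg w) z = y (V w) (g w) (hg w) (v w) := hU2 z hz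
    have h11 := hkey' (V w) (g w) (hg w) z
    exact h11.symm.trans (h10.trans (hA w).symm)
  refine ⟨(ULift.up (⟨A, hlc⟩ : LocallyConstant W.left (ZMod (p ^ r))) :
    ULift.{u + 1} (LocallyConstant W.left (ZMod (p ^ r)))), ?_, ?_⟩
  · intro Y k hk
    have h5 : (⟨A, hlc⟩ : LocallyConstant W.left (ZMod (p ^ r))).comap
        ⟨k.left, k.left.continuous⟩ = y Y k hk := by
      ext z
      exact (hkey' Y k hk z).symm
    exact congrArg (fun t : LocallyConstant Y.left (ZMod (p ^ r)) =>
      (ULift.up t : ULift.{u + 1} (LocallyConstant Y.left (ZMod (p ^ r))))) h5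
  · intro t ht
    have h6 : (t : ULift.{u + 1} (LocallyConstant W.left (ZMod (p ^ r)))).down =
        (⟨A, hlc⟩ : LocallyConstant W.left (ZMod (p ^ r))) := by
      ext w
      have h7 := ht (g w) (hg w)
      have h8 := congrArg (fun t : ULift.{u + 1} (LocallyConstant (V w).left (ZMod (p ^ r))) =>
        t.down (v w)) h7
      have h9 : (t : ULift.{u + 1} (LocallyConstant W.left (ZMod (p ^ r)))).down
          ((g w).left (v w)) = y (V w) (g w) (hg w) (v w) := h8
      rw [hv] at h9
      rw [h9]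
      exact (hA w).symm
    exact congrArg (fun t : LocallyConstant W.left (ZMod (p ^ r)) =>
      (ULift.up t : ULift.{u + 1} (LocallyConstant W.left (ZMod (p ^ r))))) h6

end TPU
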