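import Pool.Agent.TPU.St4

/-!
# TPU, module LamT: for the sheaf of locally constant functions `F ⟶ T F` is an isomorphism
-/

set_option autoImplicit false

universe u

open CategoryTheory Limits AlgebraicGeometry Opposite

namespace TPU

private theorem LamT_top {α : Type*} [TopologicalSpace α] [QuasiSober α] {B N : Set α}
    (hB : IsOpen B) (hN : IsOpen N) [TopologicalSpace.NoetherianSpace N] {z : α} (hzN : z ∈ N)
    (hz : z ∈ closure B) : ∃ b ∈ B, b ⤳ z := by
  have hn : TopologicalSpace.NoetherianSpace (B ∩ N : Set α) :=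
    TopologicalSpace.NoetherianSpace.inter_of_right B N
  obtain ⟨S, hSf, -, hSi, hSU⟩ :=
    TopologicalSpace.NoetherianSpace.exists_finite_set_isClosed_irreducible isClosed_univ
      (α := (B ∩ N : Set α))
  have h1 : z ∈ closure (B ∩ N) := by
    rw [mem_closure_iff] at hz ⊢
    intro o ho hzo
    obtain ⟨y, hy1, hy2⟩ := hz (o ∩ N) (ho.inter hN) ⟨hzo, hzN⟩
    exact ⟨y, hy1.1, hy2, hy1.2⟩
  have h2 : B ∩ N = ⋃ t ∈ S, (Subtype.val '' t : Set α) := by
    ext y
    simp only [Set.mem_iUnion, Set.mem_image, exists_prop]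
    constructor
    · intro hy
      have : (⟨y, hy⟩ : (B ∩ N : Set α)) ∈ ⋃₀ S := by rw [← hSU]; trivial
      obtain ⟨t, ht, hyt⟩ := this
      exact ⟨t, ht, ⟨y, hy⟩, hyt, rfl⟩
    · rintro ⟨t, ht, y', hy', rfl⟩
      exact y'.2
  rw [h2, hSf.closure_biUnion] at h1
  simp only [Set.mem_iUnion] at h1
  obtain ⟨t, ht, hzt⟩ := h1
  have hi : IsIrreducible (Subtype.val '' t : Set α) :=
    (hSi t ht).image _ continuous_subtype_val.continuousOn
  have hg := hi.isGenericPoint_genericPoint_closure
  refine ⟨hi.genericPoint, ?_, hg.specializes hzt⟩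
  rw [hg.mem_open_set_iff hB]
  obtain ⟨y, hy⟩ := (hSi t ht).nonempty
  exact ⟨y.1, subset_closure ⟨y, hy, rfl⟩, y.2.1⟩

private theorem LamT_lc {α β M : Type*} [TopologicalSpace α] [TopologicalSpace β] (Z : Set α)
    (η : α → α) (h1 : ∀ z ∈ Z, η z ⤳ z) (h2 : ∀ z ∈ Z, ∀ x, x ⤳ z → x = z ∨ x = η z)
    (h3 : ∀ z ∈ Z, η z ∉ Z) (h4 : ∀ (B : Set α) (z : α), IsOpen B → z ∈ closure B → ∃ b ∈ B, b ⤳ z)
    (i : β → α) (hi : Topology.IsOpenEmbedding i) (hr : Set.range i = Zᶜ) :
    Function.Bijective (fun c : LocallyConstant α M => c.comap ⟨i, hi.continuous⟩) := by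
  have hsp : ∀ {γ : Type _} [TopologicalSpace γ] (c : LocallyConstant γ M) {x y : γ}, x ⤳ y →
      c x = c y := by
    intro γ _ c x y hxy
    exact hxy.mem_open (c.isLocallyConstant.isOpen_fiber (c y)) rfl
  have hsp' : ∀ (c : LocallyConstant β M) {x y : β}, x ⤳ y → c x = c y := by
    intro c x y hxy
    exact hxy.mem_open (c.isLocallyConstant.isOpen_fiber (c y)) rfl
  constructor
  · intro c1 c2 h
    have h' : ∀ b, c1 (i b) = c2 (i b) := fun b => by
      have := LocallyConstant.congr_fun h b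
      simpa using this
    ext w
    by_cases hw : w ∈ Z
    · have h5 : η w ∈ Set.range i := by rw [hr]; exact h3 w hw
      obtain ⟨b, hb⟩ := h5
      rw [← hsp c1 (h1 w hw), ← hsp c2 (h1 w hw), ← hb]
      exact h' b
    · have h5 : w ∈ Set.range i := by rw [hr]; exact hw
      obtain ⟨b, rfl⟩ := h5
      exact h' b
  · intro c
    classical
    have hg : ∀ w : α, ∃ b : β, i b = (if w ∈ Z then η w else w) := by
      intro w
      have : (if w ∈ Z then η w else w) ∈ Set.range i := by
        rw [hr]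
        split_ifs with hw
        · exact h3 w hw
        · exact hw
      exact this
    choose r hr' using hg
    have hspec : ∀ w, i (r w) ⤳ w := by
      intro w
      rw [hr']
      split_ifs with hw
      · exact h1 w hw
      · exact specializes_rfl
    have hlc : IsLocallyConstant (fun w => c (r w)) := by
      rw [IsLocallyConstant.iff_exists_open]
      intro w
      have hBo : IsOpen (i '' {b | c b ≠ c (r w)}) :=
        hi.isOpenMap _ (c.isLocallyConstant.isClosed_fiber (c (r w))).isOpen_compl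
      refine ⟨(closure (i '' {b | c b ≠ c (r w)}))ᶜ, isClosed_closure.isOpen_compl, ?_, ?_⟩
      · intro hcl
        obtain ⟨_, ⟨b, hb, rfl⟩, hbw⟩ := h4 _ _ hBo hcl
        apply hb
        have key : i b ⤳ i (r w) := by
          rw [hr']
          split_ifs with hw
          · rcases h2 w hw _ hbw with h | h
            · exfalso
              have : i b ∈ Set.range i := ⟨b, rfl⟩
              rw [hr, h] at this
              exact this hw
            · rw [h]
          · exact hbw
        exact hsp' c (hi.isInducing.specializes_iff.1 key)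
      · intro w' hw'
        by_contra hne
        have h6 : i (r w') ∈ (closure (i '' {b | c b ≠ c (r w)}))ᶜ :=
          (hspec w').mem_open isClosed_closure.isOpen_compl hw'
        exact h6 (subset_closure ⟨r w', hne, rfl⟩)
    refine ⟨⟨_, hlc⟩, ?_⟩
    ext b
    show c (r (i b)) = c b
    have h7 : i b ∉ Z := by
      have : i b ∈ Set.range i := ⟨b, rfl⟩
      rw [hr] at this
      exact this
    have h8 : i (r (i b)) = i b := by
      rw [hr', if_neg h7]
    rw [hi.injective h8]

private theorem LamT_bij (h1 : St_EtDvr.{u}) (h2 : St_Gen.{u}) (h3 : St_UW.{u})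
    (X : Scheme.{u}) [IsLocallyNoetherian X] (Z : Set X) (hZ : IsClosed Z)
    (hd : ∀ z ∈ Z, IsDvr (X.presheaf.stalk z)) (W : X.Etale) (M : Type*)
    (hc : Continuous (prod.snd : Uo hZ ⨯ W ⟶ W).left) :
    Function.Bijective (fun c : LocallyConstant W.left M =>
      c.comap ⟨(prod.snd : Uo hZ ⨯ W ⟶ W).left, hc⟩) := by
  obtain ⟨ho, -, hr, -⟩ := h3 X Z hZ W
  have het : Etale W.hom := inferInstance
  have hln : IsLocallyNoetherian W.left :=
    @LocallyOfFiniteType.isLocallyNoetherian W.left X W.hom inferInstance inferInstance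
  have hdv : ∀ w : W.left, W.hom w ∈ Z → IsDvr (W.left.presheaf.stalk w) := fun w hw =>
    h1 _ _ W.hom w (hd _ hw)
  have hgen : ∀ w : W.left, ∃ η : W.left, W.hom w ∈ Z → (η ⤳ w ∧ (∀ x, x ⤳ w → x = w ∨ x = η) ∧
      W.hom η ∉ Z) := by
    intro w
    by_cases hw : W.hom w ∈ Z
    · obtain ⟨η, h, hne, hx, -, -, -, hnd⟩ := h2 W.left w (hdv w hw)
      exact ⟨η, fun _ => ⟨h, hx, fun hη => hnd (hdv η hη)⟩⟩
    · exact ⟨w, fun h => absurd h hw⟩
  choose η hη using hgen
  refine LamT_lc {w | W.hom w ∈ Z} η (fun z hz => (hη z hz).1) (fun z hz => (hη z hz).2.1)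
    (fun z hz => (hη z hz).2.2) ?_ (prod.snd : Uo hZ ⨯ W ⟶ W).left ho.base_open ?_
  · intro B z hB hz
    obtain ⟨_, ⟨N, hN, rfl⟩, hzN, -⟩ := W.left.isBasis_affineOpens.exists_subset_of_mem_open
      (Set.mem_univ z) isOpen_univ
    have : IsNoetherianRing Γ(W.left, N) := IsLocallyNoetherian.component_noetherian ⟨N, hN⟩
    have : TopologicalSpace.NoetherianSpace (N : Set W.left) :=
      noetherianSpace_of_isAffineOpen N hN
    exact LamT_top hB N.2 hzN hz
  · exact hr

private theorem LamT_app {C : Type*} [Category* C] [HasBinaryProducts C]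
    (J : GrothendieckTopology C) (U : C) (A : Type*) [Category* A] (F : Sheaf J A) (W : Cᵒᵖ) :
    (((sheafToPresheaf J A).map ((eta J U A).app F)).app W) =
      F.obj.map (prod.snd : U ⨯ W.unop ⟶ W.unop).op := by
  simp [eta]
  exact Category.id_comp _

theorem thm_LamT (h1 : St_EtDvr.{u}) (h2 : St_Gen.{u}) (h3 : St_UW.{u}) : St_LamT.{u} := by
  intro p r X S f _ Z hZ hd h
  have key : ∀ W : X.Etaleᵒᵖ, IsIso ((LamP X p r).map
      (prod.snd : Uo hZ ⨯ W.unop ⟶ W.unop).op) := by
    intro W
    have hb := LamT_bij h1 h2 h3 X Z hZ hd W.unop (ZMod (p ^ r))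
      (prod.snd : Uo hZ ⨯ W.unop ⟶ W.unop).left.continuous
    rw [ConcreteCategory.isIso_iff_bijective]
    constructor
    · intro a b hab
      have h5 := congrArg ULift.down hab
      exact ULift.ext _ _ (hb.1 h5)
    · intro a
      obtain ⟨c, hc⟩ := hb.2 a.down
      exact ⟨⟨c⟩, ULift.ext _ _ hc⟩
  have : IsIso ((sheafToPresheaf _ _).map ((eta (tame f p) (Uo hZ) _).app
      (⟨LamP X p r, h⟩ : Sh f p r))) := by
    rw [NatTrans.isIso_iff_isIso_app]
    intro W
    rw [LamT_app]
    exact key W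
  exact isIso_of_reflects_iso _ (sheafToPresheaf (tame f p) (ModuleCat.{u + 1} (Rg.{u} p r)))

end TPU
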