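import Pool.Agent.TPU.St4

/-!
# TPU, module Main0: good morphisms at the points outside `Z`
-/

set_option autoImplicit false

universe u

open CategoryTheory Limits AlgebraicGeometry Opposite

namespace TPU

/-- Tame ramification and an isomorphism of the base field. -/
private theorem Main0_tame (p : ℕ) {K K' L : Type u} [Field K] [Field K'] [Field L]
    (φ : K →+* K') (hφ : Function.Bijective φ) (ψ : K' →+* L) (v' : ValuationSubring K')
    (w : ValuationSubring L) (v : ValuationSubring K) (hv : v'.comap φ = v)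
    (θ : K →+* L) (hθ : ψ.comp φ = θ) (h : Tame p ψ v' w) : Tame p θ v w := by
  subst hθ
  subst hv
  obtain ⟨h0, M, iM, aM, χ, u, hfin, hgal, hcomm, hu, hσ⟩ := h
  obtain ⟨e, he⟩ : ∃ e : K ≃+* K', ∀ x, e x = φ x := ⟨RingEquiv.ofBijective φ hφ, fun _ => rfl⟩
  let alg : Algebra K M := ((algebraMap K' M).comp φ).toAlgebra
  have halg : ∀ x : K, algebraMap K M x = algebraMap K' M (φ x) := fun _ => rfl
  have hc : (algebraMap K M).comp (e.symm : K' →+* K) =
      ((RingEquiv.refl M : M ≃+* M) : M →+* M).comp (algebraMap K' M) := by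
    ext x
    show algebraMap K M (e.symm x) = algebraMap K' M x
    rw [halg, ← he, RingEquiv.apply_symm_apply]
  have hfin' : FiniteDimensional K M :=
    Module.Finite.of_equiv_equiv e.symm (RingEquiv.refl M) hc
  have hgal' : IsGalois K M := IsGalois.of_equiv_equiv hc
  refine ⟨?_, M, iM, alg, χ, u, hfin', hgal', ?_, hu, ?_⟩
  · rw [← h0]
    rfl
  · intro a
    rw [halg]
    exact hcomm (φ a)
  · intro σ h1 h2 y
    have hs : ∀ c : K', σ (algebraMap K' M c) = algebraMap K' M c := by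
      intro c
      obtain ⟨c₀, rfl⟩ := hφ.2 c
      exact σ.commutes c₀
    let σ' : M ≃ₐ[K'] M := AlgEquiv.ofRingEquiv (f := (σ : M ≃+* M)) hs
    have hpow : ∀ (m : ℕ) (x : M), (σ' ^ m) x = (σ ^ m) x := by
      intro m
      induction m with
      | zero => intro x; rfl
      | succ m ih =>
        intro x
        rw [pow_succ, pow_succ, AlgEquiv.mul_apply, AlgEquiv.mul_apply, ih]
        rfl
    refine hσ σ' h1 ?_ y
    obtain ⟨n, hn⟩ := h2
    refine ⟨n, ?_⟩
    ext x
    rw [hpow, hn]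
    rfl

private theorem Main0_map {D Y W : Scheme.{u}} (k : D ⟶ Y) (q : Y ⟶ W) (y : D)
    (h3 : k y = k y) (h : (k ≫ q) y = q (k y)) :
    ((Y.residueFieldCongr h3).inv ≫ k.residueFieldMap y).hom.comp
      (q.residueFieldMap (k y)).hom =
    ((W.residueFieldCongr h).inv ≫ (k ≫ q).residueFieldMap y).hom := by
  rw [Scheme.residueFieldMap_comp]
  rfl

private theorem Main0_w {X : Scheme.{u}} {D W : X.Etale} (g : D ⟶ W) : g.left ≫ W.hom = D.hom :=
  CategoryTheory.Over.w ((Scheme.Etale.forget X).map g)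

/-- Change of the valued field along an open immersion. -/
private theorem Main0_open {X S : Scheme.{u}} (f : X ⟶ S) (p : ℕ) {Y W : X.Etale} (q : Y ⟶ W)
    (hq : IsOpenImmersion q.left) (z' : Y.left)
    (v : ValuationSubring (W.left.residueField (q.left z')))
    (g₀ : Spec (.of v) ⟶ S)
    (hg₀ : Spec.map (CommRingCat.ofHom v.subtype) ≫ g₀ =
      W.left.fromSpecResidueField (q.left z') ≫ (W.hom ≫ f)) :
    ∃ a' : SVal (Y.hom ≫ f), ∀ (D : X.Etale) (k : D ⟶ Y) (b : SVal (D.hom ≫ f)),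
      TameOver f p k a' b →
        TameOver f p (k ≫ q) (⟨q.left z', v, g₀, hg₀⟩ : SVal (W.hom ≫ f)) b := by
  have hiso : IsIso (q.left.residueFieldMap z') := inferInstance
  obtain ⟨φ, hφ⟩ : ∃ φ : W.left.residueField (q.left z') →+* Y.left.residueField z',
      φ = (q.left.residueFieldMap z').hom := ⟨_, rfl⟩
  obtain ⟨ψ, hψ⟩ : ∃ ψ : Y.left.residueField z' →+* W.left.residueField (q.left z'),
      ψ = (inv (q.left.residueFieldMap z')).hom := ⟨_, rfl⟩
  have h1 : ∀ x, ψ (φ x) = x := by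
    intro x
    rw [hφ, hψ, ← CommRingCat.comp_apply, IsIso.hom_inv_id]
    rfl
  have h2 : ∀ y, φ (ψ y) = y := by
    intro y
    rw [hφ, hψ, ← CommRingCat.comp_apply, IsIso.inv_hom_id]
    rfl
  have hbij : Function.Bijective φ :=
    ⟨fun x y hxy => by rw [← h1 x, hxy, h1], fun y => ⟨ψ y, h2 y⟩⟩
  let res : v →+* v.comap ψ :=
    { toFun := fun x => ⟨φ x, by
        show ψ (φ x) ∈ v
        rw [h1]
        exact x.2⟩
      map_one' := Subtype.ext (map_one φ)
      map_mul' := fun _ _ => Subtype.ext (map_mul φ _ _)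
      map_zero' := Subtype.ext (map_zero φ)
      map_add' := fun _ _ => Subtype.ext (map_add φ _ _) }
  refine ⟨⟨z', v.comap ψ, Spec.map (CommRingCat.ofHom res) ≫ g₀, ?_⟩, ?_⟩
  · have e1 : CommRingCat.ofHom res ≫ CommRingCat.ofHom (v.comap ψ).subtype =
        CommRingCat.ofHom v.subtype ≫ q.left.residueFieldMap z' := by
      ext x
      show φ x = (q.left.residueFieldMap z').hom x
      rw [hφ]
    rw [← Category.assoc, ← Spec.map_comp, e1, Spec.map_comp, Category.assoc, hg₀,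
      ← Category.assoc, Scheme.Hom.SpecMap_residueFieldMap_fromSpecResidueField, Category.assoc,
      ← Category.assoc q.left, Main0_w]
    rfl
  · rintro D k b ⟨h3, h4⟩
    obtain ⟨y, vy, gy, hgy⟩ := b
    have h3' : k.left y = z' := h3
    subst h3'
    have h5 : Tame p ((Y.left.residueFieldCongr h3).inv ≫ k.left.residueFieldMap y).hom
      (v.comap ψ) vy := h4
    refine ⟨rfl, ?_⟩
    have e2 : (v.comap ψ).comap φ = v := by
      ext x
      show ψ (φ x) ∈ v ↔ x ∈ v
      rw [h1]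
    refine Main0_tame p φ hbij _ _ _ v e2 _ ?_ h5
    subst hφ
    exact Main0_map k.left q.left y h3 rfl

theorem thm_Main0 (_h1 : St_Kf.{u}) (h2 : St_UW.{u}) (_h3 : St_Zar.{u}) (_h4 : St_TorC.{u})
    (_h5 : St_Top.{u}) : TPU.St_Main0.{u} := by
  intro p _ X S f Z hZ W R hR a ha
  obtain ⟨hoi, hmono, hrange, -⟩ := h2 X Z hZ W
  obtain ⟨z, v, g₀, hg₀⟩ := a
  have hz : z ∈ Set.range (prod.snd : Uo hZ ⨯ W ⟶ W).left := by
    rw [hrange]
    exact ha
  obtain ⟨z', rfl⟩ := hz
  obtain ⟨a', ha'⟩ := Main0_open f p (prod.snd : Uo hZ ⨯ W ⟶ W) hoi z' v g₀ hg₀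
  obtain ⟨D, k, b, hRk, hT⟩ := hR a'
  refine ⟨D, k ≫ prod.snd, b, ?_, ha' D k b hT⟩
  obtain ⟨-, hmD, -, hlD⟩ := h2 X Z hZ D
  obtain ⟨π, hπ⟩ := hlD D (𝟙 D) (by
    intro d
    have h6 : (k ≫ (prod.snd : Uo hZ ⨯ W ⟶ W)).left d ∈
        Set.range (prod.snd : Uo hZ ⨯ W ⟶ W).left := ⟨k.left d, by
          rw [← Scheme.Hom.comp_apply]
          rfl⟩
    rw [hrange] at h6
    have h7 : D.hom d = W.hom ((k ≫ (prod.snd : Uo hZ ⨯ W ⟶ W)).left d) := by
      rw [← Scheme.Hom.comp_apply, Main0_w]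
    rw [h7]
    exact h6)
  have hπ2 : prod.snd ≫ π = 𝟙 (Uo hZ ⨯ D) := by
    rw [← cancel_mono (prod.snd : Uo hZ ⨯ D ⟶ D), Category.assoc, hπ, Category.comp_id,
      Category.id_comp]
  refine ⟨D, π, PUnit, inferInstance, inferInstance, fun _ => 𝟙 D, ?_, ?_, ?_⟩
  · rw [Nat.card_unique]
    exact (Fact.out : p.Prime).one_lt.ne' ∘ Nat.dvd_one.1
  · refine ⟨fun _ => Category.id_comp π, rfl, fun _ _ => (Category.id_comp _).symm, ?_, ?_⟩
    · have h8 : Sieve.generate (Presieve.singleton π) = ⊤ := by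
        rw [← Sieve.id_mem_iff_eq_top]
        exact ⟨D, prod.snd, π, ⟨⟩, hπ2⟩
      rw [h8]
      exact (tame f p).top_mem _
    · intro Y s t hst
      have h9 : s = t := by
        have : Mono π := ⟨fun x y hxy => by
          rw [← Category.comp_id x, ← Category.comp_id y, ← hπ, ← Category.assoc, hxy,
            Category.assoc]⟩
        exact (cancel_mono π).1 hst
      refine ⟨⊤, (tame f p).top_mem _, fun Y' k' _ => ⟨PUnit.unit, ?_⟩⟩
      rw [h9]
      show k' ≫ t = k' ≫ t ≫ 𝟙 D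
      rw [Category.comp_id]
  · have h10 : π ≫ prod.map (𝟙 (Uo hZ)) (k ≫ prod.snd) = k := by
      rw [← cancel_mono (prod.snd : Uo hZ ⨯ W ⟶ W), Category.assoc, prod.map_snd,
        ← Category.assoc π, hπ, Category.id_comp]
    rw [h10]
    exact hRk

end TPU
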