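import Pool.Agent.TPU.St4

/-!
# TPU, module Main1: good morphisms at the points of `Z`
-/

set_option autoImplicit false

universe u

open CategoryTheory Limits AlgebraicGeometry Opposite

namespace TPU

/-- Transfer of `Tame` along an isomorphism of the upper fields. -/
private theorem Main1_tame_iso (p : ℕ) {K L L' : Type u} [Field K] [Field L] [Field L']
    (φ : K →+* L) (i : L →+* L') (hi : Function.Bijective i) (v : ValuationSubring K)
    (w : ValuationSubring L) (w' : ValuationSubring L') (hw : w'.comap i = w) (h : Tame p φ v w) :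
    Tame p (i.comp φ) v w' := by
  obtain ⟨h1, M, _, _, ψ, u, hfd, hg, hψ, hu, hσ⟩ := h
  obtain ⟨e, he⟩ : ∃ e : L ≃+* L', ∀ x, e x = i x := ⟨RingEquiv.ofBijective i hi, fun _ => rfl⟩
  have he1 : ∀ x, e.symm (i x) = x := fun x => by rw [← he, e.symm_apply_apply]
  have he2 : ∀ x, i (e.symm x) = x := fun x => by rw [← he, e.apply_symm_apply]
  refine ⟨?_, M, inferInstance, inferInstance, ψ.comp e.symm.toRingHom, u, hfd, hg, ?_, ?_, ?_⟩
  · rw [← h1, ← hw, ValuationSubring.comap_comap]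
  · intro a
    show ψ (e.symm (i (φ a))) = _
    rw [he1, hψ]
  · ext x
    have h2 : x ∈ u.comap (ψ.comp e.symm.toRingHom) ↔ e.symm x ∈ u.comap ψ := Iff.rfl
    rw [h2, hu, ← hw, ValuationSubring.mem_comap, he2]
  · intro σ hσ1 hσ2 y
    exact hσ σ hσ1 hσ2 (e.symm y)

/-- Restriction of a tame point to an open subscheme. -/
private theorem Main1_tame_comp (p : ℕ) {V' V W : Scheme.{u}} (i : V' ⟶ V) [IsOpenImmersion i]
    (g : V ⟶ W) (z' : V') (z : W) (h : g (i z') = z) (h' : (i ≫ g) z' = z)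
    (v : ValuationSubring (W.residueField z)) (v₁ : ValuationSubring (V.residueField (i z')))
    (hT : Tame p ((W.residueFieldCongr h).inv ≫ g.residueFieldMap (i z')).hom v v₁) :
    Tame p ((W.residueFieldCongr h').inv ≫ (i ≫ g).residueFieldMap z').hom v
      (v₁.comap (inv (i.residueFieldMap z')).hom) := by
  have h8 : ((W.residueFieldCongr h').inv ≫ (i ≫ g).residueFieldMap z').hom =
      (i.residueFieldMap z').hom.comp
        ((W.residueFieldCongr h).inv ≫ g.residueFieldMap (i z')).hom := by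
    rw [Scheme.residueFieldMap_comp]
    rfl
  rw [h8]
  refine Main1_tame_iso p _ _ ?_ v v₁ _ ?_ hT
  · exact ConcreteCategory.bijective_of_isIso (i.residueFieldMap z')
  · rw [ValuationSubring.comap_comap, ← CommRingCat.hom_comp, IsIso.hom_inv_id]
    rfl

/-- Transfer of `GT` to another open subscheme with the same points. -/
private theorem Main1_GT {E G V Q : Scheme.{u}} (π : E ⟶ G) (j : G ⟶ V) [IsOpenImmersion j]
    (q : Q ⟶ V) [IsOpenImmersion q] (hr : Set.range q ⊆ Set.range j) (l : E ⟶ Q)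
    (hl : l ≫ q = π ≫ j) {Δ : Type u} [Group Δ] (act : Δ → (E ⟶ E)) (h : GT π act) : GT l act := by
  refine ⟨?_, h.one, h.mul, ?_, ?_⟩
  · intro δ
    rw [← cancel_mono q, Category.assoc, hl, ← Category.assoc, h.ov]
  · intro Ω _ _ c
    have hc : Set.range (c ≫ q) ⊆ Set.range j := by
      rintro _ ⟨x, rfl⟩
      exact hr ⟨c x, by rw [Scheme.Hom.comp_apply]⟩
    obtain ⟨s, hs⟩ := h.ex Ω (IsOpenImmersion.lift j (c ≫ q) hc)
    refine ⟨s, ?_⟩
    rw [← cancel_mono q, Category.assoc, hl, ← Category.assoc, hs, IsOpenImmersion.lift_fac]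
  · intro Ω _ _ s t hst
    refine h.tr Ω s t ?_
    rw [← cancel_mono j, Category.assoc, Category.assoc, ← hl, ← Category.assoc, hst,
      Category.assoc]

/-- the map `O_{W,z} → κ(y)` for a point `y` of an open subscheme over a generization of `z` -/
private noncomputable def Main1_phi {Y W : Scheme.{u}} (q : Y ⟶ W) (y : Y) (z : W) (h : q y ⤳ z) :
    W.presheaf.stalk z →+* Y.residueField y :=
  (q.residueFieldMap y).hom.comp (spz h)

private theorem Main1_phi_spec {Y W : Scheme.{u}} (q : Y ⟶ W) (y : Y) (z : W) (h : q y ⤳ z) :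
    Spec.map (CommRingCat.ofHom (Main1_phi q y z h)) ≫ W.fromSpecStalk z =
      Y.fromSpecResidueField y ≫ q := by
  have h1 : CommRingCat.ofHom (Main1_phi q y z h) =
      W.presheaf.stalkSpecializes h ≫ W.residue (q y) ≫ q.residueFieldMap y := rfl
  rw [h1, Spec.map_comp, Spec.map_comp, Category.assoc, Category.assoc,
    Scheme.SpecMap_stalkSpecializes_fromSpecStalk]
  exact Scheme.Hom.SpecMap_residueFieldMap_fromSpecResidueField q y

/-- The composite valuation on the open subscheme. -/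
private theorem Main1_comp (h5 : St_Gen.{u}) (h6 : St_Comp.{u}) {Y W S : Scheme.{u}} (q : Y ⟶ W)
    [IsOpenImmersion q] (s : W ⟶ S) (z : W) (v : ValuationSubring (W.residueField z))
    (hv : SV s (W.fromSpecResidueField z) v) (hdvr : IsDvr (W.presheaf.stalk z))
    (hr : ∀ η : W, ¬ IsDvr (W.presheaf.stalk η) → η ∈ Set.range q) :
    ∃ (y₀ : Y) (φ : W.presheaf.stalk z →+* Y.residueField y₀)
      (w : ValuationSubring (Y.residueField y₀)),
      Loc (W.presheaf.stalk z) (Y.residueField y₀) (W.residueField z) φ (W.residue z).hom v w ∧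
      Spec.map (CommRingCat.ofHom φ) ≫ W.fromSpecStalk z = Y.fromSpecResidueField y₀ ≫ q ∧
      SV (q ≫ s) (Y.fromSpecResidueField y₀) w := by
  obtain ⟨η, hη, hne, hgen, hinj, hfrac, hres, hnd⟩ := h5 W z hdvr
  obtain ⟨y₀, rfl⟩ := hr η hnd
  let φ : W.presheaf.stalk z →+* Y.residueField y₀ := Main1_phi q y₀ z hη
  have hbij : Function.Bijective (q.residueFieldMap y₀).hom :=
    ConcreteCategory.bijective_of_isIso (q.residueFieldMap y₀)
  have hφinj : Function.Injective φ := hbij.1.comp hinj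
  have hφfrac : ∀ x : Y.residueField y₀, ∃ a b, φ b ≠ 0 ∧ x * φ b = φ a := by
    intro x
    obtain ⟨x', rfl⟩ := hbij.2 x
    obtain ⟨a', b', hb, hab⟩ := hfrac x'
    refine ⟨a', b', ?_, ?_⟩
    · intro h0
      apply hb
      apply hbij.1
      rw [map_zero]
      exact h0
    · show (q.residueFieldMap y₀).hom x' * (q.residueFieldMap y₀).hom (spz hη b') =
        (q.residueFieldMap y₀).hom (spz hη a')
      rw [← map_mul, hab]
  have hφspec := Main1_phi_spec q y₀ z hη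
  obtain ⟨w, hw, hSVw⟩ := h6 W S s z (Y.residueField y₀) φ v hdvr hφinj hφfrac hv
  refine ⟨y₀, φ, w, ⟨hdvr, hφinj, hφfrac, Scheme.residue_surjective _ _, hw⟩, hφspec, ?_⟩
  obtain ⟨e, he⟩ := hSVw
  exact ⟨e, he.trans ((congrArg (fun t => t ≫ s) hφspec).trans (Category.assoc _ _ _))⟩

/-- The Galois extension given by a tame point. -/
private theorem Main1_gal (p : ℕ) {D Y : Scheme.{u}} (k : D ⟶ Y) (y₀ : Y) (y : D) (hb : k y = y₀)
    (w : ValuationSubring (Y.residueField y₀)) (w' : ValuationSubring (D.residueField y))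
    (hT : Tame p ((Y.residueFieldCongr hb).inv ≫ k.residueFieldMap y).hom w w') :
    ∃ (M : Type u) (_ : Field M) (_ : Algebra (Y.residueField y₀) M)
      (_ : FiniteDimensional (Y.residueField y₀) M) (_ : IsGalois (Y.residueField y₀) M)
      (u : ValuationSubring M) (ψ : D.residueField y →+* M),
      u.comap (algebraMap (Y.residueField y₀) M) = w ∧
      Spec.map (CommRingCat.ofHom ψ) ≫ D.fromSpecResidueField y ≫ k =
        Spec.map (CommRingCat.ofHom (algebraMap (Y.residueField y₀) M)) ≫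
          Y.fromSpecResidueField y₀ ∧
      ∀ σ : M ≃ₐ[Y.residueField y₀] M, (∀ x ∈ u, σ x - x ∈ u.nonunits) →
        (∃ n : ℕ, σ ^ p ^ n = 1) → ∀ t, σ (ψ t) = ψ t := by
  subst hb
  obtain ⟨hcm, M, iM, iA, ψ, u, hfd, hgal, hψ, hu, hσ⟩ := hT
  refine ⟨M, iM, iA, hfd, hgal, u, ψ, ?_, ?_, hσ⟩
  · have h8 : algebraMap (Y.residueField (k y)) M = ψ.comp (k.residueFieldMap y).hom :=
      RingHom.ext fun x => (hψ x).symm
    rw [h8, ← ValuationSubring.comap_comap, hu]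
    exact hcm
  · have h8 : CommRingCat.ofHom (algebraMap (Y.residueField (k y)) M) =
        k.residueFieldMap y ≫ CommRingCat.ofHom ψ := by
      ext x
      exact (hψ x).symm
    rw [h8, Spec.map_comp, Category.assoc,
      Scheme.Hom.SpecMap_residueFieldMap_fromSpecResidueField]
    rfl

/-- The geometric part: the torsor with a morphism to `D`. -/
private theorem Main1_P2 (h1 : St_Kf.{u}) (h2 : St_Kf2.{u}) (h7 : St_Nb.{u}) (h8 : St_GalD.{u})
    (h9 : St_GTR.{u}) (h10 : St_Shr.{u})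
    (p : ℕ) [Fact p.Prime] (W : Scheme.{u}) [IsLocallyNoetherian W] (z : W) (K M : Type u)
    [Field K] [Field M] [Algebra K M] [FiniteDimensional K M] [IsGalois K M]
    (φ : W.presheaf.stalk z →+* K) (v : ValuationSubring (W.residueField z))
    (w : ValuationSubring K) (u : ValuationSubring M)
    (hL : Loc (W.presheaf.stalk z) K (W.residueField z) φ (W.residue z).hom v w) (hp : (p : K) = 0)
    (hu : u.comap (algebraMap K M) = w) (ZW : Set W) (hZW : IsClosed ZW) (hz : z ∈ ZW)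
    (D : Scheme.{u}) (k : D ⟶ W) [Etale k] (y : D) (ψ : D.residueField y →+* M)
    (hk : Spec.map (CommRingCat.ofHom ψ) ≫ D.fromSpecResidueField y ≫ k =
      Spec.map (CommRingCat.ofHom ((algebraMap K M).comp φ)) ≫ W.fromSpecStalk z)
    (hfix : ∀ σ : M ≃ₐ[K] M, (∀ x ∈ u, σ x - x ∈ u.nonunits) → (∃ n : ℕ, σ ^ p ^ n = 1) →
      ∀ y, σ (ψ y) = ψ y) :
    ∃ (V' : Scheme.{u}) (g' : V' ⟶ W) (z' : V') (h : g' z' = z)
      (v' : ValuationSubring (V'.residueField z')) (E G' : Scheme.{u}) (π : E ⟶ G') (j : G' ⟶ V')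
      (Δ : Type u) (_ : Group Δ) (_ : Finite Δ) (act : Δ → (E ⟶ E)) (m : E ⟶ D),
      Etale g' ∧ IsOpenImmersion j ∧ Set.range j = {x | g' x ∉ ZW} ∧ Etale π ∧ GT π act ∧
      ¬ p ∣ Nat.card Δ ∧ m ≫ k = π ≫ j ≫ g' ∧
      Tame p ((W.residueFieldCongr h).inv ≫ g'.residueFieldMap z').hom v v' := by
  obtain ⟨V, g, z₁, η₁, h, v₁, a₁, L, hg, hT, ha₁, hη₁, hsp, hgen, hinj, hfd, hgal, hcard, hLfix⟩ :=
    h7 p W z K M φ v w u hL hp hu
  have hcomm : (Spec.map (CommRingCat.ofHom ψ) ≫ D.fromSpecResidueField y) ≫ k = a₁ ≫ g := by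
    rw [Category.assoc, hk, ha₁]
  obtain ⟨ξ, hξ1, hξ2⟩ : ∃ ξ : Spec (.of M) ⟶ pullback k g,
      ξ ≫ pullback.fst k g = Spec.map (CommRingCat.ofHom ψ) ≫ D.fromSpecResidueField y ∧
      ξ ≫ pullback.snd k g = a₁ :=
    ⟨pullback.lift _ _ hcomm, pullback.lift_fst _ _ _, pullback.lift_snd _ _ _⟩
  have hξ : ∀ x ∈ kf ξ, x ∈ L := by
    intro x hx
    have hx' := h2 D V W k g M ξ hx
    rw [hξ1, hξ2, h1.1] at hx'
    have hle : (CommRingCat.ofHom ψ).hom.fieldRange ⊔ kf a₁ ≤ L.toSubfield := by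
      refine sup_le ?_ ?_
      · rintro _ ⟨t, rfl⟩
        exact hLfix _ (fun σ hσ1 hσ2 => hfix σ hσ1 hσ2 t)
      · intro t ht
        exact L.algebraMap_mem ⟨t, ht⟩
    exact hle hx'
  have : IsLocallyNoetherian V := LocallyOfFiniteType.isLocallyNoetherian g
  obtain ⟨G, E, π, act, m, hηG, hπ, hGT, hm⟩ := h8 V η₁ hinj M a₁ hη₁ L (pullback k g)
    (pullback.snd k g) ξ hξ2 hξ
  obtain ⟨V', hz₁, hV'⟩ := h10 V z₁ η₁ hgen G hηG
  let O : V.Opens := ⟨g ⁻¹' ZWᶜ, hZW.isOpen_compl.preimage g.continuous⟩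
  have hO : ∀ x : V, x ∈ O ↔ g x ∉ ZW := fun _ => Iff.rfl
  have hle : V' ⊓ O ≤ G := by
    intro x hx
    rcases hV' x hx.1 with h3 | h3
    · exfalso
      have h4 : g z₁ ⤳ g x := h3.map g.continuous
      rw [h] at h4
      exact (hO x).1 hx.2 (h4.mem_closed hZW hz)
    · exact h3
  obtain ⟨E', ι, π', act', hι, hπ', hGT', hcom, -⟩ := h9 V G (V' ⊓ O) hle E π _ act hGT hπ
  obtain ⟨z', rfl⟩ : ∃ z' : (V' : Scheme.{u}), V'.ι z' = z₁ := ⟨⟨z₁, hz₁⟩, rfl⟩
  have hj : V.homOfLE (inf_le_left : V' ⊓ O ≤ V') ≫ V'.ι = (V' ⊓ O).ι := V.homOfLE_ι _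
  refine ⟨V', V'.ι ≫ g, z', h, v₁.comap (inv (V'.ι.residueFieldMap z')).hom, E', (V' ⊓ O : V.Opens),
    π', V.homOfLE inf_le_left, (L ≃ₐ[kf a₁] L), inferInstance, inferInstance, act',
    ι ≫ m ≫ pullback.fst k g, inferInstance, inferInstance, ?_, hπ', hGT', hcard, ?_,
    Main1_tame_comp p V'.ι g z' z h h v v₁ hT⟩
  · ext x
    constructor
    · rintro ⟨t, rfl⟩
      have h5 : V'.ι (V.homOfLE (inf_le_left : V' ⊓ O ≤ V') t) = (V' ⊓ O).ι t := by
        rw [← Scheme.Hom.comp_apply, hj]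
      show (V'.ι ≫ g) _ ∉ ZW
      rw [Scheme.Hom.comp_apply, h5]
      exact (hO _).1 t.2.2
    · intro hx
      have h6 : g (V'.ι x) ∉ ZW := by
        rw [← Scheme.Hom.comp_apply]
        exact hx
      have h7 : V'.ι x ∈ V' ⊓ O := ⟨x.2, (hO _).2 h6⟩
      refine ⟨⟨V'.ι x, h7⟩, ?_⟩
      apply V'.ι.isOpenEmbedding.injective
      rw [← Scheme.Hom.comp_apply, hj]
      rfl
  · have e1 : m ≫ pullback.fst k g ≫ k = π ≫ G.ι ≫ g := by
      rw [pullback.condition, ← Category.assoc, hm, Category.assoc]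
    calc (ι ≫ m ≫ pullback.fst k g) ≫ k = ι ≫ (m ≫ pullback.fst k g ≫ k) := by
          simp only [Category.assoc]
      _ = (ι ≫ π ≫ G.ι) ≫ g := by rw [e1]; simp only [Category.assoc]
      _ = (π' ≫ (V' ⊓ O).ι) ≫ g := by rw [hcom]
      _ = π' ≫ V.homOfLE (inf_le_left : V' ⊓ O ≤ V') ≫ V'.ι ≫ g := by
          rw [← hj]; simp only [Category.assoc]

/-- A ring of characteristic `p` over the base. -/
private theorem Main1_char (p : ℕ) {Y S : Scheme.{u}} (s : Y ⟶ S) (hS : (p : Γ(S, ⊤)) = 0) (y : Y) :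
    (p : Y.residueField y) = 0 := by
  let θ : Γ(S, ⊤) ⟶ Y.residueField y :=
    (Y.fromSpecResidueField y ≫ s).appTop ≫ (Scheme.ΓSpecIso _).hom
  have h7 : θ.hom (p : Γ(S, ⊤)) = 0 := by rw [hS, map_zero]
  rw [map_natCast] at h7
  exact h7

private theorem Main1_assoc4 {A B C D E : Scheme.{u}} (a : A ⟶ B) (b : B ⟶ C) (c : C ⟶ D)
    (d : D ⟶ E) : (a ≫ b ≫ c) ≫ d = a ≫ b ≫ c ≫ d := by
  simp only [Category.assoc]

/-- The two parts together. -/
private theorem Main1_P3 (h1 : St_Kf.{u}) (h2 : St_Kf2.{u}) (h4 : St_EtDvr.{u}) (h5 : St_Gen.{u})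
    (h6 : St_Comp.{u}) (h7 : St_Nb.{u}) (h8 : St_GalD.{u}) (h9 : St_GTR.{u}) (h10 : St_Shr.{u})
    (h11 : St_UW.{u}) (p : ℕ) [Fact p.Prime] (X S : Scheme.{u}) (f : X ⟶ S)
    [IsLocallyNoetherian X] (hS : (p : Γ(S, ⊤)) = 0) (Z : Set X)
    (hZ : IsClosed Z) (hd : ∀ z ∈ Z, IsDvr (X.presheaf.stalk z)) (W : X.Etale)
    (R : Sieve (Uo hZ ⨯ W)) (hR : Cov f p R) (a : SVal (W.hom ≫ f)) (ha : W.hom a.pt ∈ Z) :
    ∃ (D : X.Etale) (k : D ⟶ Uo hZ ⨯ W) (_ : R k) (V' : Scheme.{u}) (g' : V' ⟶ W.left) (z' : V')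
      (h : g' z' = a.pt) (v' : ValuationSubring (V'.residueField z')) (E G' : Scheme.{u})
      (π : E ⟶ G') (j : G' ⟶ V') (Δ : Type u) (_ : Group Δ) (_ : Finite Δ) (act : Δ → (E ⟶ E))
      (m : E ⟶ D.left),
      Etale g' ∧ IsOpenImmersion j ∧ Set.range j = {x | W.hom (g' x) ∉ Z} ∧ Etale π ∧ GT π act ∧
      ¬ p ∣ Nat.card Δ ∧ m ≫ (k ≫ prod.snd).left = π ≫ j ≫ g' ∧
      Tame p ((W.left.residueFieldCongr h).inv ≫ g'.residueFieldMap z').hom a.v v' := by
  obtain ⟨hopen, hmono, hrange, -⟩ := h11 X Z hZ W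
  have hdvr : IsDvr (W.left.presheaf.stalk a.pt) := h4 W.left X W.hom a.pt (hd _ ha)
  have hr : ∀ η : W.left, ¬ IsDvr (W.left.presheaf.stalk η) →
      η ∈ Set.range (prod.snd : Uo hZ ⨯ W ⟶ W).left := by
    intro η hnd
    rw [hrange]
    exact fun h => hnd (h4 W.left X W.hom η (hd _ h))
  obtain ⟨y₀, φ, w, hloc, hφ, hSV⟩ := Main1_comp h5 h6 (prod.snd : Uo hZ ⨯ W ⟶ W).left
    (W.hom ≫ f) a.pt a.v a.ext hdvr hr
  have hqW : (prod.snd : Uo hZ ⨯ W ⟶ W).left ≫ W.hom = (Uo hZ ⨯ W).hom :=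
    MorphismProperty.Over.w _
  have hSVY : SV ((Uo hZ ⨯ W).hom ≫ f) ((Uo hZ ⨯ W).left.fromSpecResidueField y₀) w := by
    have h12 : (Uo hZ ⨯ W).hom ≫ f = (prod.snd : Uo hZ ⨯ W ⟶ W).left ≫ W.hom ≫ f := by
      rw [← hqW]
      exact Category.assoc _ _ _
    rw [h12]
    exact hSV
  obtain ⟨D, k, b, hRk, hb, hT⟩ := hR ⟨y₀, w, hSVY⟩
  obtain ⟨M, iM, iA, hfd, hgal, u, ψ, hu, hψ, hσ⟩ := Main1_gal p k.left y₀ b.pt hb w b.v hT
  have hp0 := Main1_char p ((Uo hZ ⨯ W).hom ≫ f) hS y₀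
  have : IsLocallyNoetherian W.left := LocallyOfFiniteType.isLocallyNoetherian (Y := X) W.hom
  have hψ' : Spec.map (CommRingCat.ofHom ψ) ≫ D.left.fromSpecResidueField b.pt ≫
      (k ≫ prod.snd).left =
      Spec.map (CommRingCat.ofHom ((algebraMap ((Uo hZ ⨯ W).left.residueField y₀) M).comp φ)) ≫
        W.left.fromSpecStalk a.pt := by
    have h13 : Spec.map (CommRingCat.ofHom ((algebraMap ((Uo hZ ⨯ W).left.residueField y₀)
        M).comp φ)) = Spec.map (CommRingCat.ofHom (algebraMap _ M)) ≫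
          Spec.map (CommRingCat.ofHom φ) := by
      rw [← Spec.map_comp]
      rfl
    have h14 : (k ≫ prod.snd).left = k.left ≫ (prod.snd : Uo hZ ⨯ W ⟶ W).left := rfl
    rw [h13, h14]
    exact ((Main1_assoc4 _ _ _ _).symm.trans
      (congrArg (fun t => t ≫ (prod.snd : Uo hZ ⨯ W ⟶ W).left) hψ)).trans
      ((Category.assoc _ _ _).trans ((congrArg (fun t => Spec.map (CommRingCat.ofHom
        (algebraMap _ M)) ≫ t) hφ).symm.trans (Category.assoc _ _ _).symm))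
  have hcl : IsClosed {x : W.left | W.hom x ∈ Z} := hZ.preimage W.hom.continuous
  obtain ⟨V', g', z', h, v', E, G', π, j, Δ, iG, iF, act, m, h15, h16, h17, h18, h19, h20, h21,
    h22⟩ := Main1_P2 h1 h2 h7 h8 h9 h10 p W.left a.pt _ M φ a.v w u hloc hp0 hu
      {x : W.left | W.hom x ∈ Z} hcl ha D.left (k ≫ prod.snd).left b.pt ψ hψ' hσ
  exact ⟨D, k, hRk, V', g', z', h, v', E, G', π, j, Δ, iG, iF, act, m, h15, h16, h17, h18, h19,
    h20, h21, h22⟩

/-- **Main1**. Good morphisms at the points of `Z`. -/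
theorem thm_Main1 (h1 : St_Kf.{u}) (h2 : St_Kf2.{u}) (h3 : St_Sv.{u}) (h4 : St_EtDvr.{u})
    (h5 : St_Gen.{u}) (h6 : St_Comp.{u}) (h7 : St_Nb.{u}) (h8 : St_GalD.{u}) (h9 : St_GTR.{u})
    (h10 : St_Shr.{u}) (h11 : St_UW.{u}) (h12 : St_TorC.{u}) : TPU.St_Main1.{u} := by
  intro p _ X S f _ hS Z hZ hd W R hR a ha
  obtain ⟨D, k, hRk, V', g', z', h, v', E, G', π, j, Δ, iG, iF, act, m, hg', hj, hjr, hπ, hGT,
    hcard, hm, hT⟩ := Main1_P3 h1 h2 h4 h5 h6 h7 h8 h9 h10 h11 p X S f hS Z hZ hd W R hR a ha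
  let Vo : X.Etale := Scheme.Etale.mk (g' ≫ W.hom)
  let go : Vo ⟶ W := MorphismProperty.Over.homMk g' rfl
  let Eo : X.Etale := Scheme.Etale.mk (π ≫ j ≫ g' ≫ W.hom)
  let eo : Eo ⟶ Vo := MorphismProperty.Over.homMk (π ≫ j) (Category.assoc π j (g' ≫ W.hom))
  obtain ⟨hopen, -, hrange, hlift⟩ := h11 X Z hZ Vo
  obtain ⟨l, hl⟩ := hlift Eo eo (by
    intro d
    have h13 : Eo.hom d = W.hom (g' (j (π d))) := rfl
    rw [h13]
    have h14 : j (π d) ∈ Set.range j := ⟨_, rfl⟩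
    rw [hjr] at h14
    exact h14)
  let acto : Δ → (Eo ⟶ Eo) := fun δ => MorphismProperty.Over.homMk (act δ) (by
    show act δ ≫ π ≫ j ≫ g' ≫ W.hom = π ≫ j ≫ g' ≫ W.hom
    rw [← Category.assoc, hGT.ov])
  have hl' : l.left ≫ (prod.snd : Uo hZ ⨯ Vo ⟶ Vo).left = π ≫ j :=
    congrArg (fun t : Eo ⟶ Vo => t.left) hl
  have hrr : Set.range (prod.snd : Uo hZ ⨯ Vo ⟶ Vo).left ⊆ Set.range j := by
    intro x hx
    exact (Set.ext_iff.1 hjr x).2 ((Set.ext_iff.1 hrange x).1 hx)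
  have hGTl : GT l.left (fun δ => (acto δ).left) :=
    @Main1_GT E G' V' _ π j hj (prod.snd : Uo hZ ⨯ Vo ⟶ Vo).left hopen hrr l.left hl' Δ iG act hGT
  have hov : ∀ δ, acto δ ≫ l = l := fun δ => MorphismProperty.Over.Hom.ext (hGTl.ov δ)
  have hJT := h12 p X S f Eo (Uo hZ ⨯ Vo) l Δ acto hcard hov hGTl
  let so : Eo ⟶ D := MorphismProperty.Over.homMk m (by
    have h15 : (k ≫ (prod.snd : Uo hZ ⨯ W ⟶ W)).left ≫ W.hom = D.hom :=
      MorphismProperty.Over.w _
    show m ≫ D.hom = π ≫ j ≫ g' ≫ W.hom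
    rw [← h15, ← Category.assoc, hm]
    simp only [Category.assoc])
  have hgood : Good f p (Uo hZ) R go := by
    refine ⟨Eo, l, Δ, iG, iF, acto, hcard, hJT, ?_⟩
    have h16 : l ≫ prod.map (𝟙 (Uo hZ)) go = so ≫ k := by
      obtain ⟨-, hmono, -, -⟩ := h11 X Z hZ W
      rw [← cancel_mono (prod.snd : Uo hZ ⨯ W ⟶ W), Category.assoc, prod.map_snd,
        ← Category.assoc, hl, Category.assoc]
      refine MorphismProperty.Over.Hom.ext ?_
      show (π ≫ j) ≫ g' = m ≫ (k ≫ prod.snd).left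
      rw [hm, Category.assoc]
    rw [h16]
    exact R.downward_closed hRk so
  have hSV : SV (W.hom ≫ f) (Spec.map ((W.left.residueFieldCongr h).inv ≫ g'.residueFieldMap z') ≫
      W.left.fromSpecResidueField a.pt) v' := by
    refine (h3 _ _ ((W.left.residueFieldCongr h).inv ≫ g'.residueFieldMap z').hom W.left S
      (W.hom ≫ f) (W.left.fromSpecResidueField a.pt) v').2 ?_
    rw [hT.1]
    exact a.ext
  have hSVb : SV (Vo.hom ≫ f) (Vo.left.fromSpecResidueField z') v' := by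
    obtain ⟨e, he⟩ := hSV
    refine ⟨e, he.trans ?_⟩
    have h17 : Spec.map ((W.left.residueFieldCongr h).inv ≫ g'.residueFieldMap z') ≫
        W.left.fromSpecResidueField a.pt = V'.fromSpecResidueField z' ≫ g' := by
      rw [Spec.map_comp, Category.assoc, Scheme.residueFieldCongr_inv,
        Scheme.residueFieldCongr_fromSpecResidueField]
      exact Scheme.Hom.SpecMap_residueFieldMap_fromSpecResidueField g' z'
    exact (congrArg (fun t => t ≫ (W.hom ≫ f)) h17).trans (by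
      show (V'.fromSpecResidueField z' ≫ g') ≫ W.hom ≫ f =
        V'.fromSpecResidueField z' ≫ (g' ≫ W.hom) ≫ f
      simp only [Category.assoc])
  exact ⟨Vo, go, ⟨z', v', hSVb⟩, hgood, h, hT⟩

end TPU
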