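import Pool.Agent.TPU.St4

/-!
# TPU, Nb: the tame étale neighbourhood of a point whose local ring is a discrete valuation ring
-/

set_option autoImplicit false

universe u

open CategoryTheory Limits AlgebraicGeometry Opposite

namespace TPU

/-- `kf` of the point `Spec K ⟶ Spec O_{W,z} ⟶ W`, `K` the fraction field, is `K`. -/
private theorem Nb_kf {W : Scheme.{u}} {z : W} {K : Type u} [Field K]
    (φ : W.presheaf.stalk z →+* K) (frac : ∀ x : K, ∃ a b, φ b ≠ 0 ∧ x * φ b = φ a) :
    kf (Spec.map (CommRingCat.ofHom φ) ≫ W.fromSpecStalk z) = ⊤ := by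
  let c : Spec (.of K) ⟶ W := Spec.map (CommRingCat.ofHom φ) ≫ W.fromSpecStalk z
  let η : W := (Scheme.SpecToEquivOfField K W c).1
  let θ : W.residueField η ⟶ .of K := (Scheme.SpecToEquivOfField K W c).2
  have hc : Spec.map θ ≫ W.fromSpecResidueField η = c :=
    (Scheme.SpecToEquivOfField K W).symm_apply_apply c
  have hη : η ⤳ z := by
    have h1 : η ∈ Set.range (W.fromSpecStalk z) :=
      ⟨Spec.map (CommRingCat.ofHom φ) (IsLocalRing.closedPoint K), rfl⟩
    rw [Scheme.range_fromSpecStalk] at h1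
    exact h1
  have h2 : W.presheaf.stalkSpecializes hη ≫ W.residue η ≫ θ = CommRingCat.ofHom φ := by
    apply Spec.map_injective
    rw [← cancel_mono (W.fromSpecStalk z)]
    rw [Spec.map_comp, Spec.map_comp, Category.assoc, Category.assoc,
      Scheme.SpecMap_stalkSpecializes_fromSpecStalk]
    exact hc
  have h3 : ∀ a, θ.hom ((W.presheaf.stalkSpecializes hη ≫ W.residue η).hom a) = φ a := by
    intro a
    have := congrArg (fun q => q.hom a) h2
    exact this
  show θ.hom.fieldRange = ⊤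
  rw [eq_top_iff]
  intro x _
  obtain ⟨a, b, hb, hx⟩ := frac x
  have h4 : x = φ a / φ b := by
    rw [eq_div_iff hb]
    exact hx
  rw [h4]
  exact div_mem ⟨_, h3 a⟩ ⟨_, h3 b⟩

theorem thm_Nb (h1 : St_Kf.{u}) (h2 : St_EtDvr.{u}) (h3 : St_Gen.{u}) (h4 : St_Core.{u})
    (h5 : St_EtNb.{u}) : St_Nb.{u} := by
  intro p _ W z K M _ _ _ _ _ φ v w u hloc hp hu
  obtain ⟨hkf1, -, hkf3, -, -⟩ := h1
  obtain ⟨B, β, h, hB, hmon, hroot, hd1, hd2, hL, hres⟩ :=
    h4 p (W.presheaf.stalk z) K (W.residueField z) M φ (W.residue z).hom v w u hloc hp hu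
  have hmem : ∀ a, ((algebraMap K M).comp φ) a ∈ B := fun a => (hB (φ a)).2 ⟨a, rfl⟩
  let φB : W.presheaf.stalk z →+* B := ((algebraMap K M).comp φ).codRestrict B hmem
  have hcomp : B.subtype.comp φB = (algebraMap K M).comp φ := rfl
  have hlocal : IsLocalHom φB := by
    refine ⟨fun a ha => ?_⟩
    obtain ⟨c, hc⟩ := ha.exists_right_inv
    have hc' : algebraMap K M (φ a) * (c : M) = 1 := congrArg Subtype.val hc
    have ha0 : algebraMap K M (φ a) ≠ 0 := fun h0 => by
      rw [h0, zero_mul] at hc'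
      exact zero_ne_one hc'
    have hcinv : (c : M) = algebraMap K M (φ a)⁻¹ := by
      rw [map_inv₀]
      exact eq_inv_of_mul_eq_one_right hc'
    obtain ⟨a', ha'⟩ := (hB (φ a)⁻¹).1 (hcinv ▸ c.2)
    refine IsUnit.of_mul_eq_one a' (hloc.inj ?_)
    rw [map_mul, map_one, ha']
    refine mul_inv_cancel₀ fun h0 => ha0 ?_
    rw [h0, map_zero]
  have hroot' : h.eval₂ φB β = 0 := by
    apply Subtype.ext
    have e : ((h.eval₂ φB β : B) : M) = h.eval₂ (B.subtype.comp φB) (β : M) :=
      Polynomial.hom_eval₂ h φB B.subtype β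
    rw [e, hcomp, hroot]
    rfl
  have hder : IsUnit ((Polynomial.derivative h).eval₂ φB β) := by
    have e : (((Polynomial.derivative h).eval₂ φB β : B) : M) =
        (Polynomial.derivative h).eval₂ (B.subtype.comp φB) (β : M) :=
      Polynomial.hom_eval₂ _ φB B.subtype β
    by_contra hnu
    apply hd2
    rw [← hcomp, ← e]
    exact ValuationSubring.coe_mem_nonunits_iff.2 ((IsLocalRing.mem_maximalIdeal _).2 hnu)
  obtain ⟨V, g, ρ, hg, hρ, hk1, hk2⟩ := h5 W z M B φB β h hlocal hmon hroot' hder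
  -- the point z₁
  let b : Spec (.of (IsLocalRing.ResidueField B)) ⟶ V :=
    Spec.map (CommRingCat.ofHom (IsLocalRing.residue B)) ≫ ρ
  let z₁ : V := (Scheme.SpecToEquivOfField (IsLocalRing.ResidueField B) V b).1
  let j : V.residueField z₁ ⟶ .of (IsLocalRing.ResidueField B) :=
    (Scheme.SpecToEquivOfField (IsLocalRing.ResidueField B) V b).2
  have hj : Spec.map j ≫ V.fromSpecResidueField z₁ = b :=
    (Scheme.SpecToEquivOfField (IsLocalRing.ResidueField B) V).symm_apply_apply b
  have hz₁ : z₁ = ρ (IsLocalRing.closedPoint B) := by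
    show ρ (Spec.map (CommRingCat.ofHom (IsLocalRing.residue B)) _) = _
    congr 1
    exact IsLocalRing.comap_closedPoint (IsLocalRing.residue B)
  have hgz : g z₁ = z := by
    rw [hz₁, ← Scheme.Hom.comp_apply, hρ, Scheme.Hom.comp_apply]
    have e : Spec.map (CommRingCat.ofHom φB) (IsLocalRing.closedPoint B) =
        IsLocalRing.closedPoint (W.presheaf.stalk z) :=
      IsLocalRing.comap_closedPoint φB
    rw [e]
    exact Scheme.fromSpecStalk_closedPoint
  let i : W.residueField z ⟶ V.residueField z₁ :=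
    (W.residueFieldCongr hgz).inv ≫ g.residueFieldMap z₁
  have hi : Spec.map i ≫ W.fromSpecResidueField z = V.fromSpecResidueField z₁ ≫ g := by
    show Spec.map ((W.residueFieldCongr hgz).inv ≫ g.residueFieldMap z₁) ≫ _ = _
    rw [Spec.map_comp, Category.assoc, Scheme.residueFieldCongr_inv,
      Scheme.residueFieldCongr_fromSpecResidueField,
      Scheme.Hom.SpecMap_residueFieldMap_fromSpecResidueField]
  have hij : Spec.map (i ≫ j) ≫ W.fromSpecResidueField z = b ≫ g := by
    rw [Spec.map_comp, Category.assoc, hi, ← Category.assoc, hj]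
  have hsq : W.residue z ≫ i ≫ j = CommRingCat.ofHom ((IsLocalRing.residue B).comp φB) := by
    apply Spec.map_injective
    rw [← cancel_mono (W.fromSpecStalk z)]
    have e1 : Spec.map (W.residue z ≫ i ≫ j) ≫ W.fromSpecStalk z =
        Spec.map (i ≫ j) ≫ W.fromSpecResidueField z := by
      rw [Spec.map_comp, Category.assoc]
      rfl
    have e2 : b ≫ g = Spec.map (CommRingCat.ofHom (IsLocalRing.residue B)) ≫
        Spec.map (CommRingCat.ofHom φB) ≫ W.fromSpecStalk z := by
      rw [← hρ]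
      exact Category.assoc _ _ _
    rw [e1, hij, e2, CommRingCat.ofHom_comp, Spec.map_comp, Category.assoc]
  obtain ⟨v₁, hv₁⟩ := hres (V.residueField z₁) i.hom j.hom (by
    intro a c hc
    have e1 : c = φB a := Subtype.ext hc
    have e2 := congrArg (fun q => q.hom a) hsq
    rw [e1]
    exact e2) (by
    have e1 : kf b = j.hom.fieldRange := rfl
    have e2 : kf (b ≫ g) = (j.hom.comp i.hom).fieldRange := by
      rw [← hij, hkf1]
      rfl
    rw [← e1, ← e2]
    have e3 : b ≫ g = Spec.map (CommRingCat.ofHom (IsLocalRing.residue B)) ≫ ρ ≫ g :=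
      Category.assoc _ _ _
    rw [e3]
    exact hk1)
  -- the generic point
  let a₁ : Spec (.of M) ⟶ V := Spec.map (CommRingCat.ofHom B.subtype) ≫ ρ
  have ha₁ : a₁ ≫ g =
      Spec.map (CommRingCat.ofHom ((algebraMap K M).comp φ)) ≫ W.fromSpecStalk z := by
    show (Spec.map (CommRingCat.ofHom B.subtype) ≫ ρ) ≫ g = _
    rw [Category.assoc, hρ, ← Category.assoc, ← Spec.map_comp]
    rfl
  have hkfg : kf (a₁ ≫ g) = (algebraMap K M).fieldRange := by
    rw [ha₁, CommRingCat.ofHom_comp, Spec.map_comp, Category.assoc, hkf3,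
      Nb_kf φ hloc.frac, RingHom.fieldRange_eq_map]
  have hkfa : kf a₁ = (algebraMap K M).fieldRange ⊔ Subfield.closure {(β : M)} := by
    rw [← hkfg]
    have e : a₁ ≫ g = Spec.map (CommRingCat.ofHom B.subtype) ≫ ρ ≫ g := Category.assoc _ _ _
    rw [e]
    exact hk2
  obtain ⟨L, hL1, hL2, hL3, hL4⟩ := hL (kf a₁) hkfa
  obtain ⟨η₁, hη, hne, hgen, -, -, hinj, -⟩ := h3 V z₁ (h2 V W g z₁ (hgz.symm ▸ hloc.dvr))
  refine ⟨V, g, z₁, η₁, hgz, v₁, a₁, L, hg, hv₁, ha₁, ?_, hη, hgen, hinj, hL1, hL2, hL3, hL4⟩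
  let x₀ : Spec (.of M) := (⊥ : PrimeSpectrum M)
  have hsp : a₁ x₀ ⤳ z₁ := by
    rw [hz₁]
    show ρ (Spec.map (CommRingCat.ofHom B.subtype) x₀) ⤳ _
    exact (IsLocalRing.specializes_closedPoint (R := B) _).map ρ.continuous
  rcases hgen _ hsp with h6 | h6
  · exfalso
    have h7 : (a₁ ≫ g) x₀ = z := by
      rw [Scheme.Hom.comp_apply, h6, hgz]
    rw [ha₁, Scheme.Hom.comp_apply] at h7
    have h8 : Spec.map (CommRingCat.ofHom ((algebraMap K M).comp φ)) x₀ =
        IsLocalRing.closedPoint (W.presheaf.stalk z) := by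
      apply (W.fromSpecStalk z).isEmbedding.injective
      rw [h7]
      exact Scheme.fromSpecStalk_closedPoint.symm
    obtain ⟨hdom, hdvr⟩ := hloc.dvr
    have h9 : IsLocalRing.maximalIdeal (W.presheaf.stalk z) = ⊥ := by
      have h10 : (IsLocalRing.closedPoint (W.presheaf.stalk z)).asIdeal =
          Ideal.comap ((algebraMap K M).comp φ) ⊥ := by
        rw [← h8]
        rfl
      have h11 : Ideal.comap ((algebraMap K M).comp φ) ⊥ = ⊥ :=
        (RingHom.injective_iff_ker_eq_bot _).1 ((algebraMap K M).injective.comp hloc.inj)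
      rw [← h11, ← h10]
      rfl
    exact IsDiscreteValuationRing.not_a_field (W.presheaf.stalk z) h9
  · exact ⟨x₀, h6⟩

end TPU
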