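import Pool.Agent.TPU.St3

/-!
# TPU, module Norm: the norm argument for sheaves of modules and a torsor of invertible order
-/

set_option autoImplicit false

universe u

open CategoryTheory Limits AlgebraicGeometry Opposite

namespace TPU

section aux

variable {C : Type (u + 1)} [Category.{u} C] (J : GrothendieckTopology C) (R : Type (u + 1))
  [CommRing R] (F : Sheaf J (ModuleCat.{u + 1} R))

private theorem Norm_sheaf : Presieve.IsSheaf J (F.obj ⋙ forget (ModuleCat.{u + 1} R)) := by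
  rw [← isSheaf_iff_isSheaf_of_type]
  exact (Presheaf.isSheaf_iff_isSheaf_forget J F.obj (forget (ModuleCat.{u + 1} R))).mp F.property

private theorem Norm_sep {X : C} (S : Sieve X) (hS : S ∈ J X) (x y : F.obj.obj (op X))
    (h : ∀ ⦃Y : C⦄ (f : Y ⟶ X), S f → (F.obj.map f.op).hom x = (F.obj.map f.op).hom y) :
    x = y := by
  have h1 := ((Norm_sheaf J R F) S hS).isSeparatedFor
  exact h1.ext (t₁ := x) (t₂ := y) (fun Y f hf => h f hf)

private theorem Norm_glue {E V : C} (π : E ⟶ V)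
    (hc : Sieve.generate (Presieve.singleton π) ∈ J V) (x : F.obj.obj (op E))
    (h : ∀ ⦃Z : C⦄ (s t : Z ⟶ E), s ≫ π = t ≫ π →
      (F.obj.map s.op).hom x = (F.obj.map t.op).hom x) :
    ∃ y, (F.obj.map π.op).hom y = x := by
  have h1 := (Presieve.isSheafFor_iff_generate _).mpr ((Norm_sheaf J R F) _ hc)
  rw [Presieve.isSheafFor_singleton] at h1
  obtain ⟨y, hy, -⟩ := h1 x (fun {Z} s t hst => h s t hst)
  exact ⟨y, hy⟩

private theorem Norm_comp {X Y Z : C} (f : X ⟶ Y) (g : Y ⟶ Z) (x : F.obj.obj (op Z)) :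
    (F.obj.map (f ≫ g).op).hom x = (F.obj.map f.op).hom ((F.obj.map g.op).hom x) := by
  rw [op_comp, F.obj.map_comp]
  rfl

end aux

theorem thm_Norm : St_Norm.{u} := by
  intro C _ J R _ F G φ E V π Δ _ _ act hT hu b a hab
  classical
  have hfin : Fintype Δ := Fintype.ofFinite Δ
  obtain ⟨N, hN⟩ : ∃ N : F.obj.obj (op E), N = ∑ δ : Δ, (F.obj.map (act δ).op).hom a := ⟨_, rfl⟩
  have hinv : ∀ ε, (F.obj.map (act ε).op).hom N = N := by
    intro ε
    rw [hN, map_sum]
    refine Fintype.sum_equiv (Equiv.mulLeft ε) _ _ fun δ => ?_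
    rw [Equiv.coe_mulLeft, hT.mul, Norm_comp]
  have hst : ∀ ⦃Z : C⦄ (s t : Z ⟶ E), s ≫ π = t ≫ π →
      (F.obj.map s.op).hom N = (F.obj.map t.op).hom N := by
    intro Z s t h
    obtain ⟨S, hS, hloc⟩ := hT.loc Z s t h
    refine Norm_sep J R F S hS _ _ fun Y f hf => ?_
    obtain ⟨δ, hδ⟩ := hloc f hf
    rw [← Norm_comp, ← Norm_comp, hδ, ← Category.assoc, Norm_comp J R F (f ≫ s) (act δ), hinv]
  obtain ⟨N', hN'⟩ := Norm_glue J R F π hT.cov N hst
  have hnat : ∀ {X Y : C} (f : X ⟶ Y) (x : F.obj.obj (op Y)),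
      (φ.hom.app (op X)).hom ((F.obj.map f.op).hom x) =
        (G.obj.map f.op).hom ((φ.hom.app (op Y)).hom x) := by
    intro X Y f x
    have h1 := φ.hom.naturality f.op
    have h2 := congrArg (fun m => m.hom x) h1
    exact h2
  have hkey : (φ.hom.app (op V)).hom N' = ((Nat.card Δ : ℕ) : R) • b := by
    have hinj : ∀ x y : G.obj.obj (op V), (G.obj.map π.op).hom x = (G.obj.map π.op).hom y →
        x = y := by
      intro x y hxy
      refine Norm_sep J R G _ hT.cov x y fun Y f hf => ?_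
      obtain ⟨W, h, g, hg, rfl⟩ := hf
      obtain ⟨⟩ := hg
      rw [Norm_comp, Norm_comp, hxy]
    apply hinj
    rw [← hnat, hN', hN, map_sum, map_smul, Nat.card_eq_fintype_card]
    have h3 : ∀ δ : Δ, (φ.hom.app (op E)).hom ((F.obj.map (act δ).op).hom a) =
        (G.obj.map π.op).hom b := by
      intro δ
      rw [hnat, hab, ← Norm_comp, hT.ov]
    rw [Finset.sum_congr rfl fun δ _ => h3 δ, Finset.sum_const, Finset.card_univ,
      Nat.cast_smul_eq_nsmul]
  obtain ⟨v, hv⟩ := hu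
  refine ⟨(↑v⁻¹ : R) • N', ?_⟩
  rw [map_smul, hkey, ← hv, smul_smul, Units.inv_mul, one_smul]

end TPU
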