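import Pool.Agent.TPU.St1

/-!
# TPU, module Pol: the minimal polynomial of `β` is integral, with unit derivative; fixed field
-/

set_option autoImplicit false

universe u

open Polynomial

namespace TPU

/-- The product of `X - b`, `b` in a valuation ring, has coefficients in the valuation ring. -/
theorem Pol_coeff_mem {M : Type u} [Field M] (B : ValuationSubring M) (S : Multiset M)
    (hS : ∀ b ∈ S, b ∈ B) (n : ℕ) : ((S.map fun b => X - C b).prod).coeff n ∈ B := by
  have h1 : (S.map fun b => X - C b).prod ∈ Polynomial.lifts B.subtype := by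
    apply multiset_prod_mem
    intro q hq
    obtain ⟨b, hb, rfl⟩ := Multiset.mem_map.1 hq
    rw [sub_eq_add_neg, ← C_neg]
    exact add_mem (X_mem_lifts _) (C'_mem_lifts ⟨⟨-b, B.neg_mem _ (hS b hb)⟩, rfl⟩)
  rw [lifts_iff_coeff_lifts] at h1
  obtain ⟨b, hb⟩ := h1 n
  rw [← hb]
  exact b.2

/-- A product of units of a valuation ring. -/
theorem Pol_prod_unit {M : Type u} [Field M] (B : ValuationSubring M) (S : Multiset M)
    (hS : ∀ b ∈ S, b ∈ B ∧ b ∉ B.nonunits) : S.prod ∈ B ∧ S.prod ∉ B.nonunits := by
  have h1 : B.valuation S.prod = 1 := by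
    induction S using Multiset.induction_on with
    | empty => simp
    | cons a S ih =>
      rw [Multiset.prod_cons, map_mul, ih fun b hb => hS b (Multiset.mem_cons_of_mem hb), mul_one]
      obtain ⟨h2, h3⟩ := hS a (Multiset.mem_cons_self a S)
      rw [ValuationSubring.mem_nonunits_iff, not_lt] at h3
      exact le_antisymm ((B.valuation_le_one_iff a).2 h2) h3
  constructor
  · rw [← B.valuation_le_one_iff, h1]
  · rw [ValuationSubring.mem_nonunits_iff, h1]
    exact lt_irrefl _

theorem thm_Pol : St_Pol.{u} := by
  classical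
  intro A K M _ _ _ _ _ _ φ B T β hφ hA hB hT hN
  have hint : IsIntegral K β := IsIntegral.of_finite K β
  -- the minimal polynomial over `M`
  have hsplit : ((minpoly K β).map (algebraMap K M)).Splits := IsGalois.splits K β
  have hroots : (minpoly K β).map (algebraMap K M) =
      (((minpoly K β).aroots M).map fun b => X - C b).prod := by
    have h1 := hsplit.eq_prod_roots
    rw [((minpoly.monic hint).map (algebraMap K M)).leadingCoeff, C_1, one_mul] at h1
    exact h1
  have hconj : ∀ b ∈ (minpoly K β).aroots M, ∃ σ : M ≃ₐ[K] M, σ β = b := by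
    intro b hb
    exact minpoly.exists_algEquiv_of_root' hint.isAlgebraic ((mem_aroots.1 hb).2)
  have hmemB : ∀ b ∈ (minpoly K β).aroots M, b ∈ B := by
    intro b hb
    obtain ⟨σ, rfl⟩ := hconj b hb
    exact hB σ
  have hcoeff : ∀ n, ∃ a, φ a = (minpoly K β).coeff n := by
    intro n
    rw [← hA, ← coeff_map, hroots]
    exact Pol_coeff_mem B _ hmemB n
  have hlift : minpoly K β ∈ Polynomial.lifts φ := by
    rw [lifts_iff_coeff_lifts]
    intro n
    exact hcoeff n
  obtain ⟨h, hh⟩ := (mem_lifts _).1 hlift
  have hmonic : h.Monic := by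
    apply (Function.Injective.monic_map_iff hφ).2
    rw [hh]
    exact minpoly.monic hint
  have heval : ∀ q : A[X], q.eval₂ ((algebraMap K M).comp φ) β = aeval β (q.map φ) := by
    intro q
    rw [aeval_def, eval₂_map]
  have hfix : ∀ σ : M ≃ₐ[K] M, σ β = β → σ ∈ T := by
    intro σ hσ
    by_contra h1
    apply hN σ h1
    rw [hσ, sub_self]
    exact B.nonunits.zero_mem
  refine ⟨⟨h, hmonic, ?_, ?_⟩, ?_⟩
  · rw [heval, hh, minpoly.aeval]
  · have hβ : β ∈ (minpoly K β).aroots M := by
      rw [mem_aroots]
      exact ⟨minpoly.ne_zero hint, minpoly.aeval K β⟩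
    have hder : (derivative h).eval₂ ((algebraMap K M).comp φ) β =
        ((((minpoly K β).aroots M).erase β).map fun b => β - b).prod := by
      rw [heval, ← derivative_map, hh, aeval_def, ← eval_map, ← derivative_map, hroots,
        eval_multiset_prod_X_sub_C_derivative hβ]
    have hnd : ((minpoly K β).aroots M).Nodup := by
      apply nodup_roots
      have hsep : (minpoly K β).Separable := Algebra.IsSeparable.isSeparable K β
      exact hsep.map
    rw [hder]
    apply Pol_prod_unit
    intro c hc
    obtain ⟨b, hb, rfl⟩ := Multiset.mem_map.1 hc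
    have hb1 := Multiset.mem_of_mem_erase hb
    have hb2 : b ≠ β := by
      intro h1
      rw [h1] at hb
      exact (Multiset.Nodup.mem_erase_iff hnd).1 hb |>.1 rfl
    obtain ⟨σ, rfl⟩ := hconj b hb1
    refine ⟨sub_mem (hmemB β hβ) (hB σ), ?_⟩
    exact hN σ fun h1 => hb2 (hT σ h1)
  · intro x
    constructor
    · intro hx σ hσ
      have h1 : IntermediateField.adjoin K {β} ≤ IntermediateField.fixedField T := by
        rw [IntermediateField.adjoin_le_iff]
        rintro y rfl
        rw [SetLike.mem_coe, IntermediateField.mem_fixedField_iff]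
        intro τ hτ
        exact hT τ hτ
      have h2 := h1 hx
      rw [IntermediateField.mem_fixedField_iff] at h2
      exact h2 σ hσ
    · intro hx
      rw [← IsGalois.fixedField_fixingSubgroup (IntermediateField.adjoin K {β}),
        IntermediateField.mem_fixedField_iff]
      intro σ hσ
      apply hx
      apply hfix
      exact (IntermediateField.mem_fixingSubgroup_iff _ _).1 hσ β
        (IntermediateField.mem_adjoin_simple_self K β)

end TPU
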