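import Pool.Agent.TPU.Defs

/-!
# TPU: statements of the modules, group 1 (algebra), with complete proofs in the docstrings

Every module `TPU/<Name>.lean` proves `theorem TPU.thm_<Name> : TPU.St_<Name>.{u}`
(hypotheses as stated in the offer).
-/

set_option autoImplicit false

universe u

open CategoryTheory Limits AlgebraicGeometry Opposite

namespace TPU

/-- **Conj**. Transitivity of the Galois group on the extensions of a valuation.
Proof. Let `O = u ∩ K = u' ∩ K`, `A'` the integral closure of `O` in `M`; `G = Gal(M/K)` acts on `A'`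
with invariants `O`. `P = m_u ∩ A'`, `P' = m_{u'} ∩ A'` are primes over `m_O` (`A' ⊆ u, u'`, valuation
rings are integrally closed), so there is `σ ∈ G` with `σ P = P'`
(`Algebra.IsInvariant.exists_smul_of_under_eq`). Claim: `u = {x | ∃ s ∈ A' \ P, x s ∈ A'}`; the same
for `u'`; hence `x ∈ u ↔ σ x ∈ u'`. `⊇`: `s ∈ A' \ P` is a unit of `u`. `⊆`: let `x ∈ u`; there is
`f = ∑ a_i X^i`, `f(x) = 0`, `a_i ∈ O`, some `a_i` a unit of `O` (divide by a coefficient of maximal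
value). Let `k` be the largest index with `a_k` a unit, `y = ∑_{i ≥ k} a_i x^{i-k}`. Then
`y ≡ a_k mod m_u` is a unit of `u`; `k ≥ 1` (otherwise `y = f(x) = 0`). `y` and `x y` lie in every
valuation ring `u''` of `M` which contains `O`: clear if `x ∈ u''`; otherwise `x⁻¹ ∈ u''` and
`y = -∑_{i<k} a_i x^{i-k}`, `x y = -∑_{i<k} a_i x^{i-k+1}`, where all exponents are `≤ 0`. So `y` and `x y`
are integral over `O` (`Mathlib.RingTheory.Valuation.LocalSubring`: the integral closure is the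
intersection of the valuation rings) and `s = y`. -/
def St_Conj : Prop :=
  ∀ (K M : Type u) [Field K] [Field M] [Algebra K M] [FiniteDimensional K M] [IsGalois K M]
    (u u' : ValuationSubring M), u.comap (algebraMap K M) = u'.comap (algebraMap K M) →
    ∃ σ : M ≃ₐ[K] M, ∀ x, x ∈ u ↔ σ x ∈ u'

/-- **VExt**. Extension of valuations to arbitrary field extensions.
Proof. The image of `v` in `L` is a local subring; it is dominated by a valuation ring `w` of `L`
(`LocalSubring.exists_le_valuationSubring`). `w ∩ K ⊇ v`; if `x ∈ w ∩ K`, `x ∉ v`, then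
`x⁻¹ ∈ m_v ⊆ m_w`, a contradiction. -/
def St_VExt : Prop :=
  ∀ (K L : Type u) [Field K] [Field L] (φ : K →+* L) (v : ValuationSubring K),
    ∃ w : ValuationSubring L, w.comap φ = v

/-- **Grp**. `G` a finite group, `J ≤ I` subgroups, `N` the subgroup generated by the elements of
`p`-power order of `I`, `T = N ⊔ J`: `N ≤ T ≤ I`, `N` is normal in `I` (conjugation permutes the
generators), so in `T`; the index `(T : N)` divides `(I : N)`, which is prime to `p` (`N` contains a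
Sylow `p`-subgroup of `I`). -/
def St_Grp : Prop :=
  ∀ (p : ℕ) [Fact p.Prime] (G : Type u) [Group G] [Finite G] (I J : Subgroup G), J ≤ I →
    ∃ N T : Subgroup G, N ≤ T ∧ J ≤ T ∧ T ≤ I ∧ (N.subgroupOf T).Normal ∧
      ¬ p ∣ (N.subgroupOf T).index ∧ (∀ σ ∈ I, (∃ n : ℕ, σ ^ p ^ n = 1) → σ ∈ N) ∧
      ∀ H : Subgroup G, (∀ σ ∈ I, (∃ n : ℕ, σ ^ p ^ n = 1) → σ ∈ H) → N ≤ H

/-- **Beta**. `G` finite acting on a ring `A` of characteristic `p`, `𝔪` a maximal ideal, `T ≤ G`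
stabilizes `𝔪` and contains the inertia group of `𝔪`. Then there is a `T`-invariant `β ∈ A` with
`β ≢ σβ mod 𝔪` for all `σ ∉ T`.
Proof. `D = {σ | σ𝔪 = 𝔪} ⊇ T` acts on the field `κ = A/𝔪`; the kernel `I` of `D → Aut κ` is the
inertia group, `I ≤ T`. `κ` is Galois over `κ^D` with group `D/I` (Artin) and `κ^T/κ^D` is separable:
let `α ∈ κ^T` be a primitive element, `α ≠ 0` (take `α = 1` if `κ^T = κ^D`). If `σ ∈ D`, `σα = α`, then
`σ` fixes `κ^T`, so it acts as an element of `T` on `κ` (Galois theory), so `σ ∈ T I = T`. By the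
Chinese remainder theorem (finitely many maximal ideals `σ𝔪`) there is `θ ∈ A`, `θ ≡ α mod 𝔪`,
`θ ∈ σ𝔪` for all `σ ∉ D`. Let `P = ∏_{τ ∈ T} (X - τθ) ∈ A[X]` (its coefficients are `T`-invariant),
`|T| = p^a m`, `p ∤ m`, and `β` = the coefficient of `X^{p^a (m-1)}` in `P`. Modulo `𝔪`:
`τθ ≡ τα = α`, so `P ≡ (X - α)^{p^a m} = (X^{p^a} - α^{p^a})^m` and `β ≡ -m α^{p^a} ≠ 0`. Let
`σ ∈ D \ T`: `σβ ≡ -m (σα)^{p^a} ≠ -m α^{p^a}` (Frobenius is injective). Let `σ ∉ D`: for `τ ∈ T`,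
`(στ)⁻¹ ∉ D`, so `θ ∈ (στ)⁻¹𝔪`, `τθ ∈ σ⁻¹𝔪`; so `P ≡ X^{|T|} mod σ⁻¹𝔪` and `β ∈ σ⁻¹𝔪`
(`p^a (m-1) < |T|`), `σβ ∈ 𝔪`, but `β ∉ 𝔪`. -/
def St_Beta : Prop :=
  ∀ (p : ℕ) [Fact p.Prime] (A G : Type u) [CommRing A] [CharP A p] [Group G] [Finite G]
    [MulSemiringAction G A] (m : Ideal A) [m.IsMaximal] (T : Subgroup G),
    (∀ σ ∈ T, ∀ x ∈ m, σ • x ∈ m) → (∀ σ : G, (∀ x : A, σ • x - x ∈ m) → σ ∈ T) →
    ∃ β : A, (∀ σ ∈ T, σ • β = β) ∧ ∀ σ : G, σ ∉ T → β - σ • β ∉ m

/-- The local situation: `A` a discrete valuation ring with fraction field `K` (`φ`) and residue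
field `κ` (`ρ`), `v` a valuation ring of `κ`, `w` the composite valuation ring of `K`. -/
structure Loc (A K κ : Type u) [CommRing A] [Field K] [Field κ] (φ : A →+* K) (ρ : A →+* κ)
    (v : ValuationSubring κ) (w : ValuationSubring K) : Prop where
  dvr : IsDvr A
  inj : Function.Injective φ
  frac : ∀ x : K, ∃ a b : A, φ b ≠ 0 ∧ x * φ b = φ a
  surj : Function.Surjective ρ
  mem : ∀ x : K, x ∈ w ↔ ∃ y : A, φ y = x ∧ ρ y ∈ v

/-- **BB**. The coarsening of `u` over `A`.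
Proof. `B = {x ∈ M | ∃ a : A, a a unit, ρ a ∈ v, φ(a) x ∈ u}` is a subring (product of the `a`'s)
containing `u`, so a valuation ring. `B ∩ K = A`: if `φ(a) x ∈ u ∩ K = w ⊆ φ(A)`, then `x ∈ φ(A)`; if
`x = φ(y)`: if `ρ(y) ∈ v` then `x ∈ w ⊆ u`; otherwise `y` is a unit, `ρ(y⁻¹) ∈ v`, `a = y⁻¹`.
If `σ` is in the inertia group of `u` then `σ u ⊆ u` and `σ(φ a) = φ a`, so `σ B ⊆ B`. The
non-units of `B` are non-units of `u` (`x⁻¹ ∈ u` implies `x⁻¹ ∈ B`), so the inertia group of `B` is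
contained in the one of `u`. -/
def St_BB : Prop :=
  ∀ (A K κ M : Type u) [CommRing A] [Field K] [Field κ] [Field M] [Algebra K M] (φ : A →+* K)
    (ρ : A →+* κ) (v : ValuationSubring κ) (w : ValuationSubring K) (u : ValuationSubring M),
    Loc A K κ φ ρ v w → u.comap (algebraMap K M) = w →
    ∃ B : ValuationSubring M, u ≤ B ∧ (∀ x : K, algebraMap K M x ∈ B ↔ ∃ a, φ a = x) ∧
      (∀ x ∈ B.nonunits, x ∈ u.nonunits) ∧
      (∀ σ : M ≃ₐ[K] M, (∀ x ∈ u, σ x - x ∈ u.nonunits) → ∀ x ∈ B, σ x ∈ B) ∧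
      ∀ x ∈ B, ∃ a : A, IsUnit a ∧ ρ a ∈ v ∧ algebraMap K M (φ a) * x ∈ u

/-- **BetaB** (uses `Beta`). The element `β` for the valuation ring `B` of `M` over `A`.
Proof. Let `A'` be the integral closure of `A` in `M` (the ring of the `x ∈ M` integral over `A`), on
which `G = Gal(M/K)` acts; `A' ⊆ σB` for all `σ`; `𝔪 = m_B ∩ A'` is a prime over `m_A` (since `B ∩ K = A`),
so maximal (`A'/𝔪` is an integral domain integral over the field `A/m_A`). `T` stabilizes `𝔪` (`σB = B`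
for `σ ∈ T`: `σB ⊆ B` and finite order). If `σ x - x ∈ 𝔪` for all `x ∈ A'` then `σ` is in the inertia group
of `B`: `B` is the localization of `A'` at `𝔪` (`A'` is a Dedekind domain; or: the description of `u` in
the proof of `Conj`), so for `x = a/s`, `a, s ∈ A'`, `s ∉ 𝔪`:
`σ(a)/σ(s) - a/s = ((σa - a) s - a (σs - s))/(s σ(s)) ∈ m_B`. Now `Beta` applies to `A'`, `𝔪`, `T`. -/
def St_BetaB : Prop :=
  ∀ (p : ℕ) [Fact p.Prime] (A K κ M : Type u) [CommRing A] [Field K] [Field κ] [Field M]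
    [Algebra K M] [FiniteDimensional K M] [IsGalois K M] (φ : A →+* K) (ρ : A →+* κ)
    (v : ValuationSubring κ) (w : ValuationSubring K) (B : ValuationSubring M)
    (T : Subgroup (M ≃ₐ[K] M)), Loc A K κ φ ρ v w → (p : K) = 0 →
    (∀ x : K, algebraMap K M x ∈ B ↔ ∃ a, φ a = x) → (∀ σ ∈ T, ∀ x ∈ B, σ x ∈ B) →
    (∀ σ : M ≃ₐ[K] M, (∀ x ∈ B, σ x - x ∈ B.nonunits) → σ ∈ T) →
    ∃ β : M, (∀ σ : M ≃ₐ[K] M, σ β ∈ B) ∧ (∀ σ ∈ T, σ β = β) ∧
      ∀ σ : M ≃ₐ[K] M, σ ∉ T → β - σ β ∉ B.nonunits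

/-- **Pol**. The minimal polynomial `h` of `β` over `K` has coefficients in `A` and `h'(β)` is a
unit of `B`; and `K(β) = M^T`.
Proof. `h = ∏ (X - β')` over the conjugates `β' = σβ` of `β`; the coefficients are in `B ∩ K = A`;
`h'(β) = ∏_{β' ≠ β} (β - β')`, `β' = σβ ≠ β` implies `σ ∉ T`, so every factor is in `B` and not a
non-unit, and the non-units are a prime ideal. The stabilizer of `β` is `T` (for `σ ∉ T`
`β - σβ ≠ 0`), Galois correspondence. -/
def St_Pol : Prop :=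
  ∀ (A K M : Type u) [CommRing A] [Field K] [Field M] [Algebra K M] [FiniteDimensional K M]
    [IsGalois K M] (φ : A →+* K) (B : ValuationSubring M) (T : Subgroup (M ≃ₐ[K] M)) (β : M),
    Function.Injective φ → (∀ x : K, algebraMap K M x ∈ B ↔ ∃ a, φ a = x) →
    (∀ σ : M ≃ₐ[K] M, σ β ∈ B) → (∀ σ ∈ T, σ β = β) →
    (∀ σ : M ≃ₐ[K] M, σ ∉ T → β - σ β ∉ B.nonunits) →
    (∃ h : Polynomial A, h.Monic ∧ h.eval₂ ((algebraMap K M).comp φ) β = 0 ∧
      (Polynomial.derivative h).eval₂ ((algebraMap K M).comp φ) β ∈ B ∧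
      (Polynomial.derivative h).eval₂ ((algebraMap K M).comp φ) β ∉ B.nonunits) ∧
    ∀ x : M, x ∈ IntermediateField.adjoin K {β} ↔ ∀ σ ∈ T, σ x = x

/-- **Res** (uses `Pol`). The residue extension generated by `β̄` is tame.
Proof. Let `κ_B = B/m_B`, an extension of `κ = A/m_A` (`i₀ : κ → κ_B`, well defined as
`B ∩ K = A`); it is finite and normal over `κ`: it is `A'/𝔪` for `A'`, `𝔪` as in `BetaB`
(`Ideal.Quotient.normal`), and the stabilizer `D` of `𝔪` maps onto `Aut(κ_B/κ)`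
(`Ideal.Quotient.stabilizerHom_surjective`). `ū = {x̄ | x ∈ u}` is a valuation ring of `κ_B` and
`x ∈ u ↔ x̄ ∈ ū`, `x ∈ m_u ↔ x̄ ∈ m_ū` for `x ∈ B` (`m_B ⊆ m_u`). Put `v₁ = ` preimage of `ū` in `κ₁`.
`v₁ ∩ κ = v`: for `c = ρ(a)`: the residue of `φ(a)` is in `ū` iff `φ(a) ∈ u ∩ K = w` iff `ρ(a) ∈ v`
(if `φ a = φ y`, then `a = y`). `β̄` is a simple zero of the reduction of `h` (`Pol`), so it is separable
over `κ`. Let `M̄` = separable closure of `κ` in `κ_B`, Galois over `κ`, finite; it contains (the image of)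
`κ₁ = κ(β̄)`. Let `σ̄ ∈ Gal(M̄/κ)` be of `p`-power order and in the inertia group of `ū ∩ M̄`. It extends to
`κ_B` (normal), and lifts to `σ ∈ D`; replacing `σ` by a power `σ^{m'}`, `m' ≡ 1 mod p^b`,
`m' ≡ 0 mod m` (order of `σ` `= p^a m`, order of `σ̄` `= p^b`) we may assume that `σ` has `p`-power
order. `σ` is in the inertia group of `u`: for `x ∈ u`, `x̄^{p^e} ∈ M̄` for some `e` (`κ_B/M̄` is purely
inseparable), so `(σx̄ - x̄)^{p^e} = σ̄(x̄^{p^e}) - x̄^{p^e} ∈ m_ū`, so `σx̄ - x̄ ∈ m_ū`,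
`σx - x ∈ m_u`. By hypothesis `σ ∈ T`, `σβ = β`, `σ̄β̄ = β̄`. -/
def St_Res : Prop :=
  ∀ (p : ℕ) [Fact p.Prime] (A K κ M : Type u) [CommRing A] [Field K] [Field κ] [Field M]
    [Algebra K M] [FiniteDimensional K M] [IsGalois K M] (φ : A →+* K) (ρ : A →+* κ)
    (v : ValuationSubring κ) (w : ValuationSubring K) (u B : ValuationSubring M)
    (T : Subgroup (M ≃ₐ[K] M)) (β : B), Loc A K κ φ ρ v w → (p : K) = 0 →
    u.comap (algebraMap K M) = w → u ≤ B →
    (∀ x : K, algebraMap K M x ∈ B ↔ ∃ a, φ a = x) →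
    (∀ σ : M ≃ₐ[K] M, (∀ x ∈ u, σ x - x ∈ u.nonunits) → (∃ n : ℕ, σ ^ p ^ n = 1) → σ ∈ T) →
    (∀ σ : M ≃ₐ[K] M, σ β ∈ B) → (∀ σ ∈ T, σ (β : M) = β) →
    (∀ σ : M ≃ₐ[K] M, σ ∉ T → (β : M) - σ β ∉ B.nonunits) →
    ∀ (κ₁ : Type u) [Field κ₁] (i : κ →+* κ₁) (j : κ₁ →+* IsLocalRing.ResidueField B),
      (∀ (a : A) (b : B), (b : M) = algebraMap K M (φ a) → j (i (ρ a)) = IsLocalRing.residue B b) →
      j.fieldRange = (j.comp i).fieldRange ⊔ Subfield.closure {IsLocalRing.residue B β} →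
      ∃ v₁ : ValuationSubring κ₁,
        (∀ c, c ∈ v₁ ↔ ∃ x : B, (x : M) ∈ u ∧ IsLocalRing.residue B x = j c) ∧ Tame p i v v₁

/-- **GalA**. Spreading out a finite Galois extension `L/K` from the generic point of a domain `C`.
Proof. Let `γ` be a primitive element of `L/K` (`G = Gal(L/K)`), `m(X) ∈ K[X]` its minimal polynomial,
`σγ = g_σ(γ)`, `g_σ ∈ K[X]`. Choose `c ≠ 0` in `C` such that for `O = C[1/c] ⊆ K`: `m` and all `g_σ` have
coefficients in `O` and the discriminant `∏_{σ ≠ τ} (σγ - τγ)` of `m` (an element of `K^*`, in `O`) is a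
unit of `O`. `F = O[γ] ≅ O[X]/(m)` (`m` monic) is finite and étale over `O` (`m'(γ)` divides the
discriminant, a unit of `F`), contained in `L`, `Frac F = L`, stable under `G`. In `F[Y]`:
`m(Y) = ∏_σ (Y - σγ)`. Let `Ω` be a separably closed field, `c : O → Ω`. The image of `m` in `Ω[X]` is
separable (discriminant a unit), so it has a root in `Ω`, so there is `s : F → Ω` over `c`. Let
`s, t : F → Ω` be over `c`. `t(γ)` is a root of the image of `m`, `m(Y) = ∏_σ (Y - s(σγ))` in `Ω[Y]`, so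
`t(γ) = s(σγ)` for a `σ`, unique since the `s(σγ)` are different; so `t = s ∘ σ` (`F` is generated by
`γ` over `O`). Here `O` is any localization `C → O` at the powers of `c`. -/
def St_GalA : Prop :=
  ∀ (C K L : Type u) [CommRing C] [IsDomain C] [Field K] [Algebra C K] [IsFractionRing C K]
    [Field L] [Algebra K L] [FiniteDimensional K L] [IsGalois K L],
    ∃ c : C, c ≠ 0 ∧ ∃ (F : Type u) (_ : CommRing F) (_ : Algebra (Localization.Away c) F)
      (j : F →+* L) (act : (L ≃ₐ[K] L) → (F →+* F)),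
      Algebra.Etale (Localization.Away c) F ∧ Module.Finite (Localization.Away c) F ∧
      Function.Injective j ∧
      (∀ x : C, j (algebraMap (Localization.Away c) F (algebraMap C _ x)) =
        algebraMap K L (algebraMap C K x)) ∧
      (∀ y : L, ∃ a b : F, b ≠ 0 ∧ y * j b = j a) ∧
      (∀ σ x, j (act σ x) = σ (j x)) ∧
      (∀ σ (x : Localization.Away c), act σ (algebraMap _ F x) = algebraMap _ F x) ∧
      ∀ (Ω : Type u) [Field Ω] [IsSepClosed Ω] (e : Localization.Away c →+* Ω),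
        (∃ s : F →+* Ω, s.comp (algebraMap _ F) = e) ∧
        ∀ s t : F →+* Ω, s.comp (algebraMap _ F) = e → t.comp (algebraMap _ F) = e →
          ∃! σ : L ≃ₐ[K] L, t = s.comp (act σ)

end TPU
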