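import Pool.Agent.TPU.Defs2
import Pool.Agent.TPU.St1

/-!
# TPU, module Res: the residue extension generated by `β` is tame
-/

set_option autoImplicit false

universe u

namespace TPU

/-! ## 1. Elements of `B` are fractions of elements all conjugates of which are in `B` -/

private theorem Res_sum {M : Type u} [Field M] (B : ValuationSubring M) (b : ℕ → M)
    (hb : ∀ i, b i ∈ B) (k m : ℕ) (t : M) (h : ∑ i ∈ Finset.range (k + m), b i * t ^ i = 0) :
    (∑ i ∈ Finset.range m, b (k + i) * t ^ i) ∈ B ∧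
      (∑ i ∈ Finset.range m, b (k + i) * t ^ i) * t ∈ B := by
  by_cases ht : t ∈ B
  · have h1 : (∑ i ∈ Finset.range m, b (k + i) * t ^ i) ∈ B :=
      sum_mem fun i _ => mul_mem (hb _) (pow_mem ht _)
    exact ⟨h1, mul_mem h1 ht⟩
  · have ht0 : t ≠ 0 := by
      rintro rfl
      exact ht (zero_mem B)
    have hti : t⁻¹ ∈ B := (B.mem_or_inv_mem t).resolve_left ht
    have hsplit : ∑ i ∈ Finset.range k, b i * t ^ i +
        t ^ k * ∑ i ∈ Finset.range m, b (k + i) * t ^ i = 0 := by
      rw [Finset.sum_range_add] at h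
      rw [← h, Finset.mul_sum]
      congr 1
      refine Finset.sum_congr rfl fun i _ => ?_
      rw [pow_add]
      ring
    rcases k with _ | k
    · rw [Finset.range_zero, Finset.sum_empty, pow_zero, one_mul, zero_add] at hsplit
      rw [hsplit, zero_mul]
      exact ⟨zero_mem B, zero_mem B⟩
    · have key : (∑ i ∈ Finset.range m, b (k + 1 + i) * t ^ i) * t =
          -∑ i ∈ Finset.range (k + 1), b i * (t⁻¹) ^ (k - i) := by
        apply mul_left_cancel₀ (pow_ne_zero k ht0)
        rw [mul_neg, Finset.mul_sum]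
        have h1 : ∀ i ∈ Finset.range (k + 1), t ^ k * (b i * (t⁻¹) ^ (k - i)) = b i * t ^ i := by
          intro i hi
          have hik : i ≤ k := Nat.lt_succ_iff.1 (Finset.mem_range.1 hi)
          obtain ⟨e, rfl⟩ := Nat.exists_eq_add_of_le hik
          rw [Nat.add_sub_cancel_left, inv_pow, pow_add]
          field_simp
        rw [Finset.sum_congr rfl h1]
        linear_combination hsplit
      have h2 : (∑ i ∈ Finset.range m, b (k + 1 + i) * t ^ i) * t ∈ B := by
        rw [key]
        exact neg_mem (sum_mem fun i _ => mul_mem (hb _) (pow_mem hti _))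
      refine ⟨?_, h2⟩
      have h3 := mul_mem h2 hti
      rwa [mul_assoc, mul_inv_cancel₀ ht0, mul_one] at h3

private theorem Res_frac {K M : Type u} [Field K] [Field M] [Algebra K M] [FiniteDimensional K M]
    (B : ValuationSubring M) (x : M) (hx : x ∈ B) :
    ∃ z : M, z ∈ B ∧ z ∉ B.nonunits ∧ ∀ σ : M ≃ₐ[K] M, σ z ∈ B ∧ σ (z * x) ∈ B := by
  classical
  obtain ⟨f, hf⟩ : ∃ f : Polynomial K, f = minpoly K x := ⟨_, rfl⟩
  have hmon : f.Monic := hf ▸ minpoly.monic (Algebra.IsIntegral.isIntegral x)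
  have hroot : Polynomial.aeval x f = 0 := hf ▸ minpoly.aeval K x
  obtain ⟨val, hval⟩ : ∃ val : ℕ → B.ValueGroup,
      val = fun i => B.valuation (algebraMap K M (f.coeff i)) := ⟨_, rfl⟩
  obtain ⟨k₀, hk₀, hmax⟩ := Finset.exists_max_image (Finset.range (f.natDegree + 1)) val
    ⟨0, Finset.mem_range.2 (Nat.succ_pos _)⟩
  obtain ⟨S, hS⟩ : ∃ S : Finset ℕ,
      S = (Finset.range (f.natDegree + 1)).filter (fun i => val k₀ ≤ val i) := ⟨_, rfl⟩
  have hSne : S.Nonempty := ⟨k₀, by rw [hS]; exact Finset.mem_filter.2 ⟨hk₀, le_rfl⟩⟩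
  obtain ⟨k, hk, hkmax⟩ : ∃ k ∈ S, ∀ i ∈ S, i ≤ k :=
    ⟨S.max' hSne, S.max'_mem hSne, fun i hi => S.le_max' i hi⟩
  rw [hS, Finset.mem_filter, Finset.mem_range] at hk
  have hkn : k ≤ f.natDegree := Nat.lt_succ_iff.1 hk.1
  have hle : ∀ i, val i ≤ val k := by
    intro i
    by_cases hi : i ∈ Finset.range (f.natDegree + 1)
    · exact (hmax i hi).trans hk.2
    · have h0 : f.coeff i = 0 := by
        refine Polynomial.coeff_eq_zero_of_natDegree_lt ?_
        rw [Finset.mem_range] at hi
        omega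
      rw [hval]
      show B.valuation (algebraMap K M (f.coeff i)) ≤ _
      rw [h0, map_zero, map_zero]
      exact zero_le
  have hlt : ∀ i, k < i → val i < val k := by
    intro i hki
    by_contra hn
    rw [not_lt] at hn
    by_cases hi : i ∈ Finset.range (f.natDegree + 1)
    · have : i ∈ S := by
        rw [hS]
        exact Finset.mem_filter.2 ⟨hi, hk.2.trans hn⟩
      exact absurd (hkmax i this) (not_le.2 hki)
    · have h0 : f.coeff i = 0 := by
        refine Polynomial.coeff_eq_zero_of_natDegree_lt ?_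
        rw [Finset.mem_range] at hi
        omega
      have h1 : val i = 0 := by
        rw [hval]
        show B.valuation (algebraMap K M (f.coeff i)) = 0
        rw [h0, map_zero, map_zero]
      have h2 : val f.natDegree = 1 := by
        rw [hval]
        show B.valuation (algebraMap K M (f.coeff f.natDegree)) = 1
        rw [hmon.coeff_natDegree, map_one, map_one]
      have h3 := (hle f.natDegree).trans hn
      rw [h1, h2] at h3
      exact absurd h3 (not_le.2 zero_lt_one)
  have hvk : val k ≠ 0 := by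
    have h2 : val f.natDegree = 1 := by
      rw [hval]
      show B.valuation (algebraMap K M (f.coeff f.natDegree)) = 1
      rw [hmon.coeff_natDegree, map_one, map_one]
    intro h0
    have h3 := hle f.natDegree
    rw [h0, h2] at h3
    exact absurd h3 (not_le.2 zero_lt_one)
  have hck : f.coeff k ≠ 0 := by
    intro h0
    refine hvk ?_
    rw [hval]
    show B.valuation (algebraMap K M (f.coeff k)) = 0
    rw [h0, map_zero, map_zero]
  obtain ⟨b, hb⟩ : ∃ b : ℕ → M, ∀ i, b i = algebraMap K M (f.coeff i / f.coeff k) :=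
    ⟨_, fun _ => rfl⟩
  have hvb : ∀ i, B.valuation (b i) = val i / val k := by
    intro i
    rw [hb i, map_div₀, map_div₀, hval]
  have hbB : ∀ i, b i ∈ B := by
    intro i
    rw [← B.valuation_le_one_iff, hvb]
    exact div_le_one_of_le₀ (hle i) zero_le
  have hbk : b k = 1 := by
    rw [hb, div_self hck, map_one]
  obtain ⟨m, hm⟩ : ∃ m, k + (m + 1) = f.natDegree + 1 := ⟨f.natDegree - k, by omega⟩
  have hzero : ∀ t : M, Polynomial.aeval t f = 0 →
      ∑ i ∈ Finset.range (k + (m + 1)), b i * t ^ i = 0 := by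
    intro t ht
    rw [hm]
    rw [Polynomial.aeval_eq_sum_range] at ht
    have h1 : ∀ i ∈ Finset.range (f.natDegree + 1), b i * t ^ i =
        algebraMap K M (f.coeff k)⁻¹ * (f.coeff i • t ^ i) := by
      intro i _
      rw [hb, Algebra.smul_def, div_eq_mul_inv, map_mul]
      ring
    rw [Finset.sum_congr rfl h1, ← Finset.mul_sum, ht, mul_zero]
  have hσb : ∀ (σ : M ≃ₐ[K] M) (i : ℕ), σ (b i) = b i := by
    intro σ i
    rw [hb]
    exact σ.commutes _
  obtain ⟨z, hz⟩ : ∃ z : M, z = ∑ i ∈ Finset.range (m + 1), b (k + i) * x ^ i := ⟨_, rfl⟩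
  have hσz : ∀ σ : M ≃ₐ[K] M, σ z = ∑ i ∈ Finset.range (m + 1), b (k + i) * (σ x) ^ i := by
    intro σ
    rw [hz, map_sum]
    refine Finset.sum_congr rfl fun i _ => ?_
    rw [map_mul, map_pow, hσb]
  have hall : ∀ σ : M ≃ₐ[K] M, σ z ∈ B ∧ σ (z * x) ∈ B := by
    intro σ
    have h1 : Polynomial.aeval (σ x) f = 0 := by
      have h2 := Polynomial.aeval_algHom_apply (σ : M →ₐ[K] M) x f
      have h3 : (σ : M →ₐ[K] M) x = σ x := rfl
      rw [h3] at h2
      rw [h2, hroot, map_zero]
    have h4 := Res_sum B b hbB k (m + 1) (σ x) (hzero _ h1)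
    rw [map_mul, hσz]
    exact h4
  refine ⟨z, ?_, ?_, hall⟩
  · have h1 := (hall AlgEquiv.refl).1
    exact h1
  · intro hzn
    rw [ValuationSubring.mem_nonunits_iff] at hzn
    have h1 : B.valuation (z - 1) < 1 := by
      rw [hz, Finset.sum_range_succ']
      have h2 : b (k + 0) * x ^ 0 = 1 := by
        rw [add_zero, pow_zero, mul_one, hbk]
      rw [h2, add_sub_cancel_right]
      refine Valuation.map_sum_lt _ one_ne_zero fun i _ => ?_
      rw [map_mul, map_pow]
      have h3 : B.valuation (b (k + (i + 1))) < 1 := by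
        rw [hvb, div_lt_one₀ (zero_lt_iff.2 hvk)]
        exact hlt _ (by omega)
      have h4 : B.valuation x ^ (i + 1) ≤ 1 :=
        pow_le_one₀ zero_le ((B.valuation_le_one_iff x).2 hx)
      exact mul_lt_one_of_lt_of_le h3 h4
    have h5 : B.valuation (z - (z - 1)) ≤ max (B.valuation z) (B.valuation (z - 1)) :=
      Valuation.map_sub _ _ _
    rw [sub_sub_cancel, map_one] at h5
    exact absurd h5 (not_le.2 (max_lt hzn h1))

/-! ## 2. The valuation ring of the residue field -/

/-- the image of `u` in the residue field of `B` -/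
private noncomputable def Res_ub {M : Type u} [Field M] (u B : ValuationSubring M) (h : u ≤ B) :
    ValuationSubring (IsLocalRing.ResidueField B) where
  toSubring := (u.toSubring.comap B.subtype).map (IsLocalRing.residue B)
  mem_or_inv_mem' := by
    intro c
    obtain ⟨x, rfl⟩ := IsLocalRing.residue_surjective c
    by_cases hx : (x : M) ∈ u
    · left
      exact ⟨x, hx, rfl⟩
    · right
      have h1 : (x : M)⁻¹ ∈ u := (u.mem_or_inv_mem _).resolve_left hx
      have hx0 : (x : M) ≠ 0 := by
        intro h0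
        rw [h0] at hx
        exact hx (zero_mem u)
      refine ⟨⟨(x : M)⁻¹, h h1⟩, h1, ?_⟩
      have h2 : (⟨(x : M)⁻¹, h h1⟩ : B) * x = 1 := Subtype.ext (inv_mul_cancel₀ hx0)
      have h3 := congrArg (IsLocalRing.residue B) h2
      rw [map_mul, map_one] at h3
      exact eq_inv_of_mul_eq_one_left h3

private theorem Res_mem_ub {M : Type u} [Field M] (u B : ValuationSubring M) (h : u ≤ B)
    (c : IsLocalRing.ResidueField B) :
    c ∈ Res_ub u B h ↔ ∃ x : B, (x : M) ∈ u ∧ IsLocalRing.residue B x = c := Iff.rfl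

private theorem Res_mem {M : Type u} [Field M] (u B : ValuationSubring M) (h : u ≤ B) (x : B) :
    IsLocalRing.residue B x ∈ Res_ub u B h ↔ (x : M) ∈ u := by
  rw [Res_mem_ub]
  constructor
  · rintro ⟨y, hy, hxy⟩
    have h1 : x - y ∈ IsLocalRing.maximalIdeal B := by
      rw [← IsLocalRing.residue_eq_zero_iff, map_sub, hxy, sub_self]
    have h2 : ((x - y : B) : M) ∈ u.nonunits :=
      ValuationSubring.nonunits_le_nonunits.2 h (ValuationSubring.coe_mem_nonunits_iff.2 h1)
    have h3 : ((x - y : B) : M) ∈ u := u.nonunits_le h2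
    have h4 := add_mem h3 hy
    have h5 : ((x - y : B) : M) + y = x := by
      push_cast
      ring
    rwa [h5] at h4
  · intro hx
    exact ⟨x, hx, rfl⟩

private theorem Res_non {M : Type u} [Field M] (u B : ValuationSubring M) (h : u ≤ B) (x : B) :
    IsLocalRing.residue B x ∈ (Res_ub u B h).nonunits ↔ (x : M) ∈ u.nonunits := by
  by_cases hx : x ∈ IsLocalRing.maximalIdeal B
  · have h1 : IsLocalRing.residue B x = 0 := (IsLocalRing.residue_eq_zero_iff x).2 hx
    have h2 : (x : M) ∈ u.nonunits :=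
      ValuationSubring.nonunits_le_nonunits.2 h (ValuationSubring.coe_mem_nonunits_iff.2 hx)
    rw [h1]
    refine ⟨fun _ => h2, fun _ => ?_⟩
    rw [ValuationSubring.mem_nonunits_iff_or]
    exact Or.inl rfl
  · have hu : IsUnit x := by
      by_contra hn
      exact hx ((IsLocalRing.mem_maximalIdeal x).2 hn)
    obtain ⟨y, hy⟩ := hu.exists_right_inv
    have hxy : (x : M) * y = 1 := congrArg Subtype.val hy
    have hx0 : (x : M) ≠ 0 := left_ne_zero_of_mul_eq_one hxy
    have h1 : (x : M)⁻¹ = y := inv_eq_of_mul_eq_one_right hxy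
    have h2 := congrArg (IsLocalRing.residue B) hy
    rw [map_mul, map_one] at h2
    have h3 : (IsLocalRing.residue B x)⁻¹ = IsLocalRing.residue B y := inv_eq_of_mul_eq_one_right h2
    have h4 : IsLocalRing.residue B x ≠ 0 := left_ne_zero_of_mul_eq_one h2
    rw [ValuationSubring.mem_nonunits_iff_or, ValuationSubring.mem_nonunits_iff_or, h1, h3,
      Res_mem]
    simp [hx0, h4]

/-! ## 3. The residue extension is normal and its automorphisms lift -/

private theorem Res_abs {A κ R κB G : Type u} [CommRing A] [Field κ] [CommRing R] [Field κB]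
    [Group G] [Finite G] [MulSemiringAction G R] (f : A →+* R) (ρ : A →+* κ) (r : R →+* κB)
    (i₀ : κ →+* κB) (hρ : Function.Surjective ρ) (hc : ∀ a, r (f a) = i₀ (ρ a))
    (hr : ∀ c : κB, ∃ a b : R, c = r a / r b)
    (hinv : ∀ x : R, (∀ g : G, g • x = x) → ∃ a, f a = x) (hfix : ∀ (g : G) (a : A), g • f a = f a) :
    letI := i₀.toAlgebra
    Normal κ κB ∧ ∀ τ : κB ≃ₐ[κ] κB, ∃ g : G, ∀ x : R, r (g • x) = τ (r x) := by
  let _ := i₀.toAlgebra
  let _ : Algebra A R := f.toAlgebra
  let _ : Algebra (A ⧸ RingHom.ker ρ) κ := (RingHom.kerLift ρ).toAlgebra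
  let _ : Algebra (R ⧸ RingHom.ker r) κB := (RingHom.kerLift r).toAlgebra
  have : (RingHom.ker r).LiesOver (RingHom.ker ρ) := by
    refine ⟨?_⟩
    ext a
    rw [Ideal.mem_comap, RingHom.mem_ker, RingHom.mem_ker]
    show ρ a = 0 ↔ r (f a) = 0
    rw [hc, map_eq_zero_iff i₀ i₀.injective]
  let _ : Algebra (A ⧸ RingHom.ker ρ) κB := (i₀.comp (RingHom.kerLift ρ)).toAlgebra
  have : (RingHom.ker ρ).IsPrime := RingHom.ker_isPrime ρ
  have : (RingHom.ker r).IsPrime := RingHom.ker_isPrime r
  have : IsScalarTower (A ⧸ RingHom.ker ρ) κ κB := IsScalarTower.of_algebraMap_eq fun _ => rfl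
  have : IsScalarTower (A ⧸ RingHom.ker ρ) (R ⧸ RingHom.ker r) κB := by
    refine IsScalarTower.of_algebraMap_eq fun x => ?_
    obtain ⟨a, rfl⟩ := Ideal.Quotient.mk_surjective x
    exact (hc a).symm
  have : FaithfulSMul (A ⧸ RingHom.ker ρ) κ :=
    (faithfulSMul_iff_algebraMap_injective _ _).2 (RingHom.kerLift_injective ρ)
  have : FaithfulSMul (R ⧸ RingHom.ker r) κB :=
    (faithfulSMul_iff_algebraMap_injective _ _).2 (RingHom.kerLift_injective r)
  have : IsFractionRing (A ⧸ RingHom.ker ρ) κ := by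
    refine IsFractionRing.of_field _ _ fun z => ?_
    obtain ⟨a, rfl⟩ := hρ z
    refine ⟨Ideal.Quotient.mk _ a, 1, ?_⟩
    rw [map_one, div_one]
    rfl
  have : IsFractionRing (R ⧸ RingHom.ker r) κB := by
    refine IsFractionRing.of_field _ _ fun z => ?_
    obtain ⟨a, b, hab⟩ := hr z
    exact ⟨Ideal.Quotient.mk _ a, Ideal.Quotient.mk _ b, hab⟩
  have : Algebra.IsInvariant A R G := ⟨hinv⟩
  have : SMulCommClass G A R := by
    refine ⟨fun g a x => ?_⟩
    show g • (f a * x) = f a * (g • x)
    rw [smul_mul', hfix]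
  refine ⟨Ideal.IsFractionRing.normal G (RingHom.ker ρ) (RingHom.ker r) κ κB, fun τ => ?_⟩
  obtain ⟨g, hg⟩ := IsFractionRing.stabilizerHom_surjective G (RingHom.ker ρ) (RingHom.ker r) κ κB τ
  refine ⟨g, fun x => ?_⟩
  rw [← hg]
  exact (IsFractionRing.stabilizerHom_apply_apply_mk G (RingHom.ker ρ) (RingHom.ker r) κ κB g x).symm

/-- the automorphism `s` of `M` induces the automorphism `τ` of the residue field of `B` -/
private def Res_Lift {M : Type u} [Field M] (B : ValuationSubring M) (s : M → M)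
    (τ : IsLocalRing.ResidueField B → IsLocalRing.ResidueField B) : Prop :=
  ∀ x : B, ∃ y : B, (y : M) = s x ∧ IsLocalRing.residue B y = τ (IsLocalRing.residue B x)

/-- the elements all conjugates of which are in `B` -/
private def Res_R (K : Type u) {M : Type u} [Field K] [Field M] [Algebra K M]
    (B : ValuationSubring M) : Subring M where
  carrier := {x | ∀ σ : M ≃ₐ[K] M, σ x ∈ B}
  mul_mem' {a b} ha hb σ := by
    rw [map_mul]
    exact mul_mem (ha σ) (hb σ)
  one_mem' σ := by
    rw [map_one]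
    exact one_mem B
  add_mem' {a b} ha hb σ := by
    rw [map_add]
    exact add_mem (ha σ) (hb σ)
  zero_mem' σ := by
    rw [map_zero]
    exact zero_mem B
  neg_mem' {a} ha σ := by
    rw [map_neg]
    exact neg_mem (ha σ)

private theorem Res_R_le {K M : Type u} [Field K] [Field M] [Algebra K M]
    (B : ValuationSubring M) (x : M) (hx : x ∈ Res_R K B) : x ∈ B := hx AlgEquiv.refl

private instance Res_inv {K M : Type u} [Field K] [Field M] [Algebra K M]
    (B : ValuationSubring M) : IsInvariantSubring (M ≃ₐ[K] M) (Res_R K B) where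
  smul_mem τ _ hx σ := hx (σ * τ)

private theorem Res_gal {A K κ M : Type u} [CommRing A] [Field K] [Field κ] [Field M]
    [Algebra K M] [FiniteDimensional K M] [IsGalois K M] (φ : A →+* K) (ρ : A →+* κ)
    (B : ValuationSubring M) (hρ : Function.Surjective ρ)
    (hBA : ∀ x : K, algebraMap K M x ∈ B ↔ ∃ a, φ a = x)
    (i₀ : κ →+* IsLocalRing.ResidueField B)
    (hi : ∀ (a : A) (b : B), (b : M) = algebraMap K M (φ a) → i₀ (ρ a) = IsLocalRing.residue B b) :
    letI := i₀.toAlgebra
    Normal κ (IsLocalRing.ResidueField B) ∧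
      ∀ τ : IsLocalRing.ResidueField B ≃ₐ[κ] IsLocalRing.ResidueField B,
        ∃ s : M ≃ₐ[K] M, Res_Lift B s τ := by
  let _ := i₀.toAlgebra
  have hφR : ∀ a : A, algebraMap K M (φ a) ∈ Res_R K B := by
    intro a σ
    rw [σ.commutes]
    exact (hBA _).2 ⟨a, rfl⟩
  obtain ⟨f, hf⟩ : ∃ f : A →+* Res_R K B, ∀ a, (f a : M) = algebraMap K M (φ a) :=
    ⟨((algebraMap K M).comp φ).codRestrict (Res_R K B) hφR, fun _ => rfl⟩
  obtain ⟨ι, hι⟩ : ∃ ι : Res_R K B →+* B, ∀ x, (ι x : M) = x :=
    ⟨(Res_R K B).subtype.codRestrict B fun x => Res_R_le B x x.2, fun _ => rfl⟩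
  obtain ⟨r, hr⟩ : ∃ r : Res_R K B →+* IsLocalRing.ResidueField B,
      ∀ x, r x = IsLocalRing.residue B (ι x) := ⟨(IsLocalRing.residue B).comp ι, fun _ => rfl⟩
  have hz : ∀ z : B, (z : M) ∉ B.nonunits → IsLocalRing.residue B z ≠ 0 := by
    intro z hz h0
    rw [IsLocalRing.residue_eq_zero_iff] at h0
    exact hz (ValuationSubring.coe_mem_nonunits_iff.2 h0)
  have hfrac : ∀ x : B, ∃ a b : Res_R K B, r b ≠ 0 ∧ (x : M) * b = a := by
    intro x
    obtain ⟨z, hzB, hzn, hall⟩ := Res_frac (K := K) B x x.2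
    refine ⟨⟨z * x, fun σ => (hall σ).2⟩, ⟨z, fun σ => (hall σ).1⟩, ?_, mul_comm _ _⟩
    rw [hr]
    apply hz
    rw [hι]
    exact hzn
  have hres : ∀ (x : B) (a b : Res_R K B), r b ≠ 0 → (x : M) * b = a →
      IsLocalRing.residue B x = r a / r b := by
    intro x a b hb hab
    rw [eq_div_iff hb, hr, hr, ← map_mul]
    congr 1
    apply Subtype.ext
    rw [hι]
    show (x : M) * (ι b : M) = a
    rw [hι, hab]
  obtain ⟨hN, hL⟩ := Res_abs (G := M ≃ₐ[K] M) f ρ r i₀ hρ
    (fun a => by rw [hr, hi a (ι (f a)) (by rw [hι, hf])])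
    (fun c => by
      obtain ⟨x, rfl⟩ := IsLocalRing.residue_surjective c
      obtain ⟨a, b, hb, hab⟩ := hfrac x
      exact ⟨a, b, hres x a b hb hab⟩)
    (fun x hx => by
      have h1 : (x : M) ∈ Set.range (algebraMap K M) := by
        rw [IsGalois.mem_range_algebraMap_iff_fixed]
        intro σ
        exact congrArg Subtype.val (hx σ)
      obtain ⟨k, hk⟩ := h1
      obtain ⟨a, rfl⟩ := (hBA k).1 (by rw [hk]; exact Res_R_le B x x.2)
      refine ⟨a, Subtype.ext ?_⟩
      rw [hf, hk])
    (fun σ a => by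
      apply Subtype.ext
      show σ (f a : M) = f a
      rw [hf, σ.commutes])
  refine ⟨hN, fun τ => ?_⟩
  obtain ⟨s, hs⟩ := hL τ
  refine ⟨s, fun x => ?_⟩
  obtain ⟨a, b, hb, hab⟩ := hfrac x
  have h1 : r (s • b) ≠ 0 := by
    rw [hs]
    exact (map_ne_zero_iff τ τ.injective).2 hb
  have h2 : ((s • b : Res_R K B) : M) ∉ B.nonunits := by
    intro h2
    apply h1
    rw [hr, IsLocalRing.residue_eq_zero_iff, ← ValuationSubring.coe_mem_nonunits_iff, hι]
    exact h2
  have h3 : ((s • b : Res_R K B) : M) = s (b : M) := rfl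
  have h4 : ((s • a : Res_R K B) : M) = s (a : M) := rfl
  have h5 : s (x : M) * ((s • b : Res_R K B) : M) = ((s • a : Res_R K B) : M) := by
    rw [h3, h4, ← map_mul, hab]
  rw [ValuationSubring.mem_nonunits_iff_or, not_or, not_not] at h2
  have h6 : s (x : M) ∈ B := by
    have h7 : s (x : M) = ((s • a : Res_R K B) : M) * ((s • b : Res_R K B) : M)⁻¹ := by
      rw [← h5, mul_assoc, mul_inv_cancel₀ h2.1, mul_one]
    rw [h7]
    exact mul_mem (Res_R_le B _ (s • a).2) h2.2
  refine ⟨⟨s x, h6⟩, rfl, ?_⟩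
  rw [hres _ (s • a) (s • b) h1 h5, hres x a b hb hab, hs, hs, map_div₀]

/-! ## 4. The tame residue extension -/

private theorem Res_Lift_pow {K κ M : Type u} [Field K] [Field κ] [Field M] [Algebra K M]
    (B : ValuationSubring M) [Algebra κ (IsLocalRing.ResidueField B)] (s : M ≃ₐ[K] M)
    (τ : IsLocalRing.ResidueField B ≃ₐ[κ] IsLocalRing.ResidueField B) (h : Res_Lift B s τ) (k : ℕ) :
    Res_Lift B (s ^ k : M ≃ₐ[K] M)
      (τ ^ k : IsLocalRing.ResidueField B ≃ₐ[κ] IsLocalRing.ResidueField B) := by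
  induction k with
  | zero =>
    intro x
    refine ⟨x, ?_, ?_⟩
    · rw [pow_zero]
      rfl
    · rw [pow_zero]
      rfl
  | succ k ih =>
    intro x
    obtain ⟨y, hy, hy'⟩ := h x
    obtain ⟨z, hz, hz'⟩ := ih y
    refine ⟨z, ?_, ?_⟩
    · rw [hz, hy, pow_succ]
      rfl
    · rw [hz', hy', pow_succ]
      rfl

private theorem Res_comap_non {E F : Type u} [Field E] [Field F] (f : E →+* F)
    (V : ValuationSubring F) (x : E) : x ∈ (V.comap f).nonunits ↔ f x ∈ V.nonunits := by
  rw [ValuationSubring.mem_nonunits_iff_or, ValuationSubring.mem_nonunits_iff_or,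
    map_eq_zero_iff f f.injective, ValuationSubring.mem_comap, map_inv₀]

private theorem Res_pow_non {E : Type u} [Field E] (V : ValuationSubring E) (x : E) (n : ℕ)
    (h : x ^ n ∈ V.nonunits) : x ∈ V.nonunits := by
  rw [ValuationSubring.mem_nonunits_iff] at h ⊢
  by_contra hn
  rw [not_lt] at hn
  rw [map_pow] at h
  exact absurd h (not_lt.2 (one_le_pow₀ hn))

private theorem Res_sep {A κ E : Type u} [CommRing A] [Field κ] [Field E] [Algebra κ E]
    (ρ : A →+* κ) (b : E) (h : Polynomial A) (hm : h.Monic)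
    (h0 : h.eval₂ ((algebraMap κ E).comp ρ) b = 0)
    (h1 : (Polynomial.derivative h).eval₂ ((algebraMap κ E).comp ρ) b ≠ 0) : IsSeparable κ b := by
  have hg0 : Polynomial.aeval b (h.map ρ) = 0 := by
    rw [Polynomial.aeval_def, Polynomial.eval₂_map, h0]
  have hg1 : Polynomial.aeval b (Polynomial.derivative (h.map ρ)) ≠ 0 := by
    rw [Polynomial.derivative_map, Polynomial.aeval_def, Polynomial.eval₂_map]
    exact h1
  have hint : IsIntegral κ b := ⟨h.map ρ, hm.map ρ, hg0⟩
  obtain ⟨q, hq⟩ := minpoly.dvd κ b hg0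
  show (minpoly κ b).Separable
  rw [Polynomial.separable_iff_derivative_ne_zero (minpoly.irreducible hint)]
  intro hd
  apply hg1
  rw [hq, Polynomial.derivative_mul, hd, zero_mul, zero_add, map_mul, minpoly.aeval, zero_mul]

/-- the power of an element `s` of a finite group -/
private theorem Res_power {G : Type u} [Group G] [Finite G] (p : ℕ) [hp : Fact p.Prime] (s : G)
    (n : ℕ) : ∃ k e : ℕ, k ≡ 1 [MOD p ^ n] ∧ (s ^ k) ^ p ^ e = 1 := by
  obtain ⟨e, m, hm, he⟩ := Nat.exists_eq_pow_mul_and_not_dvd (n := orderOf s)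
    (orderOf_pos s).ne' p hp.out.ne_one
  have hco : Nat.Coprime (p ^ n) m := Nat.Coprime.pow_left n ((hp.out.coprime_iff_not_dvd).2 hm)
  obtain ⟨k, hk1, hk2⟩ := Nat.chineseRemainder hco 1 0
  refine ⟨k, e, hk1, ?_⟩
  rw [← pow_mul, ← orderOf_dvd_iff_pow_eq_one, he, mul_comm k]
  exact Nat.mul_dvd_mul_left _ ((Nat.modEq_zero_iff_dvd).1 hk2)

theorem thm_Res (h1 : St_Pol.{u}) : St_Res.{u} := by
  intro p _ A K κ M _ _ _ _ _ _ _ φ ρ v w u B T β hL hp hu huB hBA hwild hβ hT hTn κ₁ _ i j hij hj
  have hpr : p.Prime := Fact.out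
  let _ : Algebra κ (IsLocalRing.ResidueField B) := (j.comp i).toAlgebra
  have halg : ∀ c : κ, algebraMap κ (IsLocalRing.ResidueField B) c = j (i c) := fun _ => rfl
  obtain ⟨hN, hlift⟩ := Res_gal φ ρ B hL.surj hBA (j.comp i) hij
  -- the characteristic
  have hpB : (p : B) = 0 := by
    have h2 : algebraMap K M (p : K) = 0 := by rw [hp, map_zero]
    rw [map_natCast] at h2
    exact Subtype.ext h2
  have hpκ : (p : κ) = 0 := by
    apply (algebraMap κ (IsLocalRing.ResidueField B)).injective
    rw [map_zero, map_natCast, ← map_natCast (IsLocalRing.residue B), hpB, map_zero]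
  have hpκB : (p : IsLocalRing.ResidueField B) = 0 := by
    rw [← map_natCast (IsLocalRing.residue B), hpB, map_zero]
  have : CharP κ p := (CharP.charP_iff_prime_eq_zero hpr).2 hpκ
  have : CharP (IsLocalRing.ResidueField B) p := (CharP.charP_iff_prime_eq_zero hpr).2 hpκB
  have : ExpChar κ p := ExpChar.prime hpr
  have : ExpChar (IsLocalRing.ResidueField B) p := ExpChar.prime hpr
  -- separability
  have hsep : IsSeparable κ (IsLocalRing.residue B β) := by
    obtain ⟨⟨h, hm, h0, h2, h3⟩, -⟩ := h1 A K M φ B T β hL.inj hBA hβ hT hTn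
    obtain ⟨f, hf⟩ : ∃ f : A →+* B, ∀ a, (f a : M) = algebraMap K M (φ a) :=
      ⟨((algebraMap K M).comp φ).codRestrict B fun a => (hBA _).2 ⟨a, rfl⟩, fun _ => rfl⟩
    have hf1 : B.subtype.comp f = (algebraMap K M).comp φ := RingHom.ext hf
    have hf2 : (IsLocalRing.residue B).comp f =
        (algebraMap κ (IsLocalRing.ResidueField B)).comp ρ := by
      ext a
      exact (hij a (f a) (hf a)).symm
    have key : ∀ g : Polynomial A, ((g.eval₂ f β : B) : M) =
        g.eval₂ ((algebraMap K M).comp φ) (β : M) := by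
      intro g
      rw [← hf1]
      exact Polynomial.hom_eval₂ g f B.subtype β
    have key2 : ∀ g : Polynomial A, IsLocalRing.residue B (g.eval₂ f β) =
        g.eval₂ ((algebraMap κ (IsLocalRing.ResidueField B)).comp ρ) (IsLocalRing.residue B β) := by
      intro g
      rw [← hf2]
      exact Polynomial.hom_eval₂ g f (IsLocalRing.residue B) β
    refine Res_sep ρ _ h hm ?_ ?_
    · rw [← key2]
      have h4 : h.eval₂ f β = 0 := Subtype.ext ((key h).trans h0)
      rw [h4, map_zero]
    · rw [← key2]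
      intro h4
      rw [IsLocalRing.residue_eq_zero_iff, ← ValuationSubring.coe_mem_nonunits_iff, key] at h4
      exact h3 h4
  have hβM : IsLocalRing.residue B β ∈ separableClosure κ (IsLocalRing.ResidueField B) :=
    mem_separableClosure_iff.2 hsep
  have hjM : ∀ y, j y ∈ separableClosure κ (IsLocalRing.ResidueField B) := by
    intro y
    have h2 : j.fieldRange ≤ (separableClosure κ (IsLocalRing.ResidueField B)).toSubfield := by
      rw [hj]
      refine sup_le ?_ ?_
      · rintro _ ⟨c, rfl⟩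
        exact (separableClosure κ (IsLocalRing.ResidueField B)).algebraMap_mem c
      · rw [Subfield.closure_le]
        rintro _ rfl
        exact hβM
    exact h2 ⟨y, rfl⟩
  have hGal : IsGalois κ (separableClosure κ (IsLocalRing.ResidueField B)) :=
    separableClosure.isGalois κ _
  have hfin : Finite (IsLocalRing.ResidueField B ≃ₐ[κ] IsLocalRing.ResidueField B) := by
    choose s hs using hlift
    refine Finite.of_injective s fun τ τ' h => ?_
    ext c
    obtain ⟨x, rfl⟩ := IsLocalRing.residue_surjective c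
    obtain ⟨y, hy, hy'⟩ := hs τ x
    obtain ⟨z, hz, hz'⟩ := hs τ' x
    rw [← hy', ← hz']
    congr 1
    apply Subtype.ext
    rw [hy, hz, h]
  have hfin2 : Finite (separableClosure κ (IsLocalRing.ResidueField B) ≃ₐ[κ]
      separableClosure κ (IsLocalRing.ResidueField B)) :=
    Finite.of_surjective _ (AlgEquiv.restrictNormalHom_surjective
      (F := κ) (K₁ := separableClosure κ (IsLocalRing.ResidueField B)) (IsLocalRing.ResidueField B))
  have hfd : FiniteDimensional κ (separableClosure κ (IsLocalRing.ResidueField B)) :=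
    IsGalois.finiteDimensional_of_finite κ _
  obtain ⟨ψ, hψ⟩ : ∃ ψ : κ₁ →+* separableClosure κ (IsLocalRing.ResidueField B),
      ∀ y, (ψ y : IsLocalRing.ResidueField B) = j y :=
    ⟨j.codRestrict (separableClosure κ (IsLocalRing.ResidueField B)) hjM, fun _ => rfl⟩
  refine ⟨(Res_ub u B huB).comap j, fun c => Iff.rfl, ?_, ?_⟩
  · -- `v₁` lies over `v`
    ext c
    obtain ⟨a, rfl⟩ := hL.surj c
    rw [ValuationSubring.mem_comap, ValuationSubring.mem_comap,
      hij a ⟨algebraMap K M (φ a), (hBA _).2 ⟨a, rfl⟩⟩ rfl, Res_mem]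
    have h2 : algebraMap K M (φ a) ∈ u ↔ φ a ∈ w := by
      rw [← hu]
      rfl
    rw [h2, hL.mem]
    constructor
    · rintro ⟨y, hy, hy'⟩
      rwa [← hL.inj hy]
    · intro h3
      exact ⟨a, rfl, h3⟩
  · refine ⟨separableClosure κ (IsLocalRing.ResidueField B), inferInstance, inferInstance, ψ,
      (Res_ub u B huB).comap (algebraMap _ _), hfd, hGal, ?_, ?_, ?_⟩
    · intro a
      apply Subtype.ext
      rw [hψ]
      rfl
    · ext y
      rw [ValuationSubring.mem_comap, ValuationSubring.mem_comap, ValuationSubring.mem_comap]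
      have h2 : algebraMap (separableClosure κ (IsLocalRing.ResidueField B))
          (IsLocalRing.ResidueField B) (ψ y) = j y := hψ y
      rw [h2]
    · rintro σ hI ⟨n, hn⟩ y
      obtain ⟨τ, hτ⟩ : ∃ τ : IsLocalRing.ResidueField B ≃ₐ[κ] IsLocalRing.ResidueField B,
          ∀ x : separableClosure κ (IsLocalRing.ResidueField B), τ x = σ x :=
        ⟨σ.liftNormal (IsLocalRing.ResidueField B),
          fun x => AlgEquiv.liftNormal_commutes σ (IsLocalRing.ResidueField B) x⟩
      obtain ⟨s, hs⟩ := hlift τ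
      obtain ⟨k, e, hk, hke⟩ := Res_power p s n
      have hs' := Res_Lift_pow B s τ hs k
      have hτk : ∀ (k : ℕ) (x : separableClosure κ (IsLocalRing.ResidueField B)),
          (τ ^ k : IsLocalRing.ResidueField B ≃ₐ[κ] IsLocalRing.ResidueField B) x =
            ((σ ^ k : separableClosure κ (IsLocalRing.ResidueField B) ≃ₐ[κ]
              separableClosure κ (IsLocalRing.ResidueField B)) x : IsLocalRing.ResidueField B) := by
        intro k
        induction k with
        | zero =>
          intro x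
          rw [pow_zero, pow_zero]
          rfl
        | succ k ih =>
          intro x
          rw [pow_succ, pow_succ, AlgEquiv.mul_apply, AlgEquiv.mul_apply, hτ, ih]
      have hσk : σ ^ k = σ := by
        have h2 : σ ^ k = σ ^ 1 := by
          rw [pow_eq_pow_iff_modEq]
          exact hk.of_dvd (orderOf_dvd_of_pow_eq_one hn)
        rw [h2, pow_one]
      have hτ' : ∀ x : separableClosure κ (IsLocalRing.ResidueField B),
          (τ ^ k : IsLocalRing.ResidueField B ≃ₐ[κ] IsLocalRing.ResidueField B) x = σ x := by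
        intro x
        rw [hτk, hσk]
      obtain ⟨τ', hτ'def⟩ : ∃ τ' : IsLocalRing.ResidueField B ≃ₐ[κ] IsLocalRing.ResidueField B,
          τ' = τ ^ k := ⟨_, rfl⟩
      rw [← hτ'def] at hs' hτ'
      have hin : ∀ x ∈ u, (s ^ k : M ≃ₐ[K] M) x - x ∈ u.nonunits := by
        intro x hx
        obtain ⟨y, hy, hy'⟩ := hs' ⟨x, huB hx⟩
        obtain ⟨m, z, hz⟩ := IsPurelyInseparable.pow_mem
          (separableClosure κ (IsLocalRing.ResidueField B)) p
          (IsLocalRing.residue B ⟨x, huB hx⟩)
        have hzz : (z : IsLocalRing.ResidueField B) = IsLocalRing.residue B ⟨x, huB hx⟩ ^ p ^ m := hz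
        have h2 : IsLocalRing.residue B (y - ⟨x, huB hx⟩) ^ p ^ m =
            algebraMap (separableClosure κ (IsLocalRing.ResidueField B))
              (IsLocalRing.ResidueField B) (σ z - z) := by
          rw [map_sub, map_sub, sub_pow_expChar_pow, hy', ← map_pow, ← hzz, hτ']
          rfl
        have h3 : z ∈ (Res_ub u B huB).comap
            (algebraMap (separableClosure κ (IsLocalRing.ResidueField B))
              (IsLocalRing.ResidueField B)) := by
          rw [ValuationSubring.mem_comap]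
          have h4 : algebraMap (separableClosure κ (IsLocalRing.ResidueField B))
              (IsLocalRing.ResidueField B) z = IsLocalRing.residue B ⟨x, huB hx⟩ ^ p ^ m := hz
          rw [h4]
          exact pow_mem ((Res_mem u B huB _).2 hx) _
        have h5 := hI z h3
        rw [Res_comap_non, ← h2] at h5
        have h6 := (Res_non u B huB _).1 (Res_pow_non _ _ _ h5)
        rw [← hy]
        exact h6
      have hsT : (s ^ k : M ≃ₐ[K] M) ∈ T := hwild _ hin ⟨e, hke⟩
      have hτβ : τ' (IsLocalRing.residue B β) = IsLocalRing.residue B β := by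
        obtain ⟨y, hy, hy'⟩ := hs' β
        rw [← hy']
        congr 1
        apply Subtype.ext
        rw [hy, hT _ hsT]
      have hτj : τ' (j y) = j y := by
        have h2 : j.fieldRange ≤ RingHom.eqLocusField (τ' : IsLocalRing.ResidueField B →+*
            IsLocalRing.ResidueField B) (RingHom.id _) := by
          rw [hj]
          refine sup_le ?_ ?_
          · rintro _ ⟨c, rfl⟩
            exact τ'.commutes c
          · rw [Subfield.closure_le]
            rintro _ rfl
            exact hτβ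
        exact h2 ⟨y, rfl⟩
      apply Subtype.ext
      rw [← hτ', hψ, hτj]

end TPU
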