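import Pool.Agent.TPU.St4

/-!
# TPU, module Shr: topological shrinking on a locally noetherian scheme
-/

set_option autoImplicit false

universe u

open CategoryTheory Limits AlgebraicGeometry Opposite

namespace TPU

/-- **Shr**. Shrinking a neighbourhood of a point which has only one proper generization. -/
theorem thm_Shr : St_Shr.{u} := by
  intro V _ z η hz G hη
  obtain ⟨N, hN, hzN, -⟩ := exists_isAffineOpen_mem_and_subset (X := V) (x := z) (U := ⊤) trivial
  have hR : IsNoetherianRing Γ(V, N) := IsLocallyNoetherian.component_noetherian ⟨N, hN⟩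
  have hNoe : TopologicalSpace.NoetherianSpace {x : V // x ∈ N} :=
    noetherianSpace_of_isAffineOpen N hN
  have hqs : QuasiSober {x : V // x ∈ N} := N.isOpen.isOpenEmbedding_subtypeVal.quasiSober
  have hC : IsClosed ((Subtype.val : {x : V // x ∈ N} → V) ⁻¹' ((G : Set V)ᶜ)) :=
    (G.isOpen.isClosed_compl).preimage continuous_subtype_val
  obtain ⟨S, hSf, hSc, hSi, hSU⟩ :=
    TopologicalSpace.NoetherianSpace.exists_finite_set_isClosed_irreducible hC
  have hB : IsClosed (⋃₀ {t ∈ S | (⟨z, hzN⟩ : {x : V // x ∈ N}) ∉ t}) := by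
    rw [Set.sUnion_eq_biUnion]
    exact (hSf.subset (Set.sep_subset _ _)).isClosed_biUnion fun t ht => hSc t ht.1
  have hO : IsOpen ((Subtype.val : {x : V // x ∈ N} → V) '' (⋃₀ {t ∈ S | (⟨z, hzN⟩ : {x : V // x ∈ N}) ∉ t})ᶜ) :=
    N.isOpen.isOpenEmbedding_subtypeVal.isOpenMap _ hB.isOpen_compl
  refine ⟨⟨_, hO⟩, ⟨⟨z, hzN⟩, ?_, rfl⟩, ?_⟩
  · rintro ⟨t, ht, hzt⟩
    exact ht.2 hzt
  · rintro _ ⟨x, hx, rfl⟩
    by_cases hxG : x.1 ∈ G
    · exact Or.inr hxG
    left
    have hxC : x ∈ (Subtype.val : {x : V // x ∈ N} → V) ⁻¹' ((G : Set V)ᶜ) := hxG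
    rw [hSU] at hxC
    obtain ⟨t, htS, hxt⟩ := hxC
    have hzt : (⟨z, hzN⟩ : {x : V // x ∈ N}) ∈ t := by
      by_contra hzt
      exact hx ⟨t, ⟨htS, hzt⟩, hxt⟩
    obtain ⟨y, hy⟩ := QuasiSober.sober (hSi t htS) (hSc t htS)
    have hyz : y.1 ⤳ z := (hy.specializes hzt).map continuous_subtype_val
    have hyx : y.1 ⤳ x.1 := (hy.specializes hxt).map continuous_subtype_val
    have hyG : y.1 ∉ G := by
      have h1 : y ∈ (Subtype.val : {x : V // x ∈ N} → V) ⁻¹' ((G : Set V)ᶜ) := by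
        rw [hSU]
        exact ⟨t, htS, hy.mem⟩
      exact h1
    rcases hz y.1 hyz with h1 | h1
    · rw [← h1]
      exact hyx
    · rw [h1] at hyG
      exact absurd hη hyG

end TPU
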