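import Pool.Agent.TPU.St2

/-!
# TPU: module Sur, tame coverings are étale coverings
-/

set_option autoImplicit false

universe u

open CategoryTheory Limits AlgebraicGeometry Opposite

namespace TPU

theorem Sur_ext {K : Type u} [Field K] {S : Scheme.{u}} (t : Spec (.of K) ⟶ S) :
    ∃ g : Spec (.of (⊤ : ValuationSubring K)) ⟶ S,
      Spec.map (CommRingCat.ofHom (⊤ : ValuationSubring K).subtype) ≫ g = t := by
  let e : K →+* (⊤ : ValuationSubring K) :=
    { toFun := fun x => ⟨x, ValuationSubring.mem_top x⟩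
      map_one' := rfl
      map_mul' := fun _ _ => rfl
      map_zero' := rfl
      map_add' := fun _ _ => rfl }
  refine ⟨Spec.map (CommRingCat.ofHom e) ≫ t, ?_⟩
  rw [← Category.assoc, ← Spec.map_comp]
  have h : CommRingCat.ofHom e ≫ CommRingCat.ofHom (⊤ : ValuationSubring K).subtype =
      𝟙 (CommRingCat.of K) := rfl
  rw [h, Spec.map_id, Category.id_comp]

theorem thm_Sur (h1 : St_Top.{u}) : St_Sur.{u} := by
  intro p X S f U R hR
  have hC : Cov f p R := (h1 p X S f U R).1.1 hR
  have hx : ∀ x : U.left, ∃ (V : X.Etale) (g : V ⟶ U), R g ∧ x ∈ Set.range g.left := by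
    intro x
    obtain ⟨e, he⟩ := Sur_ext (U.left.fromSpecResidueField x ≫ (U.hom ≫ f))
    let a : SVal (U.hom ≫ f) := ⟨x, ⊤, e, he⟩
    obtain ⟨V, g, b, hRg, h, _⟩ := hC a
    exact ⟨V, g, hRg, b.pt, h⟩
  choose V g hRg hxg using hx
  have hcov : Sieve.ofArrows V g ∈ X.smallEtaleTopology U := by
    rw [Scheme.ofArrows_mem_smallEtaleTopology_iff]
    apply Set.eq_univ_of_forall
    intro x
    rw [Set.mem_iUnion]
    exact ⟨x, hxg x⟩
  refine (X.smallEtaleTopology).superset_covering ?_ hcov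
  rw [Sieve.ofArrows, Sieve.generate_le_iff]
  rintro Y k ⟨x⟩
  exact hRg x

end TPU
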