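import Pool.Agent.TPU.St2

/-!
# TPU, Sv: a valuation of an extension field is an `S`-valuation iff its restriction is
-/

set_option autoImplicit false

universe u

open CategoryTheory Limits AlgebraicGeometry Opposite

namespace TPU

/-- The restriction of `i` to the valuation rings. -/
private def Sv_res {K Ω : Type u} [Field K] [Field Ω] (i : K →+* Ω) (O : ValuationSubring Ω) :
    O.comap i →+* O where
  toFun x := ⟨i x, x.2⟩
  map_one' := Subtype.ext (map_one i)
  map_mul' _ _ := Subtype.ext (map_mul i _ _)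
  map_zero' := Subtype.ext (map_zero i)
  map_add' _ _ := Subtype.ext (map_add i _ _)

private theorem Sv_back {K Ω : Type u} [Field K] [Field Ω] (i : K →+* Ω) {Y S : Scheme.{u}}
    (s : Y ⟶ S) (a : Spec (.of K) ⟶ Y) (O : ValuationSubring Ω) (h : SV s a (O.comap i)) :
    SV s (Spec.map (CommRingCat.ofHom i) ≫ a) O := by
  obtain ⟨g, hg⟩ := h
  refine ⟨Spec.map (CommRingCat.ofHom (Sv_res i O)) ≫ g, ?_⟩
  rw [Category.assoc, ← hg, ← Category.assoc, ← Category.assoc, ← Spec.map_comp, ← Spec.map_comp]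
  congr 1

private theorem Sv_range {Ω : Type u} [Field Ω] {S : Scheme.{u}} (O : ValuationSubring Ω)
    (g : Spec (.of O) ⟶ S) {C : CommRingCat.{u}} (j : Spec C ⟶ S) [IsOpenImmersion j]
    (hx : g (IsLocalRing.closedPoint O) ∈ Set.range j) : Set.range g ⊆ Set.range j := by
  have hU : (g ⁻¹ᵁ j.opensRange) = ⊤ := by
    have h1 : IsLocalRing.closedPoint O ∈ (g ⁻¹ᵁ j.opensRange) := hx
    exact (IsLocalRing.closedPoint_mem_iff _).mp h1
  rintro _ ⟨y, rfl⟩
  have : y ∈ (g ⁻¹ᵁ j.opensRange) := by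
    rw [hU]
    trivial
  exact this

theorem thm_Sv : St_Sv.{u} := by
  intro K Ω _ _ i Y S s a O
  refine ⟨?_, Sv_back i s a O⟩
  rintro ⟨g, hg⟩
  have hcomm : Spec.map (CommRingCat.ofHom O.subtype) ≫ g =
      Spec.map (CommRingCat.ofHom i) ≫ (a ≫ s) := by rw [hg, Category.assoc]
  obtain ⟨C, j, hj, hx, -⟩ := Scheme.exists_affine_mem_range_and_range_subset (X := S)
    (x := g (IsLocalRing.closedPoint O)) (U := ⊤) trivial
  have hgr := Sv_range O g j hx
  have hhr : Set.range (a ≫ s) ⊆ Set.range j := by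
    rintro _ ⟨y, rfl⟩
    have z : Spec (CommRingCat.of Ω) := (⊥ : PrimeSpectrum Ω)
    have hy : y = Spec.map (CommRingCat.ofHom i) z :=
      Subsingleton.elim (α := PrimeSpectrum K) _ _
    rw [hy, ← Scheme.Hom.comp_apply, ← hcomm, Scheme.Hom.comp_apply]
    exact hgr ⟨_, rfl⟩
  have e1 : Spec.map (CommRingCat.ofHom O.subtype) ≫ IsOpenImmersion.lift j g hgr =
      Spec.map (CommRingCat.ofHom i) ≫ IsOpenImmersion.lift j (a ≫ s) hhr := by
    rw [← cancel_mono j, Category.assoc, Category.assoc, IsOpenImmersion.lift_fac,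
      IsOpenImmersion.lift_fac, hcomm]
  obtain ⟨γ, hγ⟩ : ∃ γ : C ⟶ .of O, Spec.map γ = IsOpenImmersion.lift j g hgr :=
    ⟨Spec.preimage _, Spec.map_preimage _⟩
  obtain ⟨η, hη⟩ : ∃ η : C ⟶ .of K, Spec.map η = IsOpenImmersion.lift j (a ≫ s) hhr :=
    ⟨Spec.preimage _, Spec.map_preimage _⟩
  rw [← hγ, ← hη, ← Spec.map_comp, ← Spec.map_comp] at e1
  have e2 := Spec.map_injective e1
  have e3 : ∀ c : C, i (η.hom c) = (γ.hom c : Ω) := by
    intro c
    have := congrArg (fun f : C ⟶ .of Ω => f.hom c) e2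
    exact this.symm
  let η' : C →+* O.comap i :=
    { toFun := fun c => ⟨η.hom c, by
        show i (η.hom c) ∈ O
        rw [e3]
        exact (γ.hom c).2⟩
      map_one' := Subtype.ext (map_one η.hom)
      map_mul' := fun _ _ => Subtype.ext (map_mul η.hom _ _)
      map_zero' := Subtype.ext (map_zero η.hom)
      map_add' := fun _ _ => Subtype.ext (map_add η.hom _ _) }
  refine ⟨Spec.map (CommRingCat.ofHom η') ≫ j, ?_⟩
  rw [← Category.assoc, ← Spec.map_comp]
  have e4 : CommRingCat.ofHom η' ≫ CommRingCat.ofHom (O.comap i).subtype = η := by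
    ext c
    rfl
  rw [e4, hη, IsOpenImmersion.lift_fac]

end TPU
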