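import Pool.Agent.TPU.St3

/-!
# TPU, module TE: `T` preserves epimorphisms, given the key property
-/

set_option autoImplicit false

universe u

open CategoryTheory Limits AlgebraicGeometry Opposite

namespace TPU

theorem TE_isUnit (p r : ℕ) [hp : Fact p.Prime] (n : ℕ) (h : ¬ p ∣ n) :
    IsUnit ((n : ℕ) : Rg.{u} p r) := by
  have h1 : IsUnit ((n : ℕ) : ZMod (p ^ r)) := by
    rw [ZMod.isUnit_iff_coprime]
    exact Nat.Coprime.pow_right r ((Nat.Prime.coprime_iff_not_dvd hp.out).2 h).symm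
  have h2 := h1.map (ULift.ringEquiv (R := ZMod (p ^ r))).symm
  rwa [map_natCast] at h2

theorem thm_TE (h1 : St_Norm.{u}) : St_TE.{u} := by
  intro p r _ X S f U hKL F G φ _
  have hφ : Sheaf.IsLocallySurjective φ := (Sheaf.isLocallySurjective_iff_epi' _ φ).2 inferInstance
  rw [← Sheaf.isLocallySurjective_iff_epi']
  constructor
  intro W b
  have hR : Presheaf.imageSieve φ.hom (U := U ⨯ W) b ∈ tame f p (U ⨯ W) :=
    Presheaf.imageSieve_mem (tame f p) φ.hom (U := op (U ⨯ W)) b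
  refine (tame f p).superset_covering ?_ (hKL W _ hR)
  rw [Sieve.generate_le_iff]
  rintro V g ⟨E, π, Δ, _, _, act, hcop, hJT, a, ha⟩
  have h3 := h1 X.Etale (tame f p) (Rg.{u} p r) F G φ E (U ⨯ V) π Δ act hJT
    (TE_isUnit p r _ hcop) ((G.obj.map (prod.map (𝟙 U) g).op).hom b) a (by
      rw [op_comp, G.obj.map_comp] at ha
      exact ha)
  obtain ⟨a', ha'⟩ := h3
  exact ⟨a', ha'⟩

end TPU
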