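import Pool.Agent.TPU.St3

/-!
# TPU, module TL: the functor `T` is additive and preserves finite limits
-/

set_option autoImplicit false

universe u

open CategoryTheory Limits AlgebraicGeometry Opposite

namespace TPU

theorem thm_TL : St_TL.{u} := by
  intro C _ _ J U R _
  refine ⟨⟨fun {F G φ ψ} => ?_⟩, ⟨fun K _ _ => ?_⟩⟩
  · rfl
  · have : PreservesLimitsOfShape K (sheafToPresheaf J (ModuleCat.{u + 1} R) ⋙
        (Functor.whiskeringLeft _ _ (ModuleCat.{u + 1} R)).obj
          (Over.star U ⋙ Over.forget U).op) := inferInstance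
    have : PreservesLimitsOfShape K (T J U (ModuleCat.{u + 1} R) ⋙
        sheafToPresheaf J (ModuleCat.{u + 1} R)) := this
    exact preservesLimitsOfShape_of_reflects_of_preserves (T J U (ModuleCat.{u + 1} R))
      (sheafToPresheaf J (ModuleCat.{u + 1} R))

end TPU
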