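import Pool.Agent.TPU.St2

/-!
# TPU, module Top: the covering sieves of the tame topology are the tame covering sieves
-/

set_option autoImplicit false

universe u

open CategoryTheory Limits AlgebraicGeometry Opposite

namespace TPU

/-- the topology of the geometric coverings -/
private def Top_J (h3 : St_GTop.{u}) (p : ℕ) (X S : Scheme.{u}) (f : X ⟶ S) :
    GrothendieckTopology X.Etale where
  sieves U := {R | GCov f p R}
  top_mem' U := (h3 p X S f).1 U
  pullback_stable' U _ R h hR := (h3 p X S f).2.1 U _ h R hR
  transitive' U R hR R' h := (h3 p X S f).2.2 U R R' hR fun _ _ hg => h hg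

theorem thm_Top (h1 : St_CG.{u}) (h2 : St_GC.{u}) (h3 : St_GTop.{u}) : St_Top.{u} := by
  intro p X S f U R
  have hC : R ∈ tame f p U → GCov f p R := by
    intro hR
    have hle : tame f p ≤ Top_J h3 p X S f := by
      refine sInf_le ?_
      intro U' R' hR'
      exact h1 p X S f U' R' hR'
    exact hle U hR
  have hG : Cov f p R → R ∈ tame f p U := by
    intro hR
    rintro _ ⟨⟨_, J, hJ, rfl⟩, rfl⟩
    exact hJ U R hR
  exact ⟨⟨fun h => h2 p X S f U R (hC h), hG⟩, ⟨hC, fun h => hG (h2 p X S f U R h)⟩⟩

end TPU
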