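import Pool.Agent.TPU.St2

/-!
# TPU: the product with the complement of a closed subset
-/

set_option autoImplicit false

universe u

open CategoryTheory Limits AlgebraicGeometry Opposite

namespace TPU

private theorem UW_pb {X : Scheme.{u}} (U W : X.Etale) :
    IsPullback (prod.fst : U ⨯ W ⟶ U).left (prod.snd : U ⨯ W ⟶ W).left U.hom W.hom := by
  have h := CategoryTheory.Over.isPullback_of_binaryFan_isLimit _
    (mapIsLimitOfPreservesOfIsLimit (Scheme.Etale.forget X) (prod.fst : U ⨯ W ⟶ U) prod.snd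
      (prodIsProd U W))
  exact h

private theorem UW_ext {X : Scheme.{u}} {A B : X.Etale} {a b : A ⟶ B} (h : a.left = b.left) :
    a = b := by
  apply (Scheme.Etale.forgetFullyFaithful X).map_injective
  exact Over.OverMorphism.ext h

theorem thm_UW : St_UW.{u} := by
  intro X Z hZ W
  have hpb := UW_pb (Uo hZ) W
  have hop : IsOpenImmersion (Uo hZ).hom := by
    show IsOpenImmersion (Scheme.Opens.ι _)
    infer_instance
  have h1 : IsOpenImmersion (prod.snd : Uo hZ ⨯ W ⟶ W).left :=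
    MorphismProperty.of_isPullback hpb hop
  have hrU : Set.range (Uo hZ).hom = Zᶜ := by
    show Set.range (Scheme.Opens.ι (⟨Zᶜ, hZ.isOpen_compl⟩ : X.Opens)) = Zᶜ
    exact Scheme.Opens.range_ι _
  have h3 : Set.range (prod.snd : Uo hZ ⨯ W ⟶ W).left = {w | W.hom w ∉ Z} := by
    have e : (prod.snd : Uo hZ ⨯ W ⟶ W).left =
        hpb.isoPullback.hom ≫ pullback.snd _ _ := (hpb.isoPullback_hom_snd).symm
    have hs : Function.Surjective hpb.isoPullback.hom := hpb.isoPullback.hom.surjective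
    have h4 : Set.range (prod.snd : Uo hZ ⨯ W ⟶ W).left =
        Set.range (pullback.snd (Uo hZ).hom W.hom) := by
      rw [e]
      ext w
      constructor
      · rintro ⟨x, rfl⟩
        exact ⟨hpb.isoPullback.hom x, rfl⟩
      · rintro ⟨y, rfl⟩
        obtain ⟨x, rfl⟩ := hs y
        exact ⟨x, rfl⟩
    rw [h4, Scheme.Pullback.range_snd, hrU]
    rfl
  have h2 : Mono (prod.snd : Uo hZ ⨯ W ⟶ W) := by
    have hm : Mono (prod.snd : Uo hZ ⨯ W ⟶ W).left := inferInstance
    refine ⟨fun a b hab => UW_ext ?_⟩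
    rw [← cancel_mono (prod.snd : Uo hZ ⨯ W ⟶ W).left]
    exact congrArg (fun t => t.left) hab
  refine ⟨h1, h2, h3, ?_⟩
  intro D k hk
  have hr : Set.range k.left ⊆ Set.range (prod.snd : Uo hZ ⨯ W ⟶ W).left := by
    rw [h3]
    rintro _ ⟨d, rfl⟩
    have hw : k.left ≫ W.hom = D.hom := k.w
    have h5 := hk d
    rw [← hw] at h5
    exact h5
  refine ⟨MorphismProperty.Over.homMk
    (IsOpenImmersion.lift (prod.snd : Uo hZ ⨯ W ⟶ W).left k.left hr) ?_ trivial, ?_⟩
  · have hw : (prod.snd : Uo hZ ⨯ W ⟶ W).left ≫ W.hom = (Uo hZ ⨯ W).hom :=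
      (prod.snd : Uo hZ ⨯ W ⟶ W).w
    have hw' : k.left ≫ W.hom = D.hom := k.w
    rw [← hw, ← hw', IsOpenImmersion.lift_fac_assoc]
  · apply UW_ext
    exact IsOpenImmersion.lift_fac _ _ _

end TPU
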