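import Pool.Agent.TPU.St1

/-!
# [VExt] Extension of a valuation ring to an arbitrary field extension
-/

set_option autoImplicit false

universe u

namespace TPU

/-- **VExt**. Extension of valuations to arbitrary field extensions. -/
theorem thm_VExt : St_VExt.{u} := by
  intro K L _ _ φ v
  obtain ⟨w, hw, hloc⟩ := IsLocalRing.exists_factor_valuationRing (R := v) (K := L)
    (φ.comp v.subtype)
  refine ⟨w, ?_⟩
  ext x
  rw [ValuationSubring.mem_comap]
  constructor
  · intro hx
    by_contra hxv
    have hinv : x⁻¹ ∈ v := (v.mem_or_inv_mem x).resolve_left hxv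
    have hx0 : x ≠ 0 := by
      rintro rfl
      exact hxv v.zero_mem
    have hunit : IsUnit (((φ.comp v.subtype).codRestrict w.toSubring hw) ⟨x⁻¹, hinv⟩) := by
      refine isUnit_iff_exists_inv.2 ⟨⟨φ x, hx⟩, Subtype.ext ?_⟩
      show φ x⁻¹ * φ x = 1
      rw [← map_mul, inv_mul_cancel₀ hx0, map_one]
    have hu := hloc.map_nonunit _ hunit
    obtain ⟨y, hy⟩ := isUnit_iff_exists_inv.1 hu
    have hy' : x⁻¹ * (y : K) = 1 := congrArg Subtype.val hy
    have hyx : (y : K) = x := by
      have h1 : x * (x⁻¹ * (y : K)) = x * 1 := by rw [hy']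
      rwa [mul_inv_cancel_left₀ hx0, mul_one] at h1
    exact hxv (hyx ▸ y.2)
  · intro hx
    exact hw ⟨x, hx⟩

end TPU
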