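import Pool.Agent.TPU.St2

/-!
# TPU: open covers are tame coverings
-/

set_option autoImplicit false

universe u

open CategoryTheory Limits AlgebraicGeometry Opposite

namespace TPU

theorem thm_Zar (h1 : St_Top.{u}) (h2 : St_Kf.{u}) : TPU.St_Zar.{u} := by
  intro p X S f U R hR
  rw [(h1 p X S f U R).2]
  intro Ω _ _ a O _ _
  obtain ⟨x, hx⟩ : ∃ x : U.left, Set.range a = {x} := by
    refine ⟨a default, ?_⟩
    ext y
    constructor
    · rintro ⟨z, rfl⟩
      rw [Set.mem_singleton_iff, Subsingleton.elim z default]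
    · rintro rfl
      exact ⟨default, rfl⟩
  obtain ⟨V, g, hg, hgo, hxg⟩ := hR x
  have hle : Set.range a ⊆ Set.range g.left := by
    rw [hx]
    exact Set.singleton_subset_iff.2 hxg
  refine ⟨V, g, IsOpenImmersion.lift g.left a hle, ∅, hg, IsOpenImmersion.lift_fac g.left a hle, ?_⟩
  intro σ hσ _
  have h4 := h2.2.2.2.1
  have ha := (h4 Ω U.left a (σ : Ω →+* Ω)).2 hσ
  refine (h4 Ω V.left (IsOpenImmersion.lift g.left a hle) (σ : Ω →+* Ω)).1 ?_
  rw [← cancel_mono g.left, Category.assoc, IsOpenImmersion.lift_fac, ha]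

end TPU
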