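import Pool.Agent.TPU.Asm
import Pool.Agent.TPU.Abs
import Pool.Agent.TPU.BB
import Pool.Agent.TPU.Beta
import Pool.Agent.TPU.BetaB
import Pool.Agent.TPU.CG
import Pool.Agent.TPU.Comp
import Pool.Agent.TPU.Conj
import Pool.Agent.TPU.Core
import Pool.Agent.TPU.EtDvr
import Pool.Agent.TPU.EtNb
import Pool.Agent.TPU.GC
import Pool.Agent.TPU.GTR
import Pool.Agent.TPU.GTop
import Pool.Agent.TPU.GalA
import Pool.Agent.TPU.GalB
import Pool.Agent.TPU.GalD
import Pool.Agent.TPU.Gen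
import Pool.Agent.TPU.Grp
import Pool.Agent.TPU.Inj
import Pool.Agent.TPU.Kf
import Pool.Agent.TPU.Kf2
import Pool.Agent.TPU.LamS
import Pool.Agent.TPU.LamT
import Pool.Agent.TPU.Main0
import Pool.Agent.TPU.Main1
import Pool.Agent.TPU.Nb
import Pool.Agent.TPU.Norm
import Pool.Agent.TPU.Pol
import Pool.Agent.TPU.Res
import Pool.Agent.TPU.Shr
import Pool.Agent.TPU.Sur
import Pool.Agent.TPU.Sv
import Pool.Agent.TPU.TE
import Pool.Agent.TPU.TL
import Pool.Agent.TPU.Top
import Pool.Agent.TPU.TorC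
import Pool.Agent.TPU.UW
import Pool.Agent.TPU.VExt
import Pool.Agent.TPU.Zar

/-!
# TPU: assembly
-/

set_option autoImplicit false

universe u

open CategoryTheory Limits AlgebraicGeometry Opposite

namespace TPU

theorem all_CG : St_CG.{u} := thm_CG thm_Kf thm_Sv thm_Conj
theorem all_GC : St_GC.{u} := thm_GC thm_Kf thm_Sv thm_VExt
theorem all_GTop : St_GTop.{u} := thm_GTop thm_Kf
theorem all_Top : St_Top.{u} := thm_Top all_CG all_GC all_GTop
theorem all_Zar : St_Zar.{u} := thm_Zar all_Top thm_Kf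
theorem all_TorC : St_TorC.{u} := thm_TorC thm_Kf all_Top all_Zar
theorem all_Sur : St_Sur.{u} := thm_Sur all_Top
theorem all_LamS : St_LamS.{u} := thm_LamS all_Sur
theorem all_TE : St_TE.{u} := thm_TE thm_Norm
theorem all_BetaB : St_BetaB.{u} := thm_BetaB thm_Beta
theorem all_Res : St_Res.{u} := thm_Res thm_Pol
theorem all_Core : St_Core.{u} := thm_Core thm_BB thm_Grp all_BetaB thm_Pol all_Res
theorem all_Nb : St_Nb.{u} := thm_Nb thm_Kf thm_EtDvr thm_Gen all_Core thm_EtNb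
theorem all_LamT : St_LamT.{u} := thm_LamT thm_EtDvr thm_Gen thm_UW
theorem all_Main0 : St_Main0.{u} := thm_Main0 thm_Kf thm_UW all_Zar all_TorC all_Top
theorem all_GalB : St_GalB.{u} := thm_GalB thm_GalA thm_Kf

theorem all_GalD : St_GalD.{u} := thm_GalD all_GalB thm_GTR thm_Kf
theorem all_Main1 : St_Main1.{u} :=
  thm_Main1 thm_Kf thm_Kf2 thm_Sv thm_EtDvr thm_Gen thm_Comp all_Nb all_GalD thm_GTR thm_Shr
    thm_UW all_TorC

theorem all_Fin : St_Fin.{u} :=
  asm_Fin all_Top all_Main0 all_Main1 all_TE thm_Inj thm_TL thm_Abs all_LamS all_LamT thm_UW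

end TPU
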