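import Pool.Agent.TPU.St4

/-!
# TPU: assembly of the key property and of the theorem for `n = 0` and the vanishing
-/

set_option autoImplicit false

universe u

open CategoryTheory Limits AlgebraicGeometry Opposite

namespace TPU

/-- the key property, from the modules -/
theorem asm_KL (h0 : St_Top.{u}) (h1 : St_Main0.{u}) (h2 : St_Main1.{u}) (p : ℕ) [Fact p.Prime]
    (X S : Scheme.{u}) (f : X ⟶ S) [IsLocallyNoetherian X] (hS : (p : Γ(S, ⊤)) = 0) (Z : Set X)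
    (hZ : IsClosed Z) (hD : ∀ z ∈ Z, IsDvr (X.presheaf.stalk z)) : KL f p (Uo hZ) := by
  intro W R hR
  rw [(h0 p X S f W _).1]
  have hC := (h0 p X S f _ R).1.1 hR
  intro a
  by_cases ha : W.hom a.pt ∈ Z
  · obtain ⟨V, g, b, hg, hb⟩ := h2 p X S f hS Z hZ hD W R hC a ha
    exact ⟨V, g, b, Sieve.le_generate _ _ _ hg, hb⟩
  · obtain ⟨V, g, b, hg, hb⟩ := h1 p X S f Z hZ W R hC a ha
    exact ⟨V, g, b, Sieve.le_generate _ _ _ hg, hb⟩

/-- The theorem: derived functors of the sections with support. -/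
def St_Fin : Prop :=
  ∀ (p r : ℕ) [Fact p.Prime] (X S : Scheme.{u}) (f : X ⟶ S) [IsLocallyNoetherian X],
    (p : Γ(S, ⊤)) = 0 → ∀ (Z : Set X) (hZ : IsClosed Z), (∀ z ∈ Z, IsDvr (X.presheaf.stalk z)) →
    (∀ (U : X.Etale) (R : Sieve U), R ∈ tame f p U ↔ Cov f p R) ∧
    (∀ (F : Sh f p r) (q : ℕ), IsZero (((HZ (tame f p) (Uo hZ) _).rightDerived (q + 2)).obj F)) ∧
    (∀ F : Sh f p r, Nonempty (((HZ (tame f p) (Uo hZ) _).rightDerived 0).obj F ≅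
      (HZ (tame f p) (Uo hZ) _).obj F)) ∧
    (∀ F : Sh f p r, Nonempty (((HZ (tame f p) (Uo hZ) _).rightDerived 1).obj F ≅
      cokernel ((eta (tame f p) (Uo hZ) _).app F))) ∧
    ∃ h : Presheaf.IsSheaf (tame f p) (LamP X p r), ∀ q : ℕ,
      IsZero (((HZ (tame f p) (Uo hZ) _).rightDerived q).obj (⟨LamP X p r, h⟩ : Sh f p r))

theorem asm_Fin (h0 : St_Top.{u}) (h1 : St_Main0.{u}) (h2 : St_Main1.{u}) (h3 : St_TE.{u})
    (h4 : St_Inj.{u}) (h5 : St_TL.{u}) (h6 : St_Abs.{u}) (h7 : St_LamS.{u}) (h8 : St_LamT.{u})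
    (h9 : St_UW.{u}) : St_Fin.{u} := by
  intro p r _ X S f _ hS Z hZ hD
  have hKL := asm_KL h0 h1 h2 p X S f hS Z hZ hD
  obtain ⟨hadd, hlim⟩ := h5 X.Etale (tame f p) (Uo hZ) (Rg.{u} p r)
  have hmono : ∀ W : X.Etale, Mono (prod.snd : Uo hZ ⨯ W ⟶ W) := fun W => (h9 X Z hZ W).2.1
  have hz : ∀ F : Sh f p r, (iZ (tame f p) (Uo hZ) _).app F ≫
      (eta (tame f p) (Uo hZ) _).app F = 0 := fun F => kernel.condition _
  obtain ⟨a1, a2, a3, a4⟩ := h6 (Sh f p r) (T (tame f p) (Uo hZ) _) (eta (tame f p) (Uo hZ) _)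
    (HZ (tame f p) (Uo hZ) _) (iZ (tame f p) (Uo hZ) _) hz
    (fun F => ⟨kernelIsKernel ((eta (tame f p) (Uo hZ) _).app F)⟩)
    (fun F G φ _ => h3 p r X S f (Uo hZ) hKL F G φ)
    (fun I _ => h4 X.Etale (tame f p) (Uo hZ) (Rg.{u} p r) hmono I)
  refine ⟨fun U R => (h0 p X S f U R).1, a1, a2, a3, h7 p r X S f, ?_⟩
  exact a4 _ (h8 p r X S f Z hZ hD _)

end TPU
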