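import Mathlib

/-!
# TPU (MP_4f9c46_ag): tame purity in dimension one.  Definitions.

`f : X ⟶ S` is a morphism of schemes of characteristic `p`.  The tame site `(X/S)_t` is the category
`X.Etale` of étale `X`-schemes with the topology `tame f p`.
-/

set_option autoImplicit false

universe u

open CategoryTheory Limits AlgebraicGeometry Opposite

namespace TPU

/-! ## 1. `S`-valuations and tame coverings -/

/-- An `S`-valuation of the `S`-scheme `f : X ⟶ S`: a point of `X` and a valuation (valuation ring)
of its residue field such that `Spec k(x) ⟶ X ⟶ S` extends to `Spec O_v ⟶ S`. -/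
structure SVal {X S : Scheme.{u}} (f : X ⟶ S) where
  /-- the point -/
  pt : X
  /-- the valuation ring of the valuation -/
  v : ValuationSubring (X.residueField pt)
  /-- the extension to `Spec O_v` -/
  ext : ∃ g : Spec (.of v) ⟶ S,
    Spec.map (CommRingCat.ofHom v.subtype) ≫ g = X.fromSpecResidueField pt ≫ f

/-- The extension `(L,w)/(K,v)` of valued fields of residue characteristic `p` is tamely ramified:
`w` extends `v`, and there are a finite Galois extension `M` of `K` containing `L` and an extension
`u` of `w` to `M` such that all elements of `p`-power order in the inertia group of `u` in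
`Gal(M/K)` fix `L`. -/
def Tame (p : ℕ) {K L : Type u} [Field K] [Field L] (φ : K →+* L) (v : ValuationSubring K)
    (w : ValuationSubring L) : Prop :=
  w.comap φ = v ∧ ∃ (M : Type u) (_ : Field M) (_ : Algebra K M) (ψ : L →+* M)
    (u : ValuationSubring M), FiniteDimensional K M ∧ IsGalois K M ∧
      (∀ a, ψ (φ a) = algebraMap K M a) ∧ u.comap ψ = w ∧
      ∀ σ : M ≃ₐ[K] M, (∀ x ∈ u, σ x - x ∈ u.nonunits) → (∃ n : ℕ, σ ^ p ^ n = 1) →
        ∀ y : L, σ (ψ y) = ψ y

section site

variable {X S : Scheme.{u}} (f : X ⟶ S)

/-- `g : V ⟶ U`; the `S`-valuation `b` of `V` lies over the `S`-valuation `a` of `U` and it is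
tamely ramified over it. -/
def TameOver (p : ℕ) {U V : X.Etale} (g : V ⟶ U) (a : SVal (U.hom ≫ f)) (b : SVal (V.hom ≫ f)) :
    Prop :=
  ∃ h : g.left b.pt = a.pt,
    Tame p ((U.left.residueFieldCongr h).inv ≫ g.left.residueFieldMap b.pt).hom a.v b.v

/-- Tame covering sieves: every `S`-valuation of `U` is tamely dominated by an `S`-valuation of some
`V` in the sieve. -/
def Cov (p : ℕ) {U : X.Etale} (R : Sieve U) : Prop :=
  ∀ a : SVal (U.hom ≫ f), ∃ (V : X.Etale) (g : V ⟶ U) (b : SVal (V.hom ≫ f)),
    R g ∧ TameOver f p g a b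

/-- The tame topology: generated by the tame covering sieves (in fact its covering sieves are
exactly the tame covering sieves). -/
def tame (p : ℕ) : GrothendieckTopology X.Etale :=
  sInf {J | ∀ (U : X.Etale) (R : Sieve U), Cov f p R → R ∈ J U}

end site

/-! ## 2. Sections with support -/

section supp

universe v₁ u₁ v₂ u₂

variable {C : Type u₁} [Category.{v₁} C] [HasBinaryProducts C] (J : GrothendieckTopology C) (U : C)
  (A : Type u₂) [Category.{v₂} A]

instance : (Over.star U ⋙ Over.forget U).IsContinuous J J :=
  Functor.isContinuous_comp _ _ J (J.over U) J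

/-- `j_* j^*`, for the object `U`: the sheaf `F` is sent to `W ↦ F(U × W)`. -/
noncomputable def T : Sheaf J A ⥤ Sheaf J A :=
  (Over.star U ⋙ Over.forget U).sheafPushforwardContinuous A J J

/-- the restriction `F(W) → F(U × W)` -/
noncomputable def eta : 𝟭 (Sheaf J A) ⟶ T J U A :=
  (Functor.sheafPushforwardContinuousId A J).inv ≫
    Functor.sheafPushforwardContinuousNatTrans (Over.forgetAdjStar U).counit A J J

variable [HasZeroMorphisms (Sheaf J A)] [HasKernels (Sheaf J A)]

/-- The sheaf of the sections with support in the complement of `U`: the kernel of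
`F(W) → F(U × W)`. -/
noncomputable def HZ : Sheaf J A ⥤ Sheaf J A where
  obj F := kernel ((eta J U A).app F)
  map φ := kernel.map _ _ φ ((T J U A).map φ) ((eta J U A).naturality φ).symm
  map_id F := by
    rw [← cancel_mono (kernel.ι _)]
    simp
  map_comp φ ψ := by
    rw [← cancel_mono (kernel.ι _)]
    simp

/-- the inclusion of the sheaf of sections with support -/
noncomputable def iZ : HZ J U A ⟶ 𝟭 (Sheaf J A) where
  app F := kernel.ι ((eta J U A).app F)
  naturality _ _ _ := kernel.lift_ι _ _ _

instance (F : Sheaf J A) : Mono ((iZ J U A).app F) := by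
  show Mono (kernel.ι ((eta J U A).app F))
  infer_instance

end supp

/-! ## 3. The tame site of `X/S`, sheaves of `ℤ/p^r`-modules -/

section coh

variable {X S : Scheme.{u}} (f : X ⟶ S) (p r : ℕ)

/-- the ring `ℤ/p^r` -/
abbrev Rg (p r : ℕ) : Type (u + 1) := ULift.{u + 1} (ZMod (p ^ r))

/-- the category of sheaves of `ℤ/p^r`-modules on the tame site `(X/S)_t` -/
abbrev Sh : Type _ := Sheaf (tame f p) (ModuleCat.{u + 1} (Rg.{u} p r))

noncomputable instance instAbSh : Abelian (Sh f p r) := by
  have : EssentiallySmall.{u + 1} X.Etale := inferInstance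
  infer_instance

instance instGrSh : IsGrothendieckAbelian.{u + 1} (Sh f p r) := by
  have : EssentiallySmall.{u + 1} X.Etale := inferInstance
  exact Sheaf.isGrothendieckAbelian_of_essentiallySmall (tame f p) (ModuleCat.{u + 1} (Rg.{u} p r))

/-- discrete valuation rings -/
def IsDvr (R : Type u) [CommRing R] : Prop := ∃ _ : IsDomain R, IsDiscreteValuationRing R

/-- the complement of the closed subset `Z`, as an étale `X`-scheme -/
noncomputable def Uo {Z : Set X} (hZ : IsClosed Z) : X.Etale :=
  let U : X.Opens := ⟨Zᶜ, hZ.isOpen_compl⟩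
  Scheme.Etale.mk U.ι

/-- `ℤ/p^r` as a presheaf on the étale `X`-schemes: locally constant functions. -/
noncomputable def LamP (X : Scheme.{u}) (p r : ℕ) :
    X.Etaleᵒᵖ ⥤ ModuleCat.{u + 1} (Rg.{u} p r) where
  obj W := ModuleCat.of _ (ULift.{u + 1} (LocallyConstant W.unop.left (ZMod (p ^ r))))
  map g := ModuleCat.ofHom
    { toFun := fun a => ⟨a.down.comap ⟨g.unop.left, g.unop.left.continuous⟩⟩
      map_add' := fun _ _ => rfl
      map_smul' := fun _ _ => rfl }
  map_id W := by
    ext a
    rfl
  map_comp g h := by
    ext a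
    rfl

instance : HasInjectiveResolutions (Sh f p r) := inferInstance

instance (U : X.Etale) : (HZ (tame f p) U (ModuleCat.{u + 1} (Rg.{u} p r))).Additive where
  map_add {F G φ ψ} := by
    rw [← cancel_mono ((iZ (tame f p) U _).app G), Preadditive.add_comp, NatTrans.naturality,
      NatTrans.naturality, NatTrans.naturality]
    exact Preadditive.comp_add _ _ _ _ _ _

end coh

end TPU
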