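import Pool.Agent.TPU.Defs

/-!
# TPU: auxiliary definitions
-/

set_option autoImplicit false

universe u

open CategoryTheory Limits AlgebraicGeometry Opposite

namespace TPU

/-- `kf a` is the residue field of the image of `a : Spec Ω ⟶ Y`, as a subfield of `Ω`. -/
noncomputable def kf {Ω : Type u} [Field Ω] {Y : Scheme.{u}} (a : Spec (.of Ω) ⟶ Y) : Subfield Ω :=
  (Scheme.SpecToEquivOfField Ω Y a).2.hom.fieldRange

/-- `Spec Ω ⟶ Y ⟶ S` extends to `Spec O` -/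
def SV {Y S : Scheme.{u}} (s : Y ⟶ S) {Ω : Type u} [Field Ω] (a : Spec (.of Ω) ⟶ Y)
    (O : ValuationSubring Ω) : Prop :=
  ∃ g : Spec (.of O) ⟶ S, Spec.map (CommRingCat.ofHom O.subtype) ≫ g = a ≫ s

/-- `σ` is in the inertia group of `O ∩ M` and of `p`-power order on `M` -/
def Wild (p : ℕ) {Ω : Type u} [Field Ω] (O : ValuationSubring Ω) (M : Subfield Ω)
    (σ : Ω ≃+* Ω) : Prop :=
  (∀ x ∈ M, x ∈ O → σ x - x ∈ O.nonunits) ∧ ∃ n : ℕ, ∀ x ∈ M, (σ ^ p ^ n) x = x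

section

variable {X S : Scheme.{u}} (f : X ⟶ S) (p : ℕ)

/-- The geometric form of the condition for tame covering sieves. -/
def GCov {U : X.Etale} (R : Sieve U) : Prop :=
  ∀ (Ω : Type u) [Field Ω] [IsSepClosed Ω] (a : Spec (.of Ω) ⟶ U.left) (O : ValuationSubring Ω),
    Algebra.IsSeparable (kf a) Ω → SV (U.hom ≫ f) a O →
    ∃ (V : X.Etale) (g : V ⟶ U) (b : Spec (.of Ω) ⟶ V.left) (s : Finset Ω),
      R g ∧ b ≫ g.left = a ∧ ∀ σ : Ω ≃+* Ω, (∀ x ∈ kf a, σ x = x) →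
        Wild p O (kf a ⊔ Subfield.closure s) σ → ∀ x ∈ kf b, σ x = x

end

/-- `π : E ⟶ V` is a torsor under `Δ` (acting by `act`) on geometric points -/
structure GT {E V : Scheme.{u}} (π : E ⟶ V) {Δ : Type u} [Group Δ] (act : Δ → (E ⟶ E)) : Prop where
  ov : ∀ δ, act δ ≫ π = π
  one : act 1 = 𝟙 E
  mul : ∀ δ ε, act (δ * ε) = act δ ≫ act ε
  ex : ∀ (Ω : Type u) [Field Ω] [IsSepClosed Ω] (c : Spec (.of Ω) ⟶ V),
    ∃ s : Spec (.of Ω) ⟶ E, s ≫ π = c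
  tr : ∀ (Ω : Type u) [Field Ω] [IsSepClosed Ω] (s t : Spec (.of Ω) ⟶ E), s ≫ π = t ≫ π →
    ∃! δ, t = s ≫ act δ

section tor

variable {C : Type*} [Category* C] (J : GrothendieckTopology C)

/-- `π : E ⟶ V` is a torsor under `Δ` (acting by `act`) on the site `(C, J)` -/
structure JT {E V : C} (π : E ⟶ V) {Δ : Type u} [Group Δ] (act : Δ → (E ⟶ E)) : Prop where
  ov : ∀ δ, act δ ≫ π = π
  one : act 1 = 𝟙 E
  mul : ∀ δ ε, act (δ * ε) = act δ ≫ act ε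
  cov : Sieve.generate (Presieve.singleton π) ∈ J V
  loc : ∀ (Y : C) (s t : Y ⟶ E), s ≫ π = t ≫ π → ∃ R ∈ J Y, ∀ ⦃Y' : C⦄ (k : Y' ⟶ Y), R k →
    ∃ δ, k ≫ t = k ≫ s ≫ act δ

end tor

section KL

variable {X S : Scheme.{u}} (f : X ⟶ S) (p : ℕ) (U : X.Etale)

/-- `g : V ⟶ W` is good for the sieve `R` on `U × W`: there is a torsor `E ⟶ U × V` of order prime to
`p` such that `E ⟶ U × V ⟶ U × W` is in `R`. -/
def Good {W : X.Etale} (R : Sieve (U ⨯ W)) {V : X.Etale} (g : V ⟶ W) : Prop :=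
  ∃ (E : X.Etale) (π : E ⟶ U ⨯ V) (Δ : Type u) (_ : Group Δ) (_ : Finite Δ) (act : Δ → (E ⟶ E)),
    ¬ p ∣ Nat.card Δ ∧ JT (tame f p) π act ∧ R (π ≫ prod.map (𝟙 U) g)

/-- The key property. -/
def KL : Prop :=
  ∀ (W : X.Etale) (R : Sieve (U ⨯ W)), R ∈ tame f p (U ⨯ W) →
    Sieve.generate (fun _ g => Good f p U R g : Presieve W) ∈ tame f p W

end KL

end TPU
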