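import Pool.Agent.TPU.Defs2

/-!
# TPU: definitions for `n = 1`: the sheaf `G_m/p^r`
-/

set_option autoImplicit false

universe u

open CategoryTheory Limits AlgebraicGeometry Opposite

namespace TPU

section

variable (p r : ℕ)

/-- the group `A^*/p^r` (written additively) -/
abbrev Um (A : Type u) [CommRing A] : Type u :=
  Additive Aˣ ⧸ (nsmulAddMonoidHom (α := Additive Aˣ) (p ^ r)).range

instance instUm (A : Type u) [CommRing A] : Module (ZMod (p ^ r)) (Um p r A) :=
  QuotientAddGroup.zmodModule (fun x => ⟨x, rfl⟩)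

instance instUmL (A : Type u) [CommRing A] : Module (Rg.{u} p r) (ULift.{u + 1} (Um p r A)) :=
  inferInstance

/-- the class of a unit in `A^*/p^r` -/
def cl {A : Type u} [CommRing A] (u : Aˣ) : Um p r A := QuotientAddGroup.mk (Additive.ofMul u)

/-- functoriality of `A^*/p^r` -/
noncomputable def Um.map {A B : Type u} [CommRing A] [CommRing B] (φ : A →+* B) :
    Um p r A →ₗ[ZMod (p ^ r)] Um p r B :=
  AddMonoidHom.toZModLinearMap (p ^ r)
    (QuotientAddGroup.map _ _ (Units.map (φ : A →* B)).toAdditive (by
      rintro _ ⟨x, rfl⟩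
      exact ⟨(Units.map (φ : A →* B)).toAdditive x, by simp⟩))

theorem Um.map_cl {A B : Type u} [CommRing A] [CommRing B] (φ : A →+* B) (u : Aˣ) :
    Um.map p r φ (cl p r u) = cl p r (Units.map (φ : A →* B) u) := rfl

/-- The presheaf `W ↦ Γ(W, O_W)^*/p^r` on the étale `X`-schemes. -/
noncomputable def GmP (X : Scheme.{u}) :
    X.Etaleᵒᵖ ⥤ ModuleCat.{u + 1} (Rg.{u} p r) where
  obj W := @ModuleCat.of (Rg.{u} p r) _ (ULift.{u + 1} (Um p r Γ(W.unop.left, ⊤))) _
    (instUmL p r Γ(W.unop.left, ⊤))
  map g := ModuleCat.ofHom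
    { toFun := fun a => ⟨Um.map p r (g.unop.left.appTop).hom a.down⟩
      map_add' := fun x y => by
        apply ULift.ext
        exact map_add (Um.map p r (g.unop.left.appTop).hom) x.down y.down
      map_smul' := fun c x => by
        apply ULift.ext
        exact map_smul (Um.map p r (g.unop.left.appTop).hom) c.down x.down }
  map_id W := by
    ext a
    obtain ⟨a⟩ := a
    induction a using QuotientAddGroup.induction_on with
    | H a =>
      show cl p r _ = cl p r _
      congr 1
  map_comp g h := by
    ext a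
    obtain ⟨a⟩ := a
    induction a using QuotientAddGroup.induction_on with
    | H a =>
      show cl p r _ = cl p r _
      congr 1

/-- The étale sheaf `G_m/p^r`. -/
noncomputable def GmS (X : Scheme.{u}) :
    Sheaf X.smallEtaleTopology (ModuleCat.{u + 1} (Rg.{u} p r)) :=
  (presheafToSheaf _ _).obj (GmP p r X)

/-- the section of `G_m/p^r` given by a unit -/
noncomputable def br {X : Scheme.{u}} {W : X.Etale} (u : Γ(W.left, ⊤)ˣ) :
    (GmS p r X).obj.obj (op W) :=
  ((toSheafify X.smallEtaleTopology (GmP p r X)).app (op W)).hom ⟨cl p r u⟩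

end

section

variable {X : Scheme.{u}}

/-- an open subscheme as an étale `X`-scheme -/
noncomputable def opn (V : X.Etale) (G : V.left.Opens) : X.Etale :=
  Scheme.Etale.mk (G.ι ≫ V.hom)

/-- its inclusion -/
noncomputable def opi (V : X.Etale) (G : V.left.Opens) : opn V G ⟶ V :=
  MorphismProperty.Over.homMk G.ι

/-- `ℤ/p^r` on the closed subset `Z`, as a presheaf on the étale `X`-schemes: locally constant
functions on the preimage of `Z`. -/
noncomputable def ZP (Z : Set X) (p r : ℕ) : X.Etaleᵒᵖ ⥤ ModuleCat.{u + 1} (Rg.{u} p r) where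
  obj W := ModuleCat.of _
    (ULift.{u + 1} (LocallyConstant {w : W.unop.left // W.unop.hom w ∈ Z} (ZMod (p ^ r))))
  map {W V} g := ModuleCat.ofHom
    { toFun := fun a => ⟨a.down.comap ⟨fun v => ⟨g.unop.left v.1, by
        have h : g.unop.left ≫ W.unop.hom = V.unop.hom := MorphismProperty.Over.w g.unop
        rw [← Scheme.Hom.comp_apply, h]
        exact v.2⟩, (g.unop.left.continuous.comp continuous_subtype_val).subtype_mk _⟩⟩
      map_add' := fun _ _ => rfl
      map_smul' := fun _ _ => rfl }
  map_id W := by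
    ext a
    rfl
  map_comp g h := by
    ext a
    rfl

end

end TPU
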