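import Pool.Agent.TPU.St4

/-!
# TPU: module Gen, generizations of a point whose local ring is a discrete valuation ring
-/

set_option autoImplicit false

universe u

open CategoryTheory Limits AlgebraicGeometry Opposite

namespace TPU

/-- elements of the local ring of a generization are quotients of elements of the local ring -/
private theorem Gen_frac {W : Scheme.{u}} {η z : W} (h : η ⤳ z) (y : W.presheaf.stalk η) :
    ∃ a b : W.presheaf.stalk z, IsUnit ((W.presheaf.stalkSpecializes h).hom b) ∧
      y * (W.presheaf.stalkSpecializes h).hom b = (W.presheaf.stalkSpecializes h).hom a := by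
  obtain ⟨_, ⟨U, hU, rfl⟩, hzU, -⟩ :=
    W.isBasis_affineOpens.exists_subset_of_mem_open (Set.mem_univ z) isOpen_univ
  have hηU : η ∈ U := h.mem_open U.2 hzU
  let _ := W.presheaf.algebra_section_stalk ⟨η, hηU⟩
  have hloc := hU.isLocalization_stalk ⟨η, hηU⟩
  obtain ⟨⟨a, s⟩, has⟩ := IsLocalization.surj
    (M := (hU.primeIdealOf ⟨η, hηU⟩).asIdeal.primeCompl) y
  have hs := IsLocalization.map_units (M := (hU.primeIdealOf ⟨η, hηU⟩).asIdeal.primeCompl)
    (W.presheaf.stalk η) s
  have key : ∀ c : Γ(W, U), (W.presheaf.stalkSpecializes h).hom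
      ((W.presheaf.germ U z hzU).hom c) = (W.presheaf.germ U η hηU).hom c := by
    intro c
    have h1 := W.presheaf.germ_stalkSpecializes hzU h
    rw [← h1]
    rfl
  refine ⟨(W.presheaf.germ U z hzU).hom a, (W.presheaf.germ U z hzU).hom s, ?_, ?_⟩
  · rw [key]
    exact hs
  · rw [key, key]
    exact has

theorem thm_Gen : St_Gen.{u} := by
  intro W z hdvr
  obtain ⟨hdom, hdv⟩ := hdvr
  -- the two primes of the local ring
  obtain ⟨p₀, hp₀⟩ : ∃ p₀ : PrimeSpectrum (W.presheaf.stalk z), p₀.asIdeal = ⊥ :=
    ⟨⟨⊥, Ideal.isPrime_bot⟩, rfl⟩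
  have hprimes : ∀ p : PrimeSpectrum (W.presheaf.stalk z),
      p = p₀ ∨ p = IsLocalRing.closedPoint (W.presheaf.stalk z) := by
    intro p
    by_cases hp : p.asIdeal = ⊥
    · left
      ext1
      rw [hp, hp₀]
    · right
      ext1
      have h1 := p.isPrime.isMaximal hp
      exact IsLocalRing.eq_maximalIdeal h1
  have hne : p₀ ≠ IsLocalRing.closedPoint (W.presheaf.stalk z) := by
    intro h
    have h1 := congrArg PrimeSpectrum.asIdeal h
    rw [hp₀] at h1
    exact IsDiscreteValuationRing.not_a_field (W.presheaf.stalk z) h1.symm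
  have hinj : Function.Injective (W.fromSpecStalk z) :=
    (W.fromSpecStalk z).isEmbedding.injective
  have hcl : W.fromSpecStalk z (IsLocalRing.closedPoint (W.presheaf.stalk z)) = z :=
    Scheme.fromSpecStalk_closedPoint
  obtain ⟨η, hη⟩ : ∃ η, η = W.fromSpecStalk z p₀ := ⟨_, rfl⟩
  have hηz : η ⤳ z := by
    have h1 : η ∈ Set.range (W.fromSpecStalk z) := ⟨p₀, hη.symm⟩
    rw [Scheme.range_fromSpecStalk] at h1
    exact h1
  refine ⟨η, hηz, ?_, ?_, ?_⟩
  · intro h
    rw [hη] at h
    have h1 : W.fromSpecStalk z p₀ =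
      W.fromSpecStalk z (IsLocalRing.closedPoint (W.presheaf.stalk z)) := by rw [h, hcl]
    exact hne (hinj h1)
  · intro x hx
    have h1 : x ∈ Set.range (W.fromSpecStalk z) := by
      rw [Scheme.range_fromSpecStalk]
      exact hx
    obtain ⟨p, hp⟩ := h1
    rcases hprimes p with h2 | h2
    · right
      rw [← hp, h2, hη]
    · left
      rw [← hp, h2, hcl]
  -- the prime ideal of the generization
  have hcomap : ∀ a : W.presheaf.stalk z,
      (W.presheaf.stalkSpecializes hηz).hom a ∈ IsLocalRing.maximalIdeal (W.presheaf.stalk η) →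
        a = 0 := by
    intro a ha
    have h1 : W.fromSpecStalk z (Spec.map (W.presheaf.stalkSpecializes hηz)
        (IsLocalRing.closedPoint (W.presheaf.stalk η))) = η := by
      have h2 : (Spec.map (W.presheaf.stalkSpecializes hηz) ≫ W.fromSpecStalk z)
          (IsLocalRing.closedPoint (W.presheaf.stalk η)) = η := by
        rw [Scheme.SpecMap_stalkSpecializes_fromSpecStalk]
        exact Scheme.fromSpecStalk_closedPoint
      exact h2
    have h3 : Spec.map (W.presheaf.stalkSpecializes hηz)
        (IsLocalRing.closedPoint (W.presheaf.stalk η)) = p₀ := by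
      apply hinj
      rw [h1, hη]
    have h4 := congrArg PrimeSpectrum.asIdeal h3
    rw [hp₀] at h4
    have h5 : a ∈ (Spec.map (W.presheaf.stalkSpecializes hηz)
        (IsLocalRing.closedPoint (W.presheaf.stalk η))).asIdeal := ha
    rw [h4] at h5
    exact h5
  have hmax : IsLocalRing.maximalIdeal (W.presheaf.stalk η) = ⊥ := by
    rw [eq_bot_iff]
    intro y hy
    obtain ⟨a, b, hb, hab⟩ := Gen_frac hηz y
    have h1 : (W.presheaf.stalkSpecializes hηz).hom a ∈
        IsLocalRing.maximalIdeal (W.presheaf.stalk η) := by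
      rw [← hab]
      exact Ideal.mul_mem_right _ _ hy
    have h2 := hcomap a h1
    rw [h2, map_zero] at hab
    have h3 : y = 0 := (hb.mul_left_eq_zero).1 hab
    rw [h3]
    exact Ideal.zero_mem _
  have hres : Function.Injective (W.residue η).hom := by
    rw [injective_iff_map_eq_zero]
    intro y hy
    have h1 : y ∈ IsLocalRing.maximalIdeal (W.presheaf.stalk η) :=
      (IsLocalRing.residue_eq_zero_iff y).1 hy
    rw [hmax] at h1
    exact h1
  refine ⟨?_, ?_, hres, ?_⟩
  · rw [injective_iff_map_eq_zero]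
    intro a ha
    apply hcomap
    have h1 : (W.residue η).hom ((W.presheaf.stalkSpecializes hηz).hom a) = 0 := ha
    exact (IsLocalRing.residue_eq_zero_iff _).1 h1
  · intro x
    obtain ⟨y, hy⟩ := W.residue_surjective η x
    obtain ⟨a, b, hb, hab⟩ := Gen_frac hηz y
    refine ⟨a, b, ?_, ?_⟩
    · have h1 : IsUnit (spz hηz b) := hb.map (W.residue η).hom
      exact h1.ne_zero
    · have h1 := congrArg (W.residue η).hom hab
      rw [map_mul] at h1
      rw [← hy]
      exact h1
  · intro h
    obtain ⟨h1, h2⟩ := h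
    exact IsDiscreteValuationRing.not_a_field (W.presheaf.stalk η) hmax

end TPU
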