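import Pool.Agent.TPU.Defs3

/-!
# TPU: the definitions used in the statements of the results

`f : X ⟶ S` is a morphism of schemes of characteristic `p`.  The tame site `(X/S)_t` is the category
`X.Etale` of étale `X`-schemes with the topology `TPQ.tame f p`.
-/

set_option autoImplicit false

universe u

open CategoryTheory Limits AlgebraicGeometry Opposite

namespace TPQ

/-! ## 1. `S`-valuations and tame coverings -/

/-- The residue field of a point. -/
def kk {Y : Scheme.{u}} (y : Y) : Type u := Y.residueField y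

noncomputable instance instFieldKk {Y : Scheme.{u}} (y : Y) : Field (kk y) :=
  (inferInstance : Field (Y.residueField y))

/-- The homomorphism `k(g(y)) → k(y)` of residue fields. -/
noncomputable def rf {Y Y' : Scheme.{u}} (g : Y ⟶ Y') (y : Y) : kk (g y) →+* kk y :=
  (g.residueFieldMap y).hom

/-- The morphism `Spec k(y) ⟶ Y`. -/
noncomputable def fk {Y : Scheme.{u}} (y : Y) : Spec (.of (kk y)) ⟶ Y := Y.fromSpecResidueField y

/-- The morphism `Spec K ⟶ Spec O_v`. -/
noncomputable def inc {K : Type u} [Field K] (v : ValuationSubring K) :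
    Spec (.of K) ⟶ Spec (.of v) := Spec.map (CommRingCat.ofHom v.subtype)

/-- A point of `Y` with a valuation (a valuation ring) of its residue field. -/
structure Pv (Y : Scheme.{u}) where
  /-- the point -/
  pt : Y
  /-- the valuation ring of the valuation -/
  v : ValuationSubring (kk pt)

/-- The image of `(y, v)` under `g : Y ⟶ Y'`. -/
noncomputable def Pv.map {Y Y' : Scheme.{u}} (g : Y ⟶ Y') (b : Pv Y) : Pv Y' :=
  ⟨g b.pt, b.v.comap (rf g b.pt)⟩

/-- `(y, v)` is an `S`-valuation of the `S`-scheme `s : Y ⟶ S`: the morphism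
`Spec k(y) ⟶ Y ⟶ S` extends to `Spec O_v ⟶ S`. -/
def IsSval {Y S : Scheme.{u}} (s : Y ⟶ S) (b : Pv Y) : Prop :=
  ∃ g : Spec (.of b.v) ⟶ S, inc b.v ≫ g = fk b.pt ≫ s

/-- Let `φ : K → L` be an extension of fields of characteristic `p` and `w` a valuation ring of `L`.
`w` is tamely ramified over `K`: there are a finite Galois extension `M` of `K` containing `L` and an
extension `u` of `w` to `M` such that all elements of `p`-power order in the inertia group of `u` in
`Gal(M/K)` fix `L`. -/
def Tame (p : ℕ) {K L : Type u} [Field K] [Field L] (φ : K →+* L) (w : ValuationSubring L) : Prop :=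
  ∃ (M : Type u) (_ : Field M) (_ : Algebra K M) (ψ : L →+* M)
    (u : ValuationSubring M), FiniteDimensional K M ∧ IsGalois K M ∧
      (∀ a, ψ (φ a) = algebraMap K M a) ∧ u.comap ψ = w ∧
      ∀ σ : M ≃ₐ[K] M, (∀ x ∈ u, σ x - x ∈ u.nonunits) → (∃ n : ℕ, σ ^ p ^ n = 1) →
        ∀ y : L, σ (ψ y) = ψ y

/-- the underlying scheme of an étale `X`-scheme -/
noncomputable def sp {X : Scheme.{u}} (U : X.Etale) : Scheme.{u} := U.left

/-- its structure morphism -/
noncomputable def sx {X : Scheme.{u}} (U : X.Etale) : sp U ⟶ X := U.hom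

/-- the underlying morphism of schemes of a morphism of étale `X`-schemes -/
noncomputable def mp {X : Scheme.{u}} {V U : X.Etale} (g : V ⟶ U) : sp V ⟶ sp U := g.left

section site

variable {X S : Scheme.{u}} (f : X ⟶ S)

/-- Tame covering sieves: every `S`-valuation `a` of `U` is the image of an `S`-valuation `b`,
tamely ramified over `a`, of some `V` in the sieve. -/
def Cov (p : ℕ) {U : X.Etale} (R : Sieve U) : Prop :=
  ∀ a : Pv (sp U), IsSval (sx U ≫ f) a → ∃ (V : X.Etale) (g : V ⟶ U) (b : Pv (sp V)),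
    R g ∧ IsSval (sx V ≫ f) b ∧ b.map (mp g) = a ∧ Tame p (rf (mp g) b.pt) b.v

/-- The tame topology: generated by the tame covering sieves (in fact its covering sieves are
exactly the tame covering sieves). -/
def tame (p : ℕ) : GrothendieckTopology X.Etale :=
  sInf {J | ∀ (U : X.Etale) (R : Sieve U), Cov f p R → R ∈ J U}

end site

/-! ## 2. The comparison with the definitions used in the proof -/

theorem cov_iff {X S : Scheme.{u}} (f : X ⟶ S) (p : ℕ) {U : X.Etale} (R : Sieve U) :
    Cov f p R ↔ TPU.Cov f p R := by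
  constructor
  · rintro h ⟨x, v, e⟩
    obtain ⟨V, g, ⟨y, w⟩, hR, hb, hm, ht⟩ := h ⟨x, v⟩ e
    obtain ⟨h1, h2⟩ := (Pv.mk.injEq _ _ _ _).mp hm
    subst h1
    obtain rfl := eq_of_heq h2
    refine ⟨V, g, ⟨y, w, hb⟩, hR, rfl, rfl, ?_⟩
    exact ht
  · rintro h ⟨x, v⟩ e
    obtain ⟨V, g, ⟨y, w, hb⟩, hR, h1, h2⟩ := h ⟨x, v, e⟩
    dsimp only at h1
    subst h1
    obtain ⟨h2, h3⟩ := h2
    refine ⟨V, g, ⟨y, w⟩, hR, hb, ?_, h3⟩
    have : w.comap (rf g.left y) = v := h2
    exact congrArg (fun v' => (⟨g.left y, v'⟩ : Pv (sp U))) this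

theorem tame_eq {X S : Scheme.{u}} (f : X ⟶ S) (p : ℕ) : tame f p = TPU.tame f p := by
  unfold tame TPU.tame
  congr 1
  ext J
  simp only [Set.mem_ofPred_eq, cov_iff]

end TPQ
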