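import Pool.Agent.TPU.Pub

/-!
# TPU: the definitions used in the statements of the results (sheaves)
-/

set_option autoImplicit false

universe u

open CategoryTheory Limits AlgebraicGeometry Opposite TPU

namespace TPQ

section ker

universe v w

variable {D : Type w} [Category.{v} D] [HasZeroMorphisms D] [HasKernels D] {T : D ⥤ D}
  (η : 𝟭 D ⟶ T)

/-- the functor `F ↦ ker (F ⟶ T F)` -/
noncomputable def kerF : D ⥤ D where
  obj F := kernel (η.app F)
  map φ := kernel.map _ _ φ (T.map φ) (η.naturality φ).symm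
  map_id F := by
    rw [← cancel_mono (kernel.ι _)]
    simp
  map_comp φ ψ := by
    rw [← cancel_mono (kernel.ι _)]
    simp

end ker

/-! ## 1. Sheaves of `ℤ/p^r`-modules on `X.Etale` and their sections with support -/

section coh

variable {X : Scheme.{u}} (J : GrothendieckTopology X.Etale) (p r : ℕ)

/-- the category of modules over `ℤ/p^r` -/
abbrev Md : Type _ := ModuleCat.{u + 1} (Rg.{u} p r)

/-- the category of sheaves of `ℤ/p^r`-modules for the topology `J` on the étale `X`-schemes -/
abbrev Shv : Type _ := Sheaf J (Md.{u} p r)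

noncomputable instance instAbShv : Abelian (Shv J p r) := by
  have : EssentiallySmall.{u + 1} X.Etale := inferInstance
  infer_instance

instance instGrShv : IsGrothendieckAbelian.{u + 1} (Shv J p r) := by
  have : EssentiallySmall.{u + 1} X.Etale := inferInstance
  exact Sheaf.isGrothendieckAbelian_of_essentiallySmall J (ModuleCat.{u + 1} (Rg.{u} p r))

instance instInjShv : HasInjectiveResolutions (Shv J p r) := inferInstance

/-- `j_* j^* F`, for the object `U` with `j : U ⟶ X`: the sheaf `W ↦ F(U × W)`. -/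
noncomputable def TU (U : X.Etale) : Shv J p r ⥤ Shv J p r := T J U (Md.{u} p r)

/-- the restriction `F ⟶ j_* j^* F` -/
noncomputable def etaU (U : X.Etale) (F : Shv J p r) : F ⟶ (TU J p r U).obj F :=
  (eta J U (Md.{u} p r)).app F

/-- The functor `i_* i^!` of the sections with support in the complement of `U`:
`F ↦ ker (F ⟶ j_* j^* F)`. -/
noncomputable def HU (U : X.Etale) : Shv J p r ⥤ Shv J p r := kerF (eta J U (Md.{u} p r))

instance instAddHZ (U : X.Etale) : (HZ J U (Md.{u} p r)).Additive where
  map_add {F G φ ψ} := by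
    rw [← cancel_mono ((iZ J U _).app G), Preadditive.add_comp, NatTrans.naturality,
      NatTrans.naturality, NatTrans.naturality]
    exact Preadditive.comp_add _ _ _ _ _ _

instance instAddHU (U : X.Etale) : (HU J p r U).Additive := instAddHZ J p r U

/-- the right derived functors of `i_* i^!` -/
noncomputable def RHU (U : X.Etale) (q : ℕ) : Shv J p r ⥤ Shv J p r :=
  (HU J p r U).rightDerived q

end coh

/-! ## 2. The sheaves -/

theorem Rg_int (p r : ℕ) (c : Rg.{u} p r) : ∃ n : ℤ, (n : Rg.{u} p r) = c := by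
  obtain ⟨c⟩ := c
  obtain ⟨n, rfl⟩ : ∃ n : ℤ, (n : ZMod (p ^ r)) = c := ZMod.intCast_surjective c
  exact ⟨n, rfl⟩

/-- additive maps are linear over a ring which is a quotient of the integers -/
def linU {R M N : Type*} [Ring R] (hR : ∀ c : R, ∃ n : ℤ, (n : R) = c) [AddCommGroup M]
    [AddCommGroup N] [Module R M] [Module R N] (g : M →+ N) : M →ₗ[R] N where
  __ := g
  map_smul' c x := by
    obtain ⟨n, rfl⟩ := hR c
    show g ((n : R) • x) = (n : R) • g x
    rw [Int.cast_smul_eq_zsmul, Int.cast_smul_eq_zsmul, map_zsmul]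

/-- the group of the locally constant functions with values in `ℤ/p^r` -/
abbrev LCo (p r : ℕ) (Y : Type u) [TopologicalSpace Y] : Type (u + 1) :=
  ULift.{u + 1} (LocallyConstant Y (ZMod (p ^ r)))

/-- composition with a continuous map -/
def LCm (p r : ℕ) {Y Y' : Type u} [TopologicalSpace Y] [TopologicalSpace Y'] (g : C(Y, Y')) :
    LCo p r Y' →+ LCo p r Y where
  toFun a := ⟨a.down.comap g⟩
  map_zero' := rfl
  map_add' _ _ := rfl

/-- locally constant functions with values in `ℤ/p^r`, as a functor on topological spaces -/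
def LC (p r : ℕ) : TopCat.{u}ᵒᵖ ⥤ Md.{u} p r where
  obj Y := ModuleCat.of _ (LCo p r Y.unop)
  map {Y Y'} g := ModuleCat.ofHom
    (linU (M := LCo p r Y.unop) (N := LCo p r Y'.unop) (Rg_int p r) (LCm p r g.unop.hom))
  map_id _ := rfl
  map_comp _ _ := rfl

/-- the underlying space of an étale `X`-scheme -/
noncomputable abbrev spF (X : Scheme.{u}) : X.Etale ⥤ TopCat.{u} :=
  Scheme.Etale.forget X ⋙ Over.forget X ⋙ Scheme.forgetToTop

/-- `W ↦ ℤ/p^r`-valued locally constant functions on `W` -/
noncomputable def LamQ (X : Scheme.{u}) (p r : ℕ) : X.Etaleᵒᵖ ⥤ Md.{u} p r :=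
  (spF X).op ⋙ LC p r

/-- the preimage of the subset `Z` of the space `B` in a space over `B` -/
abbrev preO {B : TopCat.{u}} (Z : Set B) (E : Over B) : Type u := {e : E.left // E.hom e ∈ Z}

theorem preO_mem {B : TopCat.{u}} {Z : Set B} {E E' : Over B} (g : E ⟶ E') (e : preO Z E) :
    E'.hom (g.left e.1) ∈ Z := by
  have h : g.left ≫ E'.hom = E.hom := Over.w g
  have h' : (g.left ≫ E'.hom) e.1 ∈ Z := by
    rw [h]
    exact e.2
  exact h'

/-- the map between the preimages of `Z` -/
def preM {B : TopCat.{u}} (Z : Set B) {E E' : Over B} (g : E ⟶ E') : C(preO Z E, preO Z E') where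
  toFun e := ⟨g.left e.1, preO_mem g e⟩
  continuous_toFun := by fun_prop

/-- the preimage of the subset `Z` of the space `B`, as a functor on the spaces over `B` -/
def preF {B : TopCat.{u}} (Z : Set B) : Over B ⥤ TopCat.{u} where
  obj E := TopCat.of (preO Z E)
  map g := TopCat.ofHom (preM Z g)
  map_id W := by
    ext a
    rfl
  map_comp g h := by
    ext a
    rfl

/-- the topological space of `X` -/
def tp (X : Scheme.{u}) : TopCat.{u} := Scheme.forgetToTop.obj X

/-- `W ↦ ℤ/p^r`-valued locally constant functions on the preimage of `Z` in `W` -/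
noncomputable def ZQ {X : Scheme.{u}} (Z : Set (tp X)) (p r : ℕ) : X.Etaleᵒᵖ ⥤ Md.{u} p r :=
  (Scheme.Etale.forget X ⋙ Over.post Scheme.forgetToTop ⋙ preF Z).op ⋙ LC p r

/-- the group `A^*/p^r` in the universe of the coefficients -/
abbrev UL (p r : ℕ) (A : Type u) [CommRing A] : Type (u + 1) := ULift.{u + 1} (Um p r A)

/-- functoriality of `A^*/p^r` -/
noncomputable def ULm (p r : ℕ) {A B : Type u} [CommRing A] [CommRing B] (φ : A →+* B) :
    UL p r A →+ UL p r B :=
  AddEquiv.ulift.symm.toAddMonoidHom.comp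
    ((Um.map p r φ).toAddMonoidHom.comp AddEquiv.ulift.toAddMonoidHom)

theorem ULm_id (p r : ℕ) (A : Type u) [CommRing A] : ULm p r (RingHom.id A) = AddMonoidHom.id _ := by
  ext a
  obtain ⟨a⟩ := a
  induction a using QuotientAddGroup.induction_on with
  | H a =>
    show cl p r _ = cl p r _
    congr 1

theorem ULm_comp (p r : ℕ) {A B C : Type u} [CommRing A] [CommRing B] [CommRing C] (φ : A →+* B)
    (ψ : B →+* C) : ULm p r (ψ.comp φ) = (ULm p r ψ).comp (ULm p r φ) := by
  ext a
  obtain ⟨a⟩ := a
  induction a using QuotientAddGroup.induction_on with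
  | H a =>
    show cl p r _ = cl p r _
    congr 1

/-- the functor `A ↦ A^*/p^r` -/
noncomputable def UmF (p r : ℕ) : CommRingCat.{u} ⥤ Md.{u} p r where
  obj A := ModuleCat.of _ (UL p r A)
  map {A B} g := ModuleCat.ofHom
    (linU (M := UL p r A) (N := UL p r B) (Rg_int p r) (ULm p r g.hom))
  map_id A := by
    ext a
    exact congrArg ULift.down (DFunLike.congr_fun (ULm_id p r A) a)
  map_comp g h := by
    ext a
    exact congrArg ULift.down (DFunLike.congr_fun (ULm_comp p r g.hom h.hom) a)

/-- the étale sheaf `G_m/p^r`: the sheaf associated with `W ↦ Γ(W, O_W)^*/p^r` -/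
noncomputable def GmQ (p r : ℕ) (X : Scheme.{u}) : Shv X.smallEtaleTopology p r :=
  (presheafToSheaf X.smallEtaleTopology (Md.{u} p r)).obj
    ((Scheme.Etale.forget X ⋙ Over.forget X).op ⋙ Scheme.Γ ⋙ UmF p r)

/-! ## 3. Comparison -/

theorem LamQ_eq (X : Scheme.{u}) (p r : ℕ) : LamQ X p r = LamP X p r := rfl

theorem ZQ_eq {X : Scheme.{u}} (Z : Set X) (p r : ℕ) : ZQ (X := X) Z p r = ZP Z p r := rfl

theorem GmQ_eq (p r : ℕ) (X : Scheme.{u}) : GmQ p r X = GmS p r X := rfl

theorem RHU_eq {X S : Scheme.{u}} (f : X ⟶ S) (p r : ℕ) (U : X.Etale) (q : ℕ) :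
    RHU (TPU.tame f p) p r U q = (HZ (TPU.tame f p) U _).rightDerived q := rfl

end TPQ
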