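import Pool.Agent.TPU.Pub2
import Pool.Agent.TPU.All

/-!
# TPU: the sheaves and functors on the tame site, and transport of the theorems
-/

set_option autoImplicit false

universe u

open CategoryTheory Limits AlgebraicGeometry Opposite

namespace TPQ

section

variable {X S : Scheme.{u}} (f : X ⟶ S) (p r : ℕ)

theorem Lam_sheaf : Presheaf.IsSheaf (tame f p) (LamQ X p r) := by
  rw [tame_eq]
  exact TPU.all_LamS p r X S f

theorem Gm_sheaf : Presheaf.IsSheaf (tame f p) (GmQ p r X).obj := by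
  rw [tame_eq]
  exact Presheaf.IsSheaf.of_le (TPU.all_Sur p X S f) (GmQ p r X).property

theorem Z_sheaf (Z : Set X) : Presheaf.IsSheaf (tame f p) (ZQ (X := X) Z p r) := by
  rw [tame_eq]
  exact TPU.all_ZPS p r X S f Z

/-- the category of sheaves of `ℤ/p^r`-modules on the tame site `(X/S)_t` -/
abbrev TSh : Type _ := Shv (tame f p) p r

/-- `ℤ/p^r` on the tame site (`n = 0`) -/
noncomputable def LamSh : TSh f p r := ⟨LamQ X p r, Lam_sheaf f p r⟩

/-- `G_m/p^r` on the tame site: the restriction of the étale sheaf (`n = 1`) -/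
noncomputable def GmSh : TSh f p r := ⟨(GmQ p r X).obj, Gm_sheaf f p r⟩

/-- `ℤ/p^r` on `Z`, as a sheaf on the tame site of `X` -/
noncomputable def ZSh (Z : Set X) : TSh f p r := ⟨ZQ (X := X) Z p r, Z_sheaf f p r Z⟩

variable {Z : Set X} (hZ : IsClosed Z)

/-- the morphism `F ⟶ j_* j^* F`, for the open complement `j` of `Z` -/
noncomputable def etaT (F : TSh f p r) : F ⟶ (TU (tame f p) p r (TPU.Uo hZ)).obj F :=
  etaU (tame f p) p r (TPU.Uo hZ) F

/-- the functor `i_* i^!` of the sections with support in `Z`: the kernel of `F ⟶ j_* j^* F` -/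
noncomputable def HT : TSh f p r ⥤ TSh f p r := HU (tame f p) p r (TPU.Uo hZ)

/-- the right derived functors of `i_* i^!` -/
noncomputable def RHT (q : ℕ) : TSh f p r ⥤ TSh f p r := RHU (tame f p) p r (TPU.Uo hZ) q

end

section

variable (p r : ℕ) [Fact p.Prime] (X S : Scheme.{u}) (f : X ⟶ S) [IsLocallyNoetherian X]
  (hS : (p : Γ(S, ⊤)) = 0) (Z : Set X) (hZ : IsClosed Z)
  (hD : ∀ z ∈ Z, TPU.IsDvr (X.presheaf.stalk z))

include hS hD

include r hZ in
theorem pub_cov (U : X.Etale) (R : Sieve U) : R ∈ tame f p U ↔ Cov f p R := by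
  rw [tame_eq, cov_iff]
  exact (TPU.all_Fin.{u} p r X S f hS Z hZ hD).1 U R

theorem pub_zero (J : GrothendieckTopology X.Etale) (hJ : J = TPU.tame f p)
    (h : Presheaf.IsSheaf J (LamQ X p r)) (q : ℕ) :
    IsZero ((RHU J p r (TPU.Uo hZ) q).obj ⟨LamQ X p r, h⟩) := by
  subst hJ
  obtain ⟨-, -, -, -, h', H⟩ := TPU.all_Fin.{u} p r X S f hS Z hZ hD
  exact H q

theorem pub_one (J : GrothendieckTopology X.Etale) (hJ : J = TPU.tame f p)
    (h : Presheaf.IsSheaf J (GmQ p r X).obj) (h' : Presheaf.IsSheaf J (ZQ (X := X) Z p r)) :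
      IsZero ((RHU J p r (TPU.Uo hZ) 0).obj ⟨(GmQ p r X).obj, h⟩) ∧
      Nonempty ((RHU J p r (TPU.Uo hZ) 1).obj ⟨(GmQ p r X).obj, h⟩ ≅ ⟨ZQ (X := X) Z p r, h'⟩) ∧
      ∀ q : ℕ, IsZero ((RHU J p r (TPU.Uo hZ) (q + 2)).obj ⟨(GmQ p r X).obj, h⟩) := by
  subst hJ
  obtain ⟨g, g', H⟩ := TPU.all_Fin1.{u} p r X S f hS Z hZ hD
  exact H

theorem pub_all (J : GrothendieckTopology X.Etale) (hJ : J = TPU.tame f p)
    (F : Shv J p r) :
    Nonempty ((RHU J p r (TPU.Uo hZ) 0).obj F ≅ (HU J p r (TPU.Uo hZ)).obj F) ∧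
    Nonempty ((RHU J p r (TPU.Uo hZ) 1).obj F ≅ cokernel (etaU J p r (TPU.Uo hZ) F)) ∧
    ∀ q : ℕ, IsZero ((RHU J p r (TPU.Uo hZ) (q + 2)).obj F) := by
  subst hJ
  obtain ⟨-, h2, h3, h4, -⟩ := TPU.all_Fin.{u} p r X S f hS Z hZ hD
  exact ⟨h3 F, h4 F, fun q => h2 F q⟩

end

end TPQ
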