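import Pool.Agent.TPU.St2

/-!
# TPU: torsors of order prime to `p` are torsors on the tame site
-/

set_option autoImplicit false

universe u

open CategoryTheory Limits AlgebraicGeometry Opposite

namespace TPU

private theorem TorC_isPullback {X : Scheme.{u}} {V U U' : X.Etale} (g : V ⟶ U) (h : U' ⟶ U) :
    IsPullback (pullback.fst g h).left (pullback.snd g h).left g.left h.left := by
  have h1 := (IsPullback.of_hasPullback g h).map (Scheme.Etale.forget X ⋙ Over.forget X)
  exact h1

private theorem TorC_diag {X : Scheme.{u}} {E V : X.Etale} (π : E ⟶ V) :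
    IsOpenImmersion (pullback.diagonal π).left := by
  have hP := TorC_isPullback π π
  have e1 : (pullback.diagonal π).left ≫ (pullback.fst π π).left = 𝟙 E.left := by
    have := congrArg (fun k => k.left) (pullback.diagonal_fst π)
    exact this
  have e2 : (pullback.diagonal π).left ≫ (pullback.snd π π).left = 𝟙 E.left := by
    have := congrArg (fun k => k.left) (pullback.diagonal_snd π)
    exact this
  have e3 : (pullback.diagonal π).left = pullback.diagonal π.left ≫ hP.isoPullback.inv := by
    rw [← cancel_mono hP.isoPullback.hom, Category.assoc, Iso.inv_hom_id, Category.comp_id]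
    refine pullback.hom_ext ?_ ?_
    · rw [Category.assoc, hP.isoPullback_hom_fst, e1, pullback.diagonal_fst]
    · rw [Category.assoc, hP.isoPullback_hom_snd, e2, pullback.diagonal_snd]
  rw [e3]
  infer_instance

theorem thm_TorC (h1 : St_Kf.{u}) (h2 : St_Top.{u}) (h3 : St_Zar.{u}) : TPU.St_TorC.{u} := by
  classical
  obtain ⟨-, kle, -, kfix, ket⟩ := h1
  intro p hp X S f E V π Δ _ _ act hcard hov hGT
  refine ⟨hov, ?_, ?_, ?_, ?_⟩
  · exact MorphismProperty.Over.Hom.ext hGT.one
  · intro δ ε
    exact MorphismProperty.Over.Hom.ext (hGT.mul δ ε)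
  · rw [(h2 p X S f V _).2]
    intro Ω _ _ a O _ _
    obtain ⟨e, he⟩ := hGT.ex Ω a
    obtain ⟨-, t, ht⟩ := ket Ω E.left V.left e π.left
    refine ⟨E, π, e, t, ⟨E, 𝟙 E, π, Presieve.singleton_self π, Category.id_comp π⟩, he, ?_⟩
    intro σ hσ hw
    rw [he] at ht
    rw [← ht] at hw
    obtain ⟨-, n, hn⟩ := hw
    have ha := (kfix Ω V.left a (σ : Ω →+* Ω)).2 hσ
    have h4 : e ≫ π.left = (Spec.map (CommRingCat.ofHom (σ : Ω →+* Ω)) ≫ e) ≫ π.left := by
      rw [Category.assoc, he, ha]
    obtain ⟨δ, hδ, -⟩ := hGT.tr Ω _ _ h4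
    have hpow : ∀ k : ℕ, Spec.map (CommRingCat.ofHom ((σ ^ k : Ω ≃+* Ω) : Ω →+* Ω)) ≫ e =
        e ≫ (act (δ ^ k)).left := by
      intro k
      induction k with
      | zero =>
        have e1 : CommRingCat.ofHom ((σ ^ 0 : Ω ≃+* Ω) : Ω →+* Ω) = 𝟙 (CommRingCat.of Ω) := rfl
        rw [e1, Spec.map_id, Category.id_comp, pow_zero]
        have e2 : (act 1).left = 𝟙 E.left := hGT.one
        rw [e2, Category.comp_id]
      | succ k ih =>
        have e1 : CommRingCat.ofHom ((σ ^ (k + 1) : Ω ≃+* Ω) : Ω →+* Ω) =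
            CommRingCat.ofHom ((σ : Ω →+* Ω)) ≫
              CommRingCat.ofHom ((σ ^ k : Ω ≃+* Ω) : Ω →+* Ω) := by
          rw [pow_succ]
          rfl
        have e2 : (act (δ ^ (k + 1))).left = (act (δ ^ k)).left ≫ (act δ).left := by
          rw [pow_succ]
          exact hGT.mul (δ ^ k) δ
        rw [e1, Spec.map_comp, Category.assoc, hδ, ← Category.assoc, ih, e2, Category.assoc]
    have hfix : Spec.map (CommRingCat.ofHom ((σ ^ p ^ n : Ω ≃+* Ω) : Ω →+* Ω)) ≫ e = e :=
      (kfix Ω E.left e ((σ ^ p ^ n : Ω ≃+* Ω) : Ω →+* Ω)).2 hn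
    have h5 : δ ^ p ^ n = 1 := by
      obtain ⟨δ', -, hu⟩ := hGT.tr Ω e e rfl
      have e1 : δ ^ p ^ n = δ' := hu _ (by
        show e = e ≫ (act (δ ^ p ^ n)).left
        rw [← hpow, hfix])
      have e2 : 1 = δ' := hu _ (by
        show e = e ≫ (act 1).left
        have e3 : (act 1).left = 𝟙 E.left := hGT.one
        rw [e3, Category.comp_id])
      rw [e1, e2]
    have h6 : δ = 1 := by
      rw [← orderOf_eq_one_iff]
      have h7 : orderOf δ ∣ p ^ n := orderOf_dvd_of_pow_eq_one h5
      have h8 : orderOf δ ∣ Nat.card Δ := orderOf_dvd_natCard δ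
      have h9 : Nat.Coprime (p ^ n) (Nat.card Δ) :=
        Nat.Coprime.pow_left n ((Nat.Prime.coprime_iff_not_dvd hp.out).2 hcard)
      exact Nat.eq_one_of_dvd_coprimes h9 h7 h8
    refine (kfix Ω E.left e (σ : Ω →+* Ω)).1 ?_
    rw [hδ, h6]
    have e3 : (act 1).left = 𝟙 E.left := hGT.one
    rw [e3, Category.comp_id]
  · intro Y s t hst
    have hw : ∀ δ, t ≫ π = (s ≫ act δ) ≫ π := by
      intro δ
      rw [Category.assoc, hov, hst]
    let m : Δ → (Y ⟶ pullback π π) := fun δ => pullback.lift t (s ≫ act δ) (hw δ)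
    let k : ∀ δ, pullback (m δ) (pullback.diagonal π) ⟶ Y := fun δ =>
      pullback.fst (m δ) (pullback.diagonal π)
    have hP : ∀ δ, IsPullback (k δ).left (pullback.snd (m δ) (pullback.diagonal π)).left
        (m δ).left (pullback.diagonal π).left := fun δ => TorC_isPullback _ _
    have hopen : ∀ δ, IsOpenImmersion (k δ).left := by
      intro δ
      have := TorC_diag π
      exact MorphismProperty.of_isPullback (P := @IsOpenImmersion) (hP δ).flip this
    refine ⟨Sieve.ofArrows _ k, ?_, ?_⟩
    · apply h3 p X S f Y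
      intro x
      obtain ⟨Ω, hΩ1, hΩ2, y, h8⟩ : ∃ (Ω : Type u) (_ : Field Ω) (_ : IsSepClosed Ω)
          (y : Spec (.of Ω) ⟶ Y.left), x = y default := by
        refine ⟨AlgebraicClosure (Y.left.residueField x), inferInstance, inferInstance,
          Spec.map (CommRingCat.ofHom (algebraMap (Y.left.residueField x)
            (AlgebraicClosure (Y.left.residueField x)))) ≫ Y.left.fromSpecResidueField x, ?_⟩
        show x = (Y.left.fromSpecResidueField x) _
        rw [Scheme.fromSpecResidueField_apply]
      have h4 : (y ≫ s.left) ≫ π.left = (y ≫ t.left) ≫ π.left := by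
        have h5 : s.left ≫ π.left = t.left ≫ π.left := congrArg (fun k => k.left) hst
        rw [Category.assoc, Category.assoc, h5]
      obtain ⟨δ, hδ, -⟩ := hGT.tr Ω _ _ h4
      refine ⟨_, k δ, Sieve.ofArrows_mk _ _ δ, hopen δ, ?_⟩
      have hPP := TorC_isPullback π π
      have h6 : y ≫ (m δ).left = (y ≫ t.left) ≫ (pullback.diagonal π).left := by
        apply hPP.hom_ext
        · have e1 : (m δ).left ≫ (pullback.fst π π).left = t.left :=
            congrArg (fun k => k.left) (pullback.lift_fst t (s ≫ act δ) (hw δ))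
          have e2 : (pullback.diagonal π).left ≫ (pullback.fst π π).left = 𝟙 E.left :=
            congrArg (fun k => k.left) (pullback.diagonal_fst π)
          rw [Category.assoc, Category.assoc, e1, e2, Category.comp_id]
        · have e1 : (m δ).left ≫ (pullback.snd π π).left = s.left ≫ (act δ).left :=
            congrArg (fun k => k.left) (pullback.lift_snd t (s ≫ act δ) (hw δ))
          have e2 : (pullback.diagonal π).left ≫ (pullback.snd π π).left = 𝟙 E.left :=
            congrArg (fun k => k.left) (pullback.diagonal_snd π)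
          rw [Category.assoc, Category.assoc, e1, e2, Category.comp_id, hδ, Category.assoc]
      have h7 := (hP δ).lift_fst y (y ≫ t.left) h6
      rw [h8, ← h7]
      exact ⟨_, rfl⟩
    · intro Y' k' hk'
      rw [Sieve.mem_ofArrows_iff] at hk'
      obtain ⟨δ, l, hl⟩ := hk'
      refine ⟨δ, ?_⟩
      have h4 : k δ ≫ t = k δ ≫ s ≫ act δ := by
        have h5 : k δ ≫ m δ = pullback.snd (m δ) (pullback.diagonal π) ≫ pullback.diagonal π :=
          pullback.condition
        have h6 : m δ ≫ pullback.fst π π = t := pullback.lift_fst _ _ _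
        have h7 : m δ ≫ pullback.snd π π = s ≫ act δ := pullback.lift_snd _ _ _
        rw [← h7, ← Category.assoc, h5, Category.assoc, pullback.diagonal_snd]
        nth_rewrite 1 [← h6]
        rw [← Category.assoc, h5, Category.assoc, pullback.diagonal_fst]
      rw [hl, Category.assoc, h4, Category.assoc]

end TPU
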